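import Mathlib

/-!
# The operator `∑ a(n) xⁿ ↦ ∑ a(2n) xⁿ` and Chebyshev polynomials

With `t = (1 + x)/(1 - x)` one has `U(t^b) = T_b(t)`, `U(y t^b) = 2 y U_b(t)` for
`y = x/(1-x)²`, and `U(x t^b) = (t - 1) U_{b-1}(t)`.
-/

set_option autoImplicit false

open Polynomial

namespace Pool.Agent.R226.BP

abbrev P : Type := PowerSeries ℤ

/-- dilation `f(x) ↦ f(x²)` -/
noncomputable def e : P →ₐ[ℤ] P := PowerSeries.expand 2 two_ne_zero

lemma coeff_e (f : P) (n : ℕ) :
    PowerSeries.coeff n (e f) = if 2 ∣ n then PowerSeries.coeff (n / 2) f else 0 :=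
  PowerSeries.coeff_expand 2 two_ne_zero f

/-- the operator `∑ a(n) xⁿ ↦ ∑ a(2n) xⁿ` -/
noncomputable def Us : P →ₗ[ℤ] P where
  toFun f := PowerSeries.mk fun n => PowerSeries.coeff (2 * n) f
  map_add' f g := by ext n; simp
  map_smul' c f := by
    ext n
    rw [PowerSeries.coeff_mk, map_smul, RingHom.id_apply, map_smul, PowerSeries.coeff_mk]

lemma coeff_Us (f : P) (n : ℕ) :
    PowerSeries.coeff n (Us f) = PowerSeries.coeff (2 * n) f := by
  simp [Us]

lemma Us_e_mul (f g : P) : Us (e f * g) = f * Us g := by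
  ext n
  rw [coeff_Us, PowerSeries.coeff_mul, PowerSeries.coeff_mul]
  have h1 : ∀ p ∈ Finset.HasAntidiagonal.antidiagonal (2 * n), p ∉ (Finset.HasAntidiagonal.antidiagonal n).image
      (fun q : ℕ × ℕ => (2 * q.1, 2 * q.2)) →
      PowerSeries.coeff p.1 (e f) * PowerSeries.coeff p.2 g = 0 := by
    intro p hp hp'
    rw [Finset.HasAntidiagonal.mem_antidiagonal] at hp
    rw [coeff_e]
    split_ifs with h
    · exfalso
      apply hp'
      rw [Finset.mem_image]
      refine ⟨(p.1 / 2, p.2 / 2), ?_, ?_⟩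
      · rw [Finset.HasAntidiagonal.mem_antidiagonal]; simp only; omega
      · ext <;> simp only <;> omega
    · rw [zero_mul]
  rw [← Finset.sum_subset (s₁ := (Finset.HasAntidiagonal.antidiagonal n).image
    (fun q : ℕ × ℕ => (2 * q.1, 2 * q.2))) ?_ h1]
  · rw [Finset.sum_image]
    · refine Finset.sum_congr rfl fun q _ => ?_
      rw [coeff_e, if_pos ⟨q.1, rfl⟩, coeff_Us, Nat.mul_div_cancel_left _ (by norm_num)]
    · intro q _ q' _ h
      simp only [Prod.mk.injEq] at h
      ext <;> omega
  · intro p hp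
    rw [Finset.mem_image] at hp
    obtain ⟨q, hq, rfl⟩ := hp
    rw [Finset.HasAntidiagonal.mem_antidiagonal] at hq ⊢
    simp only; omega

/-- `z = 1/(1-x)` -/
noncomputable def z : P := PowerSeries.mk fun _ => 1

/-- `1/(1+x)` -/
noncomputable def zb : P := PowerSeries.mk fun n => (-1) ^ n

lemma z_rel : (1 - PowerSeries.X) * z = 1 := by
  ext n
  rw [sub_mul, one_mul, map_sub]
  cases n with
  | zero => simp [z]
  | succ n => rw [PowerSeries.coeff_succ_X_mul]; simp [z, PowerSeries.coeff_one]

lemma zb_rel : (1 + PowerSeries.X) * zb = 1 := by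
  ext n
  rw [add_mul, one_mul, map_add]
  cases n with
  | zero => simp [zb]
  | succ n => rw [PowerSeries.coeff_succ_X_mul]; simp [zb, PowerSeries.coeff_one, pow_succ]

/-- `t = (1+x)/(1-x)` -/
noncomputable def t : P := (1 + PowerSeries.X) * z

/-- `y = x/(1-x)²` -/
noncomputable def y : P := PowerSeries.X * z ^ 2

lemma t_eq : t = 2 * z - 1 := by
  have := z_rel
  unfold t
  linear_combination -this

lemma X_z : PowerSeries.X * z = z - 1 := by
  have := z_rel
  linear_combination -this

lemma y_eq : y = z ^ 2 - z := by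
  unfold y
  linear_combination z * X_z

lemma four_y : t ^ 2 - 1 = 4 * y := by
  rw [t_eq, y_eq]; ring

/-- `t` as a unit -/
noncomputable def tu : Pˣ where
  val := t
  inv := (1 - PowerSeries.X) * zb
  val_inv := by
    unfold t
    linear_combination (1 + PowerSeries.X) * zb * z_rel + zb_rel
  inv_val := by
    unfold t
    linear_combination (1 + PowerSeries.X) * zb * z_rel + zb_rel

lemma tu_val : (tu : P) = t := rfl

/-- integer powers of `t` -/
noncomputable def tp (b : ℤ) : P := ((tu ^ b : Pˣ) : P)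

lemma tp_zero : tp 0 = 1 := by simp [tp]
lemma tp_one : tp 1 = t := by simp [tp, tu_val]
lemma tp_add (a b : ℤ) : tp (a + b) = tp a * tp b := by simp [tp, zpow_add]
lemma tp_nat (n : ℕ) : tp n = t ^ n := by simp [tp, tu_val]
lemma tp_neg_one : tp (-1) = (1 - PowerSeries.X) * zb := by
  simp [tp, tu]

lemma e_X : e PowerSeries.X = PowerSeries.X ^ 2 := PowerSeries.expand_X 2 two_ne_zero

lemma e_z : e z = z * zb := by
  have h1 : (1 - PowerSeries.X ^ 2) * e z = 1 := by
    have := congrArg e z_rel
    rw [map_mul, map_sub, map_one, e_X] at this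
    exact this
  have h2 : (1 - PowerSeries.X ^ 2 : P) * (z * zb) = 1 := by
    linear_combination (1 + PowerSeries.X) * zb * z_rel + zb_rel
  linear_combination z * zb * h1 - e z * h2

lemma z_sq : z ^ 2 = e z * t := by
  rw [e_z]
  unfold t
  linear_combination -z ^ 2 * zb_rel

lemma two_e_t : t + tp (-1) = 2 * e t := by
  have h1 : e t = 2 * e z - 1 := by rw [t_eq, map_sub, map_mul, map_one, map_ofNat]
  have h2 : z + zb = 2 * (z * zb) := by linear_combination -z * zb_rel - zb * z_rel
  have h3 : tp (-1) = 2 * zb - 1 := by rw [tp_neg_one]; linear_combination -zb_rel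
  rw [h1, e_z, h3, t_eq]
  linear_combination 2 * h2

lemma tp_rec (w : P) (b : ℤ) :
    Us (w * tp (b + 2)) = 2 * t * Us (w * tp (b + 1)) - Us (w * tp b) := by
  have h1 : w * tp (b + 2) = 2 * (e t * (w * tp (b + 1))) - w * tp b := by
    have e1 : tp (b + 2) = tp b * t * t := by
      rw [tp_add, show (2 : ℤ) = 1 + 1 by norm_num, tp_add, tp_one]; ring
    have e2 : tp (b + 1) = tp b * t := by rw [tp_add, tp_one]
    have e3 : t * tp (-1) = 1 := by rw [← tp_one, ← tp_add]; simp [tp_zero]
    rw [e1, e2]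
    linear_combination (w * tp b * t) * two_e_t - w * tp b * e3
  rw [h1, map_sub, two_mul, map_add, Us_e_mul]
  ring

lemma tp_rec' (w : P) (b : ℤ) :
    Us (w * tp b) = 2 * t * Us (w * tp (b + 1)) - Us (w * tp (b + 2)) := by
  rw [tp_rec]; ring

lemma Us_one : Us 1 = 1 := by
  ext n
  rw [coeff_Us, PowerSeries.coeff_one, PowerSeries.coeff_one]
  congr 1
  simp

lemma coeff_z (n : ℕ) : PowerSeries.coeff n z = 1 := by simp [z]

lemma Us_z : Us z = z := by
  ext n
  rw [coeff_Us, coeff_z, coeff_z]

lemma Us_t : Us t = t := by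
  rw [t_eq, map_sub, two_mul, map_add, Us_z, Us_one]

lemma Us_X : Us PowerSeries.X = 0 := by
  ext n
  rw [coeff_Us, PowerSeries.coeff_X, if_neg (by omega)]
  simp

lemma coeff_y (n : ℕ) : PowerSeries.coeff n y = n := by
  unfold y
  cases n with
  | zero => simp
  | succ n =>
    rw [PowerSeries.coeff_succ_X_mul, sq, PowerSeries.coeff_mul]
    simp [coeff_z]

lemma Us_y : Us y = 2 * y := by
  ext n
  rw [coeff_Us, coeff_y, show (2 : P) * y = y + y by ring, map_add, coeff_y]
  push_cast; ring

lemma Us_y_neg : Us (y * tp (-1)) = 0 := by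
  have h : y * tp (-1) = PowerSeries.X * e z := by
    rw [e_z, tp_neg_one]
    unfold y
    linear_combination PowerSeries.X * z * zb * z_rel
  rw [h]
  ext n
  rw [coeff_Us]
  cases n with
  | zero => simp
  | succ n =>
    rw [show 2 * (n + 1) = (2 * n + 1) + 1 by ring, PowerSeries.coeff_succ_X_mul, coeff_e,
      if_neg (by omega)]
    simp

theorem Us_tp (b : ℤ) : Us (tp b) = aeval t (Chebyshev.T ℤ b) := by
  have key : ∀ b, Us (1 * tp b) = aeval t (Chebyshev.T ℤ b) := by
    intro b
    induction b using Chebyshev.induct with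
    | zero => rw [tp_zero, mul_one, Us_one]; simp
    | one => rw [tp_one, one_mul, Us_t]; simp
    | add_two n h1 h2 =>
      rw [tp_rec, h1, h2, Chebyshev.T_add_two]
      simp only [map_sub, map_mul, map_ofNat, aeval_X]
    | neg_add_one n h1 h2 =>
      have := tp_rec' 1 (-(n : ℤ) - 1)
      rw [show -(n : ℤ) - 1 + 1 = -n by ring, show -(n : ℤ) - 1 + 2 = -n + 1 by ring, h1, h2] at this
      rw [this, Chebyshev.T_sub_one]
      simp only [map_sub, map_mul, map_ofNat, aeval_X]
  simpa using key b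

theorem Us_y_tp (b : ℤ) : Us (y * tp b) = 2 * (y * aeval t (Chebyshev.U ℤ b)) := by
  induction b using Chebyshev.induct with
  | zero => rw [tp_zero, mul_one, Us_y]; simp
  | one =>
    have := tp_rec y (-1)
    norm_num at this
    rw [this, Us_y_neg, tp_zero, mul_one, Us_y, Chebyshev.U_one]
    simp only [map_mul, map_ofNat, aeval_X]
    ring
  | add_two n h1 h2 =>
    rw [tp_rec, h1, h2, Chebyshev.U_add_two]
    simp only [map_sub, map_mul, map_ofNat, aeval_X]; ring
  | neg_add_one n h1 h2 =>
    have := tp_rec' y (-(n : ℤ) - 1)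
    rw [show -(n : ℤ) - 1 + 1 = -n by ring, show -(n : ℤ) - 1 + 2 = -n + 1 by ring, h1, h2] at this
    rw [this, Chebyshev.U_sub_one]
    simp only [map_sub, map_mul, map_ofNat, aeval_X]; ring

theorem Us_X_tp (b : ℤ) :
    Us (PowerSeries.X * tp b) = (t - 1) * aeval t (Chebyshev.U ℤ (b - 1)) := by
  induction b using Chebyshev.induct with
  | zero => rw [tp_zero, mul_one, Us_X]; simp
  | one =>
    have h : PowerSeries.X * t = t - 1 - PowerSeries.X := by
      unfold t
      linear_combination (-1 - PowerSeries.X) * z_rel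
    rw [tp_one, h, map_sub, map_sub, Us_t, Us_one, Us_X]; simp
  | add_two n h1 h2 =>
    rw [tp_rec, h1, h2, show (n : ℤ) + 2 - 1 = (n - 1) + 2 by ring, Chebyshev.U_add_two,
      show (n : ℤ) - 1 + 1 = n + 1 - 1 by ring]
    simp only [map_sub, map_mul, map_ofNat, aeval_X]; ring
  | neg_add_one n h1 h2 =>
    have := tp_rec' PowerSeries.X (-(n : ℤ) - 1)
    rw [show -(n : ℤ) - 1 + 1 = -n by ring, show -(n : ℤ) - 1 + 2 = -n + 1 by ring, h1, h2] at this
    have hU := Chebyshev.U_sub_one ℤ (-(n : ℤ) - 1)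
    rw [show -(n : ℤ) - 1 + 1 = -n + 1 - 1 by ring] at hU
    rw [this, hU]
    simp only [map_sub, map_mul, map_ofNat, aeval_X]; ring

/-- general image -/
lemma Us_tp_aeval (a : ℤ) (g : ℤ[X]) : ∃ g' : ℤ[X], Us (tp a * aeval t g) = aeval t g' := by
  induction g using Polynomial.induction_on' with
  | add p q hp hq =>
    obtain ⟨p', hp'⟩ := hp
    obtain ⟨q', hq'⟩ := hq
    exact ⟨p' + q', by rw [map_add, mul_add, map_add, hp', hq', map_add]⟩
  | monomial n c =>
    refine ⟨C c * Chebyshev.T ℤ (a + n), ?_⟩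
    have h1 : tp a * aeval t (monomial n c) = c • tp (a + n) := by
      rw [aeval_monomial, zsmul_eq_mul, tp_add, tp_nat, eq_intCast]; ring
    have h2 : aeval t (C c * Chebyshev.T ℤ (a + n)) = c • aeval t (Chebyshev.T ℤ (a + n)) := by
      rw [← smul_eq_C_mul, map_smul]
    rw [h1, h2, map_smul, Us_tp]

/-- the gain lemma with the control of the values at `1` -/
lemma Us_gain (a : ℤ) (g : ℤ[X]) : ∃ g' : ℤ[X],
    Us (tp a * (y * aeval t g)) = 2 * (y * aeval t g') ∧
      g'.eval 1 = (a + 1) * g.eval 1 + (derivative g).eval 1 ∧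
      2 ∣ (derivative g').eval 1 := by
  have hU : ∀ b : ℤ, (2 : ℤ) ∣ (derivative (Chebyshev.U ℤ b)).eval 1 := by
    intro b
    induction b using Chebyshev.induct with
    | zero => simp
    | one => simp
    | add_two n h1 h2 =>
      rw [Chebyshev.U_add_two]
      simp only [derivative_sub, derivative_mul, eval_sub, eval_add, eval_mul]
      simp only [derivative_ofNat, derivative_X, eval_X, eval_ofNat, eval_zero, eval_one]
      omega
    | neg_add_one n h1 h2 =>
      rw [Chebyshev.U_sub_one]
      simp only [derivative_sub, derivative_mul, eval_sub, eval_add, eval_mul]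
      simp only [derivative_ofNat, derivative_X, eval_X, eval_ofNat, eval_zero, eval_one]
      omega
  induction g using Polynomial.induction_on' with
  | add p q hp hq =>
    obtain ⟨p', hp', hp1, hp2⟩ := hp
    obtain ⟨q', hq', hq1, hq2⟩ := hq
    refine ⟨p' + q', ?_, ?_, ?_⟩
    · rw [map_add, mul_add, mul_add, map_add, hp', hq', map_add]; ring
    · rw [eval_add, eval_add, derivative_add, eval_add, hp1, hq1]; ring
    · rw [derivative_add, eval_add]; exact dvd_add hp2 hq2
  | monomial n c =>
    refine ⟨C c * Chebyshev.U ℤ (a + n), ?_, ?_, ?_⟩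
    · have h1 : tp a * (y * aeval t (monomial n c)) = c • (y * tp (a + n)) := by
        rw [aeval_monomial, zsmul_eq_mul, tp_add, tp_nat, eq_intCast]; ring
      have h2 : aeval t (C c * Chebyshev.U ℤ (a + n)) = c • aeval t (Chebyshev.U ℤ (a + n)) := by
        rw [← smul_eq_C_mul, map_smul]
      rw [h1, h2, map_smul, Us_y_tp, mul_smul_comm, mul_smul_comm]
    · rw [eval_mul, eval_C, Chebyshev.U_eval_one, derivative_monomial, eval_monomial,
        eval_monomial]
      push_cast; ring
    · rw [derivative_mul, derivative_C, zero_mul, zero_add, eval_mul, eval_C]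
      exact Dvd.dvd.mul_left (hU _) _

end Pool.Agent.R226.BP
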