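import Pool.Agent.R226.BPA

/-!
# Coloured binary partitions: definitions and functional equations
-/

set_option autoImplicit false

open Polynomial

namespace Pool.Agent.R226.BP

/-- the geometric series `1/(1 - x^d) = ∑_k x^(d k)` -/
noncomputable def geo (d : ℕ) : PowerSeries ℤ := PowerSeries.mk fun n => if d ∣ n then 1 else 0

lemma geo_rel {d : ℕ} (hd : 0 < d) : (1 - PowerSeries.X ^ d) * geo d = 1 := by
  ext n
  rw [sub_mul, one_mul, map_sub, PowerSeries.coeff_X_pow_mul', geo, PowerSeries.coeff_mk,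
    PowerSeries.coeff_one]
  by_cases hn : n = 0
  · subst hn; simp [hd.ne']
  · rw [if_neg hn]
    split_ifs with h1 h2
    · rw [PowerSeries.coeff_mk, if_pos (Nat.dvd_sub h1 (dvd_refl d)), sub_self]
    · exact absurd (Nat.le_of_dvd (Nat.pos_of_ne_zero hn) h1) h2
    · rw [PowerSeries.coeff_mk, if_neg, sub_self]
      intro h3
      apply h1
      have := (Nat.dvd_add_right (dvd_refl d)).mpr h3
      rwa [Nat.add_sub_cancel' (by assumption)] at this
    · simp

/-- `b_m(n)`: the coefficient of `x^n` in `∏_i (1 - x^(2^i))^(-m)` (the factors with `i > n`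
do not contribute) -/
noncomputable def b (m n : ℕ) : ℤ :=
  PowerSeries.coeff n (∏ i ∈ Finset.range (n + 1), geo (2 ^ i) ^ m)

/-- `c_m(n)`: the coefficient of `x^n` in `(1 - x)^(-m) ∏_i (1 - x^(2^i))^(-m)` (the factors with
`i > n` do not contribute) -/
noncomputable def c (m n : ℕ) : ℤ :=
  PowerSeries.coeff n (geo 1 ^ m * ∏ i ∈ Finset.range (n + 1), geo (2 ^ i) ^ m)

/-- truncated products -/
noncomputable def Pk (m K : ℕ) : P := ∏ i ∈ Finset.range K, geo (2 ^ i) ^ m

lemma geo_one : geo 1 = z := by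
  ext n; simp [geo, z]

lemma e_geo (d : ℕ) : e (geo d) = geo (2 * d) := by
  ext n
  rw [coeff_e, geo, geo, PowerSeries.coeff_mk, PowerSeries.coeff_mk]
  by_cases h : 2 ∣ n
  · obtain ⟨k, rfl⟩ := h
    rw [if_pos ⟨k, rfl⟩, Nat.mul_div_cancel_left _ (by norm_num)]
    by_cases h2 : d ∣ k
    · rw [if_pos h2, if_pos (mul_dvd_mul_left 2 h2)]
    · rw [if_neg h2, if_neg]
      intro h3
      exact h2 ((mul_dvd_mul_iff_left (by norm_num : (2 : ℕ) ≠ 0)).mp h3)
  · rw [if_neg h, if_neg]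
    intro h3
    exact h ((dvd_mul_right 2 d).trans h3)

lemma Pk_succ (m K : ℕ) : Pk m (K + 1) = e (Pk m K) * z ^ m := by
  unfold Pk
  rw [Finset.prod_range_succ', map_prod, pow_zero, geo_one]
  congr 1
  refine Finset.prod_congr rfl fun i _ => ?_
  rw [map_pow, e_geo, pow_succ']

lemma Pk_coeff_succ (m K n : ℕ) (h : n < 2 ^ K) :
    PowerSeries.coeff n (Pk m (K + 1)) = PowerSeries.coeff n (Pk m K) := by
  have h1 : (PowerSeries.X : P) ^ (2 ^ K) ∣ geo (2 ^ K) ^ m - 1 := by
    refine dvd_trans ?_ (sub_one_dvd_pow_sub_one (geo (2 ^ K)) m)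
    refine ⟨geo (2 ^ K), ?_⟩
    have := geo_rel (d := 2 ^ K) (by positivity)
    linear_combination this
  obtain ⟨r, hr⟩ := h1
  have h2 : Pk m (K + 1) = Pk m K + PowerSeries.X ^ (2 ^ K) * (Pk m K * r) := by
    have : Pk m (K + 1) = Pk m K * geo (2 ^ K) ^ m := by
      unfold Pk; rw [Finset.prod_range_succ]
    rw [this]
    linear_combination Pk m K * hr
  rw [h2, map_add, PowerSeries.coeff_X_pow_mul', if_neg (by omega), add_zero]

lemma Pk_coeff_le (m : ℕ) {K K' n : ℕ} (hK : K ≤ K') (h : n < 2 ^ K) :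
    PowerSeries.coeff n (Pk m K') = PowerSeries.coeff n (Pk m K) := by
  induction K', hK using Nat.le_induction with
  | base => rfl
  | succ K' hK' ih =>
    rw [Pk_coeff_succ, ih]
    exact h.trans_le (Nat.pow_le_pow_right (by norm_num) hK')

lemma Pk_coeff (m : ℕ) {K n : ℕ} (h : n < 2 ^ K) :
    PowerSeries.coeff n (Pk m K) = b m n := by
  have h2 : n < 2 ^ (n + 1) := (Nat.lt_succ_self n).trans Nat.lt_two_pow_self
  rcases le_total K (n + 1) with h1 | h1
  · exact (Pk_coeff_le m h1 h).symm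
  · exact Pk_coeff_le m h1 h2

/-- the generating function of `b_m` -/
noncomputable def Bs (m : ℕ) : P := PowerSeries.mk (b m)

lemma Bs_eq (m : ℕ) : Bs m = e (Bs m) * z ^ m := by
  ext n
  have h2 : n < 2 ^ (n + 1 + 1) := (by omega : n < n + 1 + 1).trans Nat.lt_two_pow_self
  rw [Bs, PowerSeries.coeff_mk, ← Pk_coeff m h2, Pk_succ, PowerSeries.coeff_mul,
    PowerSeries.coeff_mul]
  refine Finset.sum_congr rfl fun p hp => ?_
  rw [Finset.HasAntidiagonal.mem_antidiagonal] at hp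
  rw [coeff_e, coeff_e]
  split_ifs with h
  · rw [PowerSeries.coeff_mk, Pk_coeff]
    have : n < 2 ^ (n + 1) := (Nat.lt_succ_self n).trans Nat.lt_two_pow_self
    omega
  · rfl

/-- the generating function of `c_m` -/
noncomputable def Cs (m : ℕ) : P := PowerSeries.mk (c m)

lemma Cs_eq' (m : ℕ) : Cs m = z ^ m * Bs m := by
  ext n
  rw [Cs, PowerSeries.coeff_mk, c, geo_one, PowerSeries.coeff_mul, PowerSeries.coeff_mul]
  refine Finset.sum_congr rfl fun p hp => ?_
  rw [Finset.HasAntidiagonal.mem_antidiagonal] at hp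
  congr 1
  rw [Bs, PowerSeries.coeff_mk, ← Pk_coeff m (K := n + 1)]
  · rfl
  · have : n < 2 ^ (n + 1) := (Nat.lt_succ_self n).trans Nat.lt_two_pow_self
    omega

lemma Cs_eq (m : ℕ) : Cs m = e (Cs m) * t ^ m := by
  rw [Cs_eq', map_mul, map_pow]
  conv_lhs => rw [Bs_eq]
  have h : (z ^ m * (z ^ m) : P) = e z ^ m * t ^ m := by
    rw [← mul_pow, ← mul_pow, ← sq, z_sq]
  linear_combination e (Bs m) * h

lemma Us_Cs (m : ℕ) (f : P) : Us (Cs m * f) = Cs m * Us (tp m * f) := by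
  conv_lhs => rw [Cs_eq, mul_assoc, Us_e_mul]
  rw [tp_nat]

lemma Us_Bs (m : ℕ) (f : P) : Us (Bs m * f) = Bs m * Us (z ^ m * f) := by
  conv_lhs => rw [Bs_eq, mul_assoc, Us_e_mul]

lemma coeff_Cs (m n : ℕ) : PowerSeries.coeff n (Cs m) = c m n := by simp [Cs]
lemma coeff_Bs (m n : ℕ) : PowerSeries.coeff n (Bs m) = b m n := by simp [Bs]

lemma t_mod (n : ℕ) : (2 : ℤ) ∣ PowerSeries.coeff n (t - 1) := by
  have : t - 1 = (z - 1) + (z - 1) := by rw [t_eq]; ring
  rw [this, map_add, ← two_mul]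
  exact dvd_mul_right _ _

/-- divisibility of all coefficients by two, as an ideal statement -/
lemma two_dvd_iff (f : P) : (2 : P) ∣ f ↔ ∀ n, (2 : ℤ) ∣ PowerSeries.coeff n f := by
  constructor
  · rintro ⟨g, rfl⟩ n
    rw [show (2 : P) * g = g + g by ring, map_add, ← two_mul]
    exact dvd_mul_right _ _
  · intro h
    choose a ha using h
    refine ⟨PowerSeries.mk a, ?_⟩
    ext n
    rw [show (2 : P) * PowerSeries.mk a = PowerSeries.mk a + PowerSeries.mk a by ring, map_add,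
      PowerSeries.coeff_mk, ha]
    ring

lemma pow_dvd_coeff (k : ℕ) {f : P} (h : (2 : P) ^ k ∣ f) (n : ℕ) :
    (2 : ℤ) ^ k ∣ PowerSeries.coeff n f := by
  obtain ⟨g, rfl⟩ := h
  have : (2 : P) ^ k * g = ((2 : ℤ) ^ k) • g := by
    rw [zsmul_eq_mul]; push_cast; rfl
  rw [this, map_smul, smul_eq_mul]
  exact dvd_mul_right _ _

lemma two_dvd_t : (2 : P) ∣ t - 1 := ⟨z - 1, by rw [t_eq]; ring⟩

lemma two_dvd_pow (m : ℕ) : (2 : P) ∣ t ^ m - 1 :=
  two_dvd_t.trans (sub_one_dvd_pow_sub_one t m)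

lemma b_zero (m : ℕ) : b m 0 = 1 := by
  unfold b
  simp [geo]

lemma c_zero (m : ℕ) : c m 0 = 1 := by
  unfold c
  simp [geo]

/-- `c_m(n)` is even for `n ≥ 1` -/
lemma two_dvd_Cs (m : ℕ) : (2 : P) ∣ Cs m - 1 := by
  rw [two_dvd_iff]
  have h1 : (2 : P) ∣ Cs m - e (Cs m) := by
    obtain ⟨r, hr⟩ := two_dvd_pow m
    refine ⟨e (Cs m) * r, ?_⟩
    have := Cs_eq m
    linear_combination this + e (Cs m) * hr
  rw [two_dvd_iff] at h1
  intro n
  induction n using Nat.strong_induction_on with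
  | _ n ih =>
    have h2 := h1 n
    rw [map_sub, coeff_e] at h2
    by_cases hn : n = 0
    · subst hn
      rw [map_sub, coeff_Cs, c_zero, PowerSeries.coeff_one, if_pos rfl, sub_self]
      exact dvd_zero _
    · rw [map_sub, PowerSeries.coeff_one, if_neg hn, sub_zero]
      split_ifs at h2 with h
      · have h3 := ih (n / 2) (by omega)
        rw [map_sub, PowerSeries.coeff_one, if_neg (by omega), sub_zero] at h3
        have := dvd_add h2 h3
        rwa [sub_add_cancel] at this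
      · rwa [sub_zero] at h2

end Pool.Agent.R226.BP
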