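import Pool.Agent.R226.BPB

/-!
# 2-adic valuation of `c_m(4n) - c_m(n)`
-/

set_option autoImplicit false

open Polynomial

namespace Pool.Agent.R226.BP

lemma UT (n m : ℤ) : 2 * Chebyshev.T ℤ n * Chebyshev.U ℤ m =
    Chebyshev.U ℤ (m + n) + Chebyshev.U ℤ (m - n) := by
  induction n using Chebyshev.induct with
  | zero => rw [Chebyshev.T_zero, add_zero, sub_zero]; ring
  | one =>
    have := Chebyshev.U_add_one ℤ m
    rw [Chebyshev.T_one, this]; ring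
  | add_two n h1 h2 =>
    have e1 := Chebyshev.U_add_two ℤ (m + n)
    have e2 := Chebyshev.U_add_two ℤ (m - n - 2)
    rw [show m - (n : ℤ) - 2 + 1 = m - (n + 1) by ring, show m - (n : ℤ) - 2 + 2 = m - n by ring] at e2
    rw [show m + (n : ℤ) + 1 = m + (n + 1) by ring, show m + (n : ℤ) + 2 = m + (n + 2) by ring] at e1
    rw [Chebyshev.T_add_two, show m - ((n : ℤ) + 2) = m - n - 2 by ring]
    linear_combination 2 * X * h1 - h2 - e1 - e2
  | neg_add_one n h1 h2 =>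
    have e1 := Chebyshev.U_add_two ℤ (m - n - 1)
    have e2 := Chebyshev.U_add_two ℤ (m + n - 1)
    rw [show m - (n : ℤ) - 1 + 1 = m + (-n) by ring, show m - (n : ℤ) - 1 + 2 = m + (-n + 1) by ring] at e1
    rw [show m + (n : ℤ) - 1 + 1 = m - (-n) by ring, show m + (n : ℤ) - 1 + 2 = m - (-n - 1) by ring] at e2
    rw [Chebyshev.T_sub_one, show m + (-(n : ℤ) - 1) = m - n - 1 by ring]
    rw [show m - (-(n : ℤ) + 1) = m + n - 1 by ring] at h2
    linear_combination 2 * X * h1 - h2 - e1 - e2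

lemma T_diff (n : ℤ) : Chebyshev.T ℤ (n + 2) - Chebyshev.T ℤ n =
    2 * (X ^ 2 - 1) * Chebyshev.U ℤ n := by
  have h1 := Chebyshev.T_eq_X_mul_T_sub_pol_U ℤ n
  have h2 := Chebyshev.T_add_two ℤ n
  linear_combination 2 * h1 - h2

lemma TT (a c : ℤ) : 2 * (X ^ 2 - 1) * Chebyshev.U ℤ (a - 1) * Chebyshev.U ℤ (c - 1) =
    Chebyshev.T ℤ (a + c) - Chebyshev.T ℤ (a - c) := by
  induction a using Chebyshev.induct with
  | zero => 
    rw [zero_sub, Chebyshev.U_neg_one, zero_add, zero_sub, Chebyshev.T_neg]; ring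
  | one =>
    have := T_diff (c - 1)
    rw [show c - 1 + 2 = 1 + c by ring] at this
    rw [sub_self, Chebyshev.U_zero, show (1 : ℤ) - c = -(c - 1) by ring, Chebyshev.T_neg]
    linear_combination -this
  | add_two n h1 h2 =>
    have e0 := Chebyshev.U_add_two ℤ ((n : ℤ) - 1)
    have e1 := Chebyshev.T_add_two ℤ (n + c)
    have e2 := Chebyshev.T_add_two ℤ (n - c)
    rw [show (n : ℤ) - 1 + 1 = n + 1 - 1 by ring, show (n : ℤ) - 1 + 2 = n + 2 - 1 by ring] at e0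
    rw [show (n : ℤ) + c + 1 = n + 1 + c by ring, show (n : ℤ) + c + 2 = n + 2 + c by ring] at e1
    rw [show (n : ℤ) - c + 1 = n + 1 - c by ring, show (n : ℤ) - c + 2 = n + 2 - c by ring] at e2
    linear_combination 2 * (X ^ 2 - 1) * Chebyshev.U ℤ (c - 1) * e0 + 2 * X * h1 - h2 - e1 + e2
  | neg_add_one n h1 h2 =>
    have e0 := Chebyshev.U_sub_one ℤ (-(n : ℤ) - 1)
    have e1 := Chebyshev.T_sub_one ℤ (-n + c)
    have e2 := Chebyshev.T_sub_one ℤ (-n - c)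
    rw [show -(n : ℤ) - 1 + 1 = -n + 1 - 1 by ring] at e0
    rw [show -(n : ℤ) + c + 1 = -n + 1 + c by ring, show -(n : ℤ) + c - 1 = -n - 1 + c by ring] at e1
    rw [show -(n : ℤ) - c + 1 = -n + 1 - c by ring, show -(n : ℤ) - c - 1 = -n - 1 - c by ring] at e2
    linear_combination 2 * (X ^ 2 - 1) * Chebyshev.U ℤ (c - 1) * e0 + 2 * X * h1 - h2 - e1 + e2

/-- the power of two in `U_{k-1}` -/
lemma U_val (j : ℕ) : ∀ k : ℕ, 2 ^ j ∣ k → ∃ h : ℤ[X],
    Chebyshev.U ℤ (k - 1) = 2 ^ j * h ∧ (0 < k → (k : ℤ) = 2 ^ j * h.eval 1) := by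
  induction j with
  | zero =>
    intro k _
    refine ⟨Chebyshev.U ℤ (k - 1), by simp, fun _ => ?_⟩
    rw [Chebyshev.U_eval_one]; simp
  | succ j ih =>
    rintro k ⟨q, hq⟩
    obtain ⟨h, h1, h2⟩ := ih (2 ^ j * q) (dvd_mul_right _ _)
    have hk : (k : ℤ) = 2 * ((2 ^ j * q : ℕ) : ℤ) := by rw [hq]; push_cast; ring
    have e1 := UT ((2 ^ j * q : ℕ) : ℤ) (((2 ^ j * q : ℕ) : ℤ) - 1)
    rw [show ((2 ^ j * q : ℕ) : ℤ) - 1 + ((2 ^ j * q : ℕ) : ℤ) = k - 1 by rw [hk]; ring,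
      show ((2 ^ j * q : ℕ) : ℤ) - 1 - ((2 ^ j * q : ℕ) : ℤ) = -1 by ring,
      Chebyshev.U_neg_one, add_zero] at e1
    refine ⟨Chebyshev.T ℤ ((2 ^ j * q : ℕ) : ℤ) * h, ?_, ?_⟩
    · rw [← e1, h1, pow_succ]; ring
    · intro hk0
      have hq0 : 0 < 2 ^ j * q := by
        rcases Nat.eq_zero_or_pos q with h0 | h0
        · subst h0; simp at hq; omega
        · positivity
      rw [eval_mul, Chebyshev.T_eval_one, one_mul, hk, h2 hq0, pow_succ]; ring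

lemma Us_two_pow (k : ℕ) (f : P) : Us (2 ^ k * f) = 2 ^ k * Us f := by
  have h : ∀ g : P, (2 : P) ^ k * g = ((2 : ℤ) ^ k) • g := by
    intro g; rw [zsmul_eq_mul]; push_cast; rfl
  rw [h, h, map_smul]

lemma aeval_two (g : ℤ[X]) : aeval t (2 * g) = 2 * aeval t g := by
  rw [map_mul, map_ofNat]

lemma aeval_XX : aeval t (X ^ 2 - 1 : ℤ[X]) = 4 * y := by
  rw [map_sub, map_pow, aeval_X, map_one, four_y]

/-- `f = 2^k y g(t)` with `g(1)` odd and `g'(1)` even -/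
def Good (k : ℕ) (f : P) : Prop := ∃ g : ℤ[X], f = 2 ^ k * (y * aeval t g) ∧
  Odd (g.eval 1) ∧ 2 ∣ (derivative g).eval 1

/-- `f = 2^k y g(t)` -/
def Weak (k : ℕ) (f : P) : Prop := ∃ g : ℤ[X], f = 2 ^ k * (y * aeval t g)

lemma Good.step {m k : ℕ} (hm : Even m) {f : P} (h : Good k f) :
    Good (k + 1) (Us (tp m * f)) := by
  obtain ⟨g, rfl, h1, h2⟩ := h
  obtain ⟨g', e1, e2, e3⟩ := Us_gain m g
  refine ⟨g', ?_, ?_, e3⟩
  · rw [show tp m * (2 ^ k * (y * aeval t g)) = 2 ^ k * (tp m * (y * aeval t g)) by ring,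
      Us_two_pow, e1, pow_succ]
    ring
  · rw [e2]
    obtain ⟨q, hq⟩ := h2
    rw [hq]
    have : Odd ((m : ℤ) + 1) := by
      have : Even (m : ℤ) := by exact_mod_cast hm
      exact this.add_one
    exact (this.mul h1).add_even (even_two_mul q)

lemma Weak.step {m k : ℕ} {f : P} (h : Weak k f) : Weak (k + 1) (Us (tp m * f)) := by
  obtain ⟨g, rfl⟩ := h
  obtain ⟨g', e1, -, -⟩ := Us_gain m g
  refine ⟨g', ?_⟩
  rw [show tp m * (2 ^ k * (y * aeval t g)) = 2 ^ k * (tp m * (y * aeval t g)) by ring,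
    Us_two_pow, e1, pow_succ]
  ring

lemma coeff_odd (m : ℕ) (g : ℤ[X]) (hg : Odd (g.eval 1)) {n : ℕ} (hn : Odd n) :
    Odd (PowerSeries.coeff n (Cs m * (y * aeval t g))) := by
  have h1 : (2 : P) ∣ Cs m * (y * aeval t g) - (g.eval 1) • y := by
    obtain ⟨r, hr⟩ := two_dvd_Cs m
    have h2 : (2 : P) ∣ aeval t g - ((g.eval 1 : ℤ) : P) := by
      refine two_dvd_t.trans ?_
      have := Polynomial.sub_dvd_eval_sub t 1 (g.map (Int.castRingHom P))
      have e1 : eval t (g.map (Int.castRingHom P)) = aeval t g := by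
        rw [eval_map, aeval_def, Subsingleton.elim (algebraMap ℤ P) (Int.castRingHom P)]
      have e2 : eval 1 (g.map (Int.castRingHom P)) = ((g.eval 1 : ℤ) : P) := by
        simp
      rwa [e1, e2] at this
    obtain ⟨s, hs⟩ := h2
    refine ⟨r * (y * aeval t g) + y * s, ?_⟩
    rw [zsmul_eq_mul]
    linear_combination (y * aeval t g) * hr + y * hs
  obtain ⟨q, hq⟩ := (two_dvd_iff _).mp h1 n
  rw [map_sub, map_smul, coeff_y, smul_eq_mul] at hq
  have : PowerSeries.coeff n (Cs m * (y * aeval t g)) = eval 1 g * (n : ℤ) + 2 * q := by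
    linear_combination hq
  rw [this]
  have hn' : Odd (n : ℤ) := by exact_mod_cast hn
  exact (hg.mul hn').add_even (even_two_mul q)

/-- the difference series -/
noncomputable def Ds (m : ℕ) : P := PowerSeries.mk fun n => c m (4 * n) - c m n

lemma Ds_eq (m : ℕ) : Ds m = Cs m * (Us (tp m * aeval t (Chebyshev.T ℤ m)) - 1) := by
  have h1 : Ds m = Us (Us (Cs m)) - Cs m := by
    ext n
    rw [map_sub, coeff_Us, coeff_Us, coeff_Cs, coeff_Cs, Ds, PowerSeries.coeff_mk,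
      show 2 * (2 * n) = 4 * n by ring]
  have h2 : Us (Cs m) = Cs m * aeval t (Chebyshev.T ℤ m) := by
    have := Us_Cs m 1
    rwa [mul_one, mul_one, Us_tp] at this
  rw [h1, h2, Us_Cs]
  ring

/-- iterates -/
lemma iter (m : ℕ) {f : P} (Q : ℕ → P → Prop)
    (hQ : ∀ k f, Q k f → Q (k + 1) (Us (tp m * f))) {k : ℕ} (hf : Q k f) (r : ℕ) :
    ∃ g, Q (k + r) g ∧ ∀ n, PowerSeries.coeff (2 ^ r * n) (Cs m * f) =
      PowerSeries.coeff n (Cs m * g) := by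
  induction r with
  | zero => exact ⟨f, hf, fun n => by simp⟩
  | succ r ih =>
    obtain ⟨g, hg, h⟩ := ih
    refine ⟨Us (tp m * g), hQ _ _ hg, fun n => ?_⟩
    rw [show 2 ^ (r + 1) * n = 2 ^ r * (2 * n) by ring, h, ← Us_Cs, coeff_Us]

lemma two_pow_mul_coeff (k n : ℕ) (f : P) :
    PowerSeries.coeff n (2 ^ k * f) = 2 ^ k * PowerSeries.coeff n f := by
  have : (2 : P) ^ k * f = ((2 : ℤ) ^ k) • f := by
    rw [zsmul_eq_mul]; push_cast; rfl
  rw [this, map_smul, smul_eq_mul]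

lemma exact_of_good {m k : ℕ} (hm : Even m) {f : P} (hf : Good k f) (r n : ℕ) (hn : Odd n) :
    ∃ u : ℤ, Odd u ∧ PowerSeries.coeff (2 ^ r * n) (Cs m * f) = 2 ^ (k + r) * u := by
  obtain ⟨g, ⟨g', rfl, h1, -⟩, h⟩ := iter m Good (fun k f hf => hf.step hm) hf r
  refine ⟨_, coeff_odd m g' h1 hn, ?_⟩
  rw [h, ← two_pow_mul_coeff]
  congr 1
  ring

lemma dvd_of_weak {m k : ℕ} {f : P} (hf : Weak k f) (r n : ℕ) :
    (2 : ℤ) ^ (k + r) ∣ PowerSeries.coeff (2 ^ r * n) (Cs m * f) := by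
  obtain ⟨g, ⟨g', rfl⟩, h⟩ := iter m Weak (fun k f hf => hf.step) hf r
  refine ⟨PowerSeries.coeff n (Cs m * (y * aeval t g')), ?_⟩
  rw [h, ← two_pow_mul_coeff]
  congr 1
  ring

/-- even case: the first step -/
lemma good_even {k : ℕ} (hk : 0 < k) : Good (3 + 2 * padicValNat 2 k)
    (Us (tp ((2 * k : ℕ) : ℤ) * aeval t (Chebyshev.T ℤ ((2 * k : ℕ) : ℤ))) - 1) := by
  obtain ⟨h, h1, h2⟩ := U_val (padicValNat 2 k) k pow_padicValNat_dvd
  have h2' := h2 hk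
  have hodd : Odd (h.eval 1) := by
    by_contra hne
    rw [Int.not_odd_iff_even] at hne
    obtain ⟨q, hq⟩ := hne
    have h3 : (2 : ℤ) ^ (padicValNat 2 k + 1) ∣ k := by
      rw [h2', hq, pow_succ]; exact ⟨q, by ring⟩
    have h4 : 2 ^ (padicValNat 2 k + 1) ∣ k := by exact_mod_cast h3
    exact pow_succ_padicValNat_not_dvd hk.ne' h4
  have e0 := TT k k
  rw [sub_self, Chebyshev.T_zero, show (k : ℤ) + k = ((2 * k : ℕ) : ℤ) by push_cast; ring, h1] at e0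
  have e1 : aeval t (Chebyshev.T ℤ ((2 * k : ℕ) : ℤ)) =
      1 + 2 ^ (3 + 2 * padicValNat 2 k) * (y * aeval t (h ^ 2)) := by
    have := congrArg (aeval t) e0
    simp only [map_sub, map_mul, map_one, map_ofNat, map_pow, aeval_X] at this
    rw [four_y] at this
    rw [map_pow]
    have e2 : (2 : P) ^ (3 + 2 * padicValNat 2 k) = 8 * (2 ^ padicValNat 2 k) ^ 2 := by
      rw [pow_add, pow_mul']; ring
    rw [e2]
    linear_combination -this
  obtain ⟨g', f1, f2, f3⟩ := Us_gain ((2 * k : ℕ) : ℤ) (h ^ 2)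
  refine ⟨h ^ 2 + 2 * g', ?_, ?_, ?_⟩
  · have e3 : tp ((2 * k : ℕ) : ℤ) * aeval t (Chebyshev.T ℤ ((2 * k : ℕ) : ℤ)) =
        tp ((2 * k : ℕ) : ℤ) + 2 ^ (3 + 2 * padicValNat 2 k) *
          (tp ((2 * k : ℕ) : ℤ) * (y * aeval t (h ^ 2))) := by
      rw [e1]; ring
    rw [e3, map_add, Us_two_pow, f1, Us_tp, e1, map_add, aeval_two]
    ring
  · rw [eval_add, eval_mul, eval_pow, eval_ofNat]
    exact (hodd.pow).add_even (even_two_mul _)
  · rw [derivative_add, eval_add, derivative_pow, derivative_mul, derivative_ofNat]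
    simp only [eval_mul, zero_mul, zero_add, eval_ofNat, eval_C]
    refine dvd_add ?_ (dvd_mul_right _ _)
    exact Dvd.dvd.mul_right (Dvd.dvd.mul_right (by norm_num) _) _

/-- odd case: `m = 2l + 1`, `2^j ∣ l + 1` -/
lemma odd_case (l j : ℕ) (hj : 2 ^ j ∣ l + 1) : ∃ h g' : ℤ[X], ((l : ℤ) + 1 = 2 ^ j * h.eval 1) ∧
    Us (tp ((2 * l + 1 : ℕ) : ℤ) * aeval t (Chebyshev.T ℤ ((2 * l + 1 : ℕ) : ℤ))) - 1 =
      2 ^ 3 * (y * (2 ^ (2 * j) * aeval t (h ^ 2) + 2 ^ (j + 1) * aeval t g')) := by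
  obtain ⟨h, h1, h2⟩ := U_val j (l + 1) hj
  have h2' := h2 (Nat.succ_pos l)
  rw [show (((l + 1 : ℕ) : ℤ)) - 1 = l by push_cast; ring] at h1
  have e0 := TT ((l + 1 : ℕ) : ℤ) l
  rw [show (((l + 1 : ℕ) : ℤ)) - 1 = l by push_cast; ring, h1,
    show ((l + 1 : ℕ) : ℤ) + l = ((2 * l + 1 : ℕ) : ℤ) by push_cast; ring,
    show ((l + 1 : ℕ) : ℤ) - l = 1 by push_cast; ring, Chebyshev.T_one] at e0
  have e0' := TT ((l + 1 : ℕ) : ℤ) ((l + 1 : ℕ) : ℤ)
  rw [show (((l + 1 : ℕ) : ℤ)) - 1 = l by push_cast; ring, h1, sub_self, Chebyshev.T_zero,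
    show ((l + 1 : ℕ) : ℤ) + ((l + 1 : ℕ) : ℤ) = ((2 * l + 1 : ℕ) : ℤ) + 1 by push_cast; ring] at e0'
  obtain ⟨g', f1, -, -⟩ := Us_gain ((2 * l + 1 : ℕ) : ℤ) (h * Chebyshev.U ℤ ((l : ℤ) - 1))
  refine ⟨h, g', ?_, ?_⟩
  · rw [← h2']; push_cast; ring
  · have e1 : aeval t (Chebyshev.T ℤ ((2 * l + 1 : ℕ) : ℤ)) =
        t + 2 ^ (3 + j) * (y * aeval t (h * Chebyshev.U ℤ ((l : ℤ) - 1))) := by
      have := congrArg (aeval t) e0
      simp only [map_sub, map_mul, map_one, map_ofNat, map_pow, aeval_X] at this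
      rw [four_y] at this
      rw [map_mul, pow_add]
      linear_combination -this
    have e2 : aeval t (Chebyshev.T ℤ (((2 * l + 1 : ℕ) : ℤ) + 1)) =
        1 + 2 ^ 3 * (y * (2 ^ (2 * j) * aeval t (h ^ 2))) := by
      have := congrArg (aeval t) e0'
      simp only [map_sub, map_mul, map_one, map_ofNat, map_pow, aeval_X] at this
      rw [four_y] at this
      rw [map_pow, pow_mul']
      linear_combination -this
    have e3 : tp ((2 * l + 1 : ℕ) : ℤ) * aeval t (Chebyshev.T ℤ ((2 * l + 1 : ℕ) : ℤ)) =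
        tp (((2 * l + 1 : ℕ) : ℤ) + 1) + 2 ^ (3 + j) * (tp ((2 * l + 1 : ℕ) : ℤ) *
          (y * aeval t (h * Chebyshev.U ℤ ((l : ℤ) - 1)))) := by
      rw [e1, tp_add, tp_one]; ring
    rw [e3, map_add, Us_two_pow, f1, Us_tp, e2, pow_add, pow_succ 2 j]
    ring

end Pool.Agent.R226.BP
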