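import Pool.Agent.R226.BPC

/-!
# Congruences for `2^m`-coloured binary partitions
-/

set_option autoImplicit false

open Polynomial

namespace Pool.Agent.R226.BP

lemma Weak.add {k : ℕ} {f g : P} (hf : Weak k f) (hg : Weak k g) : Weak k (f + g) := by
  obtain ⟨a, rfl⟩ := hf
  obtain ⟨b, rfl⟩ := hg
  exact ⟨a + b, by rw [map_add]; ring⟩

lemma Weak.up {k : ℕ} {f : P} (hf : Weak (k + 1) f) : Weak k f := by
  obtain ⟨a, rfl⟩ := hf
  exact ⟨2 * a, by rw [aeval_two, pow_succ]; ring⟩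

lemma T_shift {m : ℕ} (hm : 1 ≤ m) (b : ℤ) : ∃ g : ℤ[X],
    Chebyshev.T ℤ (b + 2 ^ m) - Chebyshev.T ℤ b = 2 ^ m * (X ^ 2 - 1) * g := by
  obtain ⟨i, rfl⟩ : ∃ i, m = i + 1 := ⟨m - 1, by omega⟩
  obtain ⟨h, h1, -⟩ := U_val i (2 ^ i) dvd_rfl
  have := TT (b + ((2 ^ i : ℕ) : ℤ)) ((2 ^ i : ℕ) : ℤ)
  rw [h1, show b + ((2 ^ i : ℕ) : ℤ) + ((2 ^ i : ℕ) : ℤ) = b + 2 ^ (i + 1) by push_cast; ring,
    show b + ((2 ^ i : ℕ) : ℤ) - ((2 ^ i : ℕ) : ℤ) = b by ring] at this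
  refine ⟨Chebyshev.U ℤ (b + ((2 ^ i : ℕ) : ℤ) - 1) * h, ?_⟩
  rw [← this, pow_succ]
  ring

lemma aeval_shift {m : ℕ} {p q g : ℤ[X]} (h : p - q = 2 ^ m * (X ^ 2 - 1) * g) :
    aeval t p = aeval t q + 2 ^ (m + 2) * (y * aeval t g) := by
  have := congrArg (aeval t) h
  simp only [map_sub, map_mul, map_pow, map_ofNat, aeval_X, map_one] at this
  rw [four_y] at this
  rw [pow_add]
  linear_combination this

lemma aeval_smul_T (c : ℤ) (p : ℤ[X]) : aeval t (C c * p) = c • aeval t p := by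
  rw [← smul_eq_C_mul, map_smul]

lemma mono_mul (a : ℤ) (n : ℕ) (c : ℤ) : tp a * aeval t (monomial n c) = c • tp (a + n) := by
  rw [aeval_monomial, zsmul_eq_mul, tp_add, tp_nat, eq_intCast]; ring

lemma Us_shift {m : ℕ} (hm : 1 ≤ m) (a : ℤ) (g : ℤ[X]) : ∃ g' : ℤ[X],
    Us (tp (a + 2 ^ m) * aeval t g) = Us (tp a * aeval t g) + 2 ^ (m + 2) * (y * aeval t g') := by
  induction g using Polynomial.induction_on' with
  | add p q hp hq =>
    obtain ⟨p', hp'⟩ := hp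
    obtain ⟨q', hq'⟩ := hq
    refine ⟨p' + q', ?_⟩
    rw [map_add, mul_add, map_add, hp', hq', mul_add, map_add, map_add]; ring
  | monomial n c =>
    obtain ⟨g, hg⟩ := T_shift hm (a + n)
    refine ⟨C c * g, ?_⟩
    rw [mono_mul, mono_mul, map_smul, map_smul, Us_tp, Us_tp, aeval_smul_T,
      show a + 2 ^ m + (n : ℤ) = a + n + 2 ^ m by ring, aeval_shift hg]
    simp only [zsmul_eq_mul]
    ring

lemma X_sub (n : ℕ) : ∃ r : ℤ[X], Chebyshev.T ℤ n - X ^ n = (X ^ 2 - 1) * r := by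
  have key : ∀ n : ℕ, (∃ r : ℤ[X], Chebyshev.T ℤ n - X ^ n = (X ^ 2 - 1) * r) ∧
      ∃ r : ℤ[X], Chebyshev.T ℤ ((n : ℤ) + 1) - X ^ (n + 1) = (X ^ 2 - 1) * r := by
    intro n
    induction n with
    | zero => exact ⟨⟨0, by simp⟩, ⟨0, by simp⟩⟩
    | succ n ih =>
      obtain ⟨⟨r, hr⟩, ⟨s, hs⟩⟩ := ih
      refine ⟨⟨s, by push_cast; exact hs⟩, ⟨2 * X * s - r + X ^ n, ?_⟩⟩
      have := Chebyshev.T_add_two ℤ n
      push_cast
      rw [show (n : ℤ) + 1 + 1 = n + 2 by ring, this]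
      linear_combination 2 * X * hs - hr
  exact (key n).1

/-- `U(t^M p(t))` is close to `p(t)` -/
lemma near {m : ℕ} (hm : 1 ≤ m) (g : ℤ[X]) : ∃ g' : ℤ[X],
    Us (tp (2 ^ m) * aeval t g) = aeval t g + 4 * (y * aeval t g') := by
  induction g using Polynomial.induction_on' with
  | add p q hp hq =>
    obtain ⟨p', hp'⟩ := hp
    obtain ⟨q', hq'⟩ := hq
    refine ⟨p' + q', ?_⟩
    rw [map_add, mul_add, map_add, hp', hq', map_add]; ring
  | monomial n c =>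
    obtain ⟨g, hg⟩ := T_shift hm n
    obtain ⟨r, hr⟩ := X_sub n
    have e1 := aeval_shift (m := 0) (p := Chebyshev.T ℤ n) (q := X ^ n) (g := r) (by
      rw [pow_zero, one_mul]; exact hr)
    refine ⟨C c * (2 ^ m * g + r), ?_⟩
    rw [mono_mul, map_smul, Us_tp, aeval_smul_T,
      show 2 ^ m + (n : ℤ) = n + 2 ^ m by ring, aeval_shift hg, e1, aeval_monomial, eq_intCast]
    simp only [zsmul_eq_mul, map_add, map_mul, map_pow, map_ofNat, aeval_X]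
    ring

lemma T_succ_sub (n : ℤ) : Chebyshev.T ℤ (n + 1) - Chebyshev.T ℤ n =
    (X - 1) * (Chebyshev.U ℤ n + Chebyshev.U ℤ (n - 1)) := by
  have h1 := Chebyshev.T_eq_U_sub_X_mul_U ℤ n
  have h2 := Chebyshev.T_eq_U_sub_X_mul_U ℤ (n + 1)
  have h3 := Chebyshev.U_add_one ℤ n
  rw [show n + 1 - 1 = n by ring] at h2
  linear_combination h2 - h1 + h3

lemma Us_X_sub_one (a : ℤ) (g : ℤ[X]) : ∃ g' : ℤ[X],
    Us (tp a * ((t - 1) * aeval t g)) = (t - 1) * aeval t g' := by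
  induction g using Polynomial.induction_on' with
  | add p q hp hq =>
    obtain ⟨p', hp'⟩ := hp
    obtain ⟨q', hq'⟩ := hq
    refine ⟨p' + q', ?_⟩
    rw [map_add, mul_add, mul_add, map_add, hp', hq', map_add]; ring
  | monomial n c =>
    refine ⟨C c * (Chebyshev.U ℤ (a + n) + Chebyshev.U ℤ (a + n - 1)), ?_⟩
    have h1 : tp a * ((t - 1) * aeval t (monomial n c)) = c • (tp (a + n + 1) - tp (a + n)) := by
      rw [aeval_monomial, zsmul_eq_mul, tp_add _ 1, tp_add, tp_nat, tp_one, eq_intCast]; ring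
    have h2 := congrArg (aeval t) (T_succ_sub (a + n))
    rw [map_sub, map_mul, map_sub, aeval_X, map_one] at h2
    rw [h1, map_smul, map_sub, Us_tp, Us_tp, aeval_smul_T, h2, mul_smul_comm]

/-- `R_k` with `U^k F = F R_k` -/
noncomputable def R (m : ℕ) : ℕ → P
  | 0 => 1
  | k + 1 => Us (z ^ (2 ^ m) * R m k)

/-- the comparison sequence -/
noncomputable def Rt (m : ℕ) : ℕ → P
  | 0 => (1 - PowerSeries.X) ^ (2 ^ m)
  | k + 1 => Us (Rt m k)

lemma z_pow (a : ℕ) : z ^ (2 * a) = e (z ^ a) * tp a := by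
  rw [pow_mul, z_sq, mul_pow, map_pow, tp_nat]

lemma w_sq : (1 - PowerSeries.X : P) ^ 2 = e (1 - PowerSeries.X) * tp (-1) := by
  rw [map_sub, map_one, e_X, tp_neg_one]
  linear_combination (-(1 - PowerSeries.X) ^ 2) * zb_rel

lemma tp_neg (a : ℕ) : tp (-1) ^ a = tp (-(a : ℤ)) := by
  induction a with
  | zero => simp [tp_zero]
  | succ n ih => rw [pow_succ, ih, ← tp_add]; congr 1; push_cast; ring

lemma w_pow (a : ℕ) : (1 - PowerSeries.X : P) ^ (2 * a) =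
    e ((1 - PowerSeries.X) ^ a) * tp (-(a : ℤ)) := by
  rw [pow_mul, w_sq, mul_pow, ← map_pow, tp_neg]

lemma z_w (a b : ℕ) (h : b ≤ a) : z ^ a * (1 - PowerSeries.X) ^ b = z ^ (a - b) := by
  obtain ⟨d, rfl⟩ := Nat.exists_eq_add_of_le h
  rw [Nat.add_sub_cancel_left, pow_add]
  have : z ^ b * (1 - PowerSeries.X) ^ b = (1 : P) := by
    rw [← mul_pow, mul_comm z, z_rel, one_pow]
  linear_combination z ^ d * this

lemma compare {m : ℕ} (hm : 1 ≤ m) (k : ℕ) (hk : k ≤ m) : ∃ q l : ℤ[X],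
    Rt m k = (1 - PowerSeries.X) ^ (2 ^ (m - k)) * aeval t q ∧
    R m k = z ^ (2 ^ m) * Rt m k + z ^ (2 ^ m - 2 ^ (m - k)) * (2 ^ (m + 2) * (y * aeval t l)) := by
  induction k with
  | zero =>
    refine ⟨1, 0, by simp [Rt], ?_⟩
    rw [R, Rt, ← mul_pow, mul_comm z, z_rel]
    simp
  | succ k ih =>
    obtain ⟨q, l, h1, h2⟩ := ih (by omega)
    set j := 2 ^ (m - (k + 1)) with hj
    have hjj : 2 ^ (m - k) = 2 * j := by
      rw [hj, ← pow_succ']; congr 1; omega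
    have hjM : 2 * j ≤ 2 ^ m := by
      rw [← hjj]; exact Nat.pow_le_pow_right (by norm_num) (by omega)
    rw [hjj] at h1 h2
    obtain ⟨q', hq'⟩ := Us_tp_aeval (-(j : ℤ)) q
    obtain ⟨g1, hg1⟩ := Us_shift hm (-(j : ℤ)) q
    obtain ⟨g2, hg2, -, -⟩ := Us_gain ((2 ^ m - j : ℕ) : ℤ) l
    have hRt : Rt m (k + 1) = (1 - PowerSeries.X) ^ j * aeval t q' := by
      rw [Rt, h1, w_pow, mul_assoc, Us_e_mul, hq']
    refine ⟨q', g1 + 2 * g2, hRt, ?_⟩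
    rw [R, h2, mul_add, map_add, h1]
    have e1 : z ^ (2 ^ m) * (z ^ (2 ^ m) * ((1 - PowerSeries.X) ^ (2 * j) * aeval t q)) =
        e (z ^ (2 ^ m) * (1 - PowerSeries.X) ^ j) * (tp (-(j : ℤ) + 2 ^ m) * aeval t q) := by
      rw [map_mul, w_pow, ← mul_assoc, ← pow_add, ← two_mul, z_pow, tp_add]
      push_cast
      ring
    have e2 : z ^ (2 ^ m) * (z ^ (2 ^ m - 2 * j) * (2 ^ (m + 2) * (y * aeval t l))) =
        e (z ^ (2 ^ m - j)) * (2 ^ (m + 2) * (tp ((2 ^ m - j : ℕ) : ℤ) * (y * aeval t l))) := by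
      have : z ^ (2 ^ m) * z ^ (2 ^ m - 2 * j) = e (z ^ (2 ^ m - j)) * tp ((2 ^ m - j : ℕ) : ℤ) := by
        rw [← z_pow, ← pow_add]; congr 1; omega
      linear_combination (2 ^ (m + 2) * (y * aeval t l)) * this
    rw [e1, e2, Us_e_mul, Us_e_mul, Us_two_pow, hg1, hg2, hq', hRt, map_add, aeval_two]
    have e3 := z_w (2 ^ m) j (by omega)
    linear_combination (2 ^ (m + 2) * (y * aeval t g1)) * e3

lemma coeff_Rt (m k n : ℕ) : PowerSeries.coeff n (Rt m k) =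
    PowerSeries.coeff (2 ^ k * n) ((1 - PowerSeries.X : P) ^ (2 ^ m)) := by
  induction k generalizing n with
  | zero => simp [Rt]
  | succ k ih => rw [Rt, coeff_Us, ih, pow_succ, mul_assoc]

lemma Rt_m {m : ℕ} (hm : 1 ≤ m) : Rt m m = 1 + PowerSeries.X := by
  have hE : Even (2 ^ m) := (Nat.even_pow.mpr ⟨even_two, by omega⟩)
  have h0 : ((1 - PowerSeries.X : P) ^ (2 ^ m)) =
      (((X + C (-1) : ℤ[X]) ^ (2 ^ m) : ℤ[X]) : P) := by
    rw [Polynomial.coe_pow]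
    have : ((X + C (-1) : ℤ[X]) : P) = -(1 - PowerSeries.X) := by
      rw [Polynomial.coe_add, Polynomial.coe_X, Polynomial.coe_C, map_neg, map_one]; ring
    rw [this, hE.neg_pow]
  ext n
  rw [coeff_Rt, h0, Polynomial.coeff_coe, Polynomial.coeff_X_add_C_pow, map_add,
    PowerSeries.coeff_one, PowerSeries.coeff_X]
  rcases n with _ | _ | n
  · simp [hE.neg_one_pow]
  · simp
  · rw [if_neg (by omega), if_neg (by omega), Nat.choose_eq_zero_of_lt]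
    · simp
    · nlinarith [Nat.pos_of_ne_zero (pow_ne_zero m (two_ne_zero : (2 : ℕ) ≠ 0))]

lemma R_next {m : ℕ} (hm : 1 ≤ m) : ∃ g : ℤ[X], R m (m + 1) =
    z ^ (2 ^ m) * (aeval t (Chebyshev.T ℤ (2 ^ m)) + 2 ^ m * ((t - 1) * aeval t g)) := by
  obtain ⟨q, l, -, h2⟩ := compare hm m le_rfl
  rw [Rt_m hm, Nat.sub_self, pow_zero] at h2
  obtain ⟨h, hU, -⟩ := U_val m (2 ^ m) dvd_rfl
  obtain ⟨l', hl'⟩ := Us_X_sub_one (2 ^ m) l
  refine ⟨h + 2 * l', ?_⟩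
  have e1 : z ^ (2 ^ m) * R m m = e (z ^ (2 ^ m)) * (tp (2 ^ m) + PowerSeries.X * tp (2 ^ m)) +
      2 ^ (m + 1) * (e (z ^ (2 ^ m)) * (tp (2 ^ m) * ((t - 1) * aeval t l))) := by
    have e2 : z ^ (2 ^ m) * z ^ (2 ^ m) = e (z ^ (2 ^ m)) * tp (2 ^ m) := by
      have := z_pow (2 ^ m)
      rw [two_mul, pow_add] at this
      rw [this]; push_cast; rfl
    have e3 : z ^ (2 ^ m) = z ^ (2 ^ m - 1) * z := by
      rw [← pow_succ, Nat.sub_add_cancel Nat.one_le_two_pow]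
    have e4 : 2 * y = z * (t - 1) := by rw [y_eq, t_eq]; ring
    rw [h2]
    have e5 : z ^ (2 ^ m) * (z ^ (2 ^ m - 1) * (2 ^ (m + 2) * (y * aeval t l))) =
        2 ^ (m + 1) * ((z ^ (2 ^ m) * z ^ (2 ^ m)) * ((t - 1) * aeval t l)) := by
      rw [show (2 : P) ^ (m + 2) = 2 ^ (m + 1) * 2 by ring]
      conv_rhs => rw [show z ^ 2 ^ m * z ^ 2 ^ m = z ^ 2 ^ m * (z ^ (2 ^ m - 1) * z) by rw [← e3]]
      linear_combination (z ^ 2 ^ m * z ^ (2 ^ m - 1) * 2 ^ (m + 1) * aeval t l) * e4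
    rw [mul_add, e5, ← mul_assoc, e2]
    ring
  have e6 : aeval t (Chebyshev.U ℤ (2 ^ m - 1)) = 2 ^ m * aeval t h := by
    have := congrArg (aeval t) hU
    push_cast at this
    rw [this, map_mul, map_pow, map_ofNat]
  rw [R, e1, map_add, Us_e_mul, Us_two_pow, Us_e_mul, map_add, Us_tp, Us_X_tp, hl', e6, map_add,
    aeval_two, pow_succ]
  ring

/-- the first difference -/
lemma first_diff {m : ℕ} (hm : 1 ≤ m) (g : ℤ[X]) :
    Weak (m + 2) (Us (tp (2 ^ m) * (aeval t (Chebyshev.T ℤ (2 ^ m)) +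
      2 ^ m * ((t - 1) * aeval t g))) -
      (aeval t (Chebyshev.T ℤ (2 ^ m)) + 2 ^ m * ((t - 1) * aeval t g))) := by
  obtain ⟨l2, hl2⟩ := T_shift hm 0
  rw [zero_add, Chebyshev.T_zero] at hl2
  have e1 := aeval_shift hl2
  rw [map_one] at e1
  obtain ⟨g', hg'⟩ := near hm ((X - 1) * g)
  have hX : aeval t ((X - 1) * g : ℤ[X]) = (t - 1) * aeval t g := by
    rw [map_mul, map_sub, aeval_X, map_one]
  rw [hX] at hg'
  have h1 : Weak (m + 2) (Us (tp (2 ^ m) * (2 ^ (m + 2) * (y * aeval t l2)))) := by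
    have : Weak (m + 2) (2 ^ (m + 2) * (y * aeval t l2)) := ⟨l2, rfl⟩
    have h3 := (this.step (m := 2 ^ m)).up
    push_cast at h3
    exact h3
  have h2 : Weak (m + 2) (2 ^ m * (4 * (y * aeval t g'))) := ⟨g', by rw [pow_add]; ring⟩
  have h3 : Us (tp (2 ^ m) * (aeval t (Chebyshev.T ℤ (2 ^ m)) +
      2 ^ m * ((t - 1) * aeval t g))) -
      (aeval t (Chebyshev.T ℤ (2 ^ m)) + 2 ^ m * ((t - 1) * aeval t g)) =
      Us (tp (2 ^ m) * (2 ^ (m + 2) * (y * aeval t l2))) + 2 ^ m * (4 * (y * aeval t g')) := by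
    have e2 : tp (2 ^ m) * (aeval t (Chebyshev.T ℤ (2 ^ m)) + 2 ^ m * ((t - 1) * aeval t g)) =
        tp (2 ^ m) + tp (2 ^ m) * (2 ^ (m + 2) * (y * aeval t l2)) +
          2 ^ m * (tp (2 ^ m) * ((t - 1) * aeval t g)) := by
      rw [e1]; ring
    rw [e2, map_add, map_add, Us_two_pow, hg', Us_tp]
    ring
  rw [h3]
  exact h1.add h2

lemma diff_weak {m : ℕ} (hm : 1 ≤ m) (i : ℕ) : ∃ q E : P, R m (m + 1 + i) = z ^ (2 ^ m) * q ∧
    R m (m + 1 + i + 1) - R m (m + 1 + i) = z ^ (2 ^ m) * E ∧ Weak (m + 2 + i) E := by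
  have hstep : ∀ q : P, Us (z ^ (2 ^ m) * (z ^ (2 ^ m) * q)) = z ^ (2 ^ m) * Us (tp (2 ^ m) * q) := by
    intro q
    have := z_pow (2 ^ m)
    rw [two_mul, pow_add] at this
    rw [← mul_assoc, this, mul_assoc, Us_e_mul]
    push_cast; rfl
  induction i with
  | zero =>
    obtain ⟨g, hg⟩ := R_next hm
    refine ⟨_, _, hg, ?_, first_diff hm g⟩
    rw [add_zero]
    conv_lhs => rw [R, hg, hstep]
    ring
  | succ i ih =>
    obtain ⟨q, E, h1, h2, h3⟩ := ih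
    have h4 : R m (m + 1 + i + 1) = z ^ (2 ^ m) * (q + E) := by
      linear_combination h2 + h1
    refine ⟨q + E, Us (tp (2 ^ m) * E), h4, ?_, ?_⟩
    · have e1 : R m (m + 1 + (i + 1) + 1) = Us (z ^ (2 ^ m) * R m (m + 1 + i + 1)) := rfl
      have e2 : R m (m + 1 + (i + 1)) = Us (z ^ (2 ^ m) * R m (m + 1 + i)) := rfl
      rw [e1, e2, ← map_sub, ← mul_sub, h2, hstep]
    · have := h3.step (m := 2 ^ m)
      push_cast at this
      exact this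

lemma coeff_iter (m k n : ℕ) : PowerSeries.coeff n (Bs (2 ^ m) * R m k) = b (2 ^ m) (2 ^ k * n) := by
  have h : ∀ k n, PowerSeries.coeff n (Bs (2 ^ m) * R m k) =
      PowerSeries.coeff (2 ^ k * n) (Bs (2 ^ m)) := by
    intro k
    induction k with
    | zero => intro n; simp [R]
    | succ k ih =>
      intro n
      rw [R, ← Us_Bs, coeff_Us, ih, pow_succ, mul_assoc]
  rw [h, coeff_Bs]

theorem main_congr {m : ℕ} (hm : 1 ≤ m) (k : ℕ) (hk : m + 1 ≤ k) (n : ℕ) :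
    (2 : ℤ) ^ (k + 1) ∣ b (2 ^ m) (2 ^ (k + 1) * n) - b (2 ^ m) (2 ^ k * n) := by
  obtain ⟨i, rfl⟩ := Nat.exists_eq_add_of_le hk
  obtain ⟨q, E, -, h2, ⟨g, rfl⟩⟩ := diff_weak hm i
  rw [← coeff_iter, ← coeff_iter, ← map_sub, ← mul_sub, h2]
  refine pow_dvd_coeff _ ?_ n
  refine ⟨Bs (2 ^ m) * (z ^ (2 ^ m) * (y * aeval t g)), ?_⟩
  rw [show m + 2 + i = m + 1 + i + 1 by ring]
  ring

end Pool.Agent.R226.BP
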