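import Mathlib

/-!
Definitions for MP_c785a0_an (countable conformal iterated function systems on the closed unit
disc) and the verification that the two systems of the counterexample are conformal iterated
function systems.
-/

namespace Pool.Agent.R226.CI

open Set Filter Topology

/-- The closed unit disc. -/
def X : Set ℂ := Metric.closedBall 0 1

/-- `f_α(z) = (z + conj α) / (|α|^2 - 1)`. -/
noncomputable def fMap (α z : ℂ) : ℂ := (z + starRingEnd ℂ α) / ((‖α‖ : ℂ) ^ 2 - 1)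

/-- `g_α(z) = 1 / (z + α)`. -/
noncomputable def gMap (α z : ℂ) : ℂ := 1 / (z + α)

/-- `e(j/T) d_n`; the index `n` starts at `0`, so `d n` is the `(n+1)`-st term of the sequence. -/
noncomputable def param (d : ℕ → ℝ) (T : ℕ) (i : ℕ × Fin T) : ℂ :=
  Complex.exp (2 * Real.pi * Complex.I * ((i.2 : ℕ) / (T : ℂ))) * (d i.1 : ℂ)

/-- The family `F(d, T)`. -/
noncomputable def famF (d : ℕ → ℝ) (T : ℕ) (i : ℕ × Fin T) : ℂ → ℂ := fMap (param d T i)

/-- The family `G(d, T)`. -/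
noncomputable def famG (d : ℕ → ℝ) (T : ℕ) (i : ℕ × Fin T) : ℂ → ℂ := gMap (param d T i)

/-- The class `D` of sequences: `d_1 ≥ 2` and `d_{n+1} - d_n ≥ 2`. -/
def Admissible (d : ℕ → ℝ) : Prop := 2 ≤ d 0 ∧ ∀ n, 2 ≤ d (n + 1) - d n

variable {I : Type*}

/-- `s_ω = s_{ω_1} ∘ ... ∘ s_{ω_N}` for a finite word `ω`. -/
def wordMap (s : I → ℂ → ℂ) : List I → ℂ → ℂ
  | [] => id
  | i :: l => s i ∘ wordMap s l

/-- The limit set: the union over infinite words of the intersections of the images of the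
closed disc. -/
def limitSet (s : I → ℂ → ℂ) : Set ℂ :=
  {z | ∃ ω : ℕ → I, ∀ N : ℕ, z ∈ wordMap s (List.ofFn (fun k : Fin N => ω k)) '' X}

/-- Countable conformal iterated function systems on the closed unit disc: injective self-maps
with a common Lipschitz constant `< 1`, the open set condition, extension to conformal
`C^{1+ε}` diffeomorphisms of one open connected neighbourhood `V` of the disc into itself, and
bounded distortion on `V`. (The cone condition is automatic for the disc.) -/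
structure IsCIFS (s : I → ℂ → ℂ) : Prop where
  countable : Countable I
  mapsTo : ∀ i, MapsTo (s i) X X
  injOn : ∀ i, InjOn (s i) X
  lip : ∃ q : ℝ, q < 1 ∧ ∀ i, ∀ x ∈ X, ∀ y ∈ X, ‖s i x - s i y‖ ≤ q * ‖x - y‖
  disj : ∀ i j, i ≠ j → Disjoint (s i '' interior X) (s j '' interior X)
  ext : ∃ (V : Set ℂ) (e : I → ℂ → ℂ), IsOpen V ∧ IsConnected V ∧ X ⊆ V ∧
    (∀ i, EqOn (e i) (s i) X) ∧
    (∃ ε : ℝ, 0 < ε ∧ ∀ i, MapsTo (e i) V V ∧ InjOn (e i) V ∧ DifferentiableOn ℂ (e i) V ∧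
      (∀ z ∈ V, deriv (e i) z ≠ 0) ∧
      ∃ C : ℝ, ∀ x ∈ V, ∀ y ∈ V, ‖deriv (e i) x - deriv (e i) y‖ ≤ C * ‖x - y‖ ^ ε) ∧
    (∃ K : ℝ, 1 ≤ K ∧ ∀ l : List I, ∀ x ∈ V, ∀ y ∈ V,
      ‖deriv (wordMap e l) y‖ ≤ K * ‖deriv (wordMap e l) x‖)

/-- `sup_X |s_ω'|`. -/
noncomputable def supDeriv (s : I → ℂ → ℂ) (l : List I) : ℝ := ⨆ x : X, ‖deriv (wordMap s l) x‖

/-- Regularity: the pressure vanishes for some `t ≥ 0`, that is, the sums
`∑_{ω ∈ I^N} sup_X |s_ω'|^t` are finite and `(1/N) log` of them tends to `0`. -/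
def Regular (s : I → ℂ → ℂ) : Prop :=
  ∃ t : ℝ, 0 ≤ t ∧
    (∀ N : ℕ, Summable (fun ω : Fin N → I => supDeriv s (List.ofFn ω) ^ t)) ∧
    Tendsto (fun N : ℕ => 1 / (N : ℝ) * Real.log (∑' ω : Fin N → I, supDeriv s (List.ofFn ω) ^ t))
      atTop (𝓝 0)

/-! ### The sequence of the counterexample -/

/-- `d_1 = 2 + 10^{-6}` and `d_n = 10^{6(n-1)}` for `n ≥ 2`. -/
noncomputable def dd (n : ℕ) : ℝ := if n = 0 then 2 + 1 / 10 ^ 6 else 10 ^ (6 * n)

lemma dd_zero : dd 0 = 2 + 1 / 10 ^ 6 := by simp [dd]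

lemma dd_succ (n : ℕ) : dd (n + 1) = 10 ^ (6 * (n + 1)) := by simp [dd]

lemma dd_adm : Admissible dd := by
  refine ⟨by rw [dd_zero]; norm_num, fun n => ?_⟩
  rcases n with _ | n
  · rw [dd_zero, dd_succ]; norm_num
  · rw [dd_succ, dd_succ]
    have h1 : (10 : ℝ) ^ (6 * (n + 1 + 1)) = 10 ^ (6 * (n + 1)) * 10 ^ 6 := by
      rw [← pow_add]; congr 1
    have h2 : (1 : ℝ) ≤ 10 ^ (6 * (n + 1)) := one_le_pow₀ (by norm_num)
    rw [h1]
    norm_num
    linarith

lemma dd_ge (n : ℕ) : 2 + 1 / 10 ^ 6 ≤ dd n := by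
  rcases n with _ | n
  · rw [dd_zero]
  · rw [dd_succ]
    have h2 : (10 : ℝ) ^ 6 ≤ 10 ^ (6 * (n + 1)) := pow_le_pow_right₀ (by norm_num) (by omega)
    have h3 : (2 : ℝ) + 1 / 10 ^ 6 ≤ 10 ^ 6 := by norm_num
    linarith

lemma adm_gap {d : ℕ → ℝ} (h : Admissible d) {m n : ℕ} (hmn : m < n) : 2 ≤ d n - d m := by
  induction n with
  | zero => omega
  | succ n ih =>
    have h1 := h.2 n
    rcases Nat.lt_or_ge m n with h2 | h2
    · have := ih h2; linarith
    · have : m = n := by omega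
      subst this; exact h1

/-! ### Parameters for `T = 2` -/

/-- sign attached to the index -/
noncomputable def sg (j : Fin 2) : ℝ := if j = 0 then 1 else -1

lemma param_two (d : ℕ → ℝ) (i : ℕ × Fin 2) : param d 2 i = ((sg i.2 * d i.1 : ℝ) : ℂ) := by
  obtain ⟨n, j⟩ := i
  unfold param sg
  fin_cases j
  · simp
  · have : Complex.exp (2 * Real.pi * Complex.I * 2⁻¹) = -1 := by
      rw [← Complex.exp_pi_mul_I]; congr 1; ring
    simp [this]

lemma sg_abs (j : Fin 2) : |sg j| = 1 := by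
  unfold sg; split_ifs <;> simp

lemma norm_param (i : ℕ × Fin 2) : ‖param dd 2 i‖ = dd i.1 := by
  rw [param_two, Complex.norm_real, Real.norm_eq_abs, abs_mul, sg_abs, one_mul,
    abs_of_pos (by have := dd_ge i.1; norm_num at this; linarith)]

/-! ### Möbius words -/

/-- radius used for the neighbourhood `V` -/
noncomputable def R1 : ℝ := 1 + 1 / 2000
/-- slightly larger radius -/
noncomputable def R2 : ℝ := 1 + 1 / 1000

lemma g_bound {α z : ℂ} {r : ℝ} (hα : 2 + 1 / 10 ^ 6 ≤ ‖α‖) (hr1 : 1 ≤ r) (hr2 : r ≤ R2)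
    (hz : ‖z‖ ≤ r) : ‖gMap α z‖ ≤ r ∧ 1 / 1000 < ‖z + α‖ := by
  have h1 : ‖α‖ - ‖z‖ ≤ ‖z + α‖ := by
    have := norm_sub_norm_le α (-z)
    rw [norm_neg, sub_neg_eq_add, add_comm α z] at this
    exact this
  have hr2' : r ≤ 1 + 1 / 1000 := hr2
  have h2 : 1 / 1000 < ‖z + α‖ := by norm_num at hα; linarith
  refine ⟨?_, h2⟩
  unfold gMap
  rw [norm_div, norm_one, div_le_iff₀ (by linarith)]
  have h3 : 2 + 1 / 10 ^ 6 - r ≤ ‖z + α‖ := by linarith
  have h4 : 1 ≤ r * (2 + 1 / 10 ^ 6 - r) := by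
    norm_num
    nlinarith
  calc (1 : ℝ) ≤ r * (2 + 1 / 10 ^ 6 - r) := h4
    _ ≤ r * ‖z + α‖ := mul_le_mul_of_nonneg_left h3 (by linarith)

lemma g_bound_lt {α z : ℂ} (hα : 2 + 1 / 10 ^ 6 ≤ ‖α‖) 
    (hz : ‖z‖ < R1) : ‖gMap α z‖ < R1 := by
  have hz' : ‖z‖ < 1 + 1 / 2000 := hz
  have h1 : ‖α‖ - ‖z‖ ≤ ‖z + α‖ := by
    have := norm_sub_norm_le α (-z)
    rw [norm_neg, sub_neg_eq_add, add_comm α z] at this
    exact this
  norm_num at hα
  unfold gMap R1
  rw [norm_div, norm_one, div_lt_iff₀ (by linarith)]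
  have h3 : 2000001 / 1000000 - (1 + 1 / 2000) < ‖z + α‖ := by linarith
  nlinarith

/-- matrix representation of a word -/
structure Rep (w : ℂ → ℂ) (A B C E : ℂ) : Prop where
  det : ‖A * E - B * C‖ = 1
  ne : ∀ z : ℂ, ‖z‖ ≤ R2 → C * z + E ≠ 0
  eq : ∀ z : ℂ, ‖z‖ ≤ R2 → w z = (A * z + B) / (C * z + E)
  bd : ∀ z : ℂ, ‖z‖ ≤ R2 → ‖w z‖ ≤ R2

lemma exists_rep {α : I → ℂ} (hα : ∀ i, 2 + 1 / 10 ^ 6 ≤ ‖α i‖) (l : List I) :
    ∃ A B C E : ℂ, Rep (wordMap (fun i => gMap (α i)) l) A B C E := by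
  induction l with
  | nil => exact ⟨1, 0, 0, 1, by simp, by simp, by simp [wordMap], by simp [wordMap]⟩
  | cons i l ih =>
    obtain ⟨A, B, C, E, h⟩ := ih
    refine ⟨C, E, A + α i * C, B + α i * E, ?_, ?_, ?_, ?_⟩
    · rw [← h.det, ← norm_neg]; congr 1; ring
    · intro z hz h0
      have h1 := h.ne z hz
      have h2 := h.eq z hz
      have h3 := (g_bound (hα i) (by unfold R2; norm_num) le_rfl (h.bd z hz)).2
      have h4 : wordMap (fun i => gMap (α i)) l z + α i = 0 := by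
        rw [h2, div_add' _ _ _ h1, div_eq_zero_iff]
        left
        linear_combination h0
      rw [h4, norm_zero] at h3
      norm_num at h3
    · intro z hz
      have h1 := h.ne z hz
      have h2 := h.eq z hz
      show gMap (α i) (wordMap (fun i => gMap (α i)) l z) = _
      rw [h2]
      unfold gMap
      have h3 : (A * z + B) / (C * z + E) + α i
          = ((A + α i * C) * z + (B + α i * E)) / (C * z + E) := by
        rw [div_add' _ _ _ h1]
        congr 1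
        ring
      rw [h3, one_div, inv_div]
    · intro z hz
      exact (g_bound (hα i) (by unfold R2; norm_num) le_rfl (h.bd z hz)).1

lemma Rep.E_ge {w : ℂ → ℂ} {A B C E : ℂ} (h : Rep w A B C E) : R2 * ‖C‖ < ‖E‖ := by
  have hE : E ≠ 0 := by
    have := h.ne 0 (by simp; unfold R2; norm_num)
    simpa using this
  by_contra hcon
  push Not at hcon
  have hC : C ≠ 0 := by
    intro h0; rw [h0, norm_zero, mul_zero] at hcon
    exact hE (norm_le_zero_iff.mp hcon)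
  have h1 := h.ne (-E / C) (by
    rw [norm_div, norm_neg, div_le_iff₀ (norm_pos_iff.mpr hC)]; exact hcon)
  apply h1
  field_simp
  ring

lemma Rep.deriv {w : ℂ → ℂ} {A B C E : ℂ} (h : Rep w A B C E) {z : ℂ} (hz : ‖z‖ < R2) :
    HasDerivAt w ((A * E - B * C) / (C * z + E) ^ 2) z := by
  have h1 : HasDerivAt (fun z => (A * z + B) / (C * z + E))
      (((A * 1) * (C * z + E) - (A * z + B) * (C * 1)) / (C * z + E) ^ 2) z :=
    (((hasDerivAt_id' z).const_mul A).add_const B).fun_div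
      (((hasDerivAt_id' z).const_mul C).add_const E) (h.ne z hz.le)
  have h2 : ((A * 1) * (C * z + E) - (A * z + B) * (C * 1)) / (C * z + E) ^ 2
      = (A * E - B * C) / (C * z + E) ^ 2 := by congr 1; ring
  rw [h2] at h1
  apply h1.congr_of_eventuallyEq
  have h3 : ∀ᶠ y in 𝓝 z, ‖y‖ < R2 := (continuous_norm.tendsto z).eventually (gt_mem_nhds hz)
  filter_upwards [h3] with y hy
  exact h.eq y hy.le

lemma Rep.norm_deriv {w : ℂ → ℂ} {A B C E : ℂ} (h : Rep w A B C E) {z : ℂ} (hz : ‖z‖ < R2) :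
    ‖_root_.deriv w z‖ = 1 / ‖C * z + E‖ ^ 2 := by
  rw [(h.deriv hz).deriv, norm_div, h.det, norm_pow]

/-- the distortion constant -/
noncomputable def KK : ℝ := (2002 * 2) ^ 2

lemma Rep.distortion {w : ℂ → ℂ} {A B C E : ℂ} (h : Rep w A B C E) {x y : ℂ} (hx : ‖x‖ ≤ R1)
    (hy : ‖y‖ ≤ R1) : ‖_root_.deriv w y‖ ≤ KK * ‖_root_.deriv w x‖ := by
  have hR : R1 < R2 := by unfold R1 R2; norm_num
  rw [h.norm_deriv (hx.trans_lt hR), h.norm_deriv (hy.trans_lt hR)]
  have hE := h.E_ge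
  have hEpos : 0 < ‖E‖ := lt_of_le_of_lt (by have := norm_nonneg C; unfold R2; positivity) hE
  have hxp : 0 < ‖C * x + E‖ := norm_pos_iff.mpr (h.ne x (hx.trans hR.le))
  have hyp : 0 < ‖C * y + E‖ := norm_pos_iff.mpr (h.ne y (hy.trans hR.le))
  have h1 : ‖C * x + E‖ ≤ 2 * ‖E‖ := by
    calc ‖C * x + E‖ ≤ ‖C * x‖ + ‖E‖ := norm_add_le _ _
      _ = ‖C‖ * ‖x‖ + ‖E‖ := by rw [norm_mul]
      _ ≤ ‖C‖ * R1 + ‖E‖ := by
          have := mul_le_mul_of_nonneg_left hx (norm_nonneg C); linarith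
      _ ≤ 2 * ‖E‖ := by
          have := norm_nonneg C
          unfold R1; unfold R2 at hE; linarith
  have h2 : ‖E‖ ≤ 2002 * ‖C * y + E‖ := by
    have h3 : ‖E‖ - ‖C * y‖ ≤ ‖C * y + E‖ := by
      have := norm_sub_norm_le E (-(C * y))
      rw [norm_neg, sub_neg_eq_add, add_comm E] at this
      exact this
    have h4 : ‖C * y‖ ≤ ‖C‖ * R1 := by
      rw [norm_mul]; exact mul_le_mul_of_nonneg_left hy (norm_nonneg C)
    have h5 : ‖C‖ * R1 ≤ ‖E‖ * (1 - 1 / 2002) := by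
      have := norm_nonneg C
      unfold R1; unfold R2 at hE; nlinarith
    linarith
  have h3 : ‖C * x + E‖ ≤ (2002 * 2) * ‖C * y + E‖ := by linarith
  have h4 : ‖C * x + E‖ ^ 2 ≤ KK * ‖C * y + E‖ ^ 2 := by
    have := pow_le_pow_left₀ hxp.le h3 2
    rw [mul_pow] at this
    exact this
  rw [mul_one_div, div_le_div_iff₀ (by positivity) (by positivity), one_mul]
  exact h4

end Pool.Agent.R226.CI
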