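import Pool.Agent.R226.CIA

/-!
The two systems of the counterexample are conformal iterated function systems.
-/

namespace Pool.Agent.R226.CI

open Set Filter Topology

lemma intX : interior X = Metric.ball 0 1 := by
  unfold X; exact interior_closedBall _ one_ne_zero

lemma mem_X {z : ℂ} : z ∈ X ↔ ‖z‖ ≤ 1 := by unfold X; simp

lemma param_sep {i j : ℕ × Fin 2} (h : i ≠ j) :
    2 ≤ |sg i.2 * dd i.1 - sg j.2 * dd j.1| := by
  obtain ⟨m, a⟩ := i
  obtain ⟨n, b⟩ := j
  have hm := dd_ge m
  have hn := dd_ge n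
  norm_num at hm hn
  have hgap : a = b → 2 ≤ |dd m - dd n| := by
    intro hab
    have hmn : m ≠ n := by rintro rfl; exact h (by rw [hab])
    rcases lt_or_gt_of_ne hmn with h1 | h1
    · have := adm_gap dd_adm h1
      rw [abs_sub_comm]; exact this.trans (le_abs_self _)
    · have := adm_gap dd_adm h1
      exact this.trans (le_abs_self _)
  simp only
  fin_cases a <;> fin_cases b
  · have := hgap rfl
    simpa [sg] using this
  · simp only [sg]
    simp
    rw [abs_of_pos (by linarith)]; linarith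
  · simp only [sg]
    simp
    rw [abs_of_neg (by linarith)]; linarith
  · have := hgap rfl
    simp only [sg]
    simp
    rw [show -dd m + dd n = -(dd m - dd n) by ring, abs_neg]; exact this

lemma param_sep' {i j : ℕ × Fin 2} (h : i ≠ j) : 2 ≤ ‖param dd 2 i - param dd 2 j‖ := by
  rw [param_two, param_two, ← Complex.ofReal_sub, Complex.norm_real, Real.norm_eq_abs]
  exact param_sep h

lemma norm_param_ge (i : ℕ × Fin 2) : 2 + 1 / 10 ^ 6 ≤ ‖param dd 2 i‖ := by
  rw [norm_param]; exact dd_ge _

lemma add_ge {α z : ℂ} {r : ℝ} (hα : 2 + 1 / 10 ^ 6 ≤ ‖α‖) (hz : ‖z‖ ≤ r) :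
    2 + 1 / 10 ^ 6 - r ≤ ‖z + α‖ := by
  have h1 : ‖α‖ - ‖z‖ ≤ ‖z + α‖ := by
    have := norm_sub_norm_le α (-z)
    rw [norm_neg, sub_neg_eq_add, add_comm α z] at this
    exact this
  linarith

lemma g_hasDeriv {α z : ℂ} (h : z + α ≠ 0) : HasDerivAt (gMap α) (-1 / (z + α) ^ 2) z := by
  have h1 := ((hasDerivAt_id' z).add_const α).fun_inv h
  have h2 : gMap α = fun z => (z + α)⁻¹ := by funext z; unfold gMap; rw [one_div]
  rw [h2]; exact h1

lemma cifs_G : IsCIFS (famG dd 2) where
  countable := inferInstance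
  mapsTo := by
    intro i z hz
    rw [mem_X] at hz ⊢
    exact (g_bound (norm_param_ge i) le_rfl (by unfold R2; norm_num) hz).1
  injOn := by
    intro i x hx y hy hxy
    rw [mem_X] at hx hy
    have h1 := add_ge (norm_param_ge i) hx
    have h2 := add_ge (norm_param_ge i) hy
    have h3 : x + param dd 2 i ≠ 0 := norm_pos_iff.mp (by norm_num at h1; linarith)
    have h4 : y + param dd 2 i ≠ 0 := norm_pos_iff.mp (by norm_num at h2; linarith)
    have h5 : 1 / (x + param dd 2 i) = 1 / (y + param dd 2 i) := hxy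
    rw [one_div, one_div, inv_inj] at h5
    exact add_right_cancel h5
  lip := by
    refine ⟨1 / (1 + 1 / 10 ^ 6) ^ 2, by norm_num, ?_⟩
    intro i x hx y hy
    rw [mem_X] at hx hy
    have h1 := add_ge (norm_param_ge i) hx
    have h2 := add_ge (norm_param_ge i) hy
    have h3 : x + param dd 2 i ≠ 0 := norm_pos_iff.mp (by norm_num at h1; linarith)
    have h4 : y + param dd 2 i ≠ 0 := norm_pos_iff.mp (by norm_num at h2; linarith)
    show ‖1 / (x + param dd 2 i) - 1 / (y + param dd 2 i)‖ ≤ _
    rw [div_sub_div _ _ h3 h4, norm_div, norm_mul]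
    have h5 : 1 * (y + param dd 2 i) - (x + param dd 2 i) * 1 = -(x - y) := by ring
    rw [h5, norm_neg, div_mul_eq_mul_div, one_mul]
    apply div_le_div_of_nonneg_left (norm_nonneg _) (by positivity)
    rw [sq]
    apply mul_le_mul
    · linarith
    · linarith
    · positivity
    · positivity
  disj := by
    intro i j hij
    rw [Set.disjoint_left]
    rintro w ⟨x, hx, hxw⟩ ⟨y, hy, hyw⟩
    rw [intX, mem_ball_zero_iff] at hx hy
    have h1 := add_ge (norm_param_ge i) hx.le
    have h2 := add_ge (norm_param_ge j) hy.le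
    have h3 : x + param dd 2 i ≠ 0 := norm_pos_iff.mp (by norm_num at h1; linarith)
    have h4 : y + param dd 2 j ≠ 0 := norm_pos_iff.mp (by norm_num at h2; linarith)
    have h5 : 1 / (x + param dd 2 i) = 1 / (y + param dd 2 j) := by
      have : gMap (param dd 2 i) x = gMap (param dd 2 j) y := by
        show famG dd 2 i x = famG dd 2 j y
        rw [hxw, hyw]
      exact this
    rw [one_div, one_div, inv_inj] at h5
    have h6 : param dd 2 i - param dd 2 j = y - x := by linear_combination h5
    have h7 := param_sep' hij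
    rw [h6] at h7
    have h8 := norm_sub_le y x
    linarith
  ext := by
    refine ⟨Metric.ball 0 R1, famG dd 2, Metric.isOpen_ball, ?_, ?_, fun i => fun _ _ => rfl, ?_, ?_⟩
    · refine ⟨⟨0, Metric.mem_ball_self (by unfold R1; norm_num)⟩, ?_⟩
      exact (convex_ball (0 : ℂ) R1).isPreconnected
    · intro z hz
      rw [mem_X] at hz
      rw [mem_ball_zero_iff]; unfold R1; linarith
    · refine ⟨1, one_pos, fun i => ⟨?_, ?_, ?_, ?_, 2 * 10 ^ 9, ?_⟩⟩
      · intro z hz
        rw [mem_ball_zero_iff] at hz ⊢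
        exact g_bound_lt (norm_param_ge i) hz
      · intro x hx y hy hxy
        rw [mem_ball_zero_iff] at hx hy
        have h1 := add_ge (norm_param_ge i) hx.le
        have h2 := add_ge (norm_param_ge i) hy.le
        unfold R1 at h1 h2
        have h3 : x + param dd 2 i ≠ 0 := norm_pos_iff.mp (by norm_num at h1; linarith)
        have h4 : y + param dd 2 i ≠ 0 := norm_pos_iff.mp (by norm_num at h2; linarith)
        have h5 : 1 / (x + param dd 2 i) = 1 / (y + param dd 2 i) := hxy
        rw [one_div, one_div, inv_inj] at h5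
        exact add_right_cancel h5
      · intro z hz
        rw [mem_ball_zero_iff] at hz
        have h1 := add_ge (norm_param_ge i) hz.le
        unfold R1 at h1
        have h3 : z + param dd 2 i ≠ 0 := norm_pos_iff.mp (by norm_num at h1; linarith)
        exact (g_hasDeriv h3).differentiableAt.differentiableWithinAt
      · intro z hz
        rw [mem_ball_zero_iff] at hz
        have h1 := add_ge (norm_param_ge i) hz.le
        unfold R1 at h1
        have h3 : z + param dd 2 i ≠ 0 := norm_pos_iff.mp (by norm_num at h1; linarith)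
        have h4 : deriv (famG dd 2 i) z = -1 / (z + param dd 2 i) ^ 2 := (g_hasDeriv h3).deriv
        rw [h4]
        exact div_ne_zero (by norm_num) (pow_ne_zero _ h3)
      · intro x hx y hy
        rw [mem_ball_zero_iff] at hx hy
        have h1 := add_ge (norm_param_ge i) hx.le
        have h2 := add_ge (norm_param_ge i) hy.le
        unfold R1 at h1 h2
        have h1' : 1 / 10 ≤ ‖x + param dd 2 i‖ := by norm_num at h1; linarith
        have h2' : 1 / 10 ≤ ‖y + param dd 2 i‖ := by norm_num at h2; linarith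
        have h3 : x + param dd 2 i ≠ 0 := norm_pos_iff.mp (by linarith)
        have h4 : y + param dd 2 i ≠ 0 := norm_pos_iff.mp (by linarith)
        have e1 : deriv (famG dd 2 i) x = -1 / (x + param dd 2 i) ^ 2 := (g_hasDeriv h3).deriv
        have e2 : deriv (famG dd 2 i) y = -1 / (y + param dd 2 i) ^ 2 := (g_hasDeriv h4).deriv
        rw [e1, e2, Real.rpow_one]
        set u := x + param dd 2 i with hu
        set v := y + param dd 2 i with hv
        have huv : x - y = u - v := by rw [hu, hv]; ring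
        rw [huv, div_sub_div _ _ (pow_ne_zero _ h3) (pow_ne_zero _ h4), norm_div]
        have e3 : -1 * v ^ 2 - u ^ 2 * -1 = (u - v) * (u + v) := by ring
        rw [e3, norm_mul, norm_mul, norm_pow, norm_pow]
        have hup : 0 < ‖u‖ := by linarith
        have hvp : 0 < ‖v‖ := by linarith
        rw [div_le_iff₀ (by positivity)]
        have h5 : ‖u + v‖ ≤ ‖u‖ + ‖v‖ := norm_add_le _ _
        have h6 : ‖u‖ + ‖v‖ ≤ 2 * 10 ^ 9 * (‖u‖ ^ 2 * ‖v‖ ^ 2) := by
          have a1 : 1 ≤ 10 * ‖u‖ := by linarith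
          have a2 : 1 ≤ 10 * ‖v‖ := by linarith
          have b1 : ‖u‖ ≤ 10 ^ 3 * (‖u‖ ^ 2 * ‖v‖ ^ 2) := by
            calc ‖u‖ = ‖u‖ * 1 * (1 * 1) := by ring
              _ ≤ ‖u‖ * (10 * ‖u‖) * ((10 * ‖v‖) * (10 * ‖v‖)) := by gcongr
              _ = _ := by ring
          have b2 : ‖v‖ ≤ 10 ^ 3 * (‖u‖ ^ 2 * ‖v‖ ^ 2) := by
            calc ‖v‖ = ‖v‖ * 1 * (1 * 1) := by ring
              _ ≤ ‖v‖ * (10 * ‖v‖) * ((10 * ‖u‖) * (10 * ‖u‖)) := by gcongr
              _ = _ := by ring
          have : 0 ≤ ‖u‖ ^ 2 * ‖v‖ ^ 2 := by positivity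
          nlinarith
        calc ‖u - v‖ * ‖u + v‖ ≤ ‖u - v‖ * (2 * 10 ^ 9 * (‖u‖ ^ 2 * ‖v‖ ^ 2)) :=
              mul_le_mul_of_nonneg_left (h5.trans h6) (norm_nonneg _)
          _ = _ := by ring
    · refine ⟨KK, by unfold KK; norm_num, ?_⟩
      intro l x hx y hy
      rw [mem_ball_zero_iff] at hx hy
      obtain ⟨A, B, C, E, h⟩ := exists_rep (α := param dd 2) norm_param_ge l
      exact h.distortion hx.le hy.le

/-! ### The linear system -/

/-- contraction ratio -/
noncomputable def cF (i : ℕ × Fin 2) : ℝ := 1 / (dd i.1 ^ 2 - 1)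

lemma cF_pos (i : ℕ × Fin 2) : 0 < cF i := by
  have := dd_ge i.1
  unfold cF; norm_num at this
  apply div_pos one_pos; nlinarith

lemma cF_le (i : ℕ × Fin 2) : cF i ≤ 1 / 3 := by
  have := dd_ge i.1
  unfold cF; norm_num at this
  apply one_div_le_one_div_of_le (by norm_num); nlinarith

lemma famF_eq (i : ℕ × Fin 2) (z : ℂ) :
    famF dd 2 i z = (cF i : ℂ) * (z + ((sg i.2 * dd i.1 : ℝ) : ℂ)) := by
  unfold famF fMap
  rw [norm_param, param_two, Complex.conj_ofReal]
  unfold cF
  push_cast
  rw [one_div, inv_mul_eq_div]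

lemma famF_sub (i : ℕ × Fin 2) (x y : ℂ) :
    ‖famF dd 2 i x - famF dd 2 i y‖ = cF i * ‖x - y‖ := by
  rw [famF_eq, famF_eq, ← mul_sub, norm_mul, Complex.norm_real, Real.norm_eq_abs,
    abs_of_pos (cF_pos i)]
  congr 2; ring

lemma famF_bound (i : ℕ × Fin 2) {z : ℂ} {r : ℝ} (hr : 1 ≤ r) (hr2 : r < 2) (hz : ‖z‖ ≤ r) :
    ‖famF dd 2 i z‖ ≤ r := by
  rw [famF_eq, norm_mul, Complex.norm_real, Real.norm_eq_abs, abs_of_pos (cF_pos i)]
  have h1 : ‖z + ((sg i.2 * dd i.1 : ℝ) : ℂ)‖ ≤ r + dd i.1 := by
    refine (norm_add_le _ _).trans ?_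
    have : ‖((sg i.2 * dd i.1 : ℝ) : ℂ)‖ = dd i.1 := by rw [← param_two, norm_param]
    linarith
  have hd := dd_ge i.1
  norm_num at hd
  unfold cF
  rw [one_div, inv_mul_eq_div, div_le_iff₀ (by nlinarith)]
  have e1 : 0 ≤ (r - 1) * (dd i.1 ^ 2 - 2) := mul_nonneg (by linarith) (by nlinarith)
  have e2 : 0 ≤ (dd i.1 - 2) * (dd i.1 + 1) := mul_nonneg (by linarith) (by linarith)
  nlinarith

lemma famF_hasDeriv (i : ℕ × Fin 2) (z : ℂ) : HasDerivAt (famF dd 2 i) (cF i : ℂ) z := by
  have h2 : famF dd 2 i = fun z => (cF i : ℂ) * (z + ((sg i.2 * dd i.1 : ℝ) : ℂ)) := by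
    funext z; exact famF_eq i z
  rw [h2]
  simpa using ((hasDerivAt_id' z).add_const ((sg i.2 * dd i.1 : ℝ) : ℂ)).const_mul (cF i : ℂ)

lemma wordF_hasDeriv (l : List (ℕ × Fin 2)) (z : ℂ) :
    HasDerivAt (wordMap (famF dd 2) l) (((l.map cF).prod : ℝ) : ℂ) z := by
  induction l generalizing z with
  | nil => simpa [wordMap] using hasDerivAt_id z
  | cons i l ih =>
    have h1 := (famF_hasDeriv i (wordMap (famF dd 2) l z)).comp z (ih z)
    rw [List.map_cons, List.prod_cons]
    push_cast
    exact h1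

lemma wordF_sub (l : List (ℕ × Fin 2)) (x y : ℂ) :
    ‖wordMap (famF dd 2) l x - wordMap (famF dd 2) l y‖ = (l.map cF).prod * ‖x - y‖ := by
  induction l generalizing x y with
  | nil => simp [wordMap]
  | cons i l ih =>
    show ‖famF dd 2 i (wordMap (famF dd 2) l x) - famF dd 2 i (wordMap (famF dd 2) l y)‖ = _
    rw [famF_sub, ih, List.map_cons, List.prod_cons, mul_assoc]

lemma cifs_F : IsCIFS (famF dd 2) where
  countable := inferInstance
  mapsTo := by
    intro i z hz
    rw [mem_X] at hz ⊢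
    exact famF_bound i le_rfl (by norm_num) hz
  injOn := by
    intro i x hx y hy hxy
    have h1 := famF_sub i x y
    rw [hxy, sub_self, norm_zero] at h1
    have h2 := cF_pos i
    have h3 : ‖x - y‖ = 0 := by
      rcases mul_eq_zero.mp h1.symm with h | h
      · exact absurd h h2.ne'
      · exact h
    exact sub_eq_zero.mp (norm_eq_zero.mp h3)
  lip := by
    refine ⟨1 / 3, by norm_num, ?_⟩
    intro i x _ y _
    rw [famF_sub]
    exact mul_le_mul_of_nonneg_right (cF_le i) (norm_nonneg _)
  disj := by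
    intro i j hij
    rw [Set.disjoint_left]
    have key : ∀ (i : ℕ × Fin 2) (x w : ℂ), ‖x‖ < 1 → famF dd 2 i x = w →
        ‖1 - ((sg i.2 * dd i.1 : ℝ) : ℂ) * w‖ < ‖w‖ := by
      intro i x w hx hw
      rw [famF_eq] at hw
      have hd := dd_ge i.1
      norm_num at hd
      set a : ℝ := sg i.2 * dd i.1 with ha
      have ha2 : a ^ 2 = dd i.1 ^ 2 := by
        have h1 : |sg i.2| ^ 2 = 1 := by rw [sg_abs]; norm_num
        rw [sq_abs] at h1
        rw [ha, mul_pow, h1, one_mul]
      have hpos : 0 < a ^ 2 - 1 := by rw [ha2]; nlinarith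
      have hc : (cF i : ℝ) * (a ^ 2 - 1) = 1 := by
        unfold cF; rw [← ha2]; field_simp
      have hx2 : x = ((a ^ 2 - 1 : ℝ) : ℂ) * w - (a : ℂ) := by
        rw [← hw]
        have : ((a ^ 2 - 1 : ℝ) : ℂ) * ((cF i : ℂ) * (x + (a : ℂ)))
            = (((cF i : ℝ) * (a ^ 2 - 1) : ℝ) : ℂ) * (x + (a : ℂ)) := by
          push_cast; ring
        rw [this, hc]; push_cast; ring
      have h1 : Complex.normSq x < 1 := by
        rw [Complex.normSq_eq_norm_sq]
        nlinarith [norm_nonneg x]
      rw [hx2, Complex.normSq_apply] at h1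
      simp only [Complex.sub_re, Complex.mul_re, Complex.ofReal_re, Complex.ofReal_im,
        Complex.sub_im, Complex.mul_im, zero_mul, sub_zero, add_zero] at h1
      have h2 : Complex.normSq (1 - (a : ℂ) * w) < Complex.normSq w := by
        rw [Complex.normSq_apply, Complex.normSq_apply]
        simp only [Complex.sub_re, Complex.mul_re, Complex.ofReal_re, Complex.ofReal_im,
          Complex.sub_im, Complex.mul_im, zero_mul, sub_zero, add_zero, Complex.one_re,
          Complex.one_im]
        have h3 : (a ^ 2 - 1) * ((a ^ 2 - 1) * (w.re * w.re + w.im * w.im)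
            - 2 * a * w.re + 1) < 0 := by nlinarith
        have h4 : (a ^ 2 - 1) * (w.re * w.re + w.im * w.im) - 2 * a * w.re + 1 < 0 := by
          by_contra hcon
          push Not at hcon
          have := mul_nonneg hpos.le hcon
          linarith
        nlinarith
      rw [Complex.normSq_eq_norm_sq, Complex.normSq_eq_norm_sq] at h2
      exact lt_of_pow_lt_pow_left₀ 2 (norm_nonneg _) h2
    rintro w ⟨x, hx, hxw⟩ ⟨y, hy, hyw⟩
    rw [intX, mem_ball_zero_iff] at hx hy
    have h1 := key i x w hx hxw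
    have h2 := key j y w hy hyw
    have hw : 0 < ‖w‖ := lt_of_le_of_lt (norm_nonneg _) h1
    have h3 := param_sep hij
    have h4 : ‖(((sg i.2 * dd i.1 - sg j.2 * dd j.1 : ℝ)) : ℂ) * w‖ < 2 * ‖w‖ := by
      have e : (((sg i.2 * dd i.1 - sg j.2 * dd j.1 : ℝ)) : ℂ) * w
          = (1 - ((sg j.2 * dd j.1 : ℝ) : ℂ) * w) - (1 - ((sg i.2 * dd i.1 : ℝ) : ℂ) * w) := by
        push_cast; ring
      rw [e]
      refine (norm_sub_le _ _).trans_lt ?_
      linarith
    rw [norm_mul, Complex.norm_real, Real.norm_eq_abs] at h4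
    have h5 := lt_of_mul_lt_mul_right h4 hw.le
    linarith
  ext := by
    refine ⟨Metric.ball 0 R1, famF dd 2, Metric.isOpen_ball, ?_, ?_, fun i => fun _ _ => rfl, ?_, ?_⟩
    · refine ⟨⟨0, Metric.mem_ball_self (by unfold R1; norm_num)⟩, ?_⟩
      exact (convex_ball (0 : ℂ) R1).isPreconnected
    · intro z hz
      rw [mem_X] at hz
      rw [mem_ball_zero_iff]; unfold R1; linarith
    · refine ⟨1, one_pos, fun i => ⟨?_, ?_, ?_, ?_, 1, ?_⟩⟩
      · intro z hz
        rw [mem_ball_zero_iff] at hz ⊢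
        rcases le_or_gt ‖z‖ 1 with h | h
        · have := famF_bound i le_rfl (by norm_num) h
          unfold R1; linarith
        · have := famF_bound i h.le (by unfold R1 at hz; linarith) le_rfl
          linarith
      · intro x hx y hy hxy
        have h1 := famF_sub i x y
        rw [hxy, sub_self, norm_zero] at h1
        have h2 := cF_pos i
        have h3 : ‖x - y‖ = 0 := by
          rcases mul_eq_zero.mp h1.symm with h | h
          · exact absurd h h2.ne'
          · exact h
        exact sub_eq_zero.mp (norm_eq_zero.mp h3)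
      · intro z _
        exact (famF_hasDeriv i z).differentiableAt.differentiableWithinAt
      · intro z _
        rw [(famF_hasDeriv i z).deriv]
        have := (cF_pos i).ne'
        exact_mod_cast this
      · intro x _ y _
        rw [(famF_hasDeriv i x).deriv, (famF_hasDeriv i y).deriv, sub_self, norm_zero]
        positivity
    · refine ⟨1, le_rfl, ?_⟩
      intro l x _ y _
      rw [(wordF_hasDeriv l x).deriv, (wordF_hasDeriv l y).deriv, one_mul]

end Pool.Agent.R226.CI
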