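import Mathlib

/-!
An abstract existence theorem for the zero of the pressure of a countable almost multiplicative
system of weights on words.
-/

namespace Pool.Agent.R226.CI

open Set Filter Topology

variable {I : Type*}

/-- almost multiplicative weights on words -/
structure Cocycle (N : List I → ℝ) (K q : ℝ) : Prop where
  nil : N [] = 1
  pos : ∀ l, 0 < N l
  hK : 1 ≤ K
  sub : ∀ l l', N (l ++ l') ≤ N l * N l'
  sup : ∀ l l', N l * N l' ≤ K * N (l ++ l')
  hq : q < 1
  letter : ∀ i, N [i] ≤ q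
  summ : ∀ t : ℝ, 0 < t → Summable (fun i => N [i] ^ t)

/-- partition function -/
noncomputable def Z (N : List I → ℝ) (n : ℕ) (t : ℝ) : ℝ := ∑' ω : Fin n → I, N (List.ofFn ω) ^ t

variable {N : List I → ℝ} {K q : ℝ}

lemma Cocycle.le_one (h : Cocycle N K q) (l : List I) : N l ≤ 1 := by
  induction l with
  | nil => exact h.nil.le
  | cons i l ih =>
    have h1 := h.sub [i] l
    have h2 := h.letter i
    have h3 := h.pos [i]
    have h4 := h.pos l
    have h5 := h.hq
    calc N (i :: l) ≤ N [i] * N l := h1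
      _ ≤ 1 * 1 := by
          apply mul_le_mul (by linarith) ih h4.le (by norm_num)
      _ = 1 := by norm_num

lemma Cocycle.summable (h : Cocycle N K q) (n : ℕ) {t : ℝ} (ht : 0 < t) :
    Summable (fun ω : Fin n → I => N (List.ofFn ω) ^ t) := by
  induction n with
  | zero => exact (hasSum_unique _).summable
  | succ n ih =>
    rw [← (Fin.appendEquiv n 1).summable_iff]
    have h1 : Summable (fun ω : Fin 1 → I => N [ω 0] ^ t) := by
      have := (Equiv.funUnique (Fin 1) I).summable_iff.mpr (h.summ t ht)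
      exact this
    have h2 := ih.mul_of_nonneg h1 (fun ω => Real.rpow_nonneg (h.pos _).le _)
      (fun ω => Real.rpow_nonneg (h.pos _).le _)
    refine Summable.of_nonneg_of_le (fun p => Real.rpow_nonneg (h.pos _).le _) (fun p => ?_) h2
    show N (List.ofFn (Fin.append p.1 p.2)) ^ t ≤ N (List.ofFn p.1) ^ t * N [p.2 0] ^ t
    rw [List.ofFn_fin_append, ← Real.mul_rpow (h.pos _).le (h.pos _).le]
    apply Real.rpow_le_rpow (h.pos _).le _ ht.le
    have h3 := h.sub (List.ofFn p.1) (List.ofFn p.2)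
    have h4 : List.ofFn p.2 = [p.2 0] := by simp
    rw [h4] at h3 ⊢
    exact h3

lemma Z_append (N : List I → ℝ) (n m : ℕ) (t : ℝ) :
    Z N (n + m) t = ∑' p : (Fin n → I) × (Fin m → I), N (List.ofFn p.1 ++ List.ofFn p.2) ^ t := by
  unfold Z
  rw [← (Fin.appendEquiv n m).tsum_eq]
  apply tsum_congr
  intro p
  show N (List.ofFn (Fin.append p.1 p.2)) ^ t = _
  rw [List.ofFn_fin_append]

lemma Cocycle.summable_append (h : Cocycle N K q) (n m : ℕ) {t : ℝ} (ht : 0 < t) :
    Summable (fun p : (Fin n → I) × (Fin m → I) => N (List.ofFn p.1 ++ List.ofFn p.2) ^ t) := by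
  have h1 := h.summable (n + m) ht
  rw [← (Fin.appendEquiv n m).summable_iff] at h1
  refine h1.congr (fun p => ?_)
  show N (List.ofFn (Fin.append p.1 p.2)) ^ t = _
  rw [List.ofFn_fin_append]

lemma Cocycle.Z_mul (h : Cocycle N K q) (n m : ℕ) {t : ℝ} (ht : 0 < t) :
    Z N n t * Z N m t = ∑' p : (Fin n → I) × (Fin m → I),
      N (List.ofFn p.1) ^ t * N (List.ofFn p.2) ^ t := by
  unfold Z
  apply tsum_mul_tsum_of_summable_norm
  · exact (h.summable n ht).norm
  · exact (h.summable m ht).norm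

lemma Cocycle.summable_mul (h : Cocycle N K q) (n m : ℕ) {t : ℝ} (ht : 0 < t) :
    Summable (fun p : (Fin n → I) × (Fin m → I) =>
      N (List.ofFn p.1) ^ t * N (List.ofFn p.2) ^ t) :=
  (h.summable n ht).mul_of_nonneg (h.summable m ht) (fun ω => Real.rpow_nonneg (h.pos _).le _)
      (fun ω => Real.rpow_nonneg (h.pos _).le _)

lemma Cocycle.Z_sub (h : Cocycle N K q) (n m : ℕ) {t : ℝ} (ht : 0 < t) :
    Z N (n + m) t ≤ Z N n t * Z N m t := by
  rw [Z_append, h.Z_mul n m ht]
  apply Summable.tsum_le_tsum _ (h.summable_append n m ht) (h.summable_mul n m ht)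
  intro p
  rw [← Real.mul_rpow (h.pos _).le (h.pos _).le]
  exact Real.rpow_le_rpow (h.pos _).le (h.sub _ _) ht.le

lemma Cocycle.Z_sup (h : Cocycle N K q) (n m : ℕ) {t : ℝ} (ht : 0 < t) :
    Z N n t * Z N m t ≤ K ^ t * Z N (n + m) t := by
  have hK0 : 0 < K := lt_of_lt_of_le one_pos h.hK
  rw [Z_append, h.Z_mul n m ht, ← tsum_mul_left]
  apply Summable.tsum_le_tsum _ (h.summable_mul n m ht) ((h.summable_append n m ht).mul_left _)
  intro p
  rw [← Real.mul_rpow (h.pos _).le (h.pos _).le, ← Real.mul_rpow hK0.le (h.pos _).le]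
  exact Real.rpow_le_rpow (mul_nonneg (h.pos _).le (h.pos _).le) (h.sup _ _) ht.le

lemma Cocycle.Z_zero (h : Cocycle N K q) (t : ℝ) : Z N 0 t = 1 := by
  unfold Z
  have : ∀ ω : Fin 0 → I, N (List.ofFn ω) ^ t = 1 := by
    intro ω; simp [h.nil]
  simp_rw [this]
  simp

lemma Cocycle.Z_nonneg (h : Cocycle N K q) (n : ℕ) (t : ℝ) : 0 ≤ Z N n t :=
  tsum_nonneg fun _ => Real.rpow_nonneg (h.pos _).le _

lemma Cocycle.Z_cont (h : Cocycle N K q) (n : ℕ) {t : ℝ} (ht : 0 < t) :
    ContinuousAt (Z N n) t := by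
  have h1 : ContinuousOn (Z N n) (Ici (t / 2)) := by
    unfold Z
    apply continuousOn_tsum (u := fun ω : Fin n → I => N (List.ofFn ω) ^ (t / 2))
    · intro ω
      exact (Real.continuous_const_rpow (h.pos _).ne').continuousOn
    · exact h.summable n (by linarith)
    · intro ω x hx
      rw [Real.norm_eq_abs, abs_of_nonneg (Real.rpow_nonneg (h.pos _).le _)]
      exact Real.rpow_le_rpow_of_exponent_ge (h.pos _) (h.le_one _) hx
  exact h1.continuousAt (Ici_mem_nhds (by linarith))

lemma Cocycle.Z_one (h : Cocycle N K q) (t : ℝ) : Z N 1 t = ∑' i, N [i] ^ t := by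
  unfold Z
  rw [← (Equiv.funUnique (Fin 1) I).tsum_eq]
  apply tsum_congr
  intro ω
  have : List.ofFn ω = [ω 0] := by simp
  rw [this]
  rfl

/-- existence of the zero of the pressure -/
theorem Cocycle.exists_zero (h : Cocycle N K q) {i j : I} (hij : i ≠ j) :
    ∃ t : ℝ, 0 ≤ t ∧ (∀ n : ℕ, Summable (fun ω : Fin n → I => N (List.ofFn ω) ^ t)) ∧
      Tendsto (fun n : ℕ => 1 / (n : ℝ) * Real.log (Z N n t)) atTop (𝓝 0) := by
  have hK0 : 0 < K := lt_of_lt_of_le one_pos h.hK
  -- small exponent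
  obtain ⟨t0, ht0, hs0⟩ : ∃ t0 : ℝ, 0 < t0 ∧ K ^ t0 ≤ N [i] ^ t0 + N [j] ^ t0 := by
    have hc : ContinuousAt (fun t : ℝ => N [i] ^ t + N [j] ^ t - K ^ t) 0 := by
      apply ContinuousAt.sub
      · exact ((Real.continuous_const_rpow (h.pos _).ne').add
          (Real.continuous_const_rpow (h.pos _).ne')).continuousAt
      · exact (Real.continuous_const_rpow hK0.ne').continuousAt
    have h0 : (0 : ℝ) < N [i] ^ (0 : ℝ) + N [j] ^ (0 : ℝ) - K ^ (0 : ℝ) := by
      rw [Real.rpow_zero, Real.rpow_zero, Real.rpow_zero]; norm_num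
    have h1 := hc.eventually (lt_mem_nhds h0)
    obtain ⟨ε, hε, hε2⟩ := Metric.eventually_nhds_iff.mp h1
    refine ⟨ε / 2, by linarith, ?_⟩
    have := hε2 (y := ε / 2) (by rw [Real.dist_eq, sub_zero, abs_of_pos (by linarith)]; linarith)
    linarith
  have hZ1 : K ^ t0 ≤ Z N 1 t0 := by
    rw [h.Z_one]
    refine hs0.trans ?_
    classical
    have := (h.summ t0 ht0).sum_le_tsum ({i, j} : Finset I)
      (fun k _ => Real.rpow_nonneg (h.pos _).le _)
    rw [Finset.sum_pair hij] at this
    exact this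
  have hA0 : ∀ n, 1 ≤ Z N n t0 := by
    intro n
    induction n with
    | zero => rw [h.Z_zero]
    | succ n ih =>
      have h1 := h.Z_sup n 1 ht0
      have hKt : 0 < K ^ t0 := Real.rpow_pos_of_pos hK0 _
      have h2 : K ^ t0 ≤ K ^ t0 * Z N (n + 1) t0 := by
        calc K ^ t0 ≤ Z N 1 t0 := hZ1
          _ = 1 * Z N 1 t0 := by ring
          _ ≤ Z N n t0 * Z N 1 t0 := mul_le_mul_of_nonneg_right ih (h.Z_nonneg 1 t0)
          _ ≤ _ := h1
      by_contra hcon
      push Not at hcon
      have := mul_lt_mul_of_pos_left hcon hKt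
      linarith
  -- large exponent
  obtain ⟨t1, ht1, hs1⟩ : ∃ t1 : ℝ, 0 < t1 ∧ ∀ t, t1 ≤ t → Z N 1 t < 1 := by
    have hq0 : 0 < q := lt_of_lt_of_le (h.pos [i]) (h.letter i)
    have hlim : Tendsto (fun t : ℝ => q ^ (t - 1) * Z N 1 1) atTop (𝓝 (0 * Z N 1 1)) := by
      apply Tendsto.mul_const
      have h1 := tendsto_rpow_atTop_of_base_lt_one q (by linarith) h.hq
      exact h1.comp (tendsto_atTop_add_const_right atTop (-1) tendsto_id)
    rw [zero_mul] at hlim
    have h2 := (hlim.eventually (gt_mem_nhds one_pos)).and (eventually_ge_atTop (1 : ℝ))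
    obtain ⟨t1, ht1⟩ := eventually_atTop.mp h2
    refine ⟨max t1 1, lt_of_lt_of_le one_pos (le_max_right _ _), fun t ht => ?_⟩
    have h3 := ht1 t ((le_max_left _ _).trans ht)
    have ht0' : 0 < t := lt_of_lt_of_le one_pos ((le_max_right _ _).trans ht)
    refine lt_of_le_of_lt ?_ h3.1
    rw [h.Z_one, h.Z_one, ← tsum_mul_left]
    apply Summable.tsum_le_tsum _ (h.summ t ht0') ((h.summ 1 one_pos).mul_left _)
    intro k
    have h4 : N [k] ^ t = N [k] ^ (t - 1) * N [k] ^ (1 : ℝ) := by
      rw [← Real.rpow_add (h.pos _)]; congr 1; ring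
    rw [h4]
    apply mul_le_mul_of_nonneg_right _ (Real.rpow_nonneg (h.pos _).le _)
    exact Real.rpow_le_rpow (h.pos _).le (h.letter k) (by linarith [h3.2])
  set A : Set ℝ := {t | 0 < t ∧ ∀ n, 1 ≤ Z N n t} with hA
  have hAne : A.Nonempty := ⟨t0, ht0, hA0⟩
  have hAbd : BddAbove A := by
    refine ⟨t1, fun t ht => ?_⟩
    by_contra hcon
    push Not at hcon
    have h1 := hs1 t hcon.le
    have h2 := ht.2 1
    linarith
  set ts := sSup A with hts
  have htspos : 0 < ts := lt_of_lt_of_le ht0 (le_csSup hAbd ⟨ht0, hA0⟩)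
  have hlow : ∀ n, 1 ≤ Z N n ts := by
    intro n
    by_contra hcon
    push Not at hcon
    have h1 := (h.Z_cont n htspos).eventually (gt_mem_nhds hcon)
    obtain ⟨ε, hε, hε2⟩ := Metric.eventually_nhds_iff.mp h1
    obtain ⟨a, ha, ha2⟩ := exists_lt_of_lt_csSup hAne (show ts - ε < sSup A by rw [← hts]; linarith)
    have h2 : a ≤ ts := le_csSup hAbd ha
    have h3 := hε2 (y := a) (by rw [Real.dist_eq, abs_of_nonpos (by linarith)]; linarith)
    have h4 := ha.2 n
    linarith
  have hup : ∀ n, Z N n ts ≤ K ^ ts := by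
    intro n
    by_contra hcon
    push Not at hcon
    have hc : ContinuousAt (fun t => Z N n t - K ^ t) ts :=
      (h.Z_cont n htspos).sub (Real.continuous_const_rpow hK0.ne').continuousAt
    have h1 := hc.eventually (lt_mem_nhds (show (0 : ℝ) < Z N n ts - K ^ ts by linarith))
    obtain ⟨ε, hε, hε2⟩ := Metric.eventually_nhds_iff.mp h1
    set t := ts + ε / 2 with ht
    have h2 : K ^ t < Z N n t := by
      have := hε2 (y := t) (by rw [Real.dist_eq, ht, abs_of_nonneg (by linarith)]; linarith)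
      linarith
    have htpos : 0 < t := by linarith
    have hKt : 1 ≤ K ^ t := Real.one_le_rpow h.hK htpos.le
    have hn : n ≠ 0 := by
      rintro rfl
      rw [h.Z_zero] at h2; linarith
    have hnA : t ∉ A := fun hmem => by
      have := le_csSup hAbd hmem
      rw [← hts] at this; linarith
    obtain ⟨m, hm⟩ : ∃ m, Z N m t < 1 := by
      by_contra hc2
      push Not at hc2
      exact hnA ⟨htpos, hc2⟩
    have hm0 : m ≠ 0 := by
      rintro rfl
      rw [h.Z_zero] at hm; linarith
    -- lower bound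
    have hgrow : ∀ k : ℕ, 1 ≤ k → K ^ t ≤ Z N (k * n) t := by
      intro k hk
      induction k, hk using Nat.le_induction with
      | base => rw [one_mul]; exact h2.le
      | succ k _ ih =>
        have h3 := h.Z_sup (k * n) n htpos
        have hKtp : 0 < K ^ t := by linarith
        have h4 : K ^ t * K ^ t ≤ K ^ t * Z N (k * n + n) t := by
          refine le_trans ?_ h3
          exact mul_le_mul ih h2.le hKtp.le (by linarith)
        rw [Nat.succ_mul]
        exact le_of_mul_le_mul_left h4 hKtp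
    have hdec : ∀ k : ℕ, 1 ≤ k → Z N (k * m) t < 1 := by
      intro k hk
      induction k, hk using Nat.le_induction with
      | base => rw [one_mul]; exact hm
      | succ k _ ih =>
        have h3 := h.Z_sub (k * m) m htpos
        rw [Nat.succ_mul]
        refine h3.trans_lt ?_
        have h4 := h.Z_nonneg (k * m) t
        have h5 := h.Z_nonneg m t
        nlinarith
    have h5 := hgrow m (by omega)
    have h6 := hdec n (by omega)
    rw [Nat.mul_comm] at h6
    linarith
  refine ⟨ts, htspos.le, fun n => h.summable n htspos, ?_⟩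
  have hsq : ∀ n : ℕ, 0 ≤ 1 / (n : ℝ) * Real.log (Z N n ts) ∧
      1 / (n : ℝ) * Real.log (Z N n ts) ≤ 1 / (n : ℝ) * Real.log (K ^ ts) := by
    intro n
    have h1 := hlow n
    have h2 := hup n
    constructor
    · exact mul_nonneg (by positivity) (Real.log_nonneg h1)
    · exact mul_le_mul_of_nonneg_left (Real.log_le_log (by linarith) h2) (by positivity)
  have hlim : Tendsto (fun n : ℕ => 1 / (n : ℝ) * Real.log (K ^ ts)) atTop (𝓝 (0 * Real.log (K ^ ts))) :=
    tendsto_one_div_atTop_nhds_zero_nat.mul_const _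
  rw [zero_mul] at hlim
  exact squeeze_zero (fun n => (hsq n).1) (fun n => (hsq n).2) hlim

end Pool.Agent.R226.CI
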