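import Pool.Agent.R226.CIB
import Pool.Agent.R226.CIC

/-!
Regularity of the Möbius system of the counterexample.
-/

namespace Pool.Agent.R226.CI

open Set Filter Topology

variable {I : Type*}

lemma wordMap_append (s : I → ℂ → ℂ) (l l' : List I) :
    wordMap s (l ++ l') = wordMap s l ∘ wordMap s l' := by
  induction l with
  | nil => rfl
  | cons i l ih =>
    show s i ∘ wordMap s (l ++ l') = (s i ∘ wordMap s l) ∘ wordMap s l'
    rw [ih]; rfl

lemma wordMap_mapsTo {s : I → ℂ → ℂ} (h : ∀ i, MapsTo (s i) X X) (l : List I) :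
    MapsTo (wordMap s l) X X := by
  induction l with
  | nil => exact mapsTo_id _
  | cons i l ih => exact (h i).comp ih

/-- abbreviation for the word maps of the Möbius system -/
noncomputable abbrev wG (l : List (ℕ × Fin 2)) : ℂ → ℂ := wordMap (famG dd 2) l

lemma one_lt_R2 : (1 : ℝ) < R2 := by unfold R2; norm_num
lemma one_le_R1 : (1 : ℝ) ≤ R1 := by unfold R1; norm_num

lemma wG_rep (l : List (ℕ × Fin 2)) : ∃ A B C E : ℂ, Rep (wG l) A B C E :=
  exists_rep (α := param dd 2) norm_param_ge l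

lemma wG_diff (l : List (ℕ × Fin 2)) {x : ℂ} (hx : x ∈ X) : DifferentiableAt ℂ (wG l) x := by
  obtain ⟨A, B, C, E, h⟩ := wG_rep l
  rw [mem_X] at hx
  exact (h.deriv (hx.trans_lt one_lt_R2)).differentiableAt

lemma wG_dist (l : List (ℕ × Fin 2)) {x y : ℂ} (hx : x ∈ X) (hy : y ∈ X) :
    ‖deriv (wG l) y‖ ≤ KK * ‖deriv (wG l) x‖ := by
  obtain ⟨A, B, C, E, h⟩ := wG_rep l
  rw [mem_X] at hx hy
  exact h.distortion (hx.trans one_le_R1) (hy.trans one_le_R1)

lemma wG_deriv_pos (l : List (ℕ × Fin 2)) {x : ℂ} (hx : x ∈ X) : 0 < ‖deriv (wG l) x‖ := by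
  obtain ⟨A, B, C, E, h⟩ := wG_rep l
  rw [mem_X] at hx
  rw [h.norm_deriv (hx.trans_lt one_lt_R2)]
  have := norm_pos_iff.mpr (h.ne x (hx.trans one_lt_R2.le))
  positivity

lemma zero_mem_X : (0 : ℂ) ∈ X := by rw [mem_X]; simp

lemma sG_bdd (l : List (ℕ × Fin 2)) : BddAbove (range fun x : X => ‖deriv (wG l) x‖) := by
  refine ⟨KK * ‖deriv (wG l) 0‖, ?_⟩
  rintro _ ⟨x, rfl⟩
  exact wG_dist l zero_mem_X x.2

lemma le_sG (l : List (ℕ × Fin 2)) {x : ℂ} (hx : x ∈ X) :
    ‖deriv (wG l) x‖ ≤ supDeriv (famG dd 2) l :=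
  le_ciSup (sG_bdd l) (⟨x, hx⟩ : X)

lemma sG_le (l : List (ℕ × Fin 2)) {x : ℂ} (hx : x ∈ X) :
    supDeriv (famG dd 2) l ≤ KK * ‖deriv (wG l) x‖ := by
  haveI : Nonempty X := ⟨⟨0, zero_mem_X⟩⟩
  exact ciSup_le fun y => wG_dist l hx y.2

lemma wG_append_deriv (l l' : List (ℕ × Fin 2)) {x : ℂ} (hx : x ∈ X) :
    ‖deriv (wG (l ++ l')) x‖ = ‖deriv (wG l) (wG l' x)‖ * ‖deriv (wG l') x‖ := by
  have h1 : wG (l ++ l') = wG l ∘ wG l' := wordMap_append _ _ _
  have hx' : wG l' x ∈ X := wordMap_mapsTo cifs_G.mapsTo l' hx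
  rw [h1, deriv_comp x (wG_diff l hx') (wG_diff l' hx), norm_mul]

lemma dd_sub_one_ge (n : ℕ) : (10 : ℝ) ^ (5 * n) ≤ dd n - 1 := by
  rcases n with _ | n
  · rw [dd_zero]; norm_num
  · rw [dd_succ]
    have h1 : (10 : ℝ) ^ (6 * (n + 1)) = 10 ^ (5 * (n + 1)) * 10 ^ (n + 1) := by
      rw [← pow_add]; congr 1; ring
    have h2 : (10 : ℝ) ≤ 10 ^ (n + 1) := by
      calc (10 : ℝ) = 10 ^ 1 := by norm_num
        _ ≤ 10 ^ (n + 1) := pow_le_pow_right₀ (by norm_num) (by omega)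
    have h3 : (1 : ℝ) ≤ 10 ^ (5 * (n + 1)) := one_le_pow₀ (by norm_num)
    rw [h1]
    nlinarith

lemma sG_letter (i : ℕ × Fin 2) : supDeriv (famG dd 2) [i] ≤ 1 / (dd i.1 - 1) ^ 2 := by
  haveI : Nonempty X := ⟨⟨0, zero_mem_X⟩⟩
  apply ciSup_le
  rintro ⟨x, hx⟩
  rw [mem_X] at hx
  have h1 : dd i.1 - 1 ≤ ‖x + param dd 2 i‖ := by
    have h1 := norm_sub_norm_le (param dd 2 i) (-x)
    rw [norm_neg, sub_neg_eq_add, add_comm (param dd 2 i) x, norm_param] at h1
    linarith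
  have h0 := dd_ge i.1
  norm_num at h0
  have h3 : x + param dd 2 i ≠ 0 := norm_pos_iff.mp (by linarith)
  have h4 : wordMap (famG dd 2) [i] = gMap (param dd 2 i) := rfl
  show ‖deriv (wordMap (famG dd 2) [i]) x‖ ≤ _
  rw [h4, (g_hasDeriv h3).deriv, norm_div, norm_neg, norm_one, norm_pow]
  apply one_div_le_one_div_of_le (by nlinarith)
  exact pow_le_pow_left₀ (by linarith) h1 2

lemma cocycle_G : Cocycle (supDeriv (famG dd 2)) (KK ^ 2) (1 / (1 + 1 / 10 ^ 6) ^ 2) where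
  nil := by
    haveI : Nonempty X := ⟨⟨0, zero_mem_X⟩⟩
    unfold supDeriv
    have : ∀ x : X, ‖deriv (wordMap (famG dd 2) []) (x : ℂ)‖ = 1 := by
      intro x
      show ‖deriv (id : ℂ → ℂ) (x : ℂ)‖ = 1
      rw [deriv_id, norm_one]
    simp_rw [this]
    exact ciSup_const
  pos := fun l => lt_of_lt_of_le (wG_deriv_pos l zero_mem_X) (le_sG l zero_mem_X)
  hK := by unfold KK; norm_num
  sub := by
    intro l l'
    haveI : Nonempty X := ⟨⟨0, zero_mem_X⟩⟩
    apply ciSup_le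
    rintro ⟨x, hx⟩
    have hx' : wG l' x ∈ X := wordMap_mapsTo cifs_G.mapsTo l' hx
    show ‖deriv (wG (l ++ l')) x‖ ≤ _
    rw [wG_append_deriv l l' hx]
    exact mul_le_mul (le_sG l hx') (le_sG l' hx) (norm_nonneg _)
      ((norm_nonneg _).trans (le_sG l hx'))
  sup := by
    intro l l'
    have hx := zero_mem_X
    have hx' : wG l' 0 ∈ X := wordMap_mapsTo cifs_G.mapsTo l' hx
    have h1 := sG_le l hx'
    have h2 := sG_le l' hx
    have h3 := le_sG (l ++ l') hx
    rw [wG_append_deriv l l' hx] at h3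
    have hK : 0 ≤ KK := by unfold KK; norm_num
    calc supDeriv (famG dd 2) l * supDeriv (famG dd 2) l'
        ≤ (KK * ‖deriv (wG l) (wG l' 0)‖) * (KK * ‖deriv (wG l') 0‖) :=
          mul_le_mul h1 h2 ((norm_nonneg _).trans (le_sG l' hx))
            (mul_nonneg hK (norm_nonneg _))
      _ = KK ^ 2 * (‖deriv (wG l) (wG l' 0)‖ * ‖deriv (wG l') 0‖) := by ring
      _ ≤ _ := mul_le_mul_of_nonneg_left h3 (by positivity)
  hq := by norm_num
  letter := by
    intro i
    refine (sG_letter i).trans ?_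
    have h0 := dd_ge i.1
    apply one_div_le_one_div_of_le (by positivity)
    apply pow_le_pow_left₀ (by positivity)
    linarith
  summ := by
    intro t ht
    set r : ℝ := ((1 : ℝ) / 10 ^ 10) ^ t with hr
    have hr0 : 0 ≤ r := by positivity
    have hr1 : r < 1 := Real.rpow_lt_one (by positivity) (by norm_num) ht
    have h1 : Summable (fun i : ℕ × Fin 2 => r ^ i.1 * (1 : ℝ)) := by
      apply Summable.mul_of_nonneg (summable_geometric_of_lt_one hr0 hr1)
        (f := fun n : ℕ => r ^ n) (g := fun _ : Fin 2 => (1 : ℝ))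
      · exact (hasSum_fintype _).summable
      · intro n; positivity
      · intro n; norm_num
    refine Summable.of_nonneg_of_le (fun i => ?_) (fun i => ?_) h1
    · apply Real.rpow_nonneg
      exact (norm_nonneg _).trans (le_sG [i] zero_mem_X)
    · rw [mul_one, hr, ← Real.rpow_natCast, ← Real.rpow_mul (by positivity), mul_comm t,
        Real.rpow_mul (by positivity), Real.rpow_natCast]
      apply Real.rpow_le_rpow ((norm_nonneg _).trans (le_sG [i] zero_mem_X)) _ ht.le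
      refine (sG_letter i).trans ?_
      rw [one_div_pow, ← pow_mul]
      apply one_div_le_one_div_of_le (by positivity)
      have h2 := dd_sub_one_ge i.1
      have h3 := pow_le_pow_left₀ (by positivity) h2 2
      rw [← pow_mul] at h3
      have h4 : 5 * i.1 * 2 = 10 * i.1 := by ring
      rwa [h4] at h3

theorem regular_G : Regular (famG dd 2) :=
  cocycle_G.exists_zero (i := (0, 0)) (j := (0, 1)) (by simp)

end Pool.Agent.R226.CI
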