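import Mathlib

/-!
Lower bound for the Hausdorff dimension of a set invariant under finitely many contractions of
the unit interval with separated images and known lower Lipschitz constants.
-/

namespace Pool.Agent.R226.CI

open Set Filter Topology
open scoped NNReal ENNReal

/-- data of the finite system on `[0,1]` -/
structure FIFS (M : ℕ) (φ : ℕ → ℝ → ℝ) (c p : ℕ → ℝ) (q δ s : ℝ) : Prop where
  maps : ∀ i < M, ∀ x ∈ Icc (0 : ℝ) 1, φ i x ∈ Icc (0 : ℝ) 1
  q0 : 0 ≤ q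
  q1 : q < 1
  contr : ∀ i < M, ∀ x ∈ Icc (0 : ℝ) 1, ∀ y ∈ Icc (0 : ℝ) 1, |φ i x - φ i y| ≤ q * |x - y|
  cpos : ∀ i < M, 0 < c i
  low : ∀ i < M, ∀ x ∈ Icc (0 : ℝ) 1, ∀ y ∈ Icc (0 : ℝ) 1, c i * |x - y| ≤ |φ i x - φ i y|
  δ0 : 0 < δ
  sep : ∀ i < M, ∀ j < M, i ≠ j → ∀ x ∈ Icc (0 : ℝ) 1, ∀ y ∈ Icc (0 : ℝ) 1,
    δ ≤ |φ i x - φ j y|
  s0 : 0 < s
  ppos : ∀ i < M, 0 < p i
  psum : ∑ i ∈ Finset.range M, p i = 1
  pc : ∀ i < M, p i ≤ c i ^ s
  m : ∃ m : ℝ, m < 1 ∧ ∀ i < M, p i ≤ m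

/-- partial sums of the weights -/
noncomputable def PP (p : ℕ → ℝ) (k : ℕ) : ℝ := ∑ i ∈ Finset.range k, p i

variable {M : ℕ} {φ : ℕ → ℝ → ℝ} {c p : ℕ → ℝ} {q δ s : ℝ}

open Classical in
/-- first digit -/
noncomputable def dig (p : ℕ → ℝ) (t : ℝ) : ℕ :=
  if h : ∃ k, t < PP p (k + 1) then Nat.find h else 0

/-- shift -/
noncomputable def sh (p : ℕ → ℝ) (t : ℝ) : ℝ := (t - PP p (dig p t)) / p (dig p t)

lemma FIFS.Mpos (h : FIFS M φ c p q δ s) : 0 < M := by
  rcases Nat.eq_zero_or_pos M with h0 | h0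
  · have := h.psum
    rw [h0] at this; simp at this
  · exact h0

lemma FIFS.dig_spec (h : FIFS M φ c p q δ s) {t : ℝ} (ht : t ∈ Ico (0 : ℝ) 1) :
    dig p t < M ∧ PP p (dig p t) ≤ t ∧ t < PP p (dig p t) + p (dig p t) := by
  classical
  have hM := h.Mpos
  have hex : ∃ k, t < PP p (k + 1) := ⟨M - 1, by
    have : M - 1 + 1 = M := by omega
    rw [this]; unfold PP; rw [h.psum]; exact ht.2⟩
  have hd : dig p t = Nat.find hex := by unfold dig; rw [dif_pos hex]
  rw [hd]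
  refine ⟨?_, ?_, ?_⟩
  · have h1 : Nat.find hex ≤ M - 1 := Nat.find_min' hex (by
      have : M - 1 + 1 = M := by omega
      rw [this]; unfold PP; rw [h.psum]; exact ht.2)
    omega
  · rcases Nat.eq_zero_or_pos (Nat.find hex) with h0 | h0
    · rw [h0]; unfold PP; simp; exact ht.1
    · have h1 := Nat.find_min hex (m := Nat.find hex - 1) (by omega)
      have h2 : Nat.find hex - 1 + 1 = Nat.find hex := by omega
      rw [h2] at h1
      exact not_lt.mp h1
  · have h1 := Nat.find_spec hex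
    unfold PP at h1 ⊢
    rw [Finset.sum_range_succ] at h1
    exact h1

lemma FIFS.sh_mem (h : FIFS M φ c p q δ s) {t : ℝ} (ht : t ∈ Ico (0 : ℝ) 1) :
    sh p t ∈ Ico (0 : ℝ) 1 := by
  obtain ⟨h1, h2, h3⟩ := h.dig_spec ht
  have hp := h.ppos _ h1
  unfold sh
  constructor
  · exact div_nonneg (by linarith) hp.le
  · rw [div_lt_one hp]; linarith

/-- approximations of the coding map -/
noncomputable def zz (φ : ℕ → ℝ → ℝ) (p : ℕ → ℝ) : ℕ → ℝ → ℝ
  | 0, _ => 0
  | k + 1, t => φ (dig p t) (zz φ p k (sh p t))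

lemma FIFS.zz_mem (h : FIFS M φ c p q δ s) (k : ℕ) : ∀ {t : ℝ}, t ∈ Ico (0 : ℝ) 1 →
    zz φ p k t ∈ Icc (0 : ℝ) 1 := by
  induction k with
  | zero => intro t _; exact ⟨le_refl _, zero_le_one⟩
  | succ k ih => intro t ht; exact h.maps _ (h.dig_spec ht).1 _ (ih (h.sh_mem ht))

lemma FIFS.zz_step (h : FIFS M φ c p q δ s) (k : ℕ) : ∀ {t : ℝ}, t ∈ Ico (0 : ℝ) 1 →
    |zz φ p k t - zz φ p (k + 1) t| ≤ 1 * q ^ k := by
  induction k with
  | zero =>
    intro t ht
    have h1 := h.zz_mem 0 ht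
    have h2 := h.zz_mem (0 + 1) ht
    rw [pow_zero, mul_one, abs_le]
    constructor <;> linarith [h1.1, h1.2, h2.1, h2.2]
  | succ k ih =>
    intro t ht
    have hs := h.sh_mem ht
    have h1 := h.contr _ (h.dig_spec ht).1 _ (h.zz_mem k hs) _ (h.zz_mem (k + 1) hs)
    have h2 := ih hs
    calc |zz φ p (k + 1) t - zz φ p (k + 1 + 1) t| 
        ≤ q * |zz φ p k (sh p t) - zz φ p (k + 1) (sh p t)| := h1
      _ ≤ q * (1 * q ^ k) := mul_le_mul_of_nonneg_left h2 h.q0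
      _ = 1 * q ^ (k + 1) := by rw [pow_succ]; ring

/-- coding map -/
noncomputable def YY (φ : ℕ → ℝ → ℝ) (p : ℕ → ℝ) (t : ℝ) : ℝ := limUnder atTop fun k => zz φ p k t

lemma FIFS.tendsto (h : FIFS M φ c p q δ s) {t : ℝ} (ht : t ∈ Ico (0 : ℝ) 1) :
    Tendsto (fun k => zz φ p k t) atTop (𝓝 (YY φ p t)) := by
  have hc : CauchySeq fun k => zz φ p k t :=
    cauchySeq_of_le_geometric q 1 h.q1 (fun k => h.zz_step k ht)
  exact hc.tendsto_limUnder

lemma FIFS.YY_mem (h : FIFS M φ c p q δ s) {t : ℝ} (ht : t ∈ Ico (0 : ℝ) 1) :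
    YY φ p t ∈ Icc (0 : ℝ) 1 :=
  isClosed_Icc.mem_of_tendsto (h.tendsto ht) (Eventually.of_forall fun k => h.zz_mem k ht)

lemma FIFS.YY_eq (h : FIFS M φ c p q δ s) {t : ℝ} (ht : t ∈ Ico (0 : ℝ) 1) :
    YY φ p t = φ (dig p t) (YY φ p (sh p t)) := by
  have hs := h.sh_mem ht
  have h1 : Tendsto (fun k => zz φ p (k + 1) t) atTop (𝓝 (YY φ p t)) :=
    (h.tendsto ht).comp (tendsto_add_atTop_nat 1)
  have h2 : Tendsto (fun k => zz φ p (k + 1) t) atTop (𝓝 (φ (dig p t) (YY φ p (sh p t)))) := by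
    rw [tendsto_iff_dist_tendsto_zero]
    have h3 := (tendsto_iff_dist_tendsto_zero.mp (h.tendsto hs)).const_mul q
    rw [mul_zero] at h3
    refine squeeze_zero (fun k => dist_nonneg) (fun k => ?_) h3
    rw [Real.dist_eq, Real.dist_eq]
    exact h.contr _ (h.dig_spec ht).1 _ (h.zz_mem k hs) _ (h.YY_mem hs)
  exact tendsto_nhds_unique h1 h2

lemma FIFS.inv_holder (h : FIFS M φ c p q δ s) {t t' : ℝ} (ht : t ∈ Ico (0 : ℝ) 1)
    (ht' : t' ∈ Ico (0 : ℝ) 1) : |t - t'| ≤ (1 / δ) ^ s * |YY φ p t - YY φ p t'| ^ s := by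
  obtain ⟨m0, hm1', hmp'⟩ := h.m
  set m := max m0 0 with hm
  have hm1 : m < 1 := max_lt hm1' one_pos
  have hm0 : 0 ≤ m := le_max_right _ _
  have hmp : ∀ i < M, p i ≤ m := fun i hi => (hmp' i hi).trans (le_max_left _ _)
  have hC : 0 < (1 / δ) ^ s := Real.rpow_pos_of_pos (one_div_pos.mpr h.δ0) _
  have key : ∀ n : ℕ, ∀ t ∈ Ico (0 : ℝ) 1, ∀ t' ∈ Ico (0 : ℝ) 1,
      |t - t'| ≤ (1 / δ) ^ s * |YY φ p t - YY φ p t'| ^ s ∨ |t - t'| ≤ m ^ n := by
    intro n
    induction n with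
    | zero =>
      intro t ht t' ht'
      right
      rw [pow_zero, abs_le]; constructor <;> linarith [ht.1, ht.2, ht'.1, ht'.2]
    | succ n ih =>
      intro t ht t' ht'
      obtain ⟨a1, a2, a3⟩ := h.dig_spec ht
      obtain ⟨b1, b2, b3⟩ := h.dig_spec ht'
      have hs := h.sh_mem ht
      have hs' := h.sh_mem ht'
      by_cases hd : dig p t = dig p t'
      · have hp := h.ppos _ a1
        have e1 : t - t' = p (dig p t) * (sh p t - sh p t') := by
          unfold sh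
          rw [← hd]
          field_simp
          ring
        have e2 : |t - t'| = p (dig p t) * |sh p t - sh p t'| := by
          rw [e1, abs_mul, abs_of_pos hp]
        have e3 : c (dig p t) * |YY φ p (sh p t) - YY φ p (sh p t')|
            ≤ |YY φ p t - YY φ p t'| := by
          rw [h.YY_eq ht, h.YY_eq ht', ← hd]
          exact h.low _ a1 _ (h.YY_mem hs) _ (h.YY_mem hs')
        rcases ih _ hs _ hs' with h1 | h1
        · left
          have hcp := h.cpos _ a1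
          calc |t - t'| = p (dig p t) * |sh p t - sh p t'| := e2
            _ ≤ c (dig p t) ^ s * ((1 / δ) ^ s * |YY φ p (sh p t) - YY φ p (sh p t')| ^ s) :=
                mul_le_mul (h.pc _ a1) h1 (abs_nonneg _) (Real.rpow_nonneg hcp.le _)
            _ = (1 / δ) ^ s * (c (dig p t) * |YY φ p (sh p t) - YY φ p (sh p t')|) ^ s := by
                rw [Real.mul_rpow hcp.le (abs_nonneg _)]; ring
            _ ≤ (1 / δ) ^ s * |YY φ p t - YY φ p t'| ^ s := by
                apply mul_le_mul_of_nonneg_left _ hC.le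
                exact Real.rpow_le_rpow (mul_nonneg hcp.le (abs_nonneg _)) e3 h.s0.le
        · right
          rw [e2, pow_succ, mul_comm (m ^ n)]
          exact mul_le_mul (hmp _ a1) h1 (abs_nonneg _) hm0
      · left
        have h1 : δ ≤ |YY φ p t - YY φ p t'| := by
          rw [h.YY_eq ht, h.YY_eq ht']
          exact h.sep _ a1 _ b1 hd _ (h.YY_mem hs) _ (h.YY_mem hs')
        have h2 : |t - t'| ≤ 1 := by
          rw [abs_le]; constructor <;> linarith [ht.1, ht.2, ht'.1, ht'.2]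
        have hδ := h.δ0
        have h3 : 1 ≤ (1 / δ) ^ s * |YY φ p t - YY φ p t'| ^ s := by
          rw [← Real.mul_rpow (by positivity) (abs_nonneg _)]
          apply Real.one_le_rpow _ h.s0.le
          rw [div_mul_eq_mul_div, one_mul, one_le_div hδ]
          exact h1
        linarith
  rcases eq_or_ne t t' with h1 | h1
  · subst h1
    simp only [sub_self, abs_zero]
    exact mul_nonneg hC.le (Real.rpow_nonneg le_rfl _)
  · have h2 : 0 < |t - t'| := abs_pos.mpr (sub_ne_zero.mpr h1)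
    obtain ⟨n, hn⟩ := exists_pow_lt_of_lt_one h2 hm1
    rcases key n t ht t' ht' with h3 | h3
    · exact h3
    · linarith

/-- the invariant set -/
theorem FIFS.exists_set (h : FIFS M φ c p q δ s) :
    ∃ E ⊆ Icc (0 : ℝ) 1, (∀ x ∈ E, ∃ i, ∃ y ∈ E, x = φ i y) ∧ ENNReal.ofReal s ≤ dimH E := by
  classical
  set E := YY φ p '' Ico (0 : ℝ) 1 with hE
  refine ⟨E, ?_, ?_, ?_⟩
  · rintro _ ⟨t, ht, rfl⟩; exact h.YY_mem ht
  · rintro _ ⟨t, ht, rfl⟩
    exact ⟨dig p t, YY φ p (sh p t), ⟨sh p t, h.sh_mem ht, rfl⟩, h.YY_eq ht⟩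
  · have hinj : InjOn (YY φ p) (Ico (0 : ℝ) 1) := by
      intro t ht t' ht' he
      have h1 := h.inv_holder ht ht'
      rw [he, sub_self, abs_zero, Real.zero_rpow h.s0.ne', mul_zero] at h1
      have h2 := abs_nonneg (t - t')
      exact sub_eq_zero.mp (abs_eq_zero.mp (le_antisymm h1 h2))
    set H := Function.invFunOn (YY φ p) (Ico (0 : ℝ) 1) with hH
    have hleft : ∀ t ∈ Ico (0 : ℝ) 1, H (YY φ p t) = t := fun t ht => hinj.leftInvOn_invFunOn ht
    have hC : 0 ≤ (1 / δ) ^ s := Real.rpow_nonneg (one_div_nonneg.mpr h.δ0.le) _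
    set Cn : ℝ≥0 := Real.toNNReal ((1 / δ) ^ s) with hCn
    set sn : ℝ≥0 := Real.toNNReal s with hsn
    have hsn' : (sn : ℝ) = s := Real.coe_toNNReal _ h.s0.le
    have hHol : HolderOnWith Cn sn H E := by
      rintro _ ⟨t, ht, rfl⟩ _ ⟨t', ht', rfl⟩
      rw [hleft t ht, hleft t' ht', edist_dist, edist_dist]
      have h1 := h.inv_holder ht ht'
      have h2 : (Cn : ℝ≥0∞) = ENNReal.ofReal ((1 / δ) ^ s) := rfl
      rw [h2, ENNReal.ofReal_rpow_of_nonneg dist_nonneg (NNReal.coe_nonneg _),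
        ← ENNReal.ofReal_mul hC, hsn']
      exact ENNReal.ofReal_le_ofReal h1
    have hs0 : 0 < sn := Real.toNNReal_pos.mpr h.s0
    have h1 := hHol.dimH_image_le hs0
    have h2 : dimH (Ico (0 : ℝ) 1) = 1 := by
      rw [Real.dimH_of_nonempty_interior]
      · simp
      · rw [interior_Ico]; exact ⟨1 / 2, by norm_num⟩
    have h3 : Ico (0 : ℝ) 1 ⊆ H '' E := by
      intro t ht
      exact ⟨YY φ p t, ⟨t, ht, rfl⟩, hleft t ht⟩
    have h5 : (sn : ℝ≥0∞) = ENNReal.ofReal s := rfl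
    have h4 : (1 : ℝ≥0∞) ≤ dimH E / (sn : ℝ≥0∞) := by
      rw [← h2]; exact (dimH_mono h3).trans h1
    rw [h5] at h4
    rw [ENNReal.le_div_iff_mul_le (Or.inl (ENNReal.ofReal_pos.mpr h.s0).ne')
      (Or.inl ENNReal.ofReal_ne_top), one_mul] at h4
    exact h4

end Pool.Agent.R226.CI
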