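import Pool.Agent.R226.CID
import Pool.Agent.R226.CIE

/-!
Lower bound for the dimension of the limit set of the Möbius system.
-/

namespace Pool.Agent.R226.CI

open Set Filter Topology

/-- first parameter -/
noncomputable def d0 : ℝ := 2 + 1 / 10 ^ 6

/-- `A(y) = 1/(d+y)` -/
noncomputable def mA (y : ℝ) : ℝ := 1 / (d0 + y)
/-- `B(y) = 1/(d-y)` -/
noncomputable def mB (y : ℝ) : ℝ := 1 / (d0 - y)
/-- `φ_n = B^n A` -/
noncomputable def ph (n : ℕ) (y : ℝ) : ℝ := mB^[n] (mA y)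

/-- lower bounds times `10^5` -/
def tab : List ℕ := [24598, 12861, 8387, 6093, 4721, 3817, 3182, 2714, 2356, 2074, 1847, 1661, 1506, 1375, 1263, 1167, 1083, 1009, 943, 885, 833, 786, 744, 705, 670, 638, 609, 582, 557, 533, 512, 492, 473, 456, 440, 424, 410, 396, 384, 371, 360, 349, 339, 329, 320, 311, 303, 295, 288, 280, 273, 267, 260, 254, 248, 243, 237, 232, 227, 222]

/-- upper bounds times `100` -/
def VV (n : ℕ) : ℕ := 200 * n + 301 + (n + 1) ^ 3 / 10000

lemma tab_ok : ∀ n < 60, (tab.getD n 0) ^ 11 * (VV n) ^ 14 ≤ 10 ^ 83 := by decide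

lemma tab_sum : 10 ^ 5 ≤ ∑ n ∈ Finset.range 60, tab.getD n 0 := by decide

/-- comparison sequence: `v(m) = 1 + 2m + 10^{-6} m^3` -/
noncomputable def vv (m : ℕ) : ℝ := 1 + 2 * m + (m : ℝ) ^ 3 / 10 ^ 6

lemma vv_pos (m : ℕ) : 0 < vv m := by unfold vv; positivity

lemma vv_step {m : ℕ} (h1 : 1 ≤ m) (h2 : m ≤ 100) : d0 * vv m - vv (m - 1) ≤ vv (m + 1) := by
  obtain ⟨k, rfl⟩ : ∃ k, m = k + 1 := ⟨m - 1, by omega⟩
  have hk : (k : ℝ) ≤ 99 := by exact_mod_cast (by omega : k ≤ 99)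
  have hk0 : (0 : ℝ) ≤ k := Nat.cast_nonneg k
  rw [Nat.add_sub_cancel]
  unfold vv d0
  push_cast
  have h3 : ((k : ℝ) + 1) ^ 3 ≤ 10 ^ 6 := by
    calc ((k : ℝ) + 1) ^ 3 ≤ (100 : ℝ) ^ 3 := pow_le_pow_left₀ (by linarith) (by linarith) 3
      _ = 10 ^ 6 := by norm_num
  nlinarith

lemma mA_mem {y : ℝ} (hy : y ∈ Icc (0 : ℝ) 1) : mA y ∈ Icc (0 : ℝ) 1 := by
  have h1 := hy.1
  unfold mA d0
  constructor
  · positivity
  · rw [div_le_one (by positivity)]; norm_num; linarith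

lemma mB_mem {y : ℝ} (hy : y ∈ Icc (0 : ℝ) 1) : mB y ∈ Icc (0 : ℝ) 1 := by
  have h1 := hy.2
  have h2 : 0 < d0 - y := by unfold d0; norm_num; linarith
  unfold mB
  constructor
  · positivity
  · rw [div_le_one h2]; unfold d0; norm_num; linarith

lemma ph_mem (n : ℕ) {y : ℝ} (hy : y ∈ Icc (0 : ℝ) 1) : ph n y ∈ Icc (0 : ℝ) 1 := by
  induction n with
  | zero => exact mA_mem hy
  | succ n ih => unfold ph at *; rw [Function.iterate_succ_apply']; exact mB_mem ih

lemma ph_succ (n : ℕ) (y : ℝ) : ph (n + 1) y = mB (ph n y) := by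
  unfold ph; rw [Function.iterate_succ_apply']

/-- lower bound for the orbit -/
lemma ph_ge {n : ℕ} (hn : n ≤ 60) {y : ℝ} (hy : y ∈ Icc (0 : ℝ) 1) :
    vv n / vv (n + 1) ≤ ph n y := by
  induction n with
  | zero =>
    have h1 : vv 0 = 1 := by unfold vv; norm_num
    rw [h1]
    show 1 / vv (0 + 1) ≤ mA y
    unfold mA
    apply one_div_le_one_div_of_le
    · unfold d0; linarith [hy.1]
    · unfold vv d0; norm_num; linarith [hy.2]
  | succ n ih =>
    rw [ph_succ]
    have h1 := ih (by omega)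
    have h2 := ph_mem n hy
    have h3 := vv_pos (n + 1)
    have h4 := vv_step (m := n + 1) (by omega) (by omega)
    rw [Nat.add_sub_cancel] at h4
    have h5 : 0 < d0 - ph n y := by unfold d0; norm_num; linarith [h2.2]
    unfold mB
    rw [div_le_div_iff₀ (vv_pos _) h5, one_mul]
    have h6 : vv n ≤ ph n y * vv (n + 1) := by
      rwa [div_le_iff₀ h3] at h1
    nlinarith

lemma mA_sub {x y : ℝ} (hx : x ∈ Icc (0 : ℝ) 1) (hy : y ∈ Icc (0 : ℝ) 1) :
    |mA x - mA y| = mA x * mA y * |x - y| := by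
  have h1 : 0 < d0 + x := by unfold d0; linarith [hx.1]
  have h2 : 0 < d0 + y := by unfold d0; linarith [hy.1]
  have h3 : mA x - mA y = mA x * mA y * (-(x - y)) := by
    unfold mA; field_simp; ring
  rw [h3, abs_mul, abs_neg, abs_of_nonneg (mul_nonneg (mA_mem hx).1 (mA_mem hy).1)]

lemma mB_sub {x y : ℝ} (hx : x ∈ Icc (0 : ℝ) 1) (hy : y ∈ Icc (0 : ℝ) 1) :
    |mB x - mB y| = mB x * mB y * |x - y| := by
  have h1 : 0 < d0 - x := by unfold d0; norm_num; linarith [hx.2]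
  have h2 : 0 < d0 - y := by unfold d0; norm_num; linarith [hy.2]
  have h3 : mB x - mB y = mB x * mB y * (x - y) := by
    unfold mB; field_simp; ring
  rw [h3, abs_mul, abs_of_nonneg (mul_nonneg (mB_mem hx).1 (mB_mem hy).1)]

lemma ph_low {n : ℕ} (hn : n ≤ 60) {x y : ℝ} (hx : x ∈ Icc (0 : ℝ) 1) (hy : y ∈ Icc (0 : ℝ) 1) :
    1 / vv (n + 1) ^ 2 * |x - y| ≤ |ph n x - ph n y| := by
  induction n with
  | zero =>
    show 1 / vv (0 + 1) ^ 2 * |x - y| ≤ |mA x - mA y|
    rw [mA_sub hx hy]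
    apply mul_le_mul_of_nonneg_right _ (abs_nonneg _)
    have h1 := ph_ge (n := 0) (by omega) hx
    have h2 := ph_ge (n := 0) (by omega) hy
    have h3 : vv 0 = 1 := by unfold vv; norm_num
    rw [h3] at h1 h2
    have h4 : (0 : ℝ) ≤ 1 / vv (0 + 1) := by have := vv_pos (0 + 1); positivity
    calc 1 / vv (0 + 1) ^ 2 = (1 / vv (0 + 1)) * (1 / vv (0 + 1)) := by ring
      _ ≤ mA x * mA y := mul_le_mul h1 h2 h4 (mA_mem hx).1
  | succ n ih =>
    rw [ph_succ, ph_succ, mB_sub (ph_mem n hx) (ph_mem n hy), ← ph_succ, ← ph_succ]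
    have h0 := ih (by omega)
    have h1 := ph_ge hn hx
    have h2 := ph_ge hn hy
    have h3 := vv_pos (n + 1)
    have h4 := vv_pos (n + 1 + 1)
    have h5 : 0 ≤ vv (n + 1) / vv (n + 1 + 1) := by positivity
    calc 1 / vv (n + 1 + 1) ^ 2 * |x - y|
        = (vv (n + 1) / vv (n + 1 + 1)) * (vv (n + 1) / vv (n + 1 + 1))
            * (1 / vv (n + 1) ^ 2 * |x - y|) := by field_simp
      _ ≤ ph (n + 1) x * ph (n + 1) y * |ph n x - ph n y| := by
          apply mul_le_mul _ h0 (by positivity)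
            (mul_nonneg (ph_mem _ hx).1 (ph_mem _ hy).1)
          exact mul_le_mul h1 h2 h5 (ph_mem _ hx).1

lemma ph_contr (n : ℕ) {x y : ℝ} (hx : x ∈ Icc (0 : ℝ) 1) (hy : y ∈ Icc (0 : ℝ) 1) :
    |ph n x - ph n y| ≤ 1 / 4 * |x - y| := by
  induction n with
  | zero =>
    show |mA x - mA y| ≤ _
    rw [mA_sub hx hy]
    apply mul_le_mul_of_nonneg_right _ (abs_nonneg _)
    have h1 : mA x ≤ 1 / 2 := by
      unfold mA; apply one_div_le_one_div_of_le (by norm_num); unfold d0; norm_num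
      linarith [hx.1]
    have h2 : mA y ≤ 1 / 2 := by
      unfold mA; apply one_div_le_one_div_of_le (by norm_num); unfold d0; norm_num
      linarith [hy.1]
    have h3 := (mA_mem hx).1
    have h4 := (mA_mem hy).1
    nlinarith
  | succ n ih =>
    rw [ph_succ, ph_succ, mB_sub (ph_mem n hx) (ph_mem n hy)]
    have h1 := mB_mem (ph_mem n hx)
    have h2 := mB_mem (ph_mem n hy)
    have h3 : mB (ph n x) * mB (ph n y) ≤ 1 := by nlinarith [h1.1, h1.2, h2.1, h2.2]
    calc mB (ph n x) * mB (ph n y) * |ph n x - ph n y| ≤ 1 * |ph n x - ph n y| :=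
          mul_le_mul_of_nonneg_right h3 (abs_nonneg _)
      _ ≤ _ := by rw [one_mul]; exact ih

/-- iterates of `B` expand from below -/
lemma iter_low (k : ℕ) {u v : ℝ} (hu : u ∈ Icc (0 : ℝ) 1) (hv : v ∈ Icc (0 : ℝ) 1) :
    (1 / 9) ^ k * |u - v| ≤ |mB^[k] u - mB^[k] v| := by
  induction k generalizing u v with
  | zero => simp
  | succ k ih =>
    rw [Function.iterate_succ_apply, Function.iterate_succ_apply]
    have h1 := ih (mB_mem hu) (mB_mem hv)
    refine le_trans ?_ h1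
    rw [mB_sub hu hv, pow_succ, mul_assoc]
    apply mul_le_mul_of_nonneg_left _ (by positivity)
    apply mul_le_mul_of_nonneg_right _ (abs_nonneg _)
    have h2 : 1 / 3 ≤ mB u := by
      unfold mB; apply one_div_le_one_div_of_le
      · unfold d0; norm_num; linarith [hu.2]
      · unfold d0; norm_num; linarith [hu.1]
    have h3 : 1 / 3 ≤ mB v := by
      unfold mB; apply one_div_le_one_div_of_le
      · unfold d0; norm_num; linarith [hv.2]
      · unfold d0; norm_num; linarith [hv.1]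
    nlinarith

lemma ph_succ_ge (k : ℕ) {y : ℝ} (hy : y ∈ Icc (0 : ℝ) 1) : 11 / 20 ≤ ph (k + 1) y := by
  have hA : ∀ k, 1 / 4 ≤ ph k y := by
    intro k
    rcases k with _ | k
    · show 1 / 4 ≤ mA y
      unfold mA; apply one_div_le_one_div_of_le
      · unfold d0; norm_num; linarith [hy.1]
      · unfold d0; norm_num; linarith [hy.2]
    · rw [ph_succ]
      have h1 := ph_mem k hy
      unfold mB; apply one_div_le_one_div_of_le
      · unfold d0; norm_num; linarith [h1.2]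
      · unfold d0; norm_num; linarith [h1.1]
  rw [ph_succ]
  have h1 := hA k
  have h2 := ph_mem k hy
  unfold mB
  rw [le_div_iff₀ (by unfold d0; norm_num; linarith [h2.2])]
  unfold d0; norm_num; linarith

lemma ph_sep_lt {i j : ℕ} (hij : i < j) (hj : j < 60) {x y : ℝ} (hx : x ∈ Icc (0 : ℝ) 1)
    (hy : y ∈ Icc (0 : ℝ) 1) : (1 / 9) ^ 60 * (1 / 20) ≤ |ph i x - ph j y| := by
  obtain ⟨k, rfl⟩ : ∃ k, j = i + (k + 1) := ⟨j - i - 1, by omega⟩
  have h1 : ph (i + (k + 1)) y = mB^[i] (ph (k + 1) y) := by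
    unfold ph; rw [Function.iterate_add_apply]
  rw [h1]
  have h2 := iter_low i (mA_mem hx) (ph_mem (k + 1) hy)
  refine le_trans ?_ h2
  have h3 : 1 / 20 ≤ |mA x - ph (k + 1) y| := by
    have h4 := ph_succ_ge k hy
    have h5 : mA x ≤ 1 / 2 := by
      unfold mA; apply one_div_le_one_div_of_le (by norm_num); unfold d0; norm_num
      linarith [hx.1]
    rw [abs_sub_comm]
    exact le_trans (by linarith) (le_abs_self _)
  apply mul_le_mul _ h3 (by norm_num) (by positivity)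
  exact pow_le_pow_of_le_one (by norm_num) (by norm_num) (by omega)

lemma vv_le_VV {n : ℕ} (hn : n < 60) : vv (n + 1) ≤ (VV n : ℝ) / 100 := by
  have h1 : ((n + 1) ^ 3 / 10000 + 1) * 10000 ≥ (n + 1) ^ 3 := by omega
  have h2 : (((n + 1) ^ 3 : ℕ) : ℝ) ≤ (((n + 1) ^ 3 / 10000 + 1) * 10000 : ℕ) := by exact_mod_cast h1
  unfold vv VV
  push_cast at h2 ⊢
  linarith

lemma rpow_ge {x y : ℝ} (hx : 0 < x) (hy : 0 ≤ y) (h : y ^ 11 * x ^ 14 ≤ 1) :
    y ≤ (1 / x ^ 2) ^ ((7 : ℝ) / 11) := by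
  have h1 : (1 / x ^ 2) ^ ((7 : ℝ) / 11) = ((1 / x ^ 2) ^ 7) ^ ((11 : ℕ)⁻¹ : ℝ) := by
    rw [← Real.rpow_natCast (1 / x ^ 2) 7, ← Real.rpow_mul (by positivity)]
    congr 1
  have h2 : y = (y ^ 11) ^ ((11 : ℕ)⁻¹ : ℝ) := by
    rw [Real.pow_rpow_inv_natCast hy (by norm_num)]
  rw [h1, h2]
  apply Real.rpow_le_rpow (by positivity) _ (by positivity)
  rw [one_div, ← inv_pow, ← pow_mul, inv_pow, ← one_div, le_div_iff₀ (by positivity)]
  exact h

lemma term_ge {n : ℕ} (hn : n < 60) :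
    ((tab.getD n 0 : ℕ) : ℝ) / 10 ^ 5 ≤ (1 / vv (n + 1) ^ 2) ^ ((7 : ℝ) / 11) := by
  have h0 := vv_pos (n + 1)
  have h1 := vv_le_VV hn
  have hV : (0 : ℝ) < (VV n : ℝ) / 100 := lt_of_lt_of_le h0 h1
  have h2 : ((tab.getD n 0 : ℕ) : ℝ) / 10 ^ 5 ≤ (1 / ((VV n : ℝ) / 100) ^ 2) ^ ((7 : ℝ) / 11) := by
    apply rpow_ge hV (by positivity)
    have h3 := tab_ok n hn
    have h4 : ((tab.getD n 0 : ℕ) : ℝ) ^ 11 * (VV n : ℝ) ^ 14 ≤ 10 ^ 83 := by exact_mod_cast h3
    rw [div_pow, div_pow, div_mul_div_comm, div_le_one (by positivity)]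
    refine h4.trans (le_of_eq ?_)
    norm_num
  refine h2.trans ?_
  apply Real.rpow_le_rpow (by positivity) _ (by norm_num)
  apply one_div_le_one_div_of_le (by positivity)
  exact pow_le_pow_left₀ h0.le h1 2

/-- total weight -/
noncomputable def WW : ℝ := ∑ n ∈ Finset.range 60, (1 / vv (n + 1) ^ 2) ^ ((7 : ℝ) / 11)

lemma WW_ge : 1 ≤ WW := by
  have h1 : ∑ n ∈ Finset.range 60, ((tab.getD n 0 : ℕ) : ℝ) / 10 ^ 5 ≤ WW :=
    Finset.sum_le_sum fun n hn => term_ge (Finset.mem_range.mp hn)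
  refine le_trans ?_ h1
  rw [← Finset.sum_div, le_div_iff₀ (by positivity), one_mul]
  exact_mod_cast tab_sum

lemma fifs : FIFS 60 ph (fun n => 1 / vv (n + 1) ^ 2)
    (fun n => (1 / vv (n + 1) ^ 2) ^ ((7 : ℝ) / 11) / WW) (1 / 4) ((1 / 9) ^ 60 * (1 / 20))
    (7 / 11) where
  maps := fun i _ x hx => ph_mem i hx
  q0 := by norm_num
  q1 := by norm_num
  contr := fun i _ x hx y hy => ph_contr i hx hy
  cpos := fun i _ => by have := vv_pos (i + 1); positivity
  low := fun i hi x hx y hy => ph_low hi.le hx hy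
  δ0 := by positivity
  sep := by
    intro i hi j hj hij x hx y hy
    rcases lt_or_gt_of_ne hij with h | h
    · exact ph_sep_lt h hj hx hy
    · rw [abs_sub_comm]; exact ph_sep_lt h hi hy hx
  s0 := by norm_num
  ppos := fun i _ => by
    have h1 := vv_pos (i + 1)
    have h2 := WW_ge
    have : 0 < (1 / vv (i + 1) ^ 2) ^ ((7 : ℝ) / 11) := by positivity
    exact div_pos this (by linarith)
  psum := by
    rw [← Finset.sum_div]
    exact div_self (by have := WW_ge; unfold WW at this; exact (lt_of_lt_of_le one_pos this).ne')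
  pc := fun i _ => by
    have h1 := vv_pos (i + 1)
    have : 0 ≤ (1 / vv (i + 1) ^ 2) ^ ((7 : ℝ) / 11) := by positivity
    exact div_le_self this WW_ge
  m := by
    refine ⟨(1 / 9 : ℝ) ^ ((7 : ℝ) / 11), Real.rpow_lt_one (by norm_num) (by norm_num) (by norm_num), ?_⟩
    intro i _
    have h1 : 3 ≤ vv (i + 1) := by
      unfold vv; push_cast
      have : (0 : ℝ) ≤ i := Nat.cast_nonneg i
      have h : (0 : ℝ) ≤ ((i : ℝ) + 1) ^ 3 / 10 ^ 6 := by positivity
      linarith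
    have h0 : 0 ≤ (1 / vv (i + 1) ^ 2) ^ ((7 : ℝ) / 11) := by have := vv_pos (i + 1); positivity
    refine (div_le_self h0 WW_ge).trans ?_
    apply Real.rpow_le_rpow (by have := vv_pos (i + 1); positivity) _ (by norm_num)
    apply one_div_le_one_div_of_le (by norm_num)
    nlinarith

/-! ### Embedding into the limit set -/

variable {I : Type*}

lemma subset_limitSet (s : I → ℂ → ℂ) (E : Set ℂ) (hE : E ⊆ X)
    (h : ∀ z ∈ E, ∃ i, ∃ w ∈ E, z = s i w) : E ⊆ limitSet s := by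
  intro z hz
  obtain ⟨i0, _⟩ := h z hz
  haveI : Nonempty I := ⟨i0⟩
  choose! ι nx hnx hs using h
  -- orbit
  set orb : ℕ → ℂ := fun k => nx^[k] z with horb
  have hmem : ∀ k, orb k ∈ E := by
    intro k
    induction k with
    | zero => exact hz
    | succ k ih =>
      show nx^[k + 1] z ∈ E
      rw [Function.iterate_succ_apply']
      exact hnx _ ih
  have hstep : ∀ k, orb k = s (ι (orb k)) (orb (k + 1)) := by
    intro k
    have h1 : orb (k + 1) = nx (orb k) := by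
      show nx^[k + 1] z = _
      rw [Function.iterate_succ_apply']
    rw [h1]
    exact hs _ (hmem k)
  refine ⟨fun k => ι (orb k), ?_⟩
  have key : ∀ N k, orb k = wordMap s (List.ofFn (fun j : Fin N => ι (orb (k + j)))) (orb (k + N)) := by
    intro N
    induction N with
    | zero => intro k; simp [wordMap]
    | succ N ih =>
      intro k
      rw [List.ofFn_succ]
      show orb k = s (ι (orb (k + ((0 : Fin (N + 1)) : ℕ))))
        (wordMap s (List.ofFn fun i : Fin N => ι (orb (k + (i.succ : Fin (N + 1))))) (orb (k + (N + 1))))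
      have h1 := ih (k + 1)
      have h2 : (fun i : Fin N => ι (orb (k + (i.succ : Fin (N + 1)))))
          = fun j : Fin N => ι (orb (k + 1 + j)) := by
        funext j
        congr 2
        rw [Fin.val_succ]; ring
      have h3 : k + (N + 1) = k + 1 + N := by ring
      rw [h2, h3, ← h1]
      simpa using hstep k
  intro N
  refine ⟨orb N, hE (hmem N), ?_⟩
  have h1 := key N 0
  simp only [zero_add] at h1
  exact h1.symm

theorem dim_G_ge : ENNReal.ofReal (7 / 11) ≤ dimH (limitSet (famG dd 2)) := by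
  obtain ⟨E, hE1, hE2, hE3⟩ := fifs.exists_set
  -- signed set
  set E' : Set ℂ := {z | ∃ j : Fin 2, ∃ k : ℕ, ∃ y ∈ E, z = ((sg j * ph k y : ℝ) : ℂ)} with hE'
  have hX : E' ⊆ X := by
    rintro z ⟨j, k, y, hy, rfl⟩
    rw [mem_X, Complex.norm_real, Real.norm_eq_abs, abs_mul, sg_abs, one_mul,
      abs_of_nonneg (ph_mem k (hE1 hy)).1]
    exact (ph_mem k (hE1 hy)).2
  have hd : ∀ j : Fin 2, param dd 2 (0, j) = ((sg j * d0 : ℝ) : ℂ) := by
    intro j
    rw [param_two]
    show ((sg j * dd 0 : ℝ) : ℂ) = _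
    rw [dd_zero]; rfl
  have hinv : ∀ z ∈ E', ∃ i, ∃ w ∈ E', z = famG dd 2 i w := by
    rintro z ⟨j, k, y, hy, rfl⟩
    have hsg : sg j * sg j = 1 := by
      have := sg_abs j
      rw [← abs_mul_abs_self, this, one_mul]
    have hinvr : ∀ r : ℝ, 1 / (sg j * r) = sg j * (1 / r) := by
      intro r
      have h1 : (sg j)⁻¹ = sg j := inv_eq_of_mul_eq_one_right hsg
      rw [one_div, mul_inv, h1, one_div]
    rcases k with _ | k
    · obtain ⟨n, y', hy', he⟩ := hE2 y hy
      refine ⟨(0, j), ((sg j * ph n y' : ℝ) : ℂ), ⟨j, n, y', hy', rfl⟩, ?_⟩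
      show _ = 1 / (((sg j * ph n y' : ℝ) : ℂ) + param dd 2 (0, j))
      rw [hd, ← he, ← Complex.ofReal_add]
      have h2 : sg j * ph 0 y = 1 / (sg j * y + sg j * d0) := by
        show sg j * mA y = _
        rw [← mul_add, hinvr]; unfold mA; rw [add_comm]
      rw [h2]; push_cast; ring
    · -- flip the sign
      obtain ⟨j', hj'⟩ : ∃ j' : Fin 2, sg j' = - sg j := by
        fin_cases j
        · exact ⟨1, by simp [sg]⟩
        · exact ⟨0, by simp [sg]⟩
      refine ⟨(0, j), ((sg j' * ph k y : ℝ) : ℂ), ⟨j', k, y, hy, rfl⟩, ?_⟩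
      show _ = 1 / (((sg j' * ph k y : ℝ) : ℂ) + param dd 2 (0, j))
      rw [hd, ← Complex.ofReal_add, hj']
      have h2 : sg j * ph (k + 1) y = 1 / (-sg j * ph k y + sg j * d0) := by
        rw [ph_succ]
        have : -sg j * ph k y + sg j * d0 = sg j * (d0 - ph k y) := by ring
        rw [this, hinvr]; rfl
      rw [h2]; push_cast; ring
  have hsub := subset_limitSet (famG dd 2) E' hX hinv
  have himg : (fun x : ℝ => (x : ℂ)) '' E ⊆ E' := by
    rintro _ ⟨x, hx, rfl⟩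
    obtain ⟨n, y, hy, he⟩ := hE2 x hx
    refine ⟨0, n, y, hy, ?_⟩
    rw [he]; simp [sg]
  have hiso : dimH ((fun x : ℝ => (x : ℂ)) '' E) = dimH E :=
    Isometry.dimH_image Complex.isometry_ofReal E
  calc ENNReal.ofReal (7 / 11) ≤ dimH E := hE3
    _ = dimH ((fun x : ℝ => (x : ℂ)) '' E) := hiso.symm
    _ ≤ dimH (limitSet (famG dd 2)) := dimH_mono (himg.trans hsub)

end Pool.Agent.R226.CI
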