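import Pool.Agent.R226.CIF

/-!
Upper bound for the dimension of the limit set of the linear system.
-/

namespace Pool.Agent.R226.CI

open Set Filter Topology MeasureTheory
open scoped NNReal ENNReal

/-- product of the ratios -/
noncomputable def NF (l : List (ℕ × Fin 2)) : ℝ := (l.map cF).prod

lemma NF_pos (l : List (ℕ × Fin 2)) : 0 < NF l := by
  induction l with
  | nil => simp [NF]
  | cons i l ih =>
    unfold NF at *
    rw [List.map_cons, List.prod_cons]; exact mul_pos (cF_pos i) ih

lemma NF_append (l l' : List (ℕ × Fin 2)) : NF (l ++ l') = NF l * NF l' := by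
  unfold NF; rw [List.map_append, List.prod_append]

lemma cF_geom (i : ℕ × Fin 2) : cF i ≤ ((1 : ℝ) / 10 ^ 10) ^ i.1 := by
  unfold cF
  rw [one_div_pow, ← pow_mul]
  apply one_div_le_one_div_of_le (by positivity)
  have h1 := dd_sub_one_ge i.1
  have h2 : (0 : ℝ) ≤ 10 ^ (5 * i.1) := by positivity
  have h3 : (10 : ℝ) ^ (10 * i.1) = 10 ^ (5 * i.1) * 10 ^ (5 * i.1) := by
    rw [← pow_add]; congr 1; ring
  rw [h3]
  nlinarith

lemma cocycle_F : Cocycle NF 1 (1 / 3) where
  nil := by simp [NF]
  pos := NF_pos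
  hK := le_refl 1
  sub := fun l l' => (NF_append l l').le
  sup := fun l l' => by rw [one_mul]; exact (NF_append l l').ge
  hq := by norm_num
  letter := fun i => by
    have : NF [i] = cF i := by simp [NF]
    rw [this]; exact cF_le i
  summ := by
    intro t ht
    set r : ℝ := ((1 : ℝ) / 10 ^ 10) ^ t with hr
    have hr0 : 0 ≤ r := by positivity
    have hr1 : r < 1 := Real.rpow_lt_one (by positivity) (by norm_num) ht
    have h1 : Summable (fun i : ℕ × Fin 2 => r ^ i.1 * (1 : ℝ)) := by
      apply Summable.mul_of_nonneg (summable_geometric_of_lt_one hr0 hr1)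
        (f := fun n : ℕ => r ^ n) (g := fun _ : Fin 2 => (1 : ℝ))
      · exact (hasSum_fintype _).summable
      · intro n; positivity
      · intro n; norm_num
    refine Summable.of_nonneg_of_le (fun i => ?_) (fun i => ?_) h1
    · exact Real.rpow_nonneg (NF_pos _).le _
    · rw [mul_one, hr, ← Real.rpow_natCast, ← Real.rpow_mul (by positivity), mul_comm t,
        Real.rpow_mul (by positivity), Real.rpow_natCast]
      apply Real.rpow_le_rpow (NF_pos _).le _ ht.le
      have : NF [i] = cF i := by simp [NF]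
      rw [this]; exact cF_geom i

/-- the comparison weights -/
noncomputable def gg (n : ℕ) : ℝ := if n = 0 then 49975 / 100000 else (1 / 10 ^ 5) ^ n

lemma letter_le (i : ℕ × Fin 2) : NF [i] ^ ((12 : ℝ) / 19) ≤ gg i.1 := by
  have hN : NF [i] = cF i := by simp [NF]
  rw [hN]
  obtain ⟨n, j⟩ := i
  rcases n with _ | n
  · have h1 : cF (0, j) ≤ 1 / 3 := cF_le _
    have h2 : gg ((0, j) : ℕ × Fin 2).1 = 49975 / 100000 := by simp [gg]
    rw [h2]
    refine (Real.rpow_le_rpow (cF_pos _).le h1 (by norm_num)).trans ?_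
    have h3 : ((1 : ℝ) / 3) ^ ((12 : ℝ) / 19) = (((1 : ℝ) / 3) ^ 12) ^ ((19 : ℕ)⁻¹ : ℝ) := by
      rw [← Real.rpow_natCast (1 / 3) 12, ← Real.rpow_mul (by positivity)]
      congr 1
    have h4 : (49975 / 100000 : ℝ) = ((49975 / 100000 : ℝ) ^ 19) ^ ((19 : ℕ)⁻¹ : ℝ) := by
      rw [Real.pow_rpow_inv_natCast (by norm_num) (by norm_num)]
    rw [h3, h4]
    apply Real.rpow_le_rpow (by positivity) _ (by positivity)
    norm_num
  · have h2 : gg ((n + 1, j) : ℕ × Fin 2).1 = (1 / 10 ^ 5) ^ (n + 1) := by simp [gg]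
    rw [h2]
    have h3 := cF_geom (n + 1, j)
    have h4 := cF_pos (n + 1, j)
    have h5 := cF_le (n + 1, j)
    calc cF (n + 1, j) ^ ((12 : ℝ) / 19) ≤ cF (n + 1, j) ^ ((1 : ℝ) / 2) :=
          Real.rpow_le_rpow_of_exponent_ge h4 (by linarith) (by norm_num)
      _ ≤ (((1 : ℝ) / 10 ^ 10) ^ (n + 1)) ^ ((1 : ℝ) / 2) :=
          Real.rpow_le_rpow h4.le h3 (by norm_num)
      _ = (1 / 10 ^ 5) ^ (n + 1) := by
          have : ((1 : ℝ) / 10 ^ 10) ^ (n + 1) = ((1 / 10 ^ 5) ^ (n + 1)) ^ 2 := by
            rw [← pow_mul, mul_comm (n + 1) 2, pow_mul]; congr 1; norm_num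
          rw [this, ← Real.sqrt_eq_rpow, Real.sqrt_sq (by positivity)]

lemma gg_summable : Summable gg := by
  rw [← summable_nat_add_iff 1]
  have h : Summable (fun n : ℕ => ((1 : ℝ) / 10 ^ 5) ^ n) :=
    summable_geometric_of_lt_one (by positivity) (by norm_num)
  have h2 := (summable_nat_add_iff 1).mpr h
  refine h2.congr (fun n => ?_)
  simp [gg]

lemma gg_tsum : ∑' n, gg n < 49977 / 100000 := by
  rw [gg_summable.tsum_eq_zero_add]
  have h0 : gg 0 = 49975 / 100000 := by simp [gg]
  have h1 : ∀ n : ℕ, gg (n + 1) = (1 / 10 ^ 5) * (1 / 10 ^ 5 : ℝ) ^ n := by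
    intro n; simp only [gg, Nat.add_eq_zero_iff, one_ne_zero, and_false, if_false]
    rw [pow_succ]; ring
  simp_rw [h1]
  rw [h0, tsum_mul_left, tsum_geometric_of_lt_one (by positivity) (by norm_num)]
  norm_num

lemma gg_nonneg (n : ℕ) : 0 ≤ gg n := by unfold gg; split_ifs <;> positivity

lemma ZF_lt : Z NF 1 ((12 : ℝ) / 19) < 1 := by
  rw [cocycle_F.Z_one]
  have h1 : Summable (fun i : ℕ × Fin 2 => gg i.1 * (1 : ℝ)) := by
    apply Summable.mul_of_nonneg gg_summable (f := gg) (g := fun _ : Fin 2 => (1 : ℝ))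
    · exact (hasSum_fintype _).summable
    · intro n; exact gg_nonneg n
    · intro n; norm_num
  have h2 : ∑' i : ℕ × Fin 2, NF [i] ^ ((12 : ℝ) / 19) ≤ ∑' i : ℕ × Fin 2, gg i.1 * (1 : ℝ) := by
    apply Summable.tsum_le_tsum _ (cocycle_F.summ _ (by norm_num)) h1
    intro i
    rw [mul_one]; exact letter_le i
  have h3 : ∑' i : ℕ × Fin 2, gg i.1 * (1 : ℝ) = (∑' n, gg n) * ∑' _ : Fin 2, (1 : ℝ) := by
    rw [tsum_mul_tsum_of_summable_norm gg_summable.norm]
    exact (hasSum_fintype _).summable
  have h4 : ∑' _ : Fin 2, (1 : ℝ) = 2 := by rw [tsum_fintype]; simp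
  rw [h3, h4] at h2
  have h5 := gg_tsum
  linarith

theorem dim_F_le : dimH (limitSet (famF dd 2)) ≤ ENNReal.ofReal (12 / 19) := by
  set s : ℝ := 12 / 19 with hs
  have hs0 : 0 < s := by rw [hs]; norm_num
  have hmeas : μH[s] (limitSet (famF dd 2)) ≤ 0 := by
    have h1 := Measure.hausdorffMeasure_le_liminf_tsum (β := ℕ) (ι := fun n => Fin n → ℕ × Fin 2)
      s (limitSet (famF dd 2)) (l := atTop) (fun n => ENNReal.ofReal (2 * (1 / 3) ^ n))
      (by
        have : Tendsto (fun n : ℕ => 2 * ((1 : ℝ) / 3) ^ n) atTop (𝓝 (2 * 0)) :=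
          (tendsto_pow_atTop_nhds_zero_of_lt_one (by norm_num) (by norm_num)).const_mul 2
        rw [mul_zero] at this
        have h2 := ENNReal.tendsto_ofReal this
        rwa [ENNReal.ofReal_zero] at h2)
      (fun n ω => wordMap (famF dd 2) (List.ofFn ω) '' X)
      (by
        refine Eventually.of_forall fun n ω => ?_
        apply Metric.ediam_le
        rintro _ ⟨x, hx, rfl⟩ _ ⟨y, hy, rfl⟩
        rw [mem_X] at hx hy
        rw [edist_dist, dist_eq_norm, wordF_sub]
        apply ENNReal.ofReal_le_ofReal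
        have h2 : ‖x - y‖ ≤ 2 := (norm_sub_le x y).trans (by linarith)
        have h3 : ((List.ofFn ω).map cF).prod ≤ (1 / 3) ^ n := by
          have : ∀ l : List (ℕ × Fin 2), (l.map cF).prod ≤ (1 / 3) ^ l.length := by
            intro l
            induction l with
            | nil => simp
            | cons i l ih =>
              rw [List.map_cons, List.prod_cons, List.length_cons, pow_succ, mul_comm ((1 / 3 : ℝ) ^ _)]
              exact mul_le_mul (cF_le i) ih (NF_pos l).le (by norm_num)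
          have h4 := this (List.ofFn ω)
          rwa [List.length_ofFn] at h4
        have h5 : 0 ≤ ((List.ofFn ω).map cF).prod := (NF_pos _).le
        calc ((List.ofFn ω).map cF).prod * ‖x - y‖ ≤ (1 / 3) ^ n * 2 :=
              mul_le_mul h3 h2 (norm_nonneg _) (by positivity)
          _ = 2 * (1 / 3) ^ n := by ring)
      (by
        refine Eventually.of_forall fun n => ?_
        rintro z ⟨ω, hω⟩
        rw [Set.mem_iUnion]
        exact ⟨fun k : Fin n => ω k, hω n⟩)
    refine h1.trans ?_
    have h2 : ∀ n : ℕ, ∑' ω : Fin n → ℕ × Fin 2,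
        Metric.ediam (wordMap (famF dd 2) (List.ofFn ω) '' X) ^ s
        ≤ ENNReal.ofReal (2 ^ s * (Z NF 1 s) ^ n) := by
      intro n
      have h3 : ∀ ω : Fin n → ℕ × Fin 2,
          Metric.ediam (wordMap (famF dd 2) (List.ofFn ω) '' X) ^ s
          ≤ ENNReal.ofReal (2 ^ s * NF (List.ofFn ω) ^ s) := by
        intro ω
        have h4 : Metric.ediam (wordMap (famF dd 2) (List.ofFn ω) '' X)
            ≤ ENNReal.ofReal (2 * NF (List.ofFn ω)) := by
          apply Metric.ediam_le
          rintro _ ⟨x, hx, rfl⟩ _ ⟨y, hy, rfl⟩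
          rw [mem_X] at hx hy
          rw [edist_dist, dist_eq_norm, wordF_sub]
          apply ENNReal.ofReal_le_ofReal
          have h2 : ‖x - y‖ ≤ 2 := (norm_sub_le x y).trans (by linarith)
          calc ((List.ofFn ω).map cF).prod * ‖x - y‖ ≤ NF (List.ofFn ω) * 2 :=
                mul_le_mul_of_nonneg_left h2 (NF_pos _).le
            _ = 2 * NF (List.ofFn ω) := by ring
        refine (ENNReal.rpow_le_rpow h4 hs0.le).trans ?_
        rw [ENNReal.ofReal_rpow_of_nonneg (by have := (NF_pos (List.ofFn ω)).le; positivity) hs0.le,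
          Real.mul_rpow (by norm_num) (NF_pos _).le]
      refine (ENNReal.tsum_le_tsum h3).trans ?_
      have h5 : Summable (fun ω : Fin n → ℕ × Fin 2 => 2 ^ s * NF (List.ofFn ω) ^ s) :=
        (cocycle_F.summable n hs0).mul_left _
      rw [← ENNReal.ofReal_tsum_of_nonneg _ h5, tsum_mul_left]
      · apply ENNReal.ofReal_le_ofReal
        apply mul_le_mul_of_nonneg_left _ (by positivity)
        show Z NF n s ≤ _
        induction n with
        | zero => rw [cocycle_F.Z_zero, pow_zero]
        | succ n ih =>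
          have h6 := cocycle_F.Z_sub n 1 hs0
          rw [pow_succ]
          refine h6.trans ?_
          apply mul_le_mul_of_nonneg_right _ (cocycle_F.Z_nonneg 1 s)
          exact ih (fun ω => by
            have h4 : Metric.ediam (wordMap (famF dd 2) (List.ofFn ω) '' X)
                ≤ ENNReal.ofReal (2 * NF (List.ofFn ω)) := by
              apply Metric.ediam_le
              rintro _ ⟨x, hx, rfl⟩ _ ⟨y, hy, rfl⟩
              rw [mem_X] at hx hy
              rw [edist_dist, dist_eq_norm, wordF_sub]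
              apply ENNReal.ofReal_le_ofReal
              have h2 : ‖x - y‖ ≤ 2 := (norm_sub_le x y).trans (by linarith)
              calc ((List.ofFn ω).map cF).prod * ‖x - y‖ ≤ NF (List.ofFn ω) * 2 :=
                    mul_le_mul_of_nonneg_left h2 (NF_pos _).le
                _ = 2 * NF (List.ofFn ω) := by ring
            refine (ENNReal.rpow_le_rpow h4 hs0.le).trans ?_
            rw [ENNReal.ofReal_rpow_of_nonneg
              (by have := (NF_pos (List.ofFn ω)).le; positivity) hs0.le,
              Real.mul_rpow (by norm_num) (NF_pos _).le]) ((cocycle_F.summable n hs0).mul_left _)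
      · intro ω
        have := (NF_pos (List.ofFn ω)).le
        positivity
    have h3 : Tendsto (fun n : ℕ => ENNReal.ofReal (2 ^ s * (Z NF 1 s) ^ n)) atTop (𝓝 0) := by
      have h4 : Tendsto (fun n : ℕ => (2 : ℝ) ^ s * (Z NF 1 s) ^ n) atTop (𝓝 (2 ^ s * 0)) :=
        (tendsto_pow_atTop_nhds_zero_of_lt_one (cocycle_F.Z_nonneg 1 s) ZF_lt).const_mul _
      rw [mul_zero] at h4
      have h5 := ENNReal.tendsto_ofReal h4
      rwa [ENNReal.ofReal_zero] at h5
    have h4 := h3.liminf_eq
    rw [← h4]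
    exact liminf_le_liminf (Eventually.of_forall h2)
  have h0 : μH[s] (limitSet (famF dd 2)) = 0 := le_antisymm hmeas bot_le
  have h5 : ((Real.toNNReal s : ℝ≥0) : ℝ) = s := Real.coe_toNNReal _ hs0.le
  have h6 := dimH_le_of_hausdorffMeasure_ne_top (d := Real.toNNReal s)
    (s := limitSet (famF dd 2)) (by rw [h5, h0]; exact ENNReal.zero_ne_top)
  exact h6

theorem main_lt : dimH (limitSet (famF dd 2)) < dimH (limitSet (famG dd 2)) := by
  refine lt_of_le_of_lt dim_F_le (lt_of_lt_of_le ?_ dim_G_ge)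
  rw [ENNReal.ofReal_lt_ofReal_iff (by norm_num)]
  norm_num

end Pool.Agent.R226.CI
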