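import Mathlib

/-!
Analytic part for MP_2ee812_an: for the product `P(t) = ∏ (1 - e^{-a_j t})` the function
`β ↦ (1/β) ∫_0^∞ v / (e^v - 1) P(β v) dv` takes no value three times.
-/

namespace Pool.Agent.R226.EM

open MeasureTheory Set Real Filter Topology

/-- `v / (e^v - 1)` -/
noncomputable def w (v : ℝ) : ℝ := v / (exp v - 1)

lemma exp_sub_one_pos {v : ℝ} (hv : 0 < v) : 0 < exp v - 1 := by
  have := Real.add_one_lt_exp hv.ne'
  linarith

lemma w_pos {v : ℝ} (hv : 0 < v) : 0 < w v := div_pos hv (exp_sub_one_pos hv)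

lemma w_le {v : ℝ} (hv : 0 < v) : w v ≤ exp (-(v / 2)) := by
  unfold w
  rw [div_le_iff₀ (exp_sub_one_pos hv)]
  have h1 : v / 2 ≤ sinh (v / 2) := Real.self_le_sinh_iff.mpr (by linarith)
  rw [Real.sinh_eq] at h1
  have h2 : exp (-(v / 2)) * (exp v - 1) = exp (v / 2) - exp (-(v / 2)) := by
    rw [mul_sub, ← Real.exp_add]
    ring_nf
  rw [h2]
  linarith

lemma w_ge {v : ℝ} (hv : 0 < v) : exp (-v) ≤ w v := by
  unfold w
  rw [le_div_iff₀ (exp_sub_one_pos hv), mul_sub, ← Real.exp_add]
  have := Real.add_one_le_exp (-v)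
  simp
  linarith

lemma w_anti {u v : ℝ} (hu : 0 < u) (huv : u < v) : w v < w u := by
  have h := strictConvexOn_exp.secant_strict_mono (a := 0) (x := u) (y := v) (mem_univ _)
    (mem_univ _) (mem_univ _) hu.ne' (hu.trans huv).ne' huv
  simp only [Real.exp_zero, sub_zero] at h
  have hv := hu.trans huv
  unfold w
  rw [div_lt_div_iff₀ hu hv] at h
  rw [div_lt_div_iff₀ (exp_sub_one_pos hv) (exp_sub_one_pos hu)]
  linarith

lemma ratio_anti {x1 x2 t t' : ℝ} (hx2 : 0 < x2) (hx : x2 < x1) (ht : 0 < t) (htt : t < t') :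
    w (x1 * t') * w (x2 * t) < w (x1 * t) * w (x2 * t') := by
  have hx1 := hx2.trans hx
  have ht' := ht.trans htt
  have hκ : 1 < t' / t := by rw [one_lt_div ht]; exact htt
  have hX : 1 < exp (x2 * t) := by rw [Real.one_lt_exp_iff]; positivity
  have hY : 1 < exp (x1 * t) := by rw [Real.one_lt_exp_iff]; positivity
  have hXY : exp (x2 * t) < exp (x1 * t) := Real.exp_lt_exp.mpr (mul_lt_mul_of_pos_right hx ht)
  have h := (strictConvexOn_rpow hκ).secant_strict_mono (a := 1) (x := exp (x2 * t))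
    (y := exp (x1 * t)) (by simp) (mem_Ici.mpr (exp_pos _).le) (mem_Ici.mpr (exp_pos _).le)
    hX.ne' hY.ne' hXY
  rw [Real.one_rpow, ← Real.exp_mul, ← Real.exp_mul] at h
  have e1 : x2 * t * (t' / t) = x2 * t' := by field_simp
  have e2 : x1 * t * (t' / t) = x1 * t' := by field_simp
  rw [e1, e2, div_lt_div_iff₀ (by linarith) (by linarith)] at h
  unfold w
  rw [div_mul_div_comm, div_mul_div_comm, div_lt_div_iff₀
    (mul_pos (exp_sub_one_pos (by positivity)) (exp_sub_one_pos (by positivity)))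
    (mul_pos (exp_sub_one_pos (by positivity)) (exp_sub_one_pos (by positivity)))]
  have hpos : 0 < x1 * t' * (x2 * t) := by positivity
  calc x1 * t' * (x2 * t) * ((exp (x1 * t) - 1) * (exp (x2 * t') - 1))
      < x1 * t' * (x2 * t) * ((exp (x1 * t') - 1) * (exp (x2 * t) - 1)) :=
        mul_lt_mul_of_pos_left (by linarith) hpos
    _ = x1 * t * (x2 * t') * ((exp (x1 * t') - 1) * (exp (x2 * t) - 1)) := by ring

lemma w_meas : Measurable w := by unfold w; fun_prop

lemma intexp : IntegrableOn (fun v : ℝ => exp (-(v / 2))) (Ioi 0) := by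
  have h := integrableOn_exp_mul_Ioi (a := -(1 / 2)) (by norm_num) 0
  refine h.congr_fun (fun v _ => ?_) measurableSet_Ioi
  show exp (-(1 / 2) * v) = exp (-(v / 2))
  congr 1; ring

lemma intvexp : IntegrableOn (fun v : ℝ => v * exp (-(v / 2))) (Ioi 0) := by
  have h := integrableOn_rpow_mul_exp_neg_mul_rpow (p := 1) (s := 1) (b := 1 / 2)
    (by norm_num) (by norm_num) (by norm_num)
  refine h.congr_fun (fun v _ => ?_) measurableSet_Ioi
  simp only [Real.rpow_one]
  congr 2; ring

variable {ι : Type*} [DecidableEq ι]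

/-- distribution function of the maximum -/
noncomputable def P (s : Finset ι) (a : ι → ℝ) (t : ℝ) : ℝ := ∏ j ∈ s, (1 - exp (-(a j * t)))

/-- its derivative -/
noncomputable def P' (s : Finset ι) (a : ι → ℝ) (t : ℝ) : ℝ :=
  ∑ j ∈ s, (∏ k ∈ s.erase j, (1 - exp (-(a k * t)))) * (a j * exp (-(a j * t)))

lemma P_deriv (s : Finset ι) (a : ι → ℝ) (t : ℝ) : HasDerivAt (P s a) (P' s a t) t := by
  have h : ∀ j ∈ s, HasDerivAt (fun t => 1 - exp (-(a j * t))) (a j * exp (-(a j * t))) t := by
    intro j _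
    have h1 : HasDerivAt (fun t : ℝ => -(a j * t)) (-(a j * 1)) t :=
      ((hasDerivAt_id' t).const_mul (a j)).fun_neg
    have h2 := (h1.exp).const_sub 1
    refine HasDerivAt.congr_deriv h2 ?_
    simp only [mul_one]
    ring
  have h3 := HasDerivAt.fun_finsetProd h
  refine HasDerivAt.congr_deriv h3 ?_
  simp only [smul_eq_mul]
  rfl

lemma P_cont (s : Finset ι) (a : ι → ℝ) : Continuous (P s a) := by unfold P; fun_prop

lemma P'_cont (s : Finset ι) (a : ι → ℝ) : Continuous (P' s a) := by unfold P'; fun_prop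

lemma factor_bd {x t : ℝ} (hx : 0 < x) (ht : 0 ≤ t) :
    0 ≤ 1 - exp (-(x * t)) ∧ 1 - exp (-(x * t)) ≤ 1 := by
  have h1 : exp (-(x * t)) ≤ 1 := by rw [Real.exp_le_one_iff]; nlinarith
  have h2 := exp_pos (-(x * t))
  constructor <;> linarith

lemma factor_pos {x t : ℝ} (hx : 0 < x) (ht : 0 < t) : 0 < 1 - exp (-(x * t)) := by
  have h1 : exp (-(x * t)) < 1 := by rw [Real.exp_lt_one_iff]; nlinarith [mul_pos hx ht]
  linarith

lemma P_bd {s : Finset ι} {a : ι → ℝ} (ha : ∀ i ∈ s, 0 < a i) {t : ℝ} (ht : 0 ≤ t) :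
    0 ≤ P s a t ∧ P s a t ≤ 1 :=
  ⟨Finset.prod_nonneg fun j hj => (factor_bd (ha j hj) ht).1,
    Finset.prod_le_one (fun j hj => (factor_bd (ha j hj) ht).1)
      fun j hj => (factor_bd (ha j hj) ht).2⟩

lemma P_pos {s : Finset ι} {a : ι → ℝ} (ha : ∀ i ∈ s, 0 < a i) {t : ℝ} (ht : 0 < t) :
    0 < P s a t := Finset.prod_pos fun j hj => factor_pos (ha j hj) ht

lemma P'_bd {s : Finset ι} {a : ι → ℝ} (ha : ∀ i ∈ s, 0 < a i) {t : ℝ} (ht : 0 ≤ t) :
    0 ≤ P' s a t ∧ P' s a t ≤ ∑ j ∈ s, a j := by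
  constructor
  · apply Finset.sum_nonneg
    intro j hj
    exact mul_nonneg (Finset.prod_nonneg fun k hk =>
      (factor_bd (ha k (Finset.mem_of_mem_erase hk)) ht).1)
      (mul_nonneg (ha j hj).le (exp_pos _).le)
  · apply Finset.sum_le_sum
    intro j hj
    have h1 : ∏ k ∈ s.erase j, (1 - exp (-(a k * t))) ≤ 1 :=
      Finset.prod_le_one (fun k hk => (factor_bd (ha k (Finset.mem_of_mem_erase hk)) ht).1)
        fun k hk => (factor_bd (ha k (Finset.mem_of_mem_erase hk)) ht).2
    have h2 : exp (-(a j * t)) ≤ 1 := by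
      rw [Real.exp_le_one_iff]; nlinarith [mul_nonneg (ha j hj).le ht]
    have h3 : a j * exp (-(a j * t)) ≤ a j := by nlinarith [(ha j hj).le]
    have h4 : 0 ≤ a j * exp (-(a j * t)) := mul_nonneg (ha j hj).le (exp_pos _).le
    calc _ ≤ 1 * (a j * exp (-(a j * t))) := mul_le_mul_of_nonneg_right h1 h4
      _ ≤ a j := by rw [one_mul]; exact h3

/-- logarithmic derivative in logarithmic scale -/
noncomputable def ell (s : Finset ι) (a : ι → ℝ) (t : ℝ) : ℝ := ∑ j ∈ s, w (a j * t)

lemma tP' {s : Finset ι} {a : ι → ℝ} (ha : ∀ i ∈ s, 0 < a i) {t : ℝ} (ht : 0 < t) :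
    t * P' s a t = P s a t * ell s a t := by
  unfold P' ell P
  rw [Finset.mul_sum, Finset.mul_sum]
  apply Finset.sum_congr rfl
  intro j hj
  rw [← Finset.mul_prod_erase s _ hj]
  unfold w
  have h1 := exp_sub_one_pos (mul_pos (ha j hj) ht)
  have h2 : (1 - exp (-(a j * t))) * (a j * t / (exp (a j * t) - 1))
      = t * (a j * exp (-(a j * t))) := by
    have h3 : (1 - exp (-(a j * t))) = exp (-(a j * t)) * (exp (a j * t) - 1) := by
      rw [mul_sub, ← Real.exp_add]; simp
    rw [h3]
    field_simp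
  calc t * ((∏ k ∈ s.erase j, (1 - exp (-(a k * t)))) * (a j * exp (-(a j * t))))
      = (∏ k ∈ s.erase j, (1 - exp (-(a k * t)))) * (t * (a j * exp (-(a j * t)))) := by ring
    _ = (∏ k ∈ s.erase j, (1 - exp (-(a k * t))))
          * ((1 - exp (-(a j * t))) * (a j * t / (exp (a j * t) - 1))) := by rw [h2]
    _ = _ := by ring

/-- `t P'(t) - P(t)` -/
noncomputable def Th (s : Finset ι) (a : ι → ℝ) (t : ℝ) : ℝ := t * P' s a t - P s a t

lemma Th_eq {s : Finset ι} {a : ι → ℝ} (ha : ∀ i ∈ s, 0 < a i) {t : ℝ} (ht : 0 < t) :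
    Th s a t = P s a t * (ell s a t - 1) := by
  unfold Th; rw [tP' ha ht]; ring

lemma ell_anti {s : Finset ι} (hs : s.Nonempty) {a : ι → ℝ} (ha : ∀ i ∈ s, 0 < a i) {t t' : ℝ}
    (ht : 0 < t) (htt : t < t') : ell s a t' < ell s a t := by
  apply Finset.sum_lt_sum_of_nonempty hs
  intro j hj
  exact w_anti (mul_pos (ha j hj) ht) (mul_lt_mul_of_pos_left htt (ha j hj))

/-- the crossing point -/
lemma crossing {s : Finset ι} (hs : 2 ≤ s.card) {a : ι → ℝ} (ha : ∀ i ∈ s, 0 < a i) :
    ∃ t0, 0 < t0 ∧ (∀ t, 0 < t → t < t0 → 0 < Th s a t) ∧ (∀ t, t0 < t → Th s a t < 0) := by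
  have hne : s.Nonempty := Finset.card_pos.mp (by omega)
  set A := ∑ j ∈ s, a j with hA
  have hApos : 0 < A := Finset.sum_pos ha hne
  have haA : ∀ j ∈ s, a j ≤ A := fun j hj =>
    Finset.single_le_sum (f := a) (fun i hi => (ha i hi).le) hj
  obtain ⟨i0, hi0, hmin⟩ := Finset.exists_min_image s a hne
  have hm := ha i0 hi0
  -- small t
  set t1 := 1 / (4 * A) with ht1
  have ht1pos : 0 < t1 := by positivity
  have h1 : 1 < ell s a t1 := by
    have h2 : ∀ j ∈ s, (3 / 4 : ℝ) ≤ w (a j * t1) := by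
      intro j hj
      have h3 : 0 < a j * t1 := mul_pos (ha j hj) ht1pos
      have h4 : a j * t1 ≤ 1 / 4 := by
        calc a j * t1 ≤ A * t1 := mul_le_mul_of_nonneg_right (haA j hj) ht1pos.le
          _ = 1 / 4 := by rw [ht1]; field_simp
      have h5 := w_ge h3
      have h6 := Real.add_one_le_exp (-(a j * t1))
      linarith
    have h3 := Finset.card_nsmul_le_sum s _ _ h2
    have h4 : (2 : ℝ) ≤ s.card := by exact_mod_cast hs
    unfold ell
    rw [nsmul_eq_mul] at h3
    linarith
  -- large t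
  set t2 := 4 * (s.card : ℝ) / a i0 + t1 with ht2
  have hcard : (0 : ℝ) < s.card := by exact_mod_cast (by omega : 0 < s.card)
  have ht12 : t1 < t2 := by rw [ht2]; have : 0 < 4 * (s.card : ℝ) / a i0 := by positivity
                            linarith
  have h2 : ell s a t2 < 1 := by
    have h3 : ∀ j ∈ s, w (a j * t2) ≤ 1 / (2 * s.card) := by
      intro j hj
      have h4 : 0 < a j * t2 := mul_pos (ha j hj) (ht1pos.trans ht12)
      have h5 : 4 * (s.card : ℝ) ≤ a j * t2 := by
        have h6 : a i0 ≤ a j := hmin j hj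
        calc 4 * (s.card : ℝ) = a i0 * (4 * (s.card : ℝ) / a i0) := by field_simp
          _ ≤ a j * (4 * (s.card : ℝ) / a i0) :=
              mul_le_mul_of_nonneg_right h6 (by positivity)
          _ ≤ a j * t2 := mul_le_mul_of_nonneg_left (by rw [ht2]; linarith) (ha j hj).le
      refine (w_le h4).trans ?_
      rw [Real.exp_neg, inv_eq_one_div]
      apply one_div_le_one_div_of_le (by positivity)
      have h6 := Real.add_one_le_exp (a j * t2 / 2)
      linarith
    have h4 := Finset.sum_le_card_nsmul s _ _ h3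
    rw [nsmul_eq_mul] at h4
    have h5 : (s.card : ℝ) * (1 / (2 * s.card)) = 1 / 2 := by field_simp
    unfold ell
    linarith
  have hcont : ContinuousOn (ell s a) (Icc t1 t2) := by
    unfold ell
    apply continuousOn_finsetSum
    intro j hj
    unfold w
    apply ContinuousOn.div
    · fun_prop
    · fun_prop
    · intro t ht
      exact (exp_sub_one_pos (mul_pos (ha j hj) (lt_of_lt_of_le ht1pos ht.1))).ne'
  obtain ⟨t0, ht0, ht0v⟩ := intermediate_value_Icc' ht12.le hcont ⟨h2.le, h1.le⟩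
  have ht0pos : 0 < t0 := lt_of_lt_of_le ht1pos ht0.1
  refine ⟨t0, ht0pos, ?_, ?_⟩
  · intro t ht htt
    rw [Th_eq ha ht]
    have := ell_anti hne ha ht htt
    exact mul_pos (P_pos ha ht) (by linarith)
  · intro t ht
    rw [Th_eq ha (ht0pos.trans ht)]
    have := ell_anti hne ha ht0pos ht
    exact mul_neg_of_pos_of_neg (P_pos ha (ht0pos.trans ht)) (by linarith)

/-- `N(β) = ∫_0^∞ w(v) P(β v) dv` -/
noncomputable def N (s : Finset ι) (a : ι → ℝ) (β : ℝ) : ℝ :=
  ∫ v in Ioi (0 : ℝ), w v * P s a (β * v)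

lemma int_w_mul {f : ℝ → ℝ} (hf : Measurable f) {C : ℝ} (hC : ∀ v, 0 < v → |f v| ≤ C) :
    IntegrableOn (fun v => w v * f v) (Ioi 0) := by
  have h := intexp.mul_const C
  refine Integrable.mono' h (w_meas.mul hf).aestronglyMeasurable ?_
  refine (ae_restrict_iff' measurableSet_Ioi).mpr (ae_of_all _ fun v hv => ?_)
  have hv' : (0 : ℝ) < v := hv
  rw [Real.norm_eq_abs, abs_mul, abs_of_pos (w_pos hv')]
  have hC0 : 0 ≤ C := (abs_nonneg _).trans (hC v hv')
  exact mul_le_mul (w_le hv') (hC v hv') (abs_nonneg _) (exp_pos _).le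

lemma N_deriv {s : Finset ι} {a : ι → ℝ} (ha : ∀ i ∈ s, 0 < a i) {β : ℝ} (hβ : 0 < β) :
    IntegrableOn (fun v => w v * (v * P' s a (β * v))) (Ioi 0) ∧
    HasDerivAt (N s a) (∫ v in Ioi (0 : ℝ), w v * (v * P' s a (β * v))) β := by
  have key := hasDerivAt_integral_of_dominated_loc_of_deriv_le
    (μ := volume.restrict (Ioi (0 : ℝ))) (x₀ := β) (s := Ioi 0)
    (F := fun b v => w v * P s a (b * v))
    (F' := fun b v => w v * (v * P' s a (b * v)))
    (bound := fun v => (v * exp (-(v / 2))) * ∑ j ∈ s, a j)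
    (Ioi_mem_nhds hβ)
    (Filter.Eventually.of_forall fun b => by
      apply Measurable.aestronglyMeasurable
      have := (P_cont s a).measurable
      exact w_meas.mul (this.comp (measurable_const.mul measurable_id)))
    (by
      apply int_w_mul (C := 1)
      · exact (P_cont s a).measurable.comp (measurable_const.mul measurable_id)
      · intro v hv
        have := P_bd ha (t := β * v) (mul_pos hβ hv).le
        rw [abs_le]; constructor <;> linarith)
    (by
      apply Measurable.aestronglyMeasurable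
      have := (P'_cont s a).measurable
      exact w_meas.mul (measurable_id.mul (this.comp (measurable_const.mul measurable_id))))
    (by
      refine (ae_restrict_iff' measurableSet_Ioi).mpr (ae_of_all _ fun v hv b hb => ?_)
      have hv' : (0 : ℝ) < v := hv
      have hb' : (0 : ℝ) < b := hb
      have h1 := P'_bd ha (t := b * v) (mul_pos hb' hv').le
      rw [Real.norm_eq_abs, abs_of_nonneg (mul_nonneg (w_pos hv').le (mul_nonneg hv'.le h1.1))]
      calc w v * (v * P' s a (b * v)) ≤ exp (-(v / 2)) * (v * ∑ j ∈ s, a j) :=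
            mul_le_mul (w_le hv') (mul_le_mul_of_nonneg_left h1.2 hv'.le)
              (mul_nonneg hv'.le h1.1) (exp_pos _).le
        _ = (v * exp (-(v / 2))) * ∑ j ∈ s, a j := by ring)
    (intvexp.mul_const _)
    (by
      refine ae_of_all _ fun v b _ => ?_
      have h1 : HasDerivAt (fun b : ℝ => b * v) (1 * v) b := (hasDerivAt_id' b).mul_const v
      have h2 := (P_deriv s a (b * v)).comp b h1
      have h3 := h2.const_mul (w v)
      refine HasDerivAt.congr_deriv h3 ?_
      ring)
  exact key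

/-- Key fact: three distinct values are impossible. -/
lemma three {s : Finset ι} (hs : 2 ≤ s.card) {a : ι → ℝ} (ha : ∀ i ∈ s, 0 < a i)
    {b1 b2 b3 : ℝ} (h0 : 0 < b1) (h12 : b1 < b2) (h23 : b2 < b3)
    (e12 : N s a b1 / b1 = N s a b2 / b2) (e23 : N s a b2 / b2 = N s a b3 / b3) : False := by
  set D : ℝ → ℝ := fun β => ∫ v in Ioi (0 : ℝ), w v * (v * P' s a (β * v)) with hD
  have hder : ∀ β, 0 < β → HasDerivAt (fun β => N s a β / β) ((D β * β - N s a β * 1) / β ^ 2) β := by
    intro β hβ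
    exact (N_deriv ha hβ).2.fun_div (hasDerivAt_id' β) hβ.ne'
  have rolle : ∀ x y, 0 < x → x < y → N s a x / x = N s a y / y →
      ∃ c, x < c ∧ c < y ∧ ∫ v in Ioi (0 : ℝ), w v * Th s a (c * v) = 0 := by
    intro x y hx hxy he
    obtain ⟨c, hc, hc0⟩ := exists_hasDerivAt_eq_zero (f := fun β => N s a β / β)
      (f' := fun β => (D β * β - N s a β * 1) / β ^ 2) hxy
      (fun z hz => (hder z (lt_of_lt_of_le hx hz.1)).continuousAt.continuousWithinAt) he
      (fun z hz => hder z (hx.trans hz.1))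
    refine ⟨c, hc.1, hc.2, ?_⟩
    have hcpos := hx.trans hc.1
    have h1 : D c * c - N s a c = 0 := by
      have h2 : (D c * c - N s a c * 1) / c ^ 2 = 0 := hc0
      rw [div_eq_zero_iff] at h2
      rcases h2 with h2 | h2
      · linarith
      · exact absurd h2 (by positivity)
    have h2 : ∀ v, w v * Th s a (c * v) = c * (w v * (v * P' s a (c * v))) - w v * P s a (c * v) := by
      intro v; unfold Th; ring
    simp_rw [h2]
    rw [integral_sub ((N_deriv ha hcpos).1.const_mul c), integral_const_mul]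
    · have : ∫ v in Ioi (0 : ℝ), w v * P s a (c * v) = N s a c := rfl
      rw [this]
      have : ∫ v in Ioi (0 : ℝ), w v * (v * P' s a (c * v)) = D c := rfl
      rw [this]
      linarith
    · apply int_w_mul (C := 1)
      · exact (P_cont s a).measurable.comp (measurable_const.mul measurable_id)
      · intro v hv
        have := P_bd ha (t := c * v) (mul_pos hcpos hv).le
        rw [abs_le]; constructor <;> linarith
  obtain ⟨c1, hc1, hc1', i1⟩ := rolle b1 b2 h0 h12 e12
  obtain ⟨c2, hc2, hc2', i2⟩ := rolle b2 b3 (h0.trans h12) h23 e23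
  have hc12 : c1 < c2 := hc1'.trans hc2
  have hc1pos := h0.trans hc1
  have hc2pos := hc1pos.trans hc12
  obtain ⟨t0, ht0, hlow, hhigh⟩ := crossing hs ha
  -- change of variables t = c v
  have cv : ∀ c, 0 < c → (∫ v in Ioi (0 : ℝ), w v * Th s a (c * v)) = 0 →
      ∫ t in Ioi (0 : ℝ), w (c⁻¹ * t) * Th s a t = 0 := by
    intro c hc h
    have h1 := integral_comp_mul_left_Ioi (fun t => w (c⁻¹ * t) * Th s a t) 0 hc
    rw [mul_zero] at h1
    have h2 : ∀ v, w (c⁻¹ * (c * v)) = w v := by
      intro v; congr 1; field_simp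
    simp_rw [h2] at h1
    rw [h, smul_eq_mul] at h1
    have h3 : c⁻¹ ≠ 0 := inv_ne_zero hc.ne'
    rcases mul_eq_zero.mp h1.symm with h4 | h4
    · exact absurd h4 h3
    · exact h4
  have j1 := cv c1 hc1pos i1
  have j2 := cv c2 hc2pos i2
  have hThm : Measurable (Th s a) := by
    unfold Th
    exact (measurable_id.mul (P'_cont s a).measurable).sub (P_cont s a).measurable
  -- integrability of w (x t) Th(t)
  have hint : ∀ c, 0 < c → IntegrableOn (fun t => w (c⁻¹ * t) * Th s a t) (Ioi 0) := by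
    intro c hc
    have h1 : IntegrableOn (fun v => w v * Th s a (c * v)) (Ioi 0) := by
      have h2 : ∀ v, w v * Th s a (c * v)
          = c * (w v * (v * P' s a (c * v))) - w v * P s a (c * v) := by
        intro v; unfold Th; ring
      simp_rw [h2]
      apply Integrable.sub ((N_deriv ha hc).1.const_mul c)
      apply int_w_mul (C := 1)
      · exact (P_cont s a).measurable.comp (measurable_const.mul measurable_id)
      · intro v hv
        have := P_bd ha (t := c * v) (mul_pos hc hv).le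
        rw [abs_le]; constructor <;> linarith
    have h3 := (integrableOn_Ioi_comp_mul_left_iff (fun t => w (c⁻¹ * t) * Th s a t) 0 hc).mp
      (by
        have h2 : ∀ v, w (c⁻¹ * (c * v)) = w v := by
          intro v; congr 1; field_simp
        simp_rw [h2]
        exact h1)
    rwa [mul_zero] at h3
  set x1 := c1⁻¹ with hx1
  set x2 := c2⁻¹ with hx2
  have hx2pos : 0 < x2 := inv_pos.mpr hc2pos
  have hx1pos : 0 < x1 := inv_pos.mpr hc1pos
  have hx21 : x2 < x1 := by rw [hx1, hx2]; exact (inv_lt_inv₀ hc2pos hc1pos).mpr hc12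
  have hzero : ∫ t in Ioi (0 : ℝ),
      (w (x2 * t0) * (w (x1 * t) * Th s a t) - w (x1 * t0) * (w (x2 * t) * Th s a t)) = 0 := by
    rw [integral_sub ((hint c1 hc1pos).const_mul _) ((hint c2 hc2pos).const_mul _),
      integral_const_mul, integral_const_mul, j1, j2]
    ring
  have hpos : ∀ t, 0 < t → t ≠ t0 → 0 <
      w (x2 * t0) * (w (x1 * t) * Th s a t) - w (x1 * t0) * (w (x2 * t) * Th s a t) := by
    intro t ht hne
    have e : w (x2 * t0) * (w (x1 * t) * Th s a t) - w (x1 * t0) * (w (x2 * t) * Th s a t)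
        = (w (x1 * t) * w (x2 * t0) - w (x1 * t0) * w (x2 * t)) * Th s a t := by ring
    rw [e]
    rcases lt_or_gt_of_ne hne with h | h
    · have := ratio_anti hx2pos hx21 ht h
      exact mul_pos (by linarith) (hlow t ht h)
    · have := ratio_anti hx2pos hx21 ht0 h
      exact mul_pos_of_neg_of_neg (by linarith) (hhigh t h)
  have hnn : 0 ≤ᵐ[volume.restrict (Ioi (0 : ℝ))] fun t =>
      w (x2 * t0) * (w (x1 * t) * Th s a t) - w (x1 * t0) * (w (x2 * t) * Th s a t) := by
    refine (ae_restrict_iff' measurableSet_Ioi).mpr (ae_of_all _ fun t ht => ?_)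
    by_cases h : t = t0
    · subst h; simp only [Pi.zero_apply]; apply le_of_eq; ring
    · exact (hpos t ht h).le
  have hii : IntegrableOn (fun t =>
      w (x2 * t0) * (w (x1 * t) * Th s a t) - w (x1 * t0) * (w (x2 * t) * Th s a t)) (Ioi 0) :=
    ((hint c1 hc1pos).const_mul _).sub ((hint c2 hc2pos).const_mul _)
  have hstrict := (setIntegral_pos_iff_support_of_nonneg_ae hnn hii).mpr (by
    apply lt_of_lt_of_le (b := volume (Ioi t0))
    · simp
    · apply measure_mono
      intro t ht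
      exact ⟨(hpos t (ht0.trans ht) (ne_of_gt ht)).ne', ht0.trans ht⟩)
  rw [hzero] at hstrict
  exact lt_irrefl _ hstrict

end Pool.Agent.R226.EM
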