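import Pool.Agent.R226.EMA

/-!
Algebraic part for MP_2ee812_an: the alternating sum of inverse subset sums, its integral
representations and its critical points.
-/

namespace Pool.Agent.R226.EM

open MeasureTheory Set Real Filter Topology

set_option linter.unusedSectionVars false

variable {ι : Type*} [DecidableEq ι]

/-- alternating sum of inverse subset sums -/
noncomputable def SS (s : Finset ι) (a : ι → ℝ) : ℝ :=
  ∑ J ∈ s.powerset, (-1 : ℝ) ^ (J.card + 1) * (∑ j ∈ J, a j)⁻¹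

/-- shifted alternating sum -/
noncomputable def T (p : ℕ) (s : Finset ι) (a : ι → ℝ) (c : ℝ) : ℝ :=
  ∑ K ∈ s.powerset, (-1 : ℝ) ^ K.card * ((c + ∑ j ∈ K, a j) ^ (p + 1))⁻¹

lemma SS_insert {s : Finset ι} {i : ι} (hi : i ∉ s) (a : ι → ℝ) :
    SS (insert i s) a = SS s a + T 0 s a (a i) := by
  unfold SS T
  rw [Finset.sum_powerset_insert hi]
  congr 1
  apply Finset.sum_congr rfl
  intro K hK
  have hiK : i ∉ K := fun h => hi (Finset.mem_powerset.mp hK h)
  rw [Finset.card_insert_of_notMem hiK, Finset.sum_insert hiK]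
  rw [pow_add, pow_add]; simp

lemma P_expand (s : Finset ι) (a : ι → ℝ) (t : ℝ) :
    P s a t = ∑ K ∈ s.powerset, (-1 : ℝ) ^ K.card * exp (-((∑ j ∈ K, a j) * t)) := by
  unfold P
  have h : ∀ j ∈ s, (1 - exp (-(a j * t))) = (-(exp (-(a j * t)))) + 1 := by intros; ring
  rw [Finset.prod_congr rfl h, Finset.prod_add]
  apply Finset.sum_congr rfl
  intro K _
  rw [Finset.prod_const_one, mul_one, Finset.prod_neg, ← Real.exp_sum, Finset.sum_neg_distrib,
    Finset.sum_mul]

lemma intE0 {c : ℝ} (hc : 0 < c) : ∫ t in Ioi (0 : ℝ), exp (-(c * t)) = c⁻¹ := by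
  have h := integral_exp_mul_Ioi (a := -c) (by linarith) 0
  simp only [mul_zero, Real.exp_zero] at h
  have e : ∀ t : ℝ, exp (-(c * t)) = exp (-c * t) := by intro t; congr 1; ring
  simp_rw [e]
  rw [h]; field_simp

lemma intE0' {c : ℝ} (hc : 0 < c) : IntegrableOn (fun t : ℝ => exp (-(c * t))) (Ioi 0) := by
  have h := integrableOn_exp_mul_Ioi (a := -c) (by linarith) 0
  refine h.congr_fun (fun v _ => ?_) measurableSet_Ioi
  show exp (-c * v) = exp (-(c * v))
  congr 1; ring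

lemma intE1 {c : ℝ} (hc : 0 < c) : ∫ t in Ioi (0 : ℝ), t * exp (-(c * t)) = (c ^ 2)⁻¹ := by
  have h := Real.integral_rpow_mul_exp_neg_mul_Ioi (a := 2) (r := c) two_pos hc
  have e : (2 : ℝ) - 1 = 1 := by norm_num
  rw [e] at h
  simp only [Real.rpow_one] at h
  rw [h]
  have h2 : Real.Gamma 2 = 1 := Real.Gamma_two
  rw [h2, mul_one, Real.rpow_two]
  field_simp

lemma intE1' {c : ℝ} (hc : 0 < c) : IntegrableOn (fun t : ℝ => t * exp (-(c * t))) (Ioi 0) := by
  have h := integrableOn_rpow_mul_exp_neg_mul_rpow (p := 1) (s := 1) (b := c)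
    (by norm_num) (by norm_num) hc
  refine h.congr_fun (fun v _ => ?_) measurableSet_Ioi
  simp only [Real.rpow_one]
  congr 2; ring

lemma sum_pos' {s : Finset ι} {a : ι → ℝ} (ha : ∀ i ∈ s, 0 < a i) {c : ℝ} (hc : 0 < c)
    {K : Finset ι} (hK : K ∈ s.powerset) : 0 < c + ∑ j ∈ K, a j := by
  have : 0 ≤ ∑ j ∈ K, a j :=
    Finset.sum_nonneg fun j hj => (ha j (Finset.mem_powerset.mp hK hj)).le
  linarith

lemma T0_integral {s : Finset ι} {a : ι → ℝ} (ha : ∀ i ∈ s, 0 < a i) {c : ℝ} (hc : 0 < c) :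
    T 0 s a c = ∫ t in Ioi (0 : ℝ), exp (-(c * t)) * P s a t := by
  have e : ∀ t : ℝ, exp (-(c * t)) * P s a t =
      ∑ K ∈ s.powerset, (-1 : ℝ) ^ K.card * exp (-((c + ∑ j ∈ K, a j) * t)) := by
    intro t
    rw [P_expand, Finset.mul_sum]
    apply Finset.sum_congr rfl
    intro K _
    rw [mul_left_comm, ← Real.exp_add]
    congr 2; ring
  simp_rw [e]
  rw [integral_finsetSum]
  · unfold T
    apply Finset.sum_congr rfl
    intro K hK
    rw [integral_const_mul, intE0 (sum_pos' ha hc hK)]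
    simp
  · intro K hK
    exact (intE0' (sum_pos' ha hc hK)).const_mul _

lemma T1_integral {s : Finset ι} {a : ι → ℝ} (ha : ∀ i ∈ s, 0 < a i) {c : ℝ} (hc : 0 < c) :
    T 1 s a c = ∫ t in Ioi (0 : ℝ), t * (exp (-(c * t)) * P s a t) := by
  have e : ∀ t : ℝ, t * (exp (-(c * t)) * P s a t) =
      ∑ K ∈ s.powerset, (-1 : ℝ) ^ K.card * (t * exp (-((c + ∑ j ∈ K, a j) * t))) := by
    intro t
    rw [P_expand, Finset.mul_sum, Finset.mul_sum]
    apply Finset.sum_congr rfl
    intro K _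
    have : exp (-((c + ∑ j ∈ K, a j) * t)) = exp (-(c * t)) * exp (-((∑ j ∈ K, a j) * t)) := by
      rw [← Real.exp_add]; congr 1; ring
    rw [this]; ring
  simp_rw [e]
  rw [integral_finsetSum]
  · unfold T
    apply Finset.sum_congr rfl
    intro K hK
    rw [integral_const_mul, intE1 (sum_pos' ha hc hK)]
  · intro K hK
    exact (intE1' (sum_pos' ha hc hK)).const_mul _

lemma T0_pos {s : Finset ι} {a : ι → ℝ} (ha : ∀ i ∈ s, 0 < a i) {c : ℝ} (hc : 0 < c) :
    0 < T 0 s a c := by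
  rw [T0_integral ha hc]
  rw [setIntegral_pos_iff_support_of_nonneg_ae]
  · apply lt_of_lt_of_le (b := volume (Ioi (0 : ℝ)))
    · simp
    · apply measure_mono
      intro t ht
      exact ⟨(mul_pos (exp_pos _) (P_pos ha ht)).ne', ht⟩
  · refine (ae_restrict_iff' measurableSet_Ioi).mpr (ae_of_all _ fun t ht => ?_)
    exact (mul_pos (exp_pos _) (P_pos ha ht)).le
  · refine Integrable.mono' (intE0' hc) ?_ ?_
    · apply Measurable.aestronglyMeasurable
      have := (P_cont s a).measurable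
      fun_prop
    · refine (ae_restrict_iff' measurableSet_Ioi).mpr (ae_of_all _ fun t ht => ?_)
      have ht' : (0 : ℝ) < t := ht
      have := P_bd ha ht'.le
      rw [Real.norm_eq_abs, abs_of_nonneg (mul_nonneg (exp_pos _).le this.1)]
      nlinarith [exp_pos (-(c * t))]

lemma SS_nonneg {s : Finset ι} {a : ι → ℝ} (ha : ∀ i ∈ s, 0 < a i) : 0 ≤ SS s a := by
  induction s using Finset.induction_on with
  | empty => simp [SS]
  | insert i s hi ih =>
    rw [SS_insert hi]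
    have h1 := ih (fun j hj => ha j (Finset.mem_insert_of_mem hj))
    have h2 := T0_pos (s := s) (fun j hj => ha j (Finset.mem_insert_of_mem hj))
      (ha i (Finset.mem_insert_self i s))
    linarith

lemma SS_pos {s : Finset ι} (hs : s.Nonempty) {a : ι → ℝ} (ha : ∀ i ∈ s, 0 < a i) :
    0 < SS s a := by
  obtain ⟨i, hi⟩ := hs
  rw [← Finset.insert_erase hi, SS_insert (Finset.notMem_erase i s)]
  have h1 := SS_nonneg (s := s.erase i) (a := a) (fun j hj => ha j (Finset.mem_of_mem_erase hj))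
  have h2 := T0_pos (s := s.erase i) (a := a) (fun j hj => ha j (Finset.mem_of_mem_erase hj))
      (ha i hi)
  linarith

/-- derivative of the shifted sum -/
lemma T0_deriv {s : Finset ι} {a : ι → ℝ} (ha : ∀ i ∈ s, 0 < a i) {c : ℝ} (hc : 0 < c) :
    HasDerivAt (T 0 s a) (-(T 1 s a c)) c := by
  have h : ∀ K ∈ s.powerset, HasDerivAt
      (fun c => (-1 : ℝ) ^ K.card * ((c + ∑ j ∈ K, a j) ^ (0 + 1))⁻¹)
      ((-1 : ℝ) ^ K.card * (-1 / (c + ∑ j ∈ K, a j) ^ 2)) c := by
    intro K hK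
    have h1 : HasDerivAt (fun c : ℝ => c + ∑ j ∈ K, a j) 1 c := (hasDerivAt_id' c).add_const _
    have h2 := h1.fun_inv (sum_pos' ha hc hK).ne'
    have h3 := h2.const_mul ((-1 : ℝ) ^ K.card)
    simpa using h3
  have h2 := HasDerivAt.fun_sum h
  refine HasDerivAt.congr_deriv h2 ?_
  unfold T
  rw [← Finset.sum_neg_distrib]
  apply Finset.sum_congr rfl
  intro K _
  rw [neg_div, one_div]; ring

lemma T1_eq_N {s : Finset ι} {a : ι → ℝ} (ha : ∀ i ∈ s, 0 < a i) {i : ι} (hi : i ∈ s) :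
    T 1 (s.erase i) a (a i) * a i ^ 3 = N s a (a i)⁻¹ / (a i)⁻¹ := by
  have hai := ha i hi
  rw [T1_integral (fun j hj => ha j (Finset.mem_of_mem_erase hj)) hai]
  have h1 := integral_comp_mul_left_Ioi (fun v => w v * P s a ((a i)⁻¹ * v)) 0 hai
  rw [mul_zero, smul_eq_mul] at h1
  have h2 : ∫ t in Ioi (0 : ℝ), t * (exp (-(a i * t)) * P (s.erase i) a t)
      = (a i)⁻¹ * ∫ t in Ioi (0 : ℝ), w (a i * t) * P s a ((a i)⁻¹ * (a i * t)) := by
    rw [← integral_const_mul]
    apply setIntegral_congr_fun measurableSet_Ioi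
    intro t ht
    have ht' : (0 : ℝ) < t := ht
    have e1 : (a i)⁻¹ * (a i * t) = t := by field_simp
    show t * (exp (-(a i * t)) * P (s.erase i) a t) =
      (a i)⁻¹ * (w (a i * t) * P s a ((a i)⁻¹ * (a i * t)))
    rw [e1]
    have e2 : P s a t = (1 - exp (-(a i * t))) * P (s.erase i) a t := by
      unfold P
      exact (Finset.mul_prod_erase s (fun j => 1 - exp (-(a j * t))) hi).symm
    rw [e2]
    unfold w
    have h3 := exp_sub_one_pos (mul_pos hai ht')
    have h4 : (1 - exp (-(a i * t))) = exp (-(a i * t)) * (exp (a i * t) - 1) := by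
      rw [mul_sub, ← Real.exp_add]; simp
    rw [h4]
    generalize exp (a i * t) - 1 = E at h3 ⊢
    have h3' := h3.ne'
    field_simp
  rw [h2, h1]
  have h3 : ∫ v in Ioi (0 : ℝ), w v * P s a ((a i)⁻¹ * v) = N s a (a i)⁻¹ := rfl
  rw [h3]
  field_simp

/-- criticality -/
lemma crit {s : Finset ι} {a : ι → ℝ} (ha : ∀ i ∈ s, 0 < a i) {ρ : ℝ}
    (hmin : ∀ b : ι → ℝ, (∀ i ∈ s, 0 < b i) → ρ * ∑ j ∈ s, (b j ^ 2)⁻¹ ≤ SS s b ^ 2)
    (heq : ρ * ∑ j ∈ s, (a j ^ 2)⁻¹ = SS s a ^ 2) {i : ι} (hi : i ∈ s) :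
    SS s a * (T 1 (s.erase i) a (a i) * a i ^ 3) = ρ := by
  have hai := ha i hi
  have hae : ∀ j ∈ s.erase i, 0 < a j := fun j hj => ha j (Finset.mem_of_mem_erase hj)
  set C1 := SS (s.erase i) a
  set C2 := ∑ j ∈ s.erase i, (a j ^ 2)⁻¹
  have hSS : ∀ x, SS s (Function.update a i x) = C1 + T 0 (s.erase i) a x := by
    intro x
    have h1 : SS s (Function.update a i x) = SS (insert i (s.erase i)) (Function.update a i x) := by
      rw [Finset.insert_erase hi]
    rw [h1, SS_insert (Finset.notMem_erase i s), Function.update_self]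
    have hne : ∀ K ∈ (s.erase i).powerset, ∀ j ∈ K, j ≠ i := by
      intro K hK j hj
      exact Finset.ne_of_mem_erase (Finset.mem_powerset.mp hK hj)
    have hsum : ∀ K ∈ (s.erase i).powerset, ∑ j ∈ K, Function.update a i x j = ∑ j ∈ K, a j := by
      intro K hK
      apply Finset.sum_congr rfl
      intro j hj
      rw [Function.update_of_ne (hne K hK j hj)]
    congr 1
    · apply Finset.sum_congr rfl
      intro K hK
      rw [hsum K hK]
    · apply Finset.sum_congr rfl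
      intro K hK
      rw [hsum K hK]
  have hQ : ∀ x, ∑ j ∈ s, (Function.update a i x j ^ 2)⁻¹ = (x ^ 2)⁻¹ + C2 := by
    intro x
    rw [← Finset.add_sum_erase s _ hi, Function.update_self]
    congr 1
    apply Finset.sum_congr rfl
    intro j hj
    rw [Function.update_of_ne (Finset.ne_of_mem_erase hj)]
  set φ : ℝ → ℝ := fun x => (C1 + T 0 (s.erase i) a x) ^ 2 - ρ * ((x ^ 2)⁻¹ + C2) with hφ
  have hself : φ (a i) = 0 := by
    have h1 := hSS (a i)
    have h2 := hQ (a i)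
    rw [Function.update_eq_self] at h1 h2
    show (C1 + T 0 (s.erase i) a (a i)) ^ 2 - ρ * ((a i ^ 2)⁻¹ + C2) = 0
    rw [← h1, ← h2, heq]; ring
  have hloc : IsLocalMin φ (a i) := by
    have : ∀ᶠ x in 𝓝 (a i), 0 < x := Ioi_mem_nhds hai
    filter_upwards [this] with x hx
    rw [hself]
    have h1 := hmin (Function.update a i x) (by
      intro j hj
      by_cases h : j = i
      · subst h; rw [Function.update_self]; exact hx
      · rw [Function.update_of_ne h]; exact ha j hj)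
    rw [hSS, hQ] at h1
    show 0 ≤ (C1 + T 0 (s.erase i) a x) ^ 2 - ρ * ((x ^ 2)⁻¹ + C2)
    linarith
  have hder : HasDerivAt φ (2 * (C1 + T 0 (s.erase i) a (a i)) * (-(T 1 (s.erase i) a (a i)))
      - ρ * (-(2 * a i) / (a i ^ 2) ^ 2)) (a i) := by
    have h1 := ((T0_deriv hae hai).const_add C1).fun_pow 2
    have h2 : HasDerivAt (fun x : ℝ => (x ^ 2)⁻¹) (-(2 * a i) / (a i ^ 2) ^ 2) (a i) := by
      have h3 : HasDerivAt (fun x : ℝ => x ^ 2) (2 * a i) (a i) := by
        simpa using hasDerivAt_pow 2 (a i)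
      exact h3.fun_inv (by positivity)
    have h3 := h1.fun_sub ((h2.add_const C2).const_mul ρ)
    refine HasDerivAt.congr_deriv h3 ?_
    norm_num
  have h0 := hloc.hasDerivAt_eq_zero hder
  have h1 := hSS (a i)
  rw [Function.update_eq_self] at h1
  rw [← h1] at h0
  have h2 : ρ * (-(2 * a i) / (a i ^ 2) ^ 2) = - 2 * ρ / a i ^ 3 := by
    field_simp
  rw [h2] at h0
  have h3 : SS s a * T 1 (s.erase i) a (a i) = ρ / a i ^ 3 := by
    have : - 2 * ρ / a i ^ 3 = -2 * (ρ / a i ^ 3) := by ring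
    rw [this] at h0
    linarith
  rw [← mul_assoc, h3]
  field_simp

/-- at a minimizer at most two values occur -/
lemma two_values {s : Finset ι} (hs : 2 ≤ s.card) {a : ι → ℝ} (ha : ∀ i ∈ s, 0 < a i) {ρ : ℝ}
    (hmin : ∀ b : ι → ℝ, (∀ i ∈ s, 0 < b i) → ρ * ∑ j ∈ s, (b j ^ 2)⁻¹ ≤ SS s b ^ 2)
    (heq : ρ * ∑ j ∈ s, (a j ^ 2)⁻¹ = SS s a ^ 2) :
    ∃ x y, 0 < x ∧ 0 < y ∧ ∀ i ∈ s, a i = x ∨ a i = y := by
  have hne : s.Nonempty := Finset.card_pos.mp (by omega)
  obtain ⟨p, hp, hpm⟩ := Finset.exists_min_image s a hne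
  obtain ⟨q, hq, hqm⟩ := Finset.exists_max_image s a hne
  refine ⟨a p, a q, ha p hp, ha q hq, ?_⟩
  intro i hi
  by_contra hcon
  push Not at hcon
  have h1 : a p < a i := lt_of_le_of_ne (hpm i hi) (Ne.symm hcon.1)
  have h2 : a i < a q := lt_of_le_of_ne (hqm i hi) hcon.2
  have hS := SS_pos hne ha
  have key : ∀ j ∈ s, N s a (a j)⁻¹ / (a j)⁻¹ = ρ / SS s a := by
    intro j hj
    rw [← T1_eq_N ha hj, eq_div_iff hS.ne', mul_comm]
    exact crit ha hmin heq hj
  exact three hs ha (b1 := (a q)⁻¹) (b2 := (a i)⁻¹) (b3 := (a p)⁻¹)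
    (inv_pos.mpr (ha q hq)) ((inv_lt_inv₀ (ha q hq) (ha i hi)).mpr h2)
    ((inv_lt_inv₀ (ha i hi) (ha p hp)).mpr h1)
    (by rw [key q hq, key i hi]) (by rw [key i hi, key p hp])

end Pool.Agent.R226.EM
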