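import Mathlib

/-!
Two-value inequalities for MP_2ee812_an (machine generated polynomial identities with
nonnegative coefficients).
-/

namespace Pool.Agent.R226.EM


lemma ineq_1_1 {x y : ℝ} (hx : 0 < x) (hy : 0 < y) :
    1 * (x ^ 2)⁻¹ + 1 * (y ^ 2)⁻¹ ≤
      (1 * (y)⁻¹ + 1 * (x)⁻¹ + (-1) * (x + y)⁻¹) ^ 2 := by
  have hS : 1 * (y)⁻¹ + 1 * (x)⁻¹ + (-1) * (x + y)⁻¹
      = (1 * y ^ 2 + 1 * x * y + 1 * x ^ 2) /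
      (x * y * ((x + y))) := by
    field_simp
    ring
  rw [hS, div_pow, le_div_iff₀ (by positivity)]
  have hL : (1 * (x ^ 2)⁻¹ + 1 * (y ^ 2)⁻¹) *
      (x * y * ((x + y))) ^ 2
      = (1 * y ^ 2 + 1 * x ^ 2) * ((x + y)) ^ 2 := by
    field_simp
  rw [hL]
  rcases le_total x y with h | h
  · obtain ⟨s, hs, rfl⟩ : ∃ s, 0 ≤ s ∧ y = x + s := ⟨y - x, by linarith, by ring⟩
    have hp : (1 * (x + s) ^ 2 + 1 * x * (x + s) + 1 * x ^ 2) ^ 2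
      - (1 * (x + s) ^ 2 + 1 * x ^ 2) * ((x + (x + s))) ^ 2
      = 1 * x ^ 4 + 2 * x ^ 3 * s + 1 * x ^ 2 * s ^ 2 := by ring
    have hq : 0 ≤ 1 * x ^ 4 + 2 * x ^ 3 * s + 1 * x ^ 2 * s ^ 2 := by positivity
    linarith
  · obtain ⟨s, hs, rfl⟩ : ∃ s, 0 ≤ s ∧ x = y + s := ⟨x - y, by linarith, by ring⟩
    have hp : (1 * y ^ 2 + 1 * (y + s) * y + 1 * (y + s) ^ 2) ^ 2
      - (1 * y ^ 2 + 1 * (y + s) ^ 2) * (((y + s) + y)) ^ 2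
      = 1 * y ^ 4 + 2 * y ^ 3 * s + 1 * y ^ 2 * s ^ 2 := by ring
    have hq : 0 ≤ 1 * y ^ 4 + 2 * y ^ 3 * s + 1 * y ^ 2 * s ^ 2 := by positivity
    linarith

lemma ineq_1_2 {x y : ℝ} (hx : 0 < x) (hy : 0 < y) :
    1 * (x ^ 2)⁻¹ + 2 * (y ^ 2)⁻¹ ≤
      ((3 / 2) * (y)⁻¹ + 1 * (x)⁻¹ + (-2) * (x + y)⁻¹ + 1 * (x + 2 * y)⁻¹) ^ 2 := by
  have hS : (3 / 2) * (y)⁻¹ + 1 * (x)⁻¹ + (-2) * (x + y)⁻¹ + 1 * (x + 2 * y)⁻¹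
      = (2 * y ^ 3 + 3 * x * y ^ 2 + (9 / 2) * x ^ 2 * y + (3 / 2) * x ^ 3) /
      (x * y * ((x + y) * (x + 2 * y))) := by
    field_simp
    ring
  rw [hS, div_pow, le_div_iff₀ (by positivity)]
  have hL : (1 * (x ^ 2)⁻¹ + 2 * (y ^ 2)⁻¹) *
      (x * y * ((x + y) * (x + 2 * y))) ^ 2
      = (1 * y ^ 2 + 2 * x ^ 2) * ((x + y) * (x + 2 * y)) ^ 2 := by
    field_simp
  rw [hL]
  rcases le_total x y with h | h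
  · obtain ⟨s, hs, rfl⟩ : ∃ s, 0 ≤ s ∧ y = x + s := ⟨y - x, by linarith, by ring⟩
    have hp : (2 * (x + s) ^ 3 + 3 * x * (x + s) ^ 2 + (9 / 2) * x ^ 2 * (x + s) + (3 / 2) * x ^ 3) ^ 2
      - (1 * (x + s) ^ 2 + 2 * x ^ 2) * ((x + (x + s)) * (x + 2 * (x + s))) ^ 2
      = 13 * x ^ 6 + 39 * x ^ 5 * s + (189 / 4) * x ^ 4 * s ^ 2 + 27 * x ^ 3 * s ^ 3 + 6 * x ^ 2 * s ^ 4 := by ring
    have hq : 0 ≤ 13 * x ^ 6 + 39 * x ^ 5 * s + (189 / 4) * x ^ 4 * s ^ 2 + 27 * x ^ 3 * s ^ 3 + 6 * x ^ 2 * s ^ 4 := by positivity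
    linarith
  · obtain ⟨s, hs, rfl⟩ : ∃ s, 0 ≤ s ∧ x = y + s := ⟨x - y, by linarith, by ring⟩
    have hp : (2 * y ^ 3 + 3 * (y + s) * y ^ 2 + (9 / 2) * (y + s) ^ 2 * y + (3 / 2) * (y + s) ^ 3) ^ 2
      - (1 * y ^ 2 + 2 * (y + s) ^ 2) * (((y + s) + y) * ((y + s) + 2 * y)) ^ 2
      = 13 * y ^ 6 + 39 * y ^ 5 * s + (189 / 4) * y ^ 4 * s ^ 2 + 32 * y ^ 3 * s ^ 3 + (27 / 2) * y ^ 2
      * s ^ 4 + 3 * y * s ^ 5 + (1 / 4) * s ^ 6 := by ring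
    have hq : 0 ≤ 13 * y ^ 6 + 39 * y ^ 5 * s + (189 / 4) * y ^ 4 * s ^ 2 + 32 * y ^ 3 * s ^ 3 + (27 / 2) * y ^ 2
      * s ^ 4 + 3 * y * s ^ 5 + (1 / 4) * s ^ 6 := by positivity
    linarith

lemma ineq_1_3 {x y : ℝ} (hx : 0 < x) (hy : 0 < y) :
    1 * (x ^ 2)⁻¹ + 3 * (y ^ 2)⁻¹ ≤
      ((11 / 6) * (y)⁻¹ + 1 * (x)⁻¹ + (-3) * (x + y)⁻¹ + 3 * (x + 2 * y)⁻¹ + (-1) * (x + 3 * y)⁻¹) ^ 2 := by
  have hS : (11 / 6) * (y)⁻¹ + 1 * (x)⁻¹ + (-3) * (x + y)⁻¹ + 3 * (x + 2 * y)⁻¹ + (-1) * (x + 3 * y)⁻¹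
      = (6 * y ^ 4 + 11 * x * y ^ 3 + (121 / 6) * x ^ 2 * y ^ 2 + 11 * x ^ 3 * y + (11 / 6) * x ^ 4) /
      (x * y * ((x + y) * (x + 2 * y) * (x + 3 * y))) := by
    field_simp
    ring
  rw [hS, div_pow, le_div_iff₀ (by positivity)]
  have hL : (1 * (x ^ 2)⁻¹ + 3 * (y ^ 2)⁻¹) *
      (x * y * ((x + y) * (x + 2 * y) * (x + 3 * y))) ^ 2
      = (1 * y ^ 2 + 3 * x ^ 2) * ((x + y) * (x + 2 * y) * (x + 3 * y)) ^ 2 := by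
    field_simp
  rw [hL]
  rcases le_total x y with h | h
  · obtain ⟨s, hs, rfl⟩ : ∃ s, 0 ≤ s ∧ y = x + s := ⟨y - x, by linarith, by ring⟩
    have hp : (6 * (x + s) ^ 4 + 11 * x * (x + s) ^ 3 + (121 / 6) * x ^ 2 * (x + s) ^ 2 + 11 * x ^ 3 * (x + s)
      + (11 / 6) * x ^ 4) ^ 2
      - (1 * (x + s) ^ 2 + 3 * x ^ 2) * ((x + (x + s)) * (x + 2 * (x + s)) * (x + 3 * (x + s))) ^ 2
      = 196 * x ^ 8 + (2548 / 3) * x ^ 7 * s + (14659 / 9) * x ^ 6 * s ^ 2 + (15943 / 9) * x ^ 5 * s ^ 3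
      + (41113 / 36) * x ^ 4 * s ^ 4 + (1223 / 3) * x ^ 3 * s ^ 5 + 62 * x ^ 2 * s ^ 6 := by ring
    have hq : 0 ≤ 196 * x ^ 8 + (2548 / 3) * x ^ 7 * s + (14659 / 9) * x ^ 6 * s ^ 2 + (15943 / 9) * x ^ 5 * s ^ 3
      + (41113 / 36) * x ^ 4 * s ^ 4 + (1223 / 3) * x ^ 3 * s ^ 5 + 62 * x ^ 2 * s ^ 6 := by positivity
    linarith
  · obtain ⟨s, hs, rfl⟩ : ∃ s, 0 ≤ s ∧ x = y + s := ⟨x - y, by linarith, by ring⟩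
    have hp : (6 * y ^ 4 + 11 * (y + s) * y ^ 3 + (121 / 6) * (y + s) ^ 2 * y ^ 2 + 11 * (y + s) ^ 3 * y + (11
      / 6) * (y + s) ^ 4) ^ 2
      - (1 * y ^ 2 + 3 * (y + s) ^ 2) * (((y + s) + y) * ((y + s) + 2 * y) * ((y + s) + 3 * y)) ^ 2
      = 196 * y ^ 8 + (2156 / 3) * y ^ 7 * s + (10543 / 9) * y ^ 6 * s ^ 2 + (10271 / 9) * y ^ 5 * s ^ 3
      + (25553 / 36) * y ^ 4 * s ^ 4 + (2438 / 9) * y ^ 3 * s ^ 5 + (1087 / 18) * y ^ 2 * s ^ 6 + (65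
      / 9) * y * s ^ 7 + (13 / 36) * s ^ 8 := by ring
    have hq : 0 ≤ 196 * y ^ 8 + (2156 / 3) * y ^ 7 * s + (10543 / 9) * y ^ 6 * s ^ 2 + (10271 / 9) * y ^ 5 * s ^ 3
      + (25553 / 36) * y ^ 4 * s ^ 4 + (2438 / 9) * y ^ 3 * s ^ 5 + (1087 / 18) * y ^ 2 * s ^ 6 + (65
      / 9) * y * s ^ 7 + (13 / 36) * s ^ 8 := by positivity
    linarith

lemma ineq_2_2 {x y : ℝ} (hx : 0 < x) (hy : 0 < y) :
    2 * (x ^ 2)⁻¹ + 2 * (y ^ 2)⁻¹ ≤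
      ((3 / 2) * (y)⁻¹ + (3 / 2) * (x)⁻¹ + (-9 / 2) * (x + y)⁻¹ + 2 * (x + 2 * y)⁻¹ + 2 * (2 * x + y)⁻¹) ^ 2 := by
  have hS : (3 / 2) * (y)⁻¹ + (3 / 2) * (x)⁻¹ + (-9 / 2) * (x + y)⁻¹ + 2 * (x + 2 * y)⁻¹ + 2 * (2 * x + y)⁻¹
      = (3 * y ^ 4 + (21 / 2) * x * y ^ 3 + (21 / 2) * x ^ 2 * y ^ 2 + (21 / 2) * x ^ 3 * y + 3 * x ^ 4) /
      (x * y * ((x + y) * (x + 2 * y) * (2 * x + y))) := by
    field_simp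
    ring
  rw [hS, div_pow, le_div_iff₀ (by positivity)]
  have hL : (2 * (x ^ 2)⁻¹ + 2 * (y ^ 2)⁻¹) *
      (x * y * ((x + y) * (x + 2 * y) * (2 * x + y))) ^ 2
      = (2 * y ^ 2 + 2 * x ^ 2) * ((x + y) * (x + 2 * y) * (2 * x + y)) ^ 2 := by
    field_simp
  rw [hL]
  rcases le_total x y with h | h
  · obtain ⟨s, hs, rfl⟩ : ∃ s, 0 ≤ s ∧ y = x + s := ⟨y - x, by linarith, by ring⟩
    have hp : (3 * (x + s) ^ 4 + (21 / 2) * x * (x + s) ^ 3 + (21 / 2) * x ^ 2 * (x + s) ^ 2 + (21 / 2) * x ^ 3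
      * (x + s) + 3 * x ^ 4) ^ 2
      - (2 * (x + s) ^ 2 + 2 * x ^ 2) * ((x + (x + s)) * (x + 2 * (x + s)) * (2 * x + (x + s))) ^ 2
      = (441 / 4) * x ^ 8 + 441 * x ^ 7 * s + 801 * x ^ 6 * s ^ 2 + (1719 / 2) * x ^ 5 * s ^ 3 + 602 * x
      ^ 4 * s ^ 4 + 286 * x ^ 3 * s ^ 5 + (353 / 4) * x ^ 2 * s ^ 6 + 15 * x * s ^ 7 + 1 * s ^ 8 := by ring
    have hq : 0 ≤ (441 / 4) * x ^ 8 + 441 * x ^ 7 * s + 801 * x ^ 6 * s ^ 2 + (1719 / 2) * x ^ 5 * s ^ 3 + 602 * x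
      ^ 4 * s ^ 4 + 286 * x ^ 3 * s ^ 5 + (353 / 4) * x ^ 2 * s ^ 6 + 15 * x * s ^ 7 + 1 * s ^ 8 := by positivity
    linarith
  · obtain ⟨s, hs, rfl⟩ : ∃ s, 0 ≤ s ∧ x = y + s := ⟨x - y, by linarith, by ring⟩
    have hp : (3 * y ^ 4 + (21 / 2) * (y + s) * y ^ 3 + (21 / 2) * (y + s) ^ 2 * y ^ 2 + (21 / 2) * (y + s) ^ 3
      * y + 3 * (y + s) ^ 4) ^ 2
      - (2 * y ^ 2 + 2 * (y + s) ^ 2) * (((y + s) + y) * ((y + s) + 2 * y) * (2 * (y + s) + y)) ^ 2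
      = (441 / 4) * y ^ 8 + 441 * y ^ 7 * s + 801 * y ^ 6 * s ^ 2 + (1719 / 2) * y ^ 5 * s ^ 3 + 602 * y
      ^ 4 * s ^ 4 + 286 * y ^ 3 * s ^ 5 + (353 / 4) * y ^ 2 * s ^ 6 + 15 * y * s ^ 7 + 1 * s ^ 8 := by ring
    have hq : 0 ≤ (441 / 4) * y ^ 8 + 441 * y ^ 7 * s + 801 * y ^ 6 * s ^ 2 + (1719 / 2) * y ^ 5 * s ^ 3 + 602 * y
      ^ 4 * s ^ 4 + 286 * y ^ 3 * s ^ 5 + (353 / 4) * y ^ 2 * s ^ 6 + 15 * y * s ^ 7 + 1 * s ^ 8 := by positivity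
    linarith

lemma ineq_1_4 {x y : ℝ} (hx : 0 < x) (hy : 0 < y) :
    1 * (x ^ 2)⁻¹ + 4 * (y ^ 2)⁻¹ ≤
      ((25 / 12) * (y)⁻¹ + 1 * (x)⁻¹ + (-4) * (x + y)⁻¹ + 6 * (x + 2 * y)⁻¹ + (-4) * (x + 3 * y)⁻¹ + 1
      * (x + 4 * y)⁻¹) ^ 2 := by
  have hS : (25 / 12) * (y)⁻¹ + 1 * (x)⁻¹ + (-4) * (x + y)⁻¹ + 6 * (x + 2 * y)⁻¹ + (-4) * (x + 3 * y)⁻¹ + 1
      * (x + 4 * y)⁻¹
      = (24 * y ^ 5 + 50 * x * y ^ 4 + (625 / 6) * x ^ 2 * y ^ 3 + (875 / 12) * x ^ 3 * y ^ 2 + (125 / 6)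
      * x ^ 4 * y + (25 / 12) * x ^ 5) /
      (x * y * ((x + y) * (x + 2 * y) * (x + 3 * y) * (x + 4 * y))) := by
    field_simp
    ring
  rw [hS, div_pow, le_div_iff₀ (by positivity)]
  have hL : (1 * (x ^ 2)⁻¹ + 4 * (y ^ 2)⁻¹) *
      (x * y * ((x + y) * (x + 2 * y) * (x + 3 * y) * (x + 4 * y))) ^ 2
      = (1 * y ^ 2 + 4 * x ^ 2) * ((x + y) * (x + 2 * y) * (x + 3 * y) * (x + 4 * y)) ^ 2 := by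
    field_simp
  rw [hL]
  rcases le_total x y with h | h
  · obtain ⟨s, hs, rfl⟩ : ∃ s, 0 ≤ s ∧ y = x + s := ⟨y - x, by linarith, by ring⟩
    have hp : (24 * (x + s) ^ 5 + 50 * x * (x + s) ^ 4 + (625 / 6) * x ^ 2 * (x + s) ^ 3 + (875 / 12) * x ^ 3 *
      (x + s) ^ 2 + (125 / 6) * x ^ 4 * (x + s) + (25 / 12) * x ^ 5) ^ 2
      - (1 * (x + s) ^ 2 + 4 * x ^ 2) * ((x + (x + s)) * (x + 2 * (x + s)) * (x + 3 * (x + s)) * (x + 4 * (x + s))) ^ 2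
      = 3076 * x ^ 10 + (53830 / 3) * x ^ 9 * s + (1754485 / 36) * x ^ 8 * s ^ 2 + (2911523 / 36) * x ^
      7 * s ^ 3 + (4272899 / 48) * x ^ 6 * s ^ 4 + (2358593 / 36) * x ^ 5 * s ^ 5 + (1114345 / 36) * x
      ^ 4 * s ^ 6 + (25394 / 3) * x ^ 3 * s ^ 7 + 1016 * x ^ 2 * s ^ 8 := by ring
    have hq : 0 ≤ 3076 * x ^ 10 + (53830 / 3) * x ^ 9 * s + (1754485 / 36) * x ^ 8 * s ^ 2 + (2911523 / 36) * x ^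
      7 * s ^ 3 + (4272899 / 48) * x ^ 6 * s ^ 4 + (2358593 / 36) * x ^ 5 * s ^ 5 + (1114345 / 36) * x
      ^ 4 * s ^ 6 + (25394 / 3) * x ^ 3 * s ^ 7 + 1016 * x ^ 2 * s ^ 8 := by positivity
    linarith
  · obtain ⟨s, hs, rfl⟩ : ∃ s, 0 ≤ s ∧ x = y + s := ⟨x - y, by linarith, by ring⟩
    have hp : (24 * y ^ 5 + 50 * (y + s) * y ^ 4 + (625 / 6) * (y + s) ^ 2 * y ^ 3 + (875 / 12) * (y + s) ^ 3 *
      y ^ 2 + (125 / 6) * (y + s) ^ 4 * y + (25 / 12) * (y + s) ^ 5) ^ 2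
      - (1 * y ^ 2 + 4 * (y + s) ^ 2) * (((y + s) + y) * ((y + s) + 2 * y) * ((y + s) + 3 * y) * ((y + s) + 4 * y)) ^ 2
      = 3076 * y ^ 10 + (38450 / 3) * y ^ 9 * s + (923965 / 36) * y ^ 8 * s ^ 2 + (386039 / 12) * y ^ 7
      * s ^ 3 + (3774053 / 144) * y ^ 6 * s ^ 4 + (109587 / 8) * y ^ 5 * s ^ 5 + (220985 / 48) * y ^ 4
      * s ^ 6 + (5957 / 6) * y ^ 3 * s ^ 7 + (19211 / 144) * y ^ 2 * s ^ 8 + (245 / 24) * y * s ^ 9 +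
      (49 / 144) * s ^ 10 := by ring
    have hq : 0 ≤ 3076 * y ^ 10 + (38450 / 3) * y ^ 9 * s + (923965 / 36) * y ^ 8 * s ^ 2 + (386039 / 12) * y ^ 7
      * s ^ 3 + (3774053 / 144) * y ^ 6 * s ^ 4 + (109587 / 8) * y ^ 5 * s ^ 5 + (220985 / 48) * y ^ 4
      * s ^ 6 + (5957 / 6) * y ^ 3 * s ^ 7 + (19211 / 144) * y ^ 2 * s ^ 8 + (245 / 24) * y * s ^ 9 +
      (49 / 144) * s ^ 10 := by positivity
    linarith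

lemma ineq_2_3 {x y : ℝ} (hx : 0 < x) (hy : 0 < y) :
    2 * (x ^ 2)⁻¹ + 3 * (y ^ 2)⁻¹ ≤
      ((11 / 6) * (y)⁻¹ + (3 / 2) * (x)⁻¹ + (-15 / 2) * (x + y)⁻¹ + 6 * (x + 2 * y)⁻¹ + (-2) * (x + 3 *
      y)⁻¹ + 3 * (2 * x + y)⁻¹ + 1 * (2 * x + 3 * y)⁻¹) ^ 2 := by
  have hS : (11 / 6) * (y)⁻¹ + (3 / 2) * (x)⁻¹ + (-15 / 2) * (x + y)⁻¹ + 6 * (x + 2 * y)⁻¹ + (-2) * (x + 3 *
      y)⁻¹ + 3 * (2 * x + y)⁻¹ + 1 * (2 * x + 3 * y)⁻¹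
      = (27 * y ^ 6 + (243 / 2) * x * y ^ 5 + 195 * x ^ 2 * y ^ 4 + (715 / 3) * x ^ 3 * y ^ 3 + (1045 /
      6) * x ^ 4 * y ^ 2 + (176 / 3) * x ^ 5 * y + (22 / 3) * x ^ 6) /
      (x * y * ((x + y) * (x + 2 * y) * (x + 3 * y) * (2 * x + y) * (2 * x + 3 * y))) := by
    field_simp
    ring
  rw [hS, div_pow, le_div_iff₀ (by positivity)]
  have hL : (2 * (x ^ 2)⁻¹ + 3 * (y ^ 2)⁻¹) *
      (x * y * ((x + y) * (x + 2 * y) * (x + 3 * y) * (2 * x + y) * (2 * x + 3 * y))) ^ 2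
      = (2 * y ^ 2 + 3 * x ^ 2) * ((x + y) * (x + 2 * y) * (x + 3 * y) * (2 * x + y) * (2 * x + 3 * y)) ^ 2 := by
    field_simp
  rw [hL]
  rcases le_total x y with h | h
  · obtain ⟨s, hs, rfl⟩ : ∃ s, 0 ≤ s ∧ y = x + s := ⟨y - x, by linarith, by ring⟩
    have hp : (27 * (x + s) ^ 6 + (243 / 2) * x * (x + s) ^ 5 + 195 * x ^ 2 * (x + s) ^ 4 + (715 / 3) * x ^ 3 *
      (x + s) ^ 3 + (1045 / 6) * x ^ 4 * (x + s) ^ 2 + (176 / 3) * x ^ 5 * (x + s) + (22 / 3) * x ^ 6) ^ 2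
      - (2 * (x + s) ^ 2 + 3 * x ^ 2) * ((x + (x + s)) * (x + 2 * (x + s)) * (x + 3 * (x + s)) * (2 * x + (x + s)) * (2 * x + 3 * (x +
      s))) ^ 2
      = 27684 * x ^ 12 + 179946 * x ^ 11 * s + (2257609 / 4) * x ^ 10 * s ^ 2 + (2244927 / 2) * x ^ 9 *
      s ^ 3 + (56115085 / 36) * x ^ 8 * s ^ 4 + (28368677 / 18) * x ^ 7 * s ^ 5 + (10637692 / 9) * x ^
      6 * s ^ 6 + (1319705 / 2) * x ^ 5 * s ^ 7 + (1083049 / 4) * x ^ 4 * s ^ 8 + (157689 / 2) * x ^ 3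
      * s ^ 9 + (60813 / 4) * x ^ 2 * s ^ 10 + 1701 * x * s ^ 11 + 81 * s ^ 12 := by ring
    have hq : 0 ≤ 27684 * x ^ 12 + 179946 * x ^ 11 * s + (2257609 / 4) * x ^ 10 * s ^ 2 + (2244927 / 2) * x ^ 9 *
      s ^ 3 + (56115085 / 36) * x ^ 8 * s ^ 4 + (28368677 / 18) * x ^ 7 * s ^ 5 + (10637692 / 9) * x ^
      6 * s ^ 6 + (1319705 / 2) * x ^ 5 * s ^ 7 + (1083049 / 4) * x ^ 4 * s ^ 8 + (157689 / 2) * x ^ 3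
      * s ^ 9 + (60813 / 4) * x ^ 2 * s ^ 10 + 1701 * x * s ^ 11 + 81 * s ^ 12 := by positivity
    linarith
  · obtain ⟨s, hs, rfl⟩ : ∃ s, 0 ≤ s ∧ x = y + s := ⟨x - y, by linarith, by ring⟩
    have hp : (27 * y ^ 6 + (243 / 2) * (y + s) * y ^ 5 + 195 * (y + s) ^ 2 * y ^ 4 + (715 / 3) * (y + s) ^ 3 *
      y ^ 3 + (1045 / 6) * (y + s) ^ 4 * y ^ 2 + (176 / 3) * (y + s) ^ 5 * y + (22 / 3) * (y + s) ^ 6) ^ 2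
      - (2 * y ^ 2 + 3 * (y + s) ^ 2) * (((y + s) + y) * ((y + s) + 2 * y) * ((y + s) + 3 * y) * (2 * (y + s) + y) * (2 * (y + s) + 3 *
      y)) ^ 2
      = 27684 * y ^ 12 + 152262 * y ^ 11 * s + (1648561 / 4) * y ^ 10 * s ^ 2 + 715009 * y ^ 9 * s ^ 3 +
      (7804549 / 9) * y ^ 8 * s ^ 4 + (13628039 / 18) * y ^ 7 * s ^ 5 + (4295440 / 9) * y ^ 6 * s ^ 6
      + (1934339 / 9) * y ^ 5 * s ^ 7 + (2441045 / 36) * y ^ 4 * s ^ 8 + (130832 / 9) * y ^ 3 * s ^ 9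
      + (18094 / 9) * y ^ 2 * s ^ 10 + (1456 / 9) * y * s ^ 11 + (52 / 9) * s ^ 12 := by ring
    have hq : 0 ≤ 27684 * y ^ 12 + 152262 * y ^ 11 * s + (1648561 / 4) * y ^ 10 * s ^ 2 + 715009 * y ^ 9 * s ^ 3 +
      (7804549 / 9) * y ^ 8 * s ^ 4 + (13628039 / 18) * y ^ 7 * s ^ 5 + (4295440 / 9) * y ^ 6 * s ^ 6
      + (1934339 / 9) * y ^ 5 * s ^ 7 + (2441045 / 36) * y ^ 4 * s ^ 8 + (130832 / 9) * y ^ 3 * s ^ 9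
      + (18094 / 9) * y ^ 2 * s ^ 10 + (1456 / 9) * y * s ^ 11 + (52 / 9) * s ^ 12 := by positivity
    linarith

lemma ineq_1_5 {x y : ℝ} (hx : 0 < x) (hy : 0 < y) :
    1 * (x ^ 2)⁻¹ + 5 * (y ^ 2)⁻¹ ≤
      ((137 / 60) * (y)⁻¹ + 1 * (x)⁻¹ + (-5) * (x + y)⁻¹ + 10 * (x + 2 * y)⁻¹ + (-10) * (x + 3 * y)⁻¹ +
      5 * (x + 4 * y)⁻¹ + (-1) * (x + 5 * y)⁻¹) ^ 2 := by
  have hS : (137 / 60) * (y)⁻¹ + 1 * (x)⁻¹ + (-5) * (x + y)⁻¹ + 10 * (x + 2 * y)⁻¹ + (-10) * (x + 3 * y)⁻¹ +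
      5 * (x + 4 * y)⁻¹ + (-1) * (x + 5 * y)⁻¹
      = (120 * y ^ 6 + 274 * x * y ^ 5 + (18769 / 30) * x ^ 2 * y ^ 4 + (2055 / 4) * x ^ 3 * y ^ 3 +
      (2329 / 12) * x ^ 4 * y ^ 2 + (137 / 4) * x ^ 5 * y + (137 / 60) * x ^ 6) /
      (x * y * ((x + y) * (x + 2 * y) * (x + 3 * y) * (x + 4 * y) * (x + 5 * y))) := by
    field_simp
    ring
  rw [hS, div_pow, le_div_iff₀ (by positivity)]
  have hL : (1 * (x ^ 2)⁻¹ + 5 * (y ^ 2)⁻¹) *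
      (x * y * ((x + y) * (x + 2 * y) * (x + 3 * y) * (x + 4 * y) * (x + 5 * y))) ^ 2
      = (1 * y ^ 2 + 5 * x ^ 2) * ((x + y) * (x + 2 * y) * (x + 3 * y) * (x + 4 * y) * (x + 5 * y)) ^ 2 := by
    field_simp
  rw [hL]
  rcases le_total x y with h | h
  · obtain ⟨s, hs, rfl⟩ : ∃ s, 0 ≤ s ∧ y = x + s := ⟨y - x, by linarith, by ring⟩
    have hp : (120 * (x + s) ^ 6 + 274 * x * (x + s) ^ 5 + (18769 / 30) * x ^ 2 * (x + s) ^ 4 + (2055 / 4) * x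
      ^ 3 * (x + s) ^ 3 + (2329 / 12) * x ^ 4 * (x + s) ^ 2 + (137 / 4) * x ^ 5 * (x + s) + (137 / 60)
      * x ^ 6) ^ 2
      - (1 * (x + s) ^ 2 + 5 * x ^ 2) * ((x + (x + s)) * (x + 2 * (x + s)) * (x + 3 * (x + s)) * (x + 4 * (x + s)) * (x + 5 * (x + s))) ^ 2
      = 1296 * x ^ 12 + (48168 / 5) * x ^ 11 * s + (3737121 / 25) * x ^ 10 * s ^ 2 + (20790388 / 25) * x
      ^ 9 * s ^ 3 + (1027763729 / 450) * x ^ 8 * s ^ 4 + (1656864283 / 450) * x ^ 7 * s ^ 5 +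
      (1497996393 / 400) * x ^ 6 * s ^ 6 + (2203665173 / 900) * x ^ 5 * s ^ 7 + (902709601 / 900) * x
      ^ 4 * s ^ 8 + (3527506 / 15) * x ^ 3 * s ^ 9 + 24152 * x ^ 2 * s ^ 10 := by ring
    have hq : 0 ≤ 1296 * x ^ 12 + (48168 / 5) * x ^ 11 * s + (3737121 / 25) * x ^ 10 * s ^ 2 + (20790388 / 25) * x
      ^ 9 * s ^ 3 + (1027763729 / 450) * x ^ 8 * s ^ 4 + (1656864283 / 450) * x ^ 7 * s ^ 5 +
      (1497996393 / 400) * x ^ 6 * s ^ 6 + (2203665173 / 900) * x ^ 5 * s ^ 7 + (902709601 / 900) * x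
      ^ 4 * s ^ 8 + (3527506 / 15) * x ^ 3 * s ^ 9 + 24152 * x ^ 2 * s ^ 10 := by positivity
    linarith
  · obtain ⟨s, hs, rfl⟩ : ∃ s, 0 ≤ s ∧ x = y + s := ⟨x - y, by linarith, by ring⟩
    have hp : (120 * y ^ 6 + 274 * (y + s) * y ^ 5 + (18769 / 30) * (y + s) ^ 2 * y ^ 4 + (2055 / 4) * (y + s)
      ^ 3 * y ^ 3 + (2329 / 12) * (y + s) ^ 4 * y ^ 2 + (137 / 4) * (y + s) ^ 5 * y + (137 / 60) * (y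
      + s) ^ 6) ^ 2
      - (1 * y ^ 2 + 5 * (y + s) ^ 2) * (((y + s) + y) * ((y + s) + 2 * y) * ((y + s) + 3 * y) * ((y + s) + 4 * y) * ((y + s) + 5 * y)) ^ 2
      = 1296 * y ^ 12 + (29592 / 5) * y ^ 11 * s + (3226281 / 25) * y ^ 10 * s ^ 2 + (10462622 / 25) * y
      ^ 9 * s ^ 3 + (260178083 / 450) * y ^ 8 * s ^ 4 + (13104019 / 30) * y ^ 7 * s ^ 5 + (735059657 /
      3600) * y ^ 6 * s ^ 6 + (12583013 / 200) * y ^ 5 * s ^ 7 + (15743789 / 1200) * y ^ 4 * s ^ 8 +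
      (36881 / 20) * y ^ 3 * s ^ 9 + (604679 / 3600) * y ^ 2 * s ^ 10 + (5383 / 600) * y * s ^ 11 +
      (769 / 3600) * s ^ 12 := by ring
    have hq : 0 ≤ 1296 * y ^ 12 + (29592 / 5) * y ^ 11 * s + (3226281 / 25) * y ^ 10 * s ^ 2 + (10462622 / 25) * y
      ^ 9 * s ^ 3 + (260178083 / 450) * y ^ 8 * s ^ 4 + (13104019 / 30) * y ^ 7 * s ^ 5 + (735059657 /
      3600) * y ^ 6 * s ^ 6 + (12583013 / 200) * y ^ 5 * s ^ 7 + (15743789 / 1200) * y ^ 4 * s ^ 8 +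
      (36881 / 20) * y ^ 3 * s ^ 9 + (604679 / 3600) * y ^ 2 * s ^ 10 + (5383 / 600) * y * s ^ 11 +
      (769 / 3600) * s ^ 12 := by positivity
    linarith

lemma ineq_2_4 {x y : ℝ} (hx : 0 < x) (hy : 0 < y) :
    2 * (x ^ 2)⁻¹ + 4 * (y ^ 2)⁻¹ ≤
      ((25 / 12) * (y)⁻¹ + (3 / 2) * (x)⁻¹ + (-11) * (x + y)⁻¹ + (23 / 2) * (x + 2 * y)⁻¹ + (-8) * (x +
      3 * y)⁻¹ + 2 * (x + 4 * y)⁻¹ + 4 * (2 * x + y)⁻¹ + 4 * (2 * x + 3 * y)⁻¹) ^ 2 := by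
  have hS : (25 / 12) * (y)⁻¹ + (3 / 2) * (x)⁻¹ + (-11) * (x + y)⁻¹ + (23 / 2) * (x + 2 * y)⁻¹ + (-8) * (x +
      3 * y)⁻¹ + 2 * (x + 4 * y)⁻¹ + 4 * (2 * x + y)⁻¹ + 4 * (2 * x + 3 * y)⁻¹
      = (108 * y ^ 7 + 513 * x * y ^ 6 + (1803 / 2) * x ^ 2 * y ^ 5 + (15025 / 12) * x ^ 3 * y ^ 4 +
      (2125 / 2) * x ^ 4 * y ^ 3 + (5575 / 12) * x ^ 5 * y ^ 2 + 100 * x ^ 6 * y + (25 / 3) * x ^ 7) /
      (x * y * ((x + y) * (x + 2 * y) * (x + 3 * y) * (x + 4 * y) * (2 * x + y) * (2 * x + 3 * y))) := by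
    field_simp
    ring
  rw [hS, div_pow, le_div_iff₀ (by positivity)]
  have hL : (2 * (x ^ 2)⁻¹ + 4 * (y ^ 2)⁻¹) *
      (x * y * ((x + y) * (x + 2 * y) * (x + 3 * y) * (x + 4 * y) * (2 * x + y) * (2 * x + 3 * y))) ^ 2
      = (2 * y ^ 2 + 4 * x ^ 2) * ((x + y) * (x + 2 * y) * (x + 3 * y) * (x + 4 * y) * (2 * x + y) * (2 * x + 3 * y)) ^ 2 := by
    field_simp
  rw [hL]
  rcases le_total x y with h | h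
  · obtain ⟨s, hs, rfl⟩ : ∃ s, 0 ≤ s ∧ y = x + s := ⟨y - x, by linarith, by ring⟩
    have hp : (108 * (x + s) ^ 7 + 513 * x * (x + s) ^ 6 + (1803 / 2) * x ^ 2 * (x + s) ^ 5 + (15025 / 12) * x
      ^ 3 * (x + s) ^ 4 + (2125 / 2) * x ^ 4 * (x + s) ^ 3 + (5575 / 12) * x ^ 5 * (x + s) ^ 2 + 100 *
      x ^ 6 * (x + s) + (25 / 3) * x ^ 7) ^ 2
      - (2 * (x + s) ^ 2 + 4 * x ^ 2) * ((x + (x + s)) * (x + 2 * (x + s)) * (x + 3 * (x + s)) * (x + 4 * (x + s)) * (2 * x + (x + s)) *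
      (2 * x + 3 * (x + s))) ^ 2
      = 8100 * x ^ 14 + 64530 * x ^ 13 * s + (5630829 / 4) * x ^ 12 * s ^ 2 + (35016281 / 4) * x ^ 11 *
      s ^ 3 + (3897499897 / 144) * x ^ 10 * s ^ 4 + (924684607 / 18) * x ^ 9 * s ^ 5 + (1583435509 /
      24) * x ^ 8 * s ^ 6 + (543126593 / 9) * x ^ 7 * s ^ 7 + (5811400609 / 144) * x ^ 6 * s ^ 8 +
      (79571447 / 4) * x ^ 5 * s ^ 9 + (28636699 / 4) * x ^ 4 * s ^ 10 + 1823121 * x ^ 3 * s ^ 11 +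
      308133 * x ^ 2 * s ^ 12 + 30456 * x * s ^ 13 + 1296 * s ^ 14 := by ring
    have hq : 0 ≤ 8100 * x ^ 14 + 64530 * x ^ 13 * s + (5630829 / 4) * x ^ 12 * s ^ 2 + (35016281 / 4) * x ^ 11 *
      s ^ 3 + (3897499897 / 144) * x ^ 10 * s ^ 4 + (924684607 / 18) * x ^ 9 * s ^ 5 + (1583435509 /
      24) * x ^ 8 * s ^ 6 + (543126593 / 9) * x ^ 7 * s ^ 7 + (5811400609 / 144) * x ^ 6 * s ^ 8 +
      (79571447 / 4) * x ^ 5 * s ^ 9 + (28636699 / 4) * x ^ 4 * s ^ 10 + 1823121 * x ^ 3 * s ^ 11 +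
      308133 * x ^ 2 * s ^ 12 + 30456 * x * s ^ 13 + 1296 * s ^ 14 := by positivity
    linarith
  · obtain ⟨s, hs, rfl⟩ : ∃ s, 0 ≤ s ∧ x = y + s := ⟨x - y, by linarith, by ring⟩
    have hp : (108 * y ^ 7 + 513 * (y + s) * y ^ 6 + (1803 / 2) * (y + s) ^ 2 * y ^ 5 + (15025 / 12) * (y + s)
      ^ 3 * y ^ 4 + (2125 / 2) * (y + s) ^ 4 * y ^ 3 + (5575 / 12) * (y + s) ^ 5 * y ^ 2 + 100 * (y +
      s) ^ 6 * y + (25 / 3) * (y + s) ^ 7) ^ 2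
      - (2 * y ^ 2 + 4 * (y + s) ^ 2) * (((y + s) + y) * ((y + s) + 2 * y) * ((y + s) + 3 * y) * ((y + s) + 4 * y) * (2 * (y + s) + y) *
      (2 * (y + s) + 3 * y)) ^ 2
      = 8100 * y ^ 14 + 48870 * y ^ 13 * s + (5223669 / 4) * y ^ 12 * s ^ 2 + (24213907 / 4) * y ^ 11 *
      s ^ 3 + (1919865205 / 144) * y ^ 10 * s ^ 4 + (1266287707 / 72) * y ^ 9 * s ^ 5 + (732987905 /
      48) * y ^ 8 * s ^ 6 + (82246351 / 9) * y ^ 7 * s ^ 7 + (555498515 / 144) * y ^ 6 * s ^ 8 +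
      (27807557 / 24) * y ^ 5 * s ^ 9 + (35498153 / 144) * y ^ 4 * s ^ 10 + (327487 / 9) * y ^ 3 * s ^
      11 + (21319 / 6) * y ^ 2 * s ^ 12 + (1862 / 9) * y * s ^ 13 + (49 / 9) * s ^ 14 := by ring
    have hq : 0 ≤ 8100 * y ^ 14 + 48870 * y ^ 13 * s + (5223669 / 4) * y ^ 12 * s ^ 2 + (24213907 / 4) * y ^ 11 *
      s ^ 3 + (1919865205 / 144) * y ^ 10 * s ^ 4 + (1266287707 / 72) * y ^ 9 * s ^ 5 + (732987905 /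
      48) * y ^ 8 * s ^ 6 + (82246351 / 9) * y ^ 7 * s ^ 7 + (555498515 / 144) * y ^ 6 * s ^ 8 +
      (27807557 / 24) * y ^ 5 * s ^ 9 + (35498153 / 144) * y ^ 4 * s ^ 10 + (327487 / 9) * y ^ 3 * s ^
      11 + (21319 / 6) * y ^ 2 * s ^ 12 + (1862 / 9) * y * s ^ 13 + (49 / 9) * s ^ 14 := by positivity
    linarith

lemma ineq_3_3 {x y : ℝ} (hx : 0 < x) (hy : 0 < y) :
    3 * (x ^ 2)⁻¹ + 3 * (y ^ 2)⁻¹ ≤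
      ((11 / 6) * (y)⁻¹ + (11 / 6) * (x)⁻¹ + (-83 / 6) * (x + y)⁻¹ + 9 * (x + 2 * y)⁻¹ + (-3) * (x + 3
      * y)⁻¹ + 9 * (2 * x + y)⁻¹ + 3 * (2 * x + 3 * y)⁻¹ + (-3) * (3 * x + y)⁻¹ + 3 * (3 * x + 2 *
      y)⁻¹) ^ 2 := by
  have hS : (11 / 6) * (y)⁻¹ + (11 / 6) * (x)⁻¹ + (-83 / 6) * (x + y)⁻¹ + 9 * (x + 2 * y)⁻¹ + (-3) * (x + 3
      * y)⁻¹ + 9 * (2 * x + y)⁻¹ + 3 * (2 * x + 3 * y)⁻¹ + (-3) * (3 * x + y)⁻¹ + 3 * (3 * x + 2 *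
      y)⁻¹
      = (66 * y ^ 8 + 594 * x * y ^ 7 + (12661 / 6) * x ^ 2 * y ^ 6 + (22979 / 6) * x ^ 3 * y ^ 5 + 4440
      * x ^ 4 * y ^ 4 + (22979 / 6) * x ^ 5 * y ^ 3 + (12661 / 6) * x ^ 6 * y ^ 2 + 594 * x ^ 7 * y +
      66 * x ^ 8) /
      (x * y * ((x + y) * (x + 2 * y) * (x + 3 * y) * (2 * x + y) * (2 * x + 3 * y) * (3 * x + y) * (3 * x + 2 *
      y))) := by
    field_simp
    ring
  rw [hS, div_pow, le_div_iff₀ (by positivity)]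
  have hL : (3 * (x ^ 2)⁻¹ + 3 * (y ^ 2)⁻¹) *
      (x * y * ((x + y) * (x + 2 * y) * (x + 3 * y) * (2 * x + y) * (2 * x + 3 * y) * (3 * x + y) * (3 * x + 2 *
      y))) ^ 2
      = (3 * y ^ 2 + 3 * x ^ 2) * ((x + y) * (x + 2 * y) * (x + 3 * y) * (2 * x + y) * (2 * x + 3 * y) * (3 * x + y) * (3 * x + 2 *
      y)) ^ 2 := by
    field_simp
  rw [hL]
  rcases le_total x y with h | h
  · obtain ⟨s, hs, rfl⟩ : ∃ s, 0 ≤ s ∧ y = x + s := ⟨y - x, by linarith, by ring⟩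
    have hp : (66 * (x + s) ^ 8 + 594 * x * (x + s) ^ 7 + (12661 / 6) * x ^ 2 * (x + s) ^ 6 + (22979 / 6) * x ^
      3 * (x + s) ^ 5 + 4440 * x ^ 4 * (x + s) ^ 4 + (22979 / 6) * x ^ 5 * (x + s) ^ 3 + (12661 / 6) *
      x ^ 6 * (x + s) ^ 2 + 594 * x ^ 7 * (x + s) + 66 * x ^ 8) ^ 2
      - (3 * (x + s) ^ 2 + 3 * x ^ 2) * ((x + (x + s)) * (x + 2 * (x + s)) * (x + 3 * (x + s)) * (2 * x + (x + s)) * (2 * x + 3 * (x +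
      s)) * (3 * x + (x + s)) * (3 * x + 2 * (x + s))) ^ 2
      = 129600 * x ^ 16 + 1036800 * x ^ 15 * s + 24935400 * x ^ 14 * s ^ 2 + 156403800 * x ^ 13 * s ^ 3
      + (1966077409 / 4) * x ^ 12 * s ^ 4 + (1926082227 / 2) * x ^ 11 * s ^ 5 + (15577789583 / 12) * x
      ^ 10 * s ^ 6 + (7601644115 / 6) * x ^ 9 * s ^ 7 + (8276343730 / 9) * x ^ 8 * s ^ 8 + (9042557843
      / 18) * x ^ 7 * s ^ 9 + (827081949 / 4) * x ^ 6 * s ^ 10 + (1144547597 / 18) * x ^ 5 * s ^ 11 +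
      (516237709 / 36) * x ^ 4 * s ^ 12 + 2295508 * x ^ 3 * s ^ 13 + 246466 * x ^ 2 * s ^ 14 + 15912 *
      x * s ^ 15 + 468 * s ^ 16 := by ring
    have hq : 0 ≤ 129600 * x ^ 16 + 1036800 * x ^ 15 * s + 24935400 * x ^ 14 * s ^ 2 + 156403800 * x ^ 13 * s ^ 3
      + (1966077409 / 4) * x ^ 12 * s ^ 4 + (1926082227 / 2) * x ^ 11 * s ^ 5 + (15577789583 / 12) * x
      ^ 10 * s ^ 6 + (7601644115 / 6) * x ^ 9 * s ^ 7 + (8276343730 / 9) * x ^ 8 * s ^ 8 + (9042557843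
      / 18) * x ^ 7 * s ^ 9 + (827081949 / 4) * x ^ 6 * s ^ 10 + (1144547597 / 18) * x ^ 5 * s ^ 11 +
      (516237709 / 36) * x ^ 4 * s ^ 12 + 2295508 * x ^ 3 * s ^ 13 + 246466 * x ^ 2 * s ^ 14 + 15912 *
      x * s ^ 15 + 468 * s ^ 16 := by positivity
    linarith
  · obtain ⟨s, hs, rfl⟩ : ∃ s, 0 ≤ s ∧ x = y + s := ⟨x - y, by linarith, by ring⟩
    have hp : (66 * y ^ 8 + 594 * (y + s) * y ^ 7 + (12661 / 6) * (y + s) ^ 2 * y ^ 6 + (22979 / 6) * (y + s) ^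
      3 * y ^ 5 + 4440 * (y + s) ^ 4 * y ^ 4 + (22979 / 6) * (y + s) ^ 5 * y ^ 3 + (12661 / 6) * (y +
      s) ^ 6 * y ^ 2 + 594 * (y + s) ^ 7 * y + 66 * (y + s) ^ 8) ^ 2
      - (3 * y ^ 2 + 3 * (y + s) ^ 2) * (((y + s) + y) * ((y + s) + 2 * y) * ((y + s) + 3 * y) * (2 * (y + s) + y) * (2 * (y + s) + 3 *
      y) * (3 * (y + s) + y) * (3 * (y + s) + 2 * y)) ^ 2
      = 129600 * y ^ 16 + 1036800 * y ^ 15 * s + 24935400 * y ^ 14 * s ^ 2 + 156403800 * y ^ 13 * s ^ 3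
      + (1966077409 / 4) * y ^ 12 * s ^ 4 + (1926082227 / 2) * y ^ 11 * s ^ 5 + (15577789583 / 12) * y
      ^ 10 * s ^ 6 + (7601644115 / 6) * y ^ 9 * s ^ 7 + (8276343730 / 9) * y ^ 8 * s ^ 8 + (9042557843
      / 18) * y ^ 7 * s ^ 9 + (827081949 / 4) * y ^ 6 * s ^ 10 + (1144547597 / 18) * y ^ 5 * s ^ 11 +
      (516237709 / 36) * y ^ 4 * s ^ 12 + 2295508 * y ^ 3 * s ^ 13 + 246466 * y ^ 2 * s ^ 14 + 15912 *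
      y * s ^ 15 + 468 * s ^ 16 := by ring
    have hq : 0 ≤ 129600 * y ^ 16 + 1036800 * y ^ 15 * s + 24935400 * y ^ 14 * s ^ 2 + 156403800 * y ^ 13 * s ^ 3
      + (1966077409 / 4) * y ^ 12 * s ^ 4 + (1926082227 / 2) * y ^ 11 * s ^ 5 + (15577789583 / 12) * y
      ^ 10 * s ^ 6 + (7601644115 / 6) * y ^ 9 * s ^ 7 + (8276343730 / 9) * y ^ 8 * s ^ 8 + (9042557843
      / 18) * y ^ 7 * s ^ 9 + (827081949 / 4) * y ^ 6 * s ^ 10 + (1144547597 / 18) * y ^ 5 * s ^ 11 +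
      (516237709 / 36) * y ^ 4 * s ^ 12 + 2295508 * y ^ 3 * s ^ 13 + 246466 * y ^ 2 * s ^ 14 + 15912 *
      y * s ^ 15 + 468 * s ^ 16 := by positivity
    linarith

end Pool.Agent.R226.EM
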