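import Pool.Agent.R226.EMB
import Pool.Agent.R226.EMC

/-!
Two-value case for MP_2ee812_an.
-/

namespace Pool.Agent.R226.EM

open MeasureTheory Set Real Filter Topology

set_option linter.unusedSectionVars false

/-- the alternating sum for `k` copies of `x` and `m` copies of `y` -/
noncomputable def F (k m : ℕ) (x y : ℝ) : ℝ :=
  ∑ i ∈ Finset.range (k + 1), ∑ j ∈ Finset.range (m + 1),
    ((k.choose i : ℝ) * (m.choose j : ℝ)) * ((-1 : ℝ) ^ (i + j + 1) * ((i : ℝ) * x + (j : ℝ) * y)⁻¹)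

lemma F_1_1 (x y : ℝ) : F 1 1 x y =
    1 * (y)⁻¹ + 1 * (x)⁻¹ + (-1) * (x + y)⁻¹ := by
  unfold F
  simp only [Finset.sum_range_succ, Finset.sum_range_zero, Nat.choose]
  norm_num
  ring

lemma F_1_2 (x y : ℝ) : F 1 2 x y =
    (3 / 2) * (y)⁻¹ + 1 * (x)⁻¹ + (-2) * (x + y)⁻¹ + 1 * (x + 2 * y)⁻¹ := by
  unfold F
  simp only [Finset.sum_range_succ, Finset.sum_range_zero, Nat.choose]
  norm_num
  ring

lemma F_1_3 (x y : ℝ) : F 1 3 x y =
    (11 / 6) * (y)⁻¹ + 1 * (x)⁻¹ + (-3) * (x + y)⁻¹ + 3 * (x + 2 * y)⁻¹ + (-1) * (x + 3 * y)⁻¹ := by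
  unfold F
  simp only [Finset.sum_range_succ, Finset.sum_range_zero, Nat.choose]
  norm_num
  ring

lemma F_2_2 (x y : ℝ) : F 2 2 x y =
    (3 / 2) * (y)⁻¹ + (3 / 2) * (x)⁻¹ + (-9 / 2) * (x + y)⁻¹ + 2 * (x + 2 * y)⁻¹ + 2 * (2 * x + y)⁻¹ := by
  unfold F
  simp only [Finset.sum_range_succ, Finset.sum_range_zero, Nat.choose]
  norm_num
  have e_2_2 : (2 * x + 2 * y)⁻¹ = (2)⁻¹ * (x + y)⁻¹ := by rw [← mul_inv]; congr 1; ring
  rw [e_2_2]
  ring

lemma F_1_4 (x y : ℝ) : F 1 4 x y =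
    (25 / 12) * (y)⁻¹ + 1 * (x)⁻¹ + (-4) * (x + y)⁻¹ + 6 * (x + 2 * y)⁻¹ + (-4) * (x + 3 * y)⁻¹ + 1
      * (x + 4 * y)⁻¹ := by
  unfold F
  simp only [Finset.sum_range_succ, Finset.sum_range_zero, Nat.choose]
  norm_num
  ring

lemma F_2_3 (x y : ℝ) : F 2 3 x y =
    (11 / 6) * (y)⁻¹ + (3 / 2) * (x)⁻¹ + (-15 / 2) * (x + y)⁻¹ + 6 * (x + 2 * y)⁻¹ + (-2) * (x + 3 *
      y)⁻¹ + 3 * (2 * x + y)⁻¹ + 1 * (2 * x + 3 * y)⁻¹ := by
  unfold F
  simp only [Finset.sum_range_succ, Finset.sum_range_zero, Nat.choose]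
  norm_num
  have e_2_2 : (2 * x + 2 * y)⁻¹ = (2)⁻¹ * (x + y)⁻¹ := by rw [← mul_inv]; congr 1; ring
  rw [e_2_2]
  ring

lemma F_1_5 (x y : ℝ) : F 1 5 x y =
    (137 / 60) * (y)⁻¹ + 1 * (x)⁻¹ + (-5) * (x + y)⁻¹ + 10 * (x + 2 * y)⁻¹ + (-10) * (x + 3 * y)⁻¹ +
      5 * (x + 4 * y)⁻¹ + (-1) * (x + 5 * y)⁻¹ := by
  unfold F
  simp only [Finset.sum_range_succ, Finset.sum_range_zero, Nat.choose]
  norm_num
  ring

lemma F_2_4 (x y : ℝ) : F 2 4 x y =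
    (25 / 12) * (y)⁻¹ + (3 / 2) * (x)⁻¹ + (-11) * (x + y)⁻¹ + (23 / 2) * (x + 2 * y)⁻¹ + (-8) * (x +
      3 * y)⁻¹ + 2 * (x + 4 * y)⁻¹ + 4 * (2 * x + y)⁻¹ + 4 * (2 * x + 3 * y)⁻¹ := by
  unfold F
  simp only [Finset.sum_range_succ, Finset.sum_range_zero, Nat.choose]
  norm_num
  have e_2_2 : (2 * x + 2 * y)⁻¹ = (2)⁻¹ * (x + y)⁻¹ := by rw [← mul_inv]; congr 1; ring
  have e_2_4 : (2 * x + 4 * y)⁻¹ = (2)⁻¹ * (x + 2 * y)⁻¹ := by rw [← mul_inv]; congr 1; ring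
  rw [e_2_2, e_2_4]
  ring

lemma F_3_3 (x y : ℝ) : F 3 3 x y =
    (11 / 6) * (y)⁻¹ + (11 / 6) * (x)⁻¹ + (-83 / 6) * (x + y)⁻¹ + 9 * (x + 2 * y)⁻¹ + (-3) * (x + 3
      * y)⁻¹ + 9 * (2 * x + y)⁻¹ + 3 * (2 * x + 3 * y)⁻¹ + (-3) * (3 * x + y)⁻¹ + 3 * (3 * x + 2 *
      y)⁻¹ := by
  unfold F
  simp only [Finset.sum_range_succ, Finset.sum_range_zero, Nat.choose]
  norm_num
  have e_2_2 : (2 * x + 2 * y)⁻¹ = (2)⁻¹ * (x + y)⁻¹ := by rw [← mul_inv]; congr 1; ring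
  have e_3_3 : (3 * x + 3 * y)⁻¹ = (3)⁻¹ * (x + y)⁻¹ := by rw [← mul_inv]; congr 1; ring
  rw [e_2_2, e_3_3]
  ring


lemma F_symm (k m : ℕ) (x y : ℝ) : F k m x y = F m k y x := by
  unfold F
  rw [Finset.sum_comm]
  apply Finset.sum_congr rfl
  intro j _
  apply Finset.sum_congr rfl
  intro i _
  rw [mul_comm (k.choose i : ℝ), add_comm i j, add_comm ((i : ℝ) * x)]

/-- all rates equal -/
lemma F_zero (k : ℕ) (x y : ℝ) :
    F k 0 x y = (∑ i ∈ Finset.range (k + 1), (k.choose i : ℝ) * ((-1 : ℝ) ^ (i + 1) * (i : ℝ)⁻¹)) * x⁻¹ := by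
  unfold F
  rw [Finset.sum_mul]
  apply Finset.sum_congr rfl
  intro i _
  simp [mul_inv]
  ring

lemma F_eq_case {k : ℕ} (hk : k ≤ 6) {x : ℝ} (hx : 0 < x) (y : ℝ) :
    (k : ℝ) * (x ^ 2)⁻¹ ≤ (F k 0 x y) ^ 2 := by
  have hx2 : 0 ≤ (x ^ 2)⁻¹ := by positivity
  have key : (k : ℝ) ≤
      (∑ i ∈ Finset.range (k + 1), (k.choose i : ℝ) * ((-1 : ℝ) ^ (i + 1) * (i : ℝ)⁻¹)) ^ 2 := by
    interval_cases k <;> simp only [Finset.sum_range_succ, Finset.sum_range_zero, Nat.choose] <;>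
      norm_num
  rw [F_zero, mul_pow, inv_pow]
  exact mul_le_mul_of_nonneg_right key hx2

lemma F_case {k m : ℕ} (hkm : k + m ≤ 6) {x y : ℝ} (hx : 0 < x) (hy : 0 < y) :
    (k : ℝ) * (x ^ 2)⁻¹ + (m : ℝ) * (y ^ 2)⁻¹ ≤ (F k m x y) ^ 2 := by
  wlog h : k ≤ m generalizing k m x y
  · have := this (k := m) (m := k) (by omega) hy hx (by omega)
    rw [F_symm]
    linarith
  rcases Nat.eq_zero_or_pos k with hk | hk
  · subst hk
    rw [F_symm]
    have := F_eq_case (k := m) (by omega) hy x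
    simpa using this
  · have h3 : k ≤ 3 := by omega
    have h5 : m ≤ 5 := by omega
    interval_cases k <;> interval_cases m <;> first
      | omega
      | (push_cast; first
          | (rw [F_1_1]; exact ineq_1_1 hx hy)
          | (rw [F_1_2]; exact ineq_1_2 hx hy)
          | (rw [F_1_3]; exact ineq_1_3 hx hy)
          | (rw [F_1_4]; exact ineq_1_4 hx hy)
          | (rw [F_1_5]; exact ineq_1_5 hx hy)
          | (rw [F_2_2]; exact ineq_2_2 hx hy)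
          | (rw [F_2_3]; exact ineq_2_3 hx hy)
          | (rw [F_2_4]; exact ineq_2_4 hx hy)
          | (rw [F_3_3]; exact ineq_3_3 hx hy))

variable {ι : Type*} [DecidableEq ι]

lemma sum_powerset_union (A B : Finset ι) (hAB : Disjoint A B) (f : Finset ι → ℝ) :
    ∑ J ∈ (A ∪ B).powerset, f J = ∑ J1 ∈ A.powerset, ∑ J2 ∈ B.powerset, f (J1 ∪ J2) := by
  induction A using Finset.induction_on generalizing f with
  | empty => simp
  | insert i A hi ih =>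
    have hAB' : Disjoint A B := Finset.disjoint_of_subset_left (Finset.subset_insert i A) hAB
    have hiB : i ∉ B := Finset.disjoint_left.mp hAB (Finset.mem_insert_self i A)
    have hiU : i ∉ A ∪ B := by simp [hi, hiB]
    rw [Finset.insert_union, Finset.sum_powerset_insert hiU, ih hAB' f,
      ih hAB' (fun J => f (insert i J)), Finset.sum_powerset_insert hi]
    congr 1
    apply Finset.sum_congr rfl
    intro J1 _
    apply Finset.sum_congr rfl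
    intro J2 _
    rw [Finset.insert_union]

lemma SS_two (A B : Finset ι) (hAB : Disjoint A B) (a : ι → ℝ) {x y : ℝ}
    (hA : ∀ i ∈ A, a i = x) (hB : ∀ i ∈ B, a i = y) :
    SS (A ∪ B) a = F A.card B.card x y := by
  unfold SS
  rw [sum_powerset_union A B hAB]
  have h1 : ∀ J1 ∈ A.powerset, ∀ J2 ∈ B.powerset,
      (-1 : ℝ) ^ ((J1 ∪ J2).card + 1) * (∑ j ∈ J1 ∪ J2, a j)⁻¹ =
      (-1 : ℝ) ^ (J1.card + J2.card + 1) * ((J1.card : ℝ) * x + (J2.card : ℝ) * y)⁻¹ := by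
    intro J1 h1 J2 h2
    have h1' := Finset.mem_powerset.mp h1
    have h2' := Finset.mem_powerset.mp h2
    have hd : Disjoint J1 J2 := Finset.disjoint_of_subset_left h1'
      (Finset.disjoint_of_subset_right h2' hAB)
    rw [Finset.card_union_of_disjoint hd, Finset.sum_union hd,
      Finset.sum_congr rfl (fun i hi => hA i (h1' hi)),
      Finset.sum_congr rfl (fun i hi => hB i (h2' hi))]
    simp
  rw [Finset.sum_congr rfl (fun J1 hJ1 => Finset.sum_congr rfl (fun J2 hJ2 => h1 J1 hJ1 J2 hJ2))]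
  have h2 : ∀ J1 ∈ A.powerset, ∑ J2 ∈ B.powerset,
      (-1 : ℝ) ^ (J1.card + J2.card + 1) * ((J1.card : ℝ) * x + (J2.card : ℝ) * y)⁻¹ =
      ∑ j ∈ Finset.range (B.card + 1), (B.card.choose j : ℝ) *
        ((-1 : ℝ) ^ (J1.card + j + 1) * ((J1.card : ℝ) * x + (j : ℝ) * y)⁻¹) := by
    intro J1 _
    rw [Finset.sum_powerset_apply_card
      (fun j => (-1 : ℝ) ^ (J1.card + j + 1) * ((J1.card : ℝ) * x + (j : ℝ) * y)⁻¹)]
    simp
  rw [Finset.sum_congr rfl h2, Finset.sum_powerset_apply_card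
    (fun i => ∑ j ∈ Finset.range (B.card + 1), (B.card.choose j : ℝ) *
        ((-1 : ℝ) ^ (i + j + 1) * ((i : ℝ) * x + (j : ℝ) * y)⁻¹))]
  unfold F
  apply Finset.sum_congr rfl
  intro i _
  rw [nsmul_eq_mul, Finset.mul_sum]
  apply Finset.sum_congr rfl
  intro j _
  ring

/-- the two-value case -/
lemma two_val {s : Finset ι} (hs : s.card ≤ 6) {a : ι → ℝ} {x y : ℝ} (hx : 0 < x) (hy : 0 < y)
    (h : ∀ i ∈ s, a i = x ∨ a i = y) : ∑ j ∈ s, (a j ^ 2)⁻¹ ≤ SS s a ^ 2 := by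
  classical
  set A := s.filter (fun i => a i = x) with hA
  set B := s.filter (fun i => ¬ a i = x) with hB
  have hAB : Disjoint A B := Finset.disjoint_filter_filter_not s s _
  have hU : A ∪ B = s := Finset.filter_union_filter_not_eq _ s
  have hAx : ∀ i ∈ A, a i = x := fun i hi => (Finset.mem_filter.mp hi).2
  have hBy : ∀ i ∈ B, a i = y := fun i hi => by
    have h1 := Finset.mem_filter.mp hi
    rcases h i h1.1 with h2 | h2
    · exact absurd h2 h1.2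
    · exact h2
  have hc : A.card + B.card ≤ 6 := by
    rw [← Finset.card_union_of_disjoint hAB, hU]; exact hs
  rw [← hU, SS_two A B hAB a hAx hBy, Finset.sum_union hAB,
    Finset.sum_congr rfl (fun i hi => by rw [hAx i hi] : ∀ i ∈ A, (a i ^ 2)⁻¹ = (x ^ 2)⁻¹),
    Finset.sum_congr rfl (fun i hi => by rw [hBy i hi] : ∀ i ∈ B, (a i ^ 2)⁻¹ = (y ^ 2)⁻¹)]
  simp only [Finset.sum_const, nsmul_eq_mul]
  exact F_case hc hx hy

end Pool.Agent.R226.EM
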