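import Pool.Agent.R226.EMD

/-!
Existence of a minimizer and the final theorem for MP_2ee812_an.
-/

namespace Pool.Agent.R226.EM

open MeasureTheory Set Real Filter Topology

set_option linter.unusedSectionVars false

variable {ι : Type*} [DecidableEq ι] [Fintype ι]

/-- inverse of the sum of inverses, continuous up to the boundary -/
noncomputable def TH (J : Finset ι) (u : ι → ℝ) : ℝ :=
  ((∑ j ∈ J, (ENNReal.ofReal (u j))⁻¹)⁻¹).toReal

lemma TH_cont (J : Finset ι) : Continuous (TH J) := by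
  rcases J.eq_empty_or_nonempty with h | h
  · subst h
    have : TH (∅ : Finset ι) = fun _ => 0 := by
      funext u; simp [TH]
    rw [this]; exact continuous_const
  · have h1 : Continuous (fun u : ι → ℝ => (∑ j ∈ J, (ENNReal.ofReal (u j))⁻¹)⁻¹) := by
      apply Continuous.inv
      apply continuous_finsetSum
      intro j _
      apply Continuous.inv
      exact ENNReal.continuous_ofReal.comp (continuous_apply j)
    have h2 : ∀ u : ι → ℝ, (∑ j ∈ J, (ENNReal.ofReal (u j))⁻¹)⁻¹ ≠ ⊤ := by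
      intro u
      rw [Ne, ENNReal.inv_eq_top, Finset.sum_eq_zero_iff]
      push Not
      obtain ⟨j, hj⟩ := h
      refine ⟨j, hj, ?_⟩
      rw [Ne, ENNReal.inv_eq_zero]
      exact ENNReal.ofReal_ne_top
    rw [continuous_iff_continuousAt]
    intro u
    exact ContinuousAt.comp (g := ENNReal.toReal)
      (f := fun u : ι → ℝ => (∑ j ∈ J, (ENNReal.ofReal (u j))⁻¹)⁻¹) (x := u)
      (ENNReal.continuousAt_toReal (h2 u)) h1.continuousAt

lemma TH_eq (J : Finset ι) (u : ι → ℝ) (hu : ∀ i, 0 ≤ u i) :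
    TH J u = if J ⊆ Finset.univ.filter (fun i => 0 < u i) then (∑ j ∈ J, (u j)⁻¹)⁻¹ else 0 := by
  split_ifs with h
  · unfold TH
    have h1 : ∑ j ∈ J, (ENNReal.ofReal (u j))⁻¹ = ENNReal.ofReal (∑ j ∈ J, (u j)⁻¹) := by
      rw [ENNReal.ofReal_sum_of_nonneg (fun j _ => inv_nonneg.mpr (hu j))]
      apply Finset.sum_congr rfl
      intro j hj
      rw [ENNReal.ofReal_inv_of_pos (Finset.mem_filter.mp (h hj)).2]
    rw [h1, ENNReal.toReal_inv, ENNReal.toReal_ofReal]
    exact Finset.sum_nonneg fun j _ => inv_nonneg.mpr (hu j)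
  · unfold TH
    rw [Finset.not_subset] at h
    obtain ⟨j, hj, hj2⟩ := h
    have h1 : u j = 0 := by
      by_contra h2
      exact hj2 (Finset.mem_filter.mpr ⟨Finset.mem_univ _, lt_of_le_of_ne (hu j) (Ne.symm h2)⟩)
    have h2 : ∑ j ∈ J, (ENNReal.ofReal (u j))⁻¹ = ⊤ := by
      rw [ENNReal.sum_eq_top]
      exact ⟨j, hj, by rw [h1]; simp⟩
    rw [h2]; simp

/-- continuous extension of the alternating sum in the variables `u = 1 / a` -/
noncomputable def SH (u : ι → ℝ) : ℝ :=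
  ∑ J ∈ (Finset.univ : Finset ι).powerset, (-1 : ℝ) ^ (J.card + 1) * TH J u

lemma SH_cont : Continuous (SH : (ι → ℝ) → ℝ) := by
  unfold SH
  apply continuous_finsetSum
  intro J _
  exact (TH_cont J).const_mul _

lemma SH_eq (u : ι → ℝ) (hu : ∀ i, 0 ≤ u i) :
    SH u = SS (Finset.univ.filter (fun i => 0 < u i)) (fun i => (u i)⁻¹) := by
  unfold SH SS
  rw [Finset.sum_congr rfl (fun J _ => by rw [TH_eq J u hu, mul_ite, mul_zero]),
    ← Finset.sum_filter]
  apply Finset.sum_congr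
  · ext J
    simp
  · intros; rfl

lemma SS_scale (s : Finset ι) (a : ι → ℝ) (M : ℝ) : SS s (fun i => M * a i) = M⁻¹ * SS s a := by
  unfold SS
  rw [Finset.mul_sum]
  apply Finset.sum_congr rfl
  intro J _
  rw [← Finset.mul_sum, mul_inv]; ring

lemma SS_congr {s : Finset ι} {a b : ι → ℝ} (h : ∀ i ∈ s, a i = b i) : SS s a = SS s b := by
  unfold SS
  apply Finset.sum_congr rfl
  intro J hJ
  rw [Finset.sum_congr rfl (fun i hi => h i (Finset.mem_powerset.mp hJ hi))]

/-- the compact set of directions -/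
def KK (ι : Type*) : Set (ι → ℝ) := {u | (∀ i, 0 ≤ u i ∧ u i ≤ 1) ∧ ∃ i, u i = 1}

lemma KK_compact : IsCompact (KK ι) := by
  have h1 : IsCompact (Set.pi univ (fun _ : ι => Icc (0 : ℝ) 1)) :=
    isCompact_univ_pi (fun _ => isCompact_Icc)
  apply h1.of_isClosed_subset
  · have : KK ι = {u | ∀ i, 0 ≤ u i ∧ u i ≤ 1} ∩ ⋃ i, {u | u i = 1} := by
      ext u; simp [KK]
    rw [this]
    apply IsClosed.inter
    · simp only [Set.ofPred_forall, Set.ofPred_and]
      apply isClosed_iInter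
      intro i
      exact (isClosed_le continuous_const (continuous_apply i)).inter
        (isClosed_le (continuous_apply i) continuous_const)
    · apply isClosed_iUnion_of_finite
      intro i
      exact isClosed_eq (continuous_apply i) continuous_const
  · intro u hu i _
    exact hu.1 i

/-- The main inequality for at most six rates. -/
theorem main_le {n : ℕ} (hn : Fintype.card ι = n) (hn6 : n ≤ 6) (hpos : 1 ≤ n) (a : ι → ℝ)
    (ha : ∀ i, 0 < a i) : ∑ i, (a i ^ 2)⁻¹ ≤ SS Finset.univ a ^ 2 := by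
  have hne : Nonempty ι := Fintype.card_pos_iff.mp (by omega)
  obtain ⟨i0⟩ := hne
  have hKne : (KK ι).Nonempty := ⟨fun _ => 1, fun _ => ⟨zero_le_one, le_refl 1⟩, i0, rfl⟩
  have hsq : ∀ u ∈ KK ι, 0 < ∑ i, u i ^ 2 := by
    rintro u ⟨_, i, hi⟩
    have : u i ^ 2 ≤ ∑ i, u i ^ 2 :=
      Finset.single_le_sum (f := fun i => u i ^ 2) (fun j _ => sq_nonneg _) (Finset.mem_univ i)
    rw [hi] at this
    linarith
  obtain ⟨u, hu, humin⟩ := KK_compact.exists_isMinOn hKne
    (f := fun u : ι → ℝ => SH u ^ 2 / ∑ i, u i ^ 2) (by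
      apply ContinuousOn.div
      · exact (SH_cont.pow 2).continuousOn
      · fun_prop
      · intro u hu; exact (hsq u hu).ne')
  set ρ := SH u ^ 2 / ∑ i, u i ^ 2 with hρ
  -- for every face
  have face : ∀ (s : Finset ι), s.Nonempty → ∀ b : ι → ℝ, (∀ i ∈ s, 0 < b i) →
      ρ * ∑ j ∈ s, (b j ^ 2)⁻¹ ≤ SS s b ^ 2 := by
    intro s hs b hb
    obtain ⟨p, hp, hpm⟩ := Finset.exists_min_image s b hs
    have hbp := hb p hp
    set v : ι → ℝ := fun i => if i ∈ s then b p * (b i)⁻¹ else 0 with hv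
    have hv0 : ∀ i, 0 ≤ v i := by
      intro i
      by_cases h : i ∈ s
      · simp only [hv, h, if_true]
        exact mul_nonneg hbp.le (inv_nonneg.mpr (hb i h).le)
      · simp [hv, h]
    have hvK : v ∈ KK ι := by
      refine ⟨fun i => ⟨hv0 i, ?_⟩, p, ?_⟩
      · by_cases h : i ∈ s
        · simp only [hv, h, if_true]
          rw [← div_eq_mul_inv, div_le_one (hb i h)]
          exact hpm i h
        · simp [hv, h]
      · simp only [hv, hp, if_true]
        field_simp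
    have h1 : ρ ≤ SH v ^ 2 / ∑ i, v i ^ 2 := humin hvK
    have hsupp : Finset.univ.filter (fun i => 0 < v i) = s := by
      ext i
      simp only [Finset.mem_filter, Finset.mem_univ, true_and]
      constructor
      · intro h
        by_contra h2
        simp [hv, h2] at h
      · intro h
        simp only [hv, h, if_true]
        exact mul_pos hbp (inv_pos.mpr (hb i h))
    have h2 : SH v = b p * SS s b := by
      rw [SH_eq v hv0, hsupp]
      rw [SS_congr (b := fun i => (b p)⁻¹ * b i), SS_scale, inv_inv]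
      intro i hi
      simp only [hv, hi, if_true]
      rw [mul_inv, inv_inv]
    have h3 : ∑ i, v i ^ 2 = b p ^ 2 * ∑ j ∈ s, (b j ^ 2)⁻¹ := by
      rw [Finset.mul_sum, ← Finset.sum_subset (Finset.subset_univ s)]
      · apply Finset.sum_congr rfl
        intro i hi
        simp only [hv, hi, if_true]
        rw [mul_pow, inv_pow]
      · intro i _ hi
        simp [hv, hi]
    rw [le_div_iff₀ (hsq v hvK), h2, h3, mul_pow] at h1
    have h4 : 0 < b p ^ 2 := by positivity
    have h5 : b p ^ 2 * (ρ * ∑ j ∈ s, (b j ^ 2)⁻¹) ≤ b p ^ 2 * SS s b ^ 2 := by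
      calc _ = ρ * (b p ^ 2 * ∑ j ∈ s, (b j ^ 2)⁻¹) := by ring
        _ ≤ _ := h1
    exact le_of_mul_le_mul_left h5 h4
  -- the minimizer
  set s := Finset.univ.filter (fun i => 0 < u i) with hs
  set c : ι → ℝ := fun i => (u i)⁻¹ with hc
  have hcpos : ∀ i ∈ s, 0 < c i := fun i hi => inv_pos.mpr (Finset.mem_filter.mp hi).2
  have hsne : s.Nonempty := by
    obtain ⟨_, i, hi⟩ := hu
    exact ⟨i, Finset.mem_filter.mpr ⟨Finset.mem_univ i, by rw [hi]; exact one_pos⟩⟩
  have hsumc : ∑ j ∈ s, (c j ^ 2)⁻¹ = ∑ i, u i ^ 2 := by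
    rw [← Finset.sum_subset (Finset.subset_univ s)]
    · apply Finset.sum_congr rfl
      intro i _
      simp only [hc]
      rw [inv_pow, inv_inv]
    · intro i _ hi
      have : u i = 0 := by
        by_contra h2
        exact hi (Finset.mem_filter.mpr ⟨Finset.mem_univ _,
          lt_of_le_of_ne (hu.1 i).1 (Ne.symm h2)⟩)
      rw [this]; simp
  have heq : ρ * ∑ j ∈ s, (c j ^ 2)⁻¹ = SS s c ^ 2 := by
    rw [hsumc, hρ, div_mul_cancel₀ _ (hsq u hu).ne', SH_eq u (fun i => (hu.1 i).1)]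
  have hscard : s.card ≤ 6 := by
    have : s.card ≤ Fintype.card ι := Finset.card_le_univ s
    omega
  have hle : ∑ j ∈ s, (c j ^ 2)⁻¹ ≤ SS s c ^ 2 := by
    rcases Nat.lt_or_ge s.card 2 with h | h
    · have h1 : s.card = 1 := by
        have := Finset.card_pos.mpr hsne
        omega
      obtain ⟨i, hi⟩ := Finset.card_eq_one.mp h1
      have hi' : i ∈ s := by rw [hi]; exact Finset.mem_singleton_self i
      exact two_val hscard (hcpos i hi') (hcpos i hi') (fun j hj => by
        rw [hi, Finset.mem_singleton] at hj; left; rw [hj])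
    · obtain ⟨x, y, hx, hy, hxy⟩ := two_values h hcpos (face s hsne) heq
      exact two_val hscard hx hy hxy
  have hρ1 : 1 ≤ ρ := by
    rw [← heq, hsumc] at hle
    have := hsq u hu
    by_contra hlt
    push Not at hlt
    nlinarith
  have h1 := face Finset.univ ⟨i0, Finset.mem_univ _⟩ a (fun i _ => ha i)
  have h2 : 0 ≤ ∑ i, (a i ^ 2)⁻¹ := Finset.sum_nonneg fun i _ => by positivity
  nlinarith


section converse

lemma alt_choose (k : ℕ) :
    ∑ i ∈ Finset.range (k + 1), (-1 : ℝ) ^ i * ((k.choose i : ℝ) * (1 + (i : ℝ))⁻¹) = (k + 1 : ℝ)⁻¹ := by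
  have h1 : ∀ i : ℕ, (k.choose i : ℝ) * (1 + (i : ℝ))⁻¹ = ((k + 1).choose (i + 1) : ℝ) * (k + 1 : ℝ)⁻¹ := by
    intro i
    have h2 := Nat.add_one_mul_choose_eq k i
    have h3 : ((k : ℝ) + 1) * (k.choose i : ℝ) = ((k + 1).choose (i + 1) : ℝ) * ((i : ℝ) + 1) := by
      exact_mod_cast h2
    have h4 : (k : ℝ) + 1 ≠ 0 := by positivity
    have h5 : 1 + (i : ℝ) ≠ 0 := by positivity
    field_simp
    linarith
  simp_rw [h1, ← mul_assoc]
  rw [← Finset.sum_mul]
  have h6 : ∑ i ∈ Finset.range (k + 1), (-1 : ℝ) ^ i * ((k + 1).choose (i + 1) : ℝ) = 1 := by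
    have h7 : ∑ i ∈ Finset.range (k + 1 + 1), (-1 : ℤ) ^ i * ((k + 1).choose i : ℤ) = 0 := by
      rw [Int.alternating_sum_range_choose]; simp
    have h8 : ∑ i ∈ Finset.range (k + 1 + 1), (-1 : ℝ) ^ i * ((k + 1).choose i : ℝ) = 0 := by
      exact_mod_cast h7
    rw [Finset.sum_range_succ'] at h8
    simp only [pow_zero, Nat.choose_zero_right, Nat.cast_one, mul_one] at h8
    have h9 : ∀ i ∈ Finset.range (k + 1), (-1 : ℝ) ^ (i + 1) * ((k + 1).choose (i + 1) : ℝ)
        = -((-1 : ℝ) ^ i * ((k + 1).choose (i + 1) : ℝ)) := by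
      intro i _; rw [pow_succ]; ring
    rw [Finset.sum_congr rfl h9, Finset.sum_neg_distrib] at h8
    linarith
  rw [h6, one_mul]

lemma T_ones (s : Finset ι) : T 0 s (fun _ => (1 : ℝ)) 1 = (s.card + 1 : ℝ)⁻¹ := by
  unfold T
  have h : ∀ K ∈ s.powerset, (-1 : ℝ) ^ K.card * ((1 + ∑ j ∈ K, (1 : ℝ)) ^ (0 + 1))⁻¹ =
      (fun i : ℕ => (-1 : ℝ) ^ i * (1 + (i : ℝ))⁻¹) K.card := by
    intro K _
    simp
  rw [Finset.sum_congr rfl h,
    Finset.sum_powerset_apply_card (fun i : ℕ => (-1 : ℝ) ^ i * (1 + (i : ℝ))⁻¹), ← alt_choose]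
  apply Finset.sum_congr rfl
  intro i _
  rw [nsmul_eq_mul]; ring

lemma SS_ones (s : Finset ι) :
    SS s (fun _ => (1 : ℝ)) = ∑ i ∈ Finset.range s.card, ((i : ℝ) + 1)⁻¹ := by
  induction s using Finset.induction_on with
  | empty => simp [SS]
  | insert i s hi ih =>
    rw [SS_insert hi, ih, Finset.card_insert_of_notMem hi, Finset.sum_range_succ, T_ones]

lemma harm_lt (n : ℕ) (hn : 7 ≤ n) : (∑ i ∈ Finset.range n, ((i : ℝ) + 1)⁻¹) ^ 2 < n := by
  induction n, hn using Nat.le_induction with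
  | base => norm_num [Finset.sum_range_succ]
  | succ n hn ih =>
    rw [Finset.sum_range_succ]
    set H := ∑ i ∈ Finset.range n, ((i : ℝ) + 1)⁻¹
    have hn7 : (7 : ℝ) ≤ n := by exact_mod_cast hn
    have hH : 0 ≤ H := Finset.sum_nonneg fun i _ => by positivity
    have h1 : H < n / 2 := by
      apply lt_of_pow_lt_pow_left₀ 2 (by positivity)
      calc H ^ 2 < n := ih
        _ ≤ (n / 2 : ℝ) ^ 2 := by nlinarith
    have hpos : (0 : ℝ) < n + 1 := by positivity
    have h2 : 2 * H * ((n : ℝ) + 1)⁻¹ + (((n : ℝ) + 1)⁻¹) ^ 2 ≤ 1 := by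
      have h3 : 2 * H * ((n : ℝ) + 1)⁻¹ ≤ n * ((n : ℝ) + 1)⁻¹ := by
        apply mul_le_mul_of_nonneg_right _ (by positivity)
        linarith
      have h4 : (n : ℝ) * ((n : ℝ) + 1)⁻¹ + (((n : ℝ) + 1)⁻¹) ^ 2 ≤ 1 := by
        rw [inv_pow, ← div_eq_mul_inv, ← one_div, div_add_div _ _ hpos.ne' (by positivity),
          div_le_one (by positivity)]
        nlinarith
      linarith
    push_cast
    have h5 : (H + ((n : ℝ) + 1)⁻¹) ^ 2
        = H ^ 2 + (2 * H * ((n : ℝ) + 1)⁻¹ + (((n : ℝ) + 1)⁻¹) ^ 2) := by ring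
    rw [h5]
    linarith

end converse

end Pool.Agent.R226.EM
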