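import Mathlib

/-!
# A self-similar measure with digits 0,2,3,5 and ratio 12
-/

set_option autoImplicit false
set_option linter.unusedSimpArgs false
set_option linter.unusedVariables false

open MeasureTheory Filter Topology
open scoped ENNReal NNReal

namespace Pool.Agent.R226.HA

/-- the uniform measure on four points -/
noncomputable def coin : Measure (Fin 4) := ∑ a : Fin 4, (4 : ℝ≥0∞)⁻¹ • Measure.dirac a

lemma four_mul : (4 : ℝ≥0∞) * (4 : ℝ≥0∞)⁻¹ = 1 :=
  ENNReal.mul_inv_cancel (by norm_num) (by norm_num)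

instance : IsProbabilityMeasure coin := by
  constructor
  simp [coin, four_mul]

/-- the product measure -/
noncomputable def P : Measure (ℕ → Fin 4) := Measure.infinitePi (fun _ => coin)

instance : IsProbabilityMeasure P := by unfold P; infer_instance

/-- prepend a digit -/
def cns (a : Fin 4) (ω : ℕ → Fin 4) : ℕ → Fin 4
  | 0 => a
  | n + 1 => ω n

@[fun_prop]
lemma measurable_cns (a : Fin 4) : Measurable (cns a) := by
  rw [measurable_pi_iff]
  intro n
  cases n with
  | zero => exact measurable_const
  | succ n => exact measurable_pi_apply n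

lemma P_self : P = ∑ a : Fin 4, (4 : ℝ≥0∞)⁻¹ • P.map (cns a) := by
  symm
  apply Measure.eq_infinitePi
  intro s t ht
  classical
  obtain ⟨N, hN⟩ : ∃ N, s ⊆ Finset.range (N + 1) := by
    refine ⟨s.sup id, ?_⟩
    intro i hi
    rw [Finset.mem_range, Nat.lt_succ_iff]
    exact Finset.le_sup (f := id) hi
  set t' : ℕ → Set (Fin 4) := fun i => if i ∈ s then t i else Set.univ with ht'
  have e1 : Set.pi (↑s) t = Set.pi (↑(Finset.range (N + 1))) t' := by
    ext ω
    simp only [Set.mem_pi, Finset.mem_coe, ht']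
    constructor
    · intro h i _
      by_cases hi : i ∈ s
      · simp only [hi, if_true]; exact h i hi
      · simp only [hi, if_false]; trivial
    · intro h i hi
      have := h i (hN hi)
      simpa only [hi, if_true] using this
  have e2 : ∏ i ∈ s, coin (t i) = ∏ i ∈ Finset.range (N + 1), coin (t' i) := by
    rw [← Finset.prod_subset hN]
    · apply Finset.prod_congr rfl
      intro i hi
      simp only [ht', hi, if_true]
    · intro i _ hi
      simp only [ht', hi, if_false]
      exact measure_univ
  rw [e1, e2, Finset.prod_range_succ']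
  have hmeas : MeasurableSet (Set.pi (↑(Finset.range (N + 1))) t') :=
    MeasurableSet.pi (Finset.countable_toSet _) (fun i _ => MeasurableSet.of_discrete)
  have e3 : ∀ a : Fin 4, (P.map (cns a)) (Set.pi (↑(Finset.range (N + 1))) t') =
      (Measure.dirac a (t' 0)) * ∏ i ∈ Finset.range N, coin (t' (i + 1)) := by
    intro a
    rw [Measure.map_apply (measurable_cns a) hmeas]
    by_cases ha : a ∈ t' 0
    · have : cns a ⁻¹' (Set.pi (↑(Finset.range (N + 1))) t') =
          Set.pi (↑(Finset.range N)) (fun i => t' (i + 1)) := by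
        ext ω
        simp only [Set.mem_preimage, Set.mem_pi, Finset.mem_coe, Finset.mem_range]
        constructor
        · intro h i hi
          exact h (i + 1) (by omega)
        · intro h i hi
          cases i with
          | zero => exact ha
          | succ i => exact h i (by omega)
      rw [this]
      unfold P
      rw [Measure.infinitePi_pi _ (fun i _ => MeasurableSet.of_discrete)]
      rw [Measure.dirac_apply' _ MeasurableSet.of_discrete]
      simp [ha]
    · have : cns a ⁻¹' (Set.pi (↑(Finset.range (N + 1))) t') = ∅ := by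
        ext ω
        simp only [Set.mem_preimage, Set.mem_pi, Finset.mem_coe, Finset.mem_range,
          Set.mem_empty_iff_false, iff_false]
        intro h
        exact ha (h 0 (by omega))
      rw [this, measure_empty, Measure.dirac_apply' _ MeasurableSet.of_discrete]
      simp [ha]
  rw [Measure.finsetSum_apply]
  simp only [Measure.smul_apply, e3, smul_eq_mul]
  rw [mul_comm (∏ i ∈ Finset.range N, coin (t' (i + 1)))]
  have e4 : coin (t' 0) = ∑ a : Fin 4, (4 : ℝ≥0∞)⁻¹ * (Measure.dirac a (t' 0)) := by
    unfold coin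
    rw [Measure.finsetSum_apply]
    simp only [Measure.smul_apply, smul_eq_mul]
  rw [e4, Finset.sum_mul]
  apply Finset.sum_congr rfl
  intro a _
  rw [mul_assoc]

/-- the digits -/
def dig : Fin 4 → ℝ := ![0, 2, 3, 5]

lemma dig_nonneg (a : Fin 4) : 0 ≤ dig a := by
  fin_cases a <;> simp [dig]

lemma dig_le (a : Fin 4) : dig a ≤ 5 := by
  fin_cases a <;> norm_num [dig]

/-- the random variable -/
noncomputable def Y (ω : ℕ → Fin 4) : ℝ := ∑' k : ℕ, dig (ω k) * (1 / 12) ^ (k + 1)

lemma summable_Y (ω : ℕ → Fin 4) : Summable (fun k : ℕ => dig (ω k) * ((1 : ℝ) / 12) ^ (k + 1)) := by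
  have h : Summable (fun k : ℕ => 5 * ((1 : ℝ) / 12) ^ (k + 1)) := by
    apply Summable.mul_left
    exact (summable_nat_add_iff 1).2 (summable_geometric_of_lt_one (by norm_num) (by norm_num))
  refine Summable.of_nonneg_of_le (fun k => ?_) (fun k => ?_) h
  · exact mul_nonneg (dig_nonneg _) (by positivity)
  · exact mul_le_mul_of_nonneg_right (dig_le _) (by positivity)

lemma measurable_Y : Measurable Y := by
  have h : ∀ n, Measurable (fun ω : ℕ → Fin 4 => ∑ k ∈ Finset.range n, dig (ω k) * ((1 : ℝ) / 12) ^ (k + 1)) := by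
    intro n
    apply Finset.measurable_sum
    intro k _
    exact (measurable_from_top (f := dig)).comp (measurable_pi_apply k) |>.mul_const _
  refine measurable_of_tendsto_metrizable h ?_
  rw [tendsto_pi_nhds]
  intro ω
  exact (summable_Y ω).hasSum.tendsto_sum_nat

lemma Y_cns (a : Fin 4) (ω : ℕ → Fin 4) : Y (cns a ω) = (Y ω + dig a) / 12 := by
  unfold Y
  rw [(summable_Y (cns a ω)).tsum_eq_zero_add]
  have : ∀ k, dig (cns a ω (k + 1)) * ((1 : ℝ) / 12) ^ (k + 1 + 1) =
      (dig (ω k) * (1 / 12) ^ (k + 1)) * (1 / 12) := by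
    intro k
    show dig (ω k) * ((1 : ℝ) / 12) ^ (k + 1 + 1) = _
    ring
  simp only [this]
  rw [tsum_mul_right]
  show dig a * (1 / 12) ^ (0 + 1) + _ = _
  ring

lemma Y_nonneg (ω : ℕ → Fin 4) : 0 ≤ Y ω :=
  tsum_nonneg fun k => mul_nonneg (dig_nonneg _) (by positivity)

lemma Y_le (ω : ℕ → Fin 4) : Y ω ≤ 5 / 11 := by
  have h : HasSum (fun k : ℕ => 5 * ((1 : ℝ) / 12) ^ (k + 1)) (5 / 11) := by
    have h1 := hasSum_geometric_of_lt_one (r := (1 : ℝ) / 12) (by norm_num) (by norm_num)
    have h2 := h1.mul_left (5 / 12)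
    have e1 : (fun k : ℕ => 5 * ((1 : ℝ) / 12) ^ (k + 1)) = fun i => 5 / 12 * ((1 : ℝ) / 12) ^ i := by
      funext k; ring
    have e2 : (5 : ℝ) / 11 = 5 / 12 * (1 - 1 / 12)⁻¹ := by norm_num
    rw [e1, e2]
    exact h2
  refine hasSum_le (fun k => ?_) (summable_Y ω).hasSum h
  exact mul_le_mul_of_nonneg_right (dig_le _) (by positivity)

/-- the self-similar measure with digits `0,2,3,5` and ratio `12` -/
noncomputable def nu : Measure ℝ := P.map Y

instance : IsProbabilityMeasure nu := Measure.isProbabilityMeasure_map measurable_Y.aemeasurable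

lemma nu_self : nu = ∑ a : Fin 4, (4 : ℝ≥0∞)⁻¹ • nu.map (fun y => (y + dig a) / 12) := by
  have h : ∀ a : Fin 4, nu.map (fun y => (y + dig a) / 12) = (P.map (cns a)).map Y := by
    intro a
    unfold nu
    rw [Measure.map_map (by fun_prop) measurable_Y, Measure.map_map measurable_Y (measurable_cns a)]
    congr 1
    funext ω
    exact (Y_cns a ω).symm
  simp only [h]
  conv_lhs => rw [nu, P_self]
  have hm : ∀ m : Measure (ℕ → Fin 4), m.map Y = Measure.mapₗ Y m := fun m =>
    (Measure.mapₗ_apply_of_measurable measurable_Y m).symm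
  simp only [hm, map_sum, map_smul]

lemma nu_ae : ∀ᵐ y ∂nu, y ∈ Set.Icc (0 : ℝ) (5 / 11) := by
  unfold nu
  refine (ae_map_iff measurable_Y.aemeasurable (p := fun y => y ∈ Set.Icc (0 : ℝ) (5 / 11))
    measurableSet_Icc).2 ?_
  exact Eventually.of_forall fun ω => ⟨Y_nonneg ω, Y_le ω⟩

end Pool.Agent.R226.HA
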