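import Pool.Agent.R226.HA

/-!
# The Fourier transform of the measure `nu`, and the Jorgensen-Pedersen identity
-/

set_option autoImplicit false
set_option linter.unusedSimpArgs false
set_option linter.unusedVariables false

open MeasureTheory Filter Topology
open scoped ENNReal NNReal Real

namespace Pool.Agent.R226.HA

/-- the standard character -/
noncomputable def e (x : ℝ) : ℂ := Complex.exp (2 * π * Complex.I * (x : ℂ))

lemma e_eq (x : ℝ) : e x = Complex.exp (((2 * π * x : ℝ) : ℂ) * Complex.I) := by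
  unfold e; congr 1; push_cast; ring

lemma e_norm (x : ℝ) : ‖e x‖ = 1 := by
  rw [e_eq]; exact Complex.norm_exp_ofReal_mul_I _

lemma e_add (x y : ℝ) : e (x + y) = e x * e y := by
  unfold e; rw [← Complex.exp_add]; congr 1; push_cast; ring

lemma e_zero : e 0 = 1 := by simp [e]

lemma e_cont : Continuous e := by unfold e; fun_prop

lemma e_neg (x : ℝ) : e (-x) = (starRingEnd ℂ) (e x) := by
  rw [e_eq, e_eq, ← Complex.exp_conj]
  congr 1
  rw [map_mul, Complex.conj_ofReal, Complex.conj_I]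
  push_cast
  ring

lemma e_re (x : ℝ) : (e x).re = Real.cos (2 * π * x) := by
  rw [e_eq, Complex.exp_ofReal_mul_I_re]

lemma one_add_e (u : ℝ) : ‖1 + e u‖ ^ 2 = 4 * Real.cos (π * u) ^ 2 := by
  have h : 1 + e u = e (u / 2) * ((2 * Real.cos (π * u) : ℝ) : ℂ) := by
    have h1 : e u = e (u / 2) * e (u / 2) := by rw [← e_add]; congr 1; ring
    have h2 : (1 : ℂ) = e (u / 2) * e (-(u / 2)) := by rw [← e_add, add_neg_cancel, e_zero]
    have h3 : e (u / 2) + e (-(u / 2)) = ((2 * Real.cos (π * u) : ℝ) : ℂ) := by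
      rw [e_neg, Complex.add_conj, e_re]
      congr 2
      congr 1
      ring
    rw [← h3, h1, mul_add]
    rw [add_comm, ← h2]
  rw [h, norm_mul, e_norm, one_mul, Complex.norm_real, Real.norm_eq_abs, sq_abs]
  ring

lemma int_e (μ : Measure ℝ) [IsFiniteMeasure μ] (f : ℝ → ℝ) (hf : Continuous f) :
    Integrable (fun x => e (f x)) μ := by
  refine Integrable.of_bound (C := 1) (e_cont.comp hf).aestronglyMeasurable ?_
  exact Eventually.of_forall fun x => (e_norm _).le

/-- Fourier transform of `nu` -/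
noncomputable def F (ξ : ℝ) : ℂ := ∫ y, e (ξ * y) ∂nu

lemma F_zero : F 0 = 1 := by
  unfold F
  simp [e_zero]

lemma F_cont : Continuous F := by
  unfold F
  refine continuous_of_dominated (bound := fun _ => (1 : ℝ)) ?_ ?_ ?_ ?_
  · intro ξ
    exact (e_cont.comp (by fun_prop)).aestronglyMeasurable
  · intro ξ
    exact Eventually.of_forall fun y => (e_norm _).le
  · exact integrable_const _
  · exact Eventually.of_forall fun y => e_cont.comp (by fun_prop)

lemma F_eq (t : ℝ) : F (12 * t) = ((4 : ℂ)⁻¹ * ((1 + e (2 * t)) * (1 + e (3 * t)))) * F t := by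
  have h1 : F (12 * t) = ∑ a : Fin 4, (4 : ℂ)⁻¹ * (e (t * dig a) * F t) := by
    unfold F
    conv_lhs => rw [nu_self]
    rw [integral_finsetSum_measure]
    · apply Finset.sum_congr rfl
      intro a _
      have hcont : Continuous (fun y : ℝ => e (12 * t * y)) := e_cont.comp (by fun_prop)
      rw [integral_smul_measure, integral_map (by fun_prop) hcont.aestronglyMeasurable]
      have : ∀ y, e (12 * t * ((y + dig a) / 12)) = e (t * dig a) * e (t * y) := by
        intro y
        rw [← e_add]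
        congr 1
        ring
      simp only [this]
      rw [integral_const_mul]
      rw [Complex.real_smul]
      simp
    · intro a _
      apply Integrable.smul_measure _ (by simp)
      have : IsFiniteMeasure (nu.map (fun y => (y + dig a) / 12)) := inferInstance
      exact int_e _ _ (by fun_prop)
  rw [h1, Fin.sum_univ_four]
  have d0 : dig 0 = 0 := rfl
  have d1 : dig 1 = 2 := rfl
  have d2 : dig 2 = 3 := rfl
  have d3 : dig 3 = 5 := rfl
  rw [d0, d1, d2, d3, mul_zero, e_zero]
  rw [show t * 5 = t * 2 + t * 3 by ring, e_add, mul_comm t 2, mul_comm t 3]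
  ring

/-- square modulus of the Fourier transform -/
noncomputable def G (ξ : ℝ) : ℝ := ‖F ξ‖ ^ 2

/-- square modulus of the mask -/
noncomputable def q (t : ℝ) : ℝ := Real.cos (π * (2 * t)) ^ 2 * Real.cos (π * (3 * t)) ^ 2

lemma q_nonneg (t : ℝ) : 0 ≤ q t := by unfold q; positivity

lemma G_nonneg (t : ℝ) : 0 ≤ G t := by unfold G; positivity

lemma G_zero : G 0 = 1 := by unfold G; rw [F_zero]; simp

lemma G_cont : Continuous G := (F_cont.norm).pow 2

lemma G_le_one (t : ℝ) : G t ≤ 1 := by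
  unfold G
  have : ‖F t‖ ≤ 1 := by
    unfold F
    refine (norm_integral_le_integral_norm _).trans ?_
    simp [e_norm]
  exact pow_le_one₀ (norm_nonneg _) this

lemma G_eq (t : ℝ) : G (12 * t) = q t * G t := by
  unfold G
  rw [F_eq, norm_mul, mul_pow, norm_mul, mul_pow, norm_mul, mul_pow, one_add_e, one_add_e]
  unfold q
  rw [norm_inv]
  have h4 : ‖(4 : ℂ)‖ = 4 := by simp
  rw [h4]
  ring

lemma q_sum (t : ℝ) : q t + q (t + 1 / 4) + q (t + 2 / 4) + q (t + 3 / 4) = 1 := by
  unfold q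
  have h1 : Real.cos (π * (2 * (t + 1 / 4))) = - Real.sin (π * (2 * t)) := by
    rw [← Real.cos_add_pi_div_two]; congr 1; ring
  have h2 : Real.cos (π * (2 * (t + 2 / 4))) = - Real.cos (π * (2 * t)) := by
    rw [← Real.cos_add_pi]; congr 1; ring
  have h3 : Real.cos (π * (2 * (t + 3 / 4))) = Real.sin (π * (2 * t)) := by
    have := Real.cos_add_pi_div_two (π * (2 * t) + π)
    rw [Real.sin_add_pi, neg_neg] at this
    rw [← this]; congr 1; ring
  have h4 : Real.cos (π * (3 * (t + 2 / 4))) = Real.sin (π * (3 * t)) := by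
    have := Real.cos_add_pi_div_two (π * (3 * t) + π)
    rw [Real.sin_add_pi, neg_neg] at this
    rw [← this]; congr 1; ring
  have h5 : Real.cos (π * (3 * (t + 3 / 4))) = Real.sin (π * (3 * (t + 1 / 4))) := by
    have := Real.cos_add_pi_div_two (π * (3 * (t + 1 / 4)) + π)
    rw [Real.sin_add_pi, neg_neg] at this
    rw [← this]; congr 1; ring
  rw [h1, h2, h3, h4, h5]
  have s1 := Real.sin_sq_add_cos_sq (π * (2 * t))
  have s2 := Real.sin_sq_add_cos_sq (π * (3 * t))
  have s3 := Real.sin_sq_add_cos_sq (π * (3 * (t + 1 / 4)))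
  calc _ = Real.cos (π * (2 * t)) ^ 2 * (Real.sin (π * (3 * t)) ^ 2 + Real.cos (π * (3 * t)) ^ 2)
        + Real.sin (π * (2 * t)) ^ 2 * (Real.sin (π * (3 * (t + 1 / 4))) ^ 2 +
          Real.cos (π * (3 * (t + 1 / 4))) ^ 2) := by ring
    _ = 1 := by rw [s2, s3, mul_one, mul_one, add_comm]; exact s1

lemma q_nat (t : ℝ) (n : ℕ) : q (t + n) = q t := by
  unfold q
  have h1 : Real.cos (π * (2 * (t + n))) = Real.cos (π * (2 * t)) := by
    rw [← Real.cos_add_nat_mul_two_pi (π * (2 * t)) (1 * n)]; congr 1; push_cast; ring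
  have h2 : Real.cos (π * (3 * (t + n))) ^ 2 = Real.cos (π * (3 * t)) ^ 2 := by
    rw [show π * (3 * (t + n)) = π * (3 * t) + ((3 * n : ℕ) : ℝ) * π by push_cast; ring,
      Real.cos_add_nat_mul_pi, mul_pow, ← pow_mul, mul_comm (3 * n) 2, pow_mul]
    norm_num
  rw [h1, h2]

/-- lower bound near the origin -/
lemma G_lower (x : ℝ) (hx : |x| ≤ 1) : Real.cos (5 * π / 11) ^ 2 ≤ G x := by
  have hc : 0 < Real.cos (5 * π / 11) := Real.cos_pos_of_mem_Ioo
    ⟨by linarith [Real.pi_pos], by linarith [Real.pi_pos]⟩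
  have h1 : e (-(x * (5 / 22))) * F x = ∫ y, e (x * (y - 5 / 22)) ∂nu := by
    unfold F
    rw [← integral_const_mul]
    congr 1
    funext y
    rw [← e_add]
    congr 1
    ring
  have h2 : Real.cos (5 * π / 11) ≤ (e (-(x * (5 / 22))) * F x).re := by
    rw [h1]
    have h3 : (∫ y, e (x * (y - 5 / 22)) ∂nu).re = ∫ y, (e (x * (y - 5 / 22))).re ∂nu := by
      have := integral_re (𝕜 := ℂ) (int_e nu (fun y => x * (y - 5 / 22)) (by fun_prop))
      exact this.symm
    rw [h3]
    have h4 : Real.cos (5 * π / 11) = ∫ y, Real.cos (5 * π / 11) ∂nu := by simp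
    rw [h4]
    apply integral_mono_ae (integrable_const _)
    · exact (int_e nu (fun y => x * (y - 5 / 22)) (by fun_prop)).re
    · filter_upwards [nu_ae] with y hy
      rw [e_re, ← Real.cos_abs (2 * π * (x * (y - 5 / 22)))]
      apply Real.cos_le_cos_of_nonneg_of_le_pi (abs_nonneg _) (by linarith [Real.pi_pos])
      rw [abs_mul (2 * π), abs_mul x, abs_of_pos (by positivity : (0 : ℝ) < 2 * π)]
      have h5 : |y - 5 / 22| ≤ 5 / 22 := by
        rw [abs_le]
        constructor
        · linarith [hy.1]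
        · linarith [hy.2]
      have h6 : |x| * |y - 5 / 22| ≤ 1 * (5 / 22) :=
        mul_le_mul hx h5 (abs_nonneg _) zero_le_one
      calc 2 * π * (|x| * |y - 5 / 22|) ≤ 2 * π * (1 * (5 / 22)) :=
            mul_le_mul_of_nonneg_left h6 (by positivity)
        _ = 5 * π / 11 := by ring
  have h7 : Real.cos (5 * π / 11) ≤ ‖F x‖ := by
    calc Real.cos (5 * π / 11) ≤ (e (-(x * (5 / 22))) * F x).re := h2
      _ ≤ ‖e (-(x * (5 / 22))) * F x‖ := Complex.re_le_norm _
      _ = ‖F x‖ := by rw [norm_mul, e_norm, one_mul]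
  unfold G
  exact pow_le_pow_left₀ hc.le h7 2

/-- finite products of masks -/
noncomputable def Q : ℕ → ℝ → ℝ
  | 0, _ => 1
  | n + 1, ξ => q (ξ / 12) * Q n (ξ / 12)

lemma Q_nonneg (n : ℕ) : ∀ ξ, 0 ≤ Q n ξ := by
  induction n with
  | zero => intro ξ; exact zero_le_one
  | succ n ih => intro ξ; exact mul_nonneg (q_nonneg _) (ih _)

lemma G_Q (n : ℕ) : ∀ ξ, G ξ = Q n ξ * G (ξ / 12 ^ n) := by
  induction n with
  | zero => intro ξ; simp [Q]
  | succ n ih =>
    intro ξ
    have h1 := G_eq (ξ / 12)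
    rw [mul_div_cancel₀ _ (by norm_num : (12 : ℝ) ≠ 0)] at h1
    rw [h1, ih (ξ / 12)]
    show _ = q (ξ / 12) * Q n (ξ / 12) * _
    rw [div_div, ← pow_succ']
    ring

/-- enumeration of the spectrum of `nu` -/
def g (n : ℕ) : ℕ := if h : n = 0 then 0 else 12 * g (n / 4) + 3 * (n % 4)
decreasing_by omega

lemma g_zero : g 0 = 0 := by rw [g]; simp

lemma g_eq (k r : ℕ) (hr : r < 4) : g (4 * k + r) = 12 * g k + 3 * r := by
  by_cases h : 4 * k + r = 0
  · have hk : k = 0 := by omega
    have hr0 : r = 0 := by omega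
    subst hk; subst hr0
    simp [g_zero]
  · rw [g, dif_neg h]
    rw [show (4 * k + r) / 4 = k by omega, show (4 * k + r) % 4 = r by omega]

lemma sum_four (N : ℕ) (f : ℕ → ℝ) : ∑ k ∈ Finset.range (4 * N), f k =
    ∑ k ∈ Finset.range N, (f (4 * k) + f (4 * k + 1) + f (4 * k + 2) + f (4 * k + 3)) := by
  induction N with
  | zero => simp
  | succ N ih =>
    rw [Finset.sum_range_succ, ← ih, show 4 * (N + 1) = 4 * N + 1 + 1 + 1 + 1 by ring,
      Finset.sum_range_succ, Finset.sum_range_succ, Finset.sum_range_succ, Finset.sum_range_succ]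
    ring

lemma Q_sum (n : ℕ) : ∀ ξ : ℝ, ∑ k ∈ Finset.range (4 ^ n), Q n (ξ + g k) = 1 := by
  induction n with
  | zero => intro ξ; simp [Q]
  | succ n ih =>
    intro ξ
    rw [pow_succ', sum_four]
    have key : ∀ k r : ℕ, r < 4 → Q (n + 1) (ξ + g (4 * k + r)) =
        q (ξ / 12 + r / 4) * Q n ((ξ / 12 + r / 4) + g k) := by
      intro k r hr
      show q ((ξ + g (4 * k + r)) / 12) * Q n ((ξ + g (4 * k + r)) / 12) = _
      rw [g_eq k r hr]
      have : (ξ + ((12 * g k + 3 * r : ℕ) : ℝ)) / 12 = (ξ / 12 + r / 4) + g k := by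
        push_cast; ring
      rw [this, q_nat]
    have k0 : ∀ k, Q (n + 1) (ξ + g (4 * k)) = q (ξ / 12) * Q n (ξ / 12 + g k) := by
      intro k
      have := key k 0 (by norm_num)
      simpa using this
    simp only [key _ 1 (by norm_num), key _ 2 (by norm_num), key _ 3 (by norm_num), k0]
    rw [Finset.sum_add_distrib, Finset.sum_add_distrib, Finset.sum_add_distrib]
    rw [← Finset.mul_sum, ← Finset.mul_sum, ← Finset.mul_sum, ← Finset.mul_sum]
    rw [ih, ih, ih, ih]
    have := q_sum (ξ / 12)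
    push_cast
    linarith

lemma g_bound (n : ℕ) : ∀ k < 4 ^ n, 11 * g k + 9 ≤ 9 * 12 ^ n := by
  induction n with
  | zero =>
    intro k hk
    have : k = 0 := by simpa using hk
    subst this
    simp [g_zero]
  | succ n ih =>
    intro k hk
    obtain ⟨j, r, hr, rfl⟩ : ∃ j r, r < 4 ∧ k = 4 * j + r :=
      ⟨k / 4, k % 4, Nat.mod_lt _ (by norm_num), by omega⟩
    rw [g_eq j r hr]
    have hj : j < 4 ^ n := by
      rw [pow_succ'] at hk
      omega
    have := ih j hj
    rw [pow_succ']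
    omega

lemma sum_le_one (ξ : ℝ) (K : ℕ) : ∑ k ∈ Finset.range K, G (ξ + g k) ≤ 1 := by
  obtain ⟨n, hn⟩ : ∃ n, K ≤ 4 ^ n := ⟨K, (Nat.lt_pow_self (by norm_num)).le⟩
  calc ∑ k ∈ Finset.range K, G (ξ + g k) ≤ ∑ k ∈ Finset.range K, Q n (ξ + g k) := by
        apply Finset.sum_le_sum
        intro k _
        rw [G_Q n]
        exact mul_le_of_le_one_right (Q_nonneg _ _) (G_le_one _)
    _ ≤ ∑ k ∈ Finset.range (4 ^ n), Q n (ξ + g k) := by
        apply Finset.sum_le_sum_of_subset_of_nonneg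
        · exact Finset.range_subset_range.2 hn
        · intro k _ _
          exact Q_nonneg _ _
    _ = 1 := Q_sum n ξ

lemma summable_G (ξ : ℝ) : Summable (fun k : ℕ => G (ξ + g k)) :=
  summable_of_sum_range_le (fun k => G_nonneg _) (sum_le_one ξ)

/-- **The Jorgensen-Pedersen identity.** -/
theorem hasSum_G (ξ : ℝ) : HasSum (fun k : ℕ => G (ξ + g k)) 1 := by
  have hc : 0 < Real.cos (5 * π / 11) := Real.cos_pos_of_mem_Ioo
    ⟨by linarith [Real.pi_pos], by linarith [Real.pi_pos]⟩
  set c := Real.cos (5 * π / 11) ^ 2 with hcdef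
  have hc2 : 0 < c := by positivity
  let f : ℕ → ℕ → ℝ := fun n k => if k < 4 ^ n then Q n (ξ + g k) else 0
  have hf1 : ∀ n, ∑' k, f n k = 1 := by
    intro n
    rw [tsum_eq_sum (s := Finset.range (4 ^ n))]
    · rw [← Q_sum n ξ]
      apply Finset.sum_congr rfl
      intro k hk
      rw [Finset.mem_range] at hk
      simp only [f, if_pos hk]
    · intro k hk
      rw [Finset.mem_range] at hk
      simp only [f, if_neg hk]
  have hlim12 : ∀ x : ℝ, Tendsto (fun n : ℕ => x / 12 ^ n) atTop (𝓝 0) := by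
    intro x
    exact tendsto_const_nhds.div_atTop (tendsto_pow_atTop_atTop_of_one_lt (by norm_num))
  have hf2 : ∀ k, Tendsto (fun n => f n k) atTop (𝓝 (G (ξ + g k))) := by
    intro k
    have h1 : Tendsto (fun n : ℕ => G ((ξ + g k) / 12 ^ n)) atTop (𝓝 1) := by
      have := (G_cont.tendsto 0).comp (hlim12 (ξ + g k))
      rwa [G_zero] at this
    have h2 : Tendsto (fun n : ℕ => G (ξ + g k) / G ((ξ + g k) / 12 ^ n)) atTop
        (𝓝 (G (ξ + g k) / 1)) := tendsto_const_nhds.div h1 one_ne_zero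
    rw [div_one] at h2
    refine h2.congr' ?_
    have h3 : ∀ᶠ n : ℕ in atTop, 0 < G ((ξ + g k) / 12 ^ n) :=
      h1.eventually (lt_mem_nhds zero_lt_one)
    filter_upwards [h3, eventually_ge_atTop k] with n hn hkn
    have hk : k < 4 ^ n := lt_of_le_of_lt hkn (Nat.lt_pow_self (by norm_num))
    simp only [f, if_pos hk]
    rw [G_Q n (ξ + g k)]
    field_simp
  have hdom : ∀ᶠ n : ℕ in atTop, ∀ k, ‖f n k‖ ≤ c⁻¹ * G (ξ + g k) := by
    have h1 : ∀ᶠ n : ℕ in atTop, ‖ξ / 12 ^ n‖ < 2 / 11 := by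
      have := (hlim12 ξ).norm
      rw [norm_zero] at this
      exact this.eventually (gt_mem_nhds (by norm_num))
    filter_upwards [h1] with n hn k
    by_cases hk : k < 4 ^ n
    · simp only [f, if_pos hk]
      rw [Real.norm_of_nonneg (Q_nonneg _ _), G_Q n (ξ + g k)]
      have h2 : |(ξ + g k) / 12 ^ n| ≤ 1 := by
        rw [add_div]
        refine (abs_add_le _ _).trans ?_
        have h3 : |(g k : ℝ) / 12 ^ n| ≤ 9 / 11 := by
          rw [abs_of_nonneg (by positivity), div_le_div_iff₀ (by positivity) (by norm_num)]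
          have := g_bound n k hk
          have h4 : (11 * g k + 9 : ℝ) ≤ 9 * 12 ^ n := by exact_mod_cast this
          linarith
        rw [Real.norm_eq_abs] at hn
        linarith
      have h5 := G_lower _ h2
      rw [← hcdef] at h5
      have h6 : 1 ≤ c⁻¹ * G ((ξ + g k) / 12 ^ n) := by
        rw [inv_mul_eq_div, one_le_div hc2]
        exact h5
      calc Q n (ξ + g k) = Q n (ξ + g k) * 1 := (mul_one _).symm
        _ ≤ Q n (ξ + g k) * (c⁻¹ * G ((ξ + g k) / 12 ^ n)) :=
            mul_le_mul_of_nonneg_left h6 (Q_nonneg _ _)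
        _ = _ := by ring
    · simp only [f, if_neg hk, norm_zero]
      exact mul_nonneg (inv_nonneg.2 hc2.le) (G_nonneg _)
  have hT := tendsto_tsum_of_dominated_convergence ((summable_G ξ).mul_left c⁻¹) hf2 hdom
  simp only [hf1] at hT
  have h1 : ∑' k, G (ξ + g k) = 1 := tendsto_nhds_unique hT tendsto_const_nhds
  rw [← h1]
  exact (summable_G ξ).hasSum

end Pool.Agent.R226.HA
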