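import Pool.Agent.R226.HB

/-!
# Completeness from the Jorgensen-Pedersen identity, and the measure with digits 0,1,8,9
-/

set_option autoImplicit false
set_option linter.unusedSimpArgs false
set_option linter.unusedVariables false

open MeasureTheory Filter Topology
open scoped ENNReal NNReal Real

namespace Pool.Agent.R226.HA

section hilbert
variable {E : Type*} [NormedAddCommGroup E] [InnerProductSpace ℂ E] {ι : Type*}

open scoped InnerProductSpace

lemma inner_zero_of_parseval (v : ι → E) (hv : Orthonormal ℂ v) (x f : E)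
    (hs : HasSum (fun i => ‖⟪v i, x⟫_ℂ‖ ^ 2) (‖x‖ ^ 2)) (hf : ∀ i, ⟪v i, f⟫_ℂ = 0) :
    ⟪x, f⟫_ℂ = 0 := by
  classical
  have h1 : ∀ s : Finset ι, ‖x - ∑ i ∈ s, ⟪v i, x⟫_ℂ • v i‖ ^ 2 = ‖x‖ ^ 2 - ∑ i ∈ s, ‖⟪v i, x⟫_ℂ‖ ^ 2 := by
    intro s
    have h2 : ⟪∑ i ∈ s, ⟪v i, x⟫_ℂ • v i, x⟫_ℂ = ((∑ i ∈ s, ‖⟪v i, x⟫_ℂ‖ ^ 2 : ℝ) : ℂ) := by
      rw [sum_inner]
      push_cast
      apply Finset.sum_congr rfl
      intro i _
      rw [inner_smul_left, mul_comm, Complex.mul_conj, Complex.normSq_eq_norm_sq]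
      push_cast; rfl
    have h3 : ⟪∑ i ∈ s, ⟪v i, x⟫_ℂ • v i, ∑ i ∈ s, ⟪v i, x⟫_ℂ • v i⟫_ℂ =
        ((∑ i ∈ s, ‖⟪v i, x⟫_ℂ‖ ^ 2 : ℝ) : ℂ) := by
      rw [hv.inner_sum]
      push_cast
      apply Finset.sum_congr rfl
      intro i _
      rw [mul_comm, Complex.mul_conj, Complex.normSq_eq_norm_sq]
      push_cast; rfl
    have h4 := norm_sub_sq (𝕜 := ℂ) x (∑ i ∈ s, ⟪v i, x⟫_ℂ • v i)
    have h5 : ‖∑ i ∈ s, ⟪v i, x⟫_ℂ • v i‖ ^ 2 = ∑ i ∈ s, ‖⟪v i, x⟫_ℂ‖ ^ 2 := by
      rw [norm_sq_eq_re_inner (𝕜 := ℂ), h3]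
      exact Complex.ofReal_re _
    have h6 : RCLike.re ⟪x, ∑ i ∈ s, ⟪v i, x⟫_ℂ • v i⟫_ℂ = ∑ i ∈ s, ‖⟪v i, x⟫_ℂ‖ ^ 2 := by
      rw [inner_re_symm, h2]
      exact Complex.ofReal_re _
    rw [h4, h5, h6]
    ring
  have h2 : ∀ s : Finset ι, ‖⟪x, f⟫_ℂ‖ ^ 2 ≤ (‖x‖ ^ 2 - ∑ i ∈ s, ‖⟪v i, x⟫_ℂ‖ ^ 2) * ‖f‖ ^ 2 := by
    intro s
    have h3 : ⟪x, f⟫_ℂ = ⟪x - ∑ i ∈ s, ⟪v i, x⟫_ℂ • v i, f⟫_ℂ := by
      rw [inner_sub_left, sum_inner]
      rw [Finset.sum_eq_zero, sub_zero]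
      intro i _
      rw [inner_smul_left, hf i, mul_zero]
    rw [h3, ← h1 s, ← mul_pow]
    exact pow_le_pow_left₀ (norm_nonneg _) (norm_inner_le_norm _ _) 2
  have h3 : Tendsto (fun s : Finset ι => (‖x‖ ^ 2 - ∑ i ∈ s, ‖⟪v i, x⟫_ℂ‖ ^ 2) * ‖f‖ ^ 2) atTop
      (𝓝 ((‖x‖ ^ 2 - ‖x‖ ^ 2) * ‖f‖ ^ 2)) := (tendsto_const_nhds.sub hs).mul_const _
  rw [sub_self, zero_mul] at h3
  have h4 : ‖⟪x, f⟫_ℂ‖ ^ 2 ≤ 0 := ge_of_tendsto' h3 h2
  have h5 : ‖⟪x, f⟫_ℂ‖ = 0 := by nlinarith [norm_nonneg ⟪x, f⟫_ℂ, sq_nonneg ‖⟪x, f⟫_ℂ‖]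
  exact norm_eq_zero.1 h5

end hilbert

section general
variable {μ : Measure ℝ} [IsProbabilityMeasure μ]

/-- vanishing of all Fourier coefficients -/
lemma real_zero_of_fourier (g : ℝ → ℝ) (hg : Integrable g μ)
    (h : ∀ ξ : ℝ, ∫ x, (g x : ℂ) * e (ξ * x) ∂μ = 0) : g =ᵐ[μ] 0 := by
  set g1 : ℝ → ℝ≥0∞ := fun x => ENNReal.ofReal (g x) with hg1
  set g2 : ℝ → ℝ≥0∞ := fun x => ENNReal.ofReal (-g x) with hg2
  have hm1 : AEMeasurable g1 μ := hg.1.aemeasurable.ennreal_ofReal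
  have hm2 : AEMeasurable g2 μ := hg.1.aemeasurable.neg.ennreal_ofReal
  have hlt1 : ∀ᵐ x ∂μ, g1 x < ⊤ := Eventually.of_forall fun x => ENNReal.ofReal_lt_top
  have hlt2 : ∀ᵐ x ∂μ, g2 x < ⊤ := Eventually.of_forall fun x => ENNReal.ofReal_lt_top
  have hf1 : ∫⁻ x, g1 x ∂μ ≠ ⊤ := by
    have := hg.lintegral_lt_top
    exact this.ne
  have hf2 : ∫⁻ x, g2 x ∂μ ≠ ⊤ := by
    have := hg.neg.lintegral_lt_top
    exact this.ne
  have : IsFiniteMeasure (μ.withDensity g1) := isFiniteMeasure_withDensity hf1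
  have : IsFiniteMeasure (μ.withDensity g2) := isFiniteMeasure_withDensity hf2
  have hint : ∀ ξ : ℝ, Integrable (fun x => (g x : ℂ) * e (ξ * x)) μ := by
    intro ξ
    have h1 : Integrable (fun x => (g x : ℂ)) μ := hg.ofReal
    refine h1.mul_bdd (c := 1) ?_ ?_
    · exact (e_cont.comp (by fun_prop)).aestronglyMeasurable
    · exact Eventually.of_forall fun x => (e_norm _).le
  have key : μ.withDensity g1 = μ.withDensity g2 := by
    apply Measure.ext_of_charFun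
    funext t
    rw [charFun_apply_real, charFun_apply_real]
    rw [integral_withDensity_eq_integral_toReal_smul₀ hm1 hlt1,
      integral_withDensity_eq_integral_toReal_smul₀ hm2 hlt2]
    have he : ∀ x : ℝ, Complex.exp (t * x * Complex.I) = e (t / (2 * π) * x) := by
      intro x
      rw [e_eq]
      congr 2
      rw [show (2 * π * (t / (2 * π) * x) : ℝ) = t * x by field_simp]
      push_cast; rfl
    simp only [he]
    have hi1 : Integrable (fun x => (g1 x).toReal • e (t / (2 * π) * x)) μ := by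
      have h1 : Integrable (fun x => (g1 x).toReal) μ := integrable_toReal_of_lintegral_ne_top hm1 hf1
      have h2 : Integrable (fun x => (((g1 x).toReal : ℝ) : ℂ)) μ := h1.ofReal
      simp only [Complex.real_smul]
      refine h2.mul_bdd (c := 1) ?_ ?_
      · exact (e_cont.comp (by fun_prop)).aestronglyMeasurable
      · exact Eventually.of_forall fun x => (e_norm _).le
    have hi2 : Integrable (fun x => (g2 x).toReal • e (t / (2 * π) * x)) μ := by
      have h1 : Integrable (fun x => (g2 x).toReal) μ := integrable_toReal_of_lintegral_ne_top hm2 hf2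
      have h2 : Integrable (fun x => (((g2 x).toReal : ℝ) : ℂ)) μ := h1.ofReal
      simp only [Complex.real_smul]
      refine h2.mul_bdd (c := 1) ?_ ?_
      · exact (e_cont.comp (by fun_prop)).aestronglyMeasurable
      · exact Eventually.of_forall fun x => (e_norm _).le
    rw [← sub_eq_zero, ← integral_sub hi1 hi2, ← h (t / (2 * π))]
    congr 1
    funext x
    rw [← sub_smul]
    have h3 : (g1 x).toReal - (g2 x).toReal = g x := by
      simp only [hg1, hg2]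
      rcases le_total 0 (g x) with h0 | h0
      · rw [ENNReal.toReal_ofReal h0, ENNReal.ofReal_of_nonpos (by linarith)]
        simp
      · rw [ENNReal.toReal_ofReal (by linarith : 0 ≤ -g x), ENNReal.ofReal_of_nonpos h0]
        simp
    rw [h3]
    rfl
  rw [withDensity_eq_iff hm1 hm2 hf1] at key
  filter_upwards [key] with x hx
  simp only [hg1, hg2] at hx
  rcases lt_trichotomy 0 (g x) with h0 | h0 | h0
  · rw [ENNReal.ofReal_of_nonpos (by linarith : -g x ≤ 0)] at hx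
    have := ENNReal.ofReal_pos.2 h0
    rw [hx] at this
    exact absurd this (lt_irrefl _)
  · exact h0.symm
  · rw [ENNReal.ofReal_of_nonpos h0.le] at hx
    have := ENNReal.ofReal_pos.2 (by linarith : 0 < -g x)
    rw [← hx] at this
    exact absurd this (lt_irrefl _)

lemma zero_of_fourier (f : ℝ → ℂ) (hf : Integrable f μ)
    (h : ∀ ξ : ℝ, ∫ x, f x * e (ξ * x) ∂μ = 0) : f =ᵐ[μ] 0 := by
  have hint : ∀ ξ : ℝ, Integrable (fun x => f x * e (ξ * x)) μ := by
    intro ξ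
    refine hf.mul_bdd (c := 1) ?_ ?_
    · exact (e_cont.comp (by fun_prop)).aestronglyMeasurable
    · exact Eventually.of_forall fun x => (e_norm _).le
  have hint' : ∀ ξ : ℝ, Integrable (fun x => (starRingEnd ℂ) (f x) * e (ξ * x)) μ := by
    intro ξ
    have : (fun x => (starRingEnd ℂ) (f x) * e (ξ * x)) = fun x => (starRingEnd ℂ) (f x * e (-ξ * x)) := by
      funext x
      rw [map_mul, ← e_neg]
      congr 2; ring
    rw [this]
    exact (Complex.conjCLE.toContinuousLinearMap.integrable_comp (hint (-ξ)))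
  have hconj : ∀ ξ : ℝ, ∫ x, (starRingEnd ℂ) (f x) * e (ξ * x) ∂μ = 0 := by
    intro ξ
    have : (fun x => (starRingEnd ℂ) (f x) * e (ξ * x)) = fun x => (starRingEnd ℂ) (f x * e (-ξ * x)) := by
      funext x
      rw [map_mul, ← e_neg]
      congr 2; ring
    rw [this, integral_conj, h, map_zero]
  have hre : (fun x => (f x).re) =ᵐ[μ] 0 := by
    apply real_zero_of_fourier _ hf.re
    intro ξ
    show ∫ x, (((f x).re : ℝ) : ℂ) * e (ξ * x) ∂μ = 0
    have h1 : (fun x => (((f x).re : ℝ) : ℂ) * e (ξ * x)) =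
        fun x => (1 / 2 : ℂ) * (f x * e (ξ * x) + (starRingEnd ℂ) (f x) * e (ξ * x)) := by
      funext x
      rw [← add_mul, Complex.add_conj]
      push_cast; ring
    rw [h1, integral_const_mul, integral_add (hint ξ) (hint' ξ), h, hconj]
    simp
  have him : (fun x => (f x).im) =ᵐ[μ] 0 := by
    apply real_zero_of_fourier _ hf.im
    intro ξ
    show ∫ x, (((f x).im : ℝ) : ℂ) * e (ξ * x) ∂μ = 0
    have h1 : (fun x => (((f x).im : ℝ) : ℂ) * e (ξ * x)) =
        fun x => (1 / (2 * Complex.I) : ℂ) * (f x * e (ξ * x) - (starRingEnd ℂ) (f x) * e (ξ * x)) := by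
      funext x
      rw [← sub_mul, Complex.sub_conj]
      have := Complex.I_ne_zero
      field_simp
      push_cast; ring
    rw [h1, integral_const_mul, integral_sub (hint ξ) (hint' ξ), h, hconj]
    simp
  filter_upwards [hre, him] with x h1 h2
  exact Complex.ext h1 h2

/-- the exponentials are square integrable -/
lemma memLp_e (l : ℝ) : MemLp (fun x => e (l * x)) 2 μ :=
  MemLp.of_bound (e_cont.comp (by fun_prop)).aestronglyMeasurable 1
    (Eventually.of_forall fun x => (e_norm _).le)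

/-- exponentials as elements of `L²` -/
noncomputable def E (μ : Measure ℝ) [IsProbabilityMeasure μ] (l : ℝ) : Lp ℂ 2 μ :=
  (memLp_e (μ := μ) l).toLp _

lemma inner_E (l : ℝ) (f : ℝ → ℂ) (hf : MemLp f 2 μ) :
    inner ℂ (E μ l) (hf.toLp f) = ∫ x, f x * e (-(l * x)) ∂μ := by
  rw [L2.inner_def]
  apply integral_congr_ae
  filter_upwards [(memLp_e (μ := μ) l).coeFn_toLp, hf.coeFn_toLp] with x h1 h2
  unfold E
  rw [h1, h2, RCLike.inner_apply, e_neg]

lemma inner_E_E (l l' : ℝ) : inner ℂ (E μ l) (E μ l') = ∫ x, e ((l' - l) * x) ∂μ := by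
  unfold E
  rw [show (memLp_e (μ := μ) l).toLp _ = E μ l from rfl, inner_E]
  congr 1
  funext x
  rw [← e_add]
  congr 1
  ring

/-- **Completeness and orthogonality from the Jorgensen-Pedersen identity.** -/
theorem spectral_of_hasSum {ι : Type*} (lam : ι → ℝ)
    (h : ∀ ξ, HasSum (fun i => ‖∫ x, e ((ξ + lam i) * x) ∂μ‖ ^ 2) 1) :
    (∀ i j, i ≠ j → ∫ x, e ((lam i - lam j) * x) ∂μ = 0) ∧
    (∀ f : ℝ → ℂ, MemLp f 2 μ → (∀ i, ∫ x, f x * e (-(lam i * x)) ∂μ = 0) → f =ᵐ[μ] 0) := by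
  have horth : ∀ i j, i ≠ j → ∫ x, e ((lam i - lam j) * x) ∂μ = 0 := by
    classical
    intro i j hij
    have h1 := h (-lam j)
    have h2 := sum_le_hasSum {i, j} (fun k _ => by positivity) h1
    rw [Finset.sum_pair hij] at h2
    have h3 : ‖∫ x, e ((-lam j + lam j) * x) ∂μ‖ ^ 2 = 1 := by
      rw [neg_add_cancel]
      simp [e_zero]
    rw [h3] at h2
    have h4 : ‖∫ x, e ((-lam j + lam i) * x) ∂μ‖ ^ 2 ≤ 0 := by linarith
    have h5 : ‖∫ x, e ((-lam j + lam i) * x) ∂μ‖ = 0 := by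
      have := sq_nonneg ‖∫ x, e ((-lam j + lam i) * x) ∂μ‖
      exact pow_eq_zero_iff (two_ne_zero) |>.1 (le_antisymm h4 this)
    rw [norm_eq_zero] at h5
    rw [← h5]
    congr 1
    funext x
    congr 1
    ring
  refine ⟨horth, ?_⟩
  intro f hf hzero
  classical
  have hON : Orthonormal ℂ (fun i => E μ (lam i)) := by
    rw [orthonormal_iff_ite]
    intro i j
    rw [inner_E_E]
    by_cases hij : i = j
    · subst hij
      simp [e_zero]
    · rw [if_neg hij]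
      exact horth j i (Ne.symm hij)
  have hconjint : ∀ a : ℝ, ‖∫ x, e (a * x) ∂μ‖ = ‖∫ x, e (-a * x) ∂μ‖ := by
    intro a
    have : (fun x => e (-a * x)) = fun x => (starRingEnd ℂ) (e (a * x)) := by
      funext x
      rw [← e_neg]; congr 1; ring
    rw [this, integral_conj, RCLike.norm_conj]
  have hall : ∀ ξ : ℝ, inner ℂ (E μ ξ) (hf.toLp f) = 0 := by
    intro ξ
    apply inner_zero_of_parseval (fun i => E μ (lam i)) hON
    · have h1 : ‖E μ ξ‖ ^ 2 = 1 := by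
        rw [norm_sq_eq_re_inner (𝕜 := ℂ), inner_E_E]
        simp [e_zero]
      rw [h1]
      have h2 := h (-ξ)
      have h3 : ∀ i, ‖inner ℂ (E μ (lam i)) (E μ ξ)‖ ^ 2 = ‖∫ x, e ((-ξ + lam i) * x) ∂μ‖ ^ 2 := by
        intro i
        rw [inner_E_E, hconjint, neg_sub, sub_eq_neg_add]
      simp only [h3]
      exact h2
    · intro i
      rw [inner_E]
      exact hzero i
  apply zero_of_fourier f (hf.integrable (by norm_num))
  intro ξ
  have := hall (-ξ)
  rw [inner_E] at this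
  rw [← this]
  congr 1
  funext x
  congr 2
  ring

end general

end Pool.Agent.R226.HA
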