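import Pool.Agent.R226.HC

/-!
# The self-similar measure with ratio 12 and digits 0,1,8,9 is spectral
-/

set_option autoImplicit false
set_option linter.unusedSimpArgs false
set_option linter.unusedVariables false

open MeasureTheory Filter Topology
open scoped ENNReal NNReal Real

namespace Pool.Agent.R226.HA

/-- the digits 0,1,8,9 -/
def dg : Fin 4 → ℝ := ![0, 1, 8, 9]

/-- the measure -/
noncomputable def mu : Measure ℝ :=
  (2 : ℝ≥0∞)⁻¹ • (nu.map (fun y => y / 3) + nu.map (fun y => (y + 2) / 3))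

instance : IsProbabilityMeasure mu := by
  constructor
  have h1 : IsProbabilityMeasure (nu.map (fun y => y / 3)) :=
    Measure.isProbabilityMeasure_map (by fun_prop)
  have h2 : IsProbabilityMeasure (nu.map (fun y => (y + 2) / 3)) :=
    Measure.isProbabilityMeasure_map (by fun_prop)
  unfold mu
  rw [Measure.smul_apply, Measure.add_apply, measure_univ, measure_univ, one_add_one_eq_two,
    smul_eq_mul]
  exact ENNReal.inv_mul_cancel (by norm_num) (by norm_num)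

/-- auxiliary pieces -/
noncomputable def Tc (c : ℝ) : Measure ℝ := nu.map (fun y => (y + c) / 36)

lemma map_smul' (f : ℝ → ℝ) (c : ℝ≥0∞) (m : Measure ℝ) : (c • m).map f = c • m.map f :=
  Measure.map_smul _ _ _

lemma map_three (s : ℝ) : nu.map (fun y => (y + s) / 3) =
    (4 : ℝ≥0∞)⁻¹ • (Tc (12 * s) + Tc (2 + 12 * s) + Tc (3 + 12 * s) + Tc (5 + 12 * s)) := by
  have hf : Measurable (fun y : ℝ => (y + s) / 3) := by fun_prop
  conv_lhs => rw [nu_self]
  have hm : ∀ m : Measure ℝ, m.map (fun y => (y + s) / 3) = Measure.mapₗ (fun y => (y + s) / 3) m :=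
    fun m => (Measure.mapₗ_apply_of_measurable hf m).symm
  have h1 : ∀ c : ℝ, Measure.mapₗ (fun y => (y + s) / 3) (nu.map (fun y => (y + c) / 12)) =
      Tc (c + 12 * s) := by
    intro c
    rw [← hm, Measure.map_map hf (by fun_prop)]
    unfold Tc
    congr 1
    funext y
    simp only [Function.comp_apply]
    ring
  rw [hm, map_sum, Fin.sum_univ_four]
  simp only [map_smul, h1]
  have d0 : dig 0 = 0 := rfl
  have d1 : dig 1 = 2 := rfl
  have d2 : dig 2 = 3 := rfl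
  have d3 : dig 3 = 5 := rfl
  rw [d0, d1, d2, d3, zero_add]
  simp only [smul_add]

lemma mu_eq : mu = (2 : ℝ≥0∞)⁻¹ • (4 : ℝ≥0∞)⁻¹ •
    (Tc 0 + Tc 2 + Tc 3 + Tc 5 + (Tc 24 + Tc 26 + Tc 27 + Tc 29)) := by
  have h0 := map_three 0
  have h2 := map_three 2
  simp only [add_zero, mul_zero] at h0
  norm_num at h2
  unfold mu
  rw [h0, h2, smul_add (4 : ℝ≥0∞)⁻¹ (Tc 0 + Tc 2 + Tc 3 + Tc 5), smul_add _ _ (Tc 29),
    smul_add _ _ (Tc 27), smul_add _ (Tc 24) (Tc 26)]

lemma mu_map (b : ℝ) : mu.map (fun x => (x + b) / 12) =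
    (2 : ℝ≥0∞)⁻¹ • (Tc (3 * b) + Tc (2 + 3 * b)) := by
  have hf : Measurable (fun x : ℝ => (x + b) / 12) := by fun_prop
  unfold mu
  rw [Measure.map_smul, Measure.map_add _ _ hf, Measure.map_map hf (by fun_prop),
    Measure.map_map hf (by fun_prop)]
  unfold Tc
  congr 3
  · funext y
    simp only [Function.comp_apply]
    ring
  · funext y
    simp only [Function.comp_apply]
    ring

lemma mu_self : mu = ∑ a : Fin 4, (4 : ℝ≥0∞)⁻¹ • mu.map (fun x => (x + dg a) / 12) := by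
  rw [Fin.sum_univ_four]
  have d0 : dg 0 = 0 := rfl
  have d1 : dg 1 = 1 := rfl
  have d2 : dg 2 = 8 := rfl
  have d3 : dg 3 = 9 := rfl
  rw [d0, d1, d2, d3, mu_map, mu_map, mu_map, mu_map, mu_eq]
  norm_num
  simp only [smul_add, smul_smul]
  rw [mul_comm (4 : ℝ≥0∞)⁻¹ (2 : ℝ≥0∞)⁻¹]
  abel

lemma mu_fourier (ξ : ℝ) : ∫ x, e (ξ * x) ∂mu = (2 : ℂ)⁻¹ * ((1 + e (2 * ξ / 3)) * F (ξ / 3)) := by
  have hc : Continuous (fun x : ℝ => e (ξ * x)) := e_cont.comp (by fun_prop)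
  have i1 : Integrable (fun x : ℝ => e (ξ * x)) (nu.map (fun y => y / 3)) := by
    have : IsFiniteMeasure (nu.map (fun y => y / 3)) := inferInstance
    exact int_e _ _ (by fun_prop)
  have i2 : Integrable (fun x : ℝ => e (ξ * x)) (nu.map (fun y => (y + 2) / 3)) := by
    have : IsFiniteMeasure (nu.map (fun y => (y + 2) / 3)) := inferInstance
    exact int_e _ _ (by fun_prop)
  unfold mu
  rw [integral_smul_measure, integral_add_measure i1 i2,
    integral_map (by fun_prop) hc.aestronglyMeasurable,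
    integral_map (by fun_prop) hc.aestronglyMeasurable]
  have h1 : ∫ y, e (ξ * (y / 3)) ∂nu = F (ξ / 3) := by
    unfold F
    congr 1; funext y; congr 1; ring
  have h2 : ∫ y, e (ξ * ((y + 2) / 3)) ∂nu = e (2 * ξ / 3) * F (ξ / 3) := by
    unfold F
    rw [← integral_const_mul]
    congr 1; funext y; rw [← e_add]; congr 1; ring
  rw [h1, h2, Complex.real_smul]
  simp
  ring

lemma mu_fourier_sq (ξ : ℝ) : ‖∫ x, e (ξ * x) ∂mu‖ ^ 2 = Real.cos (π * (2 * ξ / 3)) ^ 2 * G (ξ / 3) := by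
  rw [mu_fourier, norm_mul, mul_pow, norm_mul, mul_pow, one_add_e, norm_inv]
  have h2 : ‖(2 : ℂ)‖ = 2 := by simp
  rw [h2]
  unfold G
  ring

/-- the spectrum -/
noncomputable def lam : ℕ ⊕ ℕ → ℝ
  | Sum.inl k => 3 * g k
  | Sum.inr k => 3 * g k + 3 / 4

lemma cos_shift (ξ : ℝ) (n : ℕ) : Real.cos (π * (2 * (ξ + 3 * n) / 3)) ^ 2 =
    Real.cos (π * (2 * ξ / 3)) ^ 2 := by
  rw [← Real.cos_add_nat_mul_two_pi (π * (2 * ξ / 3)) n]
  congr 2
  ring

theorem hasSum_mu (ξ : ℝ) : HasSum (fun i => ‖∫ x, e ((ξ + lam i) * x) ∂mu‖ ^ 2) 1 := by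
  simp only [mu_fourier_sq]
  rw [← Real.cos_sq_add_sin_sq (π * (2 * ξ / 3))]
  apply HasSum.sum
  · have h := (hasSum_G (ξ / 3)).mul_left (Real.cos (π * (2 * ξ / 3)) ^ 2)
    rw [mul_one] at h
    have heq : ((fun i => Real.cos (π * (2 * (ξ + lam i) / 3)) ^ 2 * G ((ξ + lam i) / 3)) ∘ Sum.inl) =
        fun k : ℕ => Real.cos (π * (2 * ξ / 3)) ^ 2 * G (ξ / 3 + g k) := by
      funext k
      show Real.cos (π * (2 * (ξ + 3 * g k) / 3)) ^ 2 * G ((ξ + 3 * g k) / 3) = _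
      rw [cos_shift]
      congr 2
      ring
    rw [heq]
    exact h
  · have h := (hasSum_G (ξ / 3 + 1 / 4)).mul_left (Real.sin (π * (2 * ξ / 3)) ^ 2)
    rw [mul_one] at h
    have heq : ((fun i => Real.cos (π * (2 * (ξ + lam i) / 3)) ^ 2 * G ((ξ + lam i) / 3)) ∘ Sum.inr) =
        fun k : ℕ => Real.sin (π * (2 * ξ / 3)) ^ 2 * G (ξ / 3 + 1 / 4 + g k) := by
      funext k
      show Real.cos (π * (2 * (ξ + (3 * g k + 3 / 4)) / 3)) ^ 2 * G ((ξ + (3 * g k + 3 / 4)) / 3) = _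
      have h1 := cos_shift (ξ + 3 / 4) (g k)
      rw [show ξ + (3 * (g k : ℝ) + 3 / 4) = ξ + 3 / 4 + 3 * g k by ring, h1]
      have h2 : Real.cos (π * (2 * (ξ + 3 / 4) / 3)) = - Real.sin (π * (2 * ξ / 3)) := by
        rw [← Real.cos_add_pi_div_two]
        congr 1
        ring
      rw [h2, neg_sq]
      congr 2
      ring
    rw [heq]
    exact h

/-- the embedding of the line -/
def J (t : ℝ) : Fin 1 → ℝ := fun _ => t

@[fun_prop]
lemma J_meas : Measurable J := by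
  unfold J
  fun_prop

/-- the measure on `Fin 1 → ℝ` -/
noncomputable def M : Measure (Fin 1 → ℝ) := mu.map J

instance : IsProbabilityMeasure M := Measure.isProbabilityMeasure_map (by fun_prop)

/-- the matrix -/
def R12 : Matrix (Fin 1) (Fin 1) ℤ := Matrix.diagonal (fun _ => 12)

/-- the digit set -/
def B4 : Finset (Fin 1 → ℤ) := {fun _ => 0, fun _ => 1, fun _ => 8, fun _ => 9}

lemma B4_card : B4.card = 4 := by decide

lemma R12_inv (v : Fin 1 → ℝ) : (R12.map (Int.cast : ℤ → ℝ))⁻¹.mulVec v = fun _ => v 0 / 12 := by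
  have h1 : R12.map (Int.cast : ℤ → ℝ) = Matrix.diagonal (fun _ => (12 : ℝ)) := by
    ext i j
    have hi : i = 0 := Subsingleton.elim _ _
    have hj : j = 0 := Subsingleton.elim _ _
    subst hi; subst hj
    simp [R12]
  have h2 : (Matrix.diagonal (fun _ : Fin 1 => (12 : ℝ)))⁻¹ = Matrix.diagonal (fun _ => (12 : ℝ)⁻¹) := by
    apply Matrix.inv_eq_left_inv
    rw [Matrix.diagonal_mul_diagonal]
    norm_num
  rw [h1, h2]
  funext i
  have hi : i = 0 := Subsingleton.elim _ _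
  subst hi
  rw [Matrix.mulVec_diagonal]
  ring

lemma sum_B4 {α : Type*} [AddCommMonoid α] (f : (Fin 1 → ℤ) → α) :
    ∑ b ∈ B4, f b = f (fun _ => 0) + f (fun _ => 1) + f (fun _ => 8) + f (fun _ => 9) := by
  unfold B4
  rw [Finset.sum_insert (by decide), Finset.sum_insert (by decide), Finset.sum_insert (by decide),
    Finset.sum_singleton]
  simp only [add_assoc]

lemma M_self : M = ((B4.card : ℝ≥0∞)⁻¹) • ∑ b ∈ B4,
    M.map (fun x => (R12.map (Int.cast : ℤ → ℝ))⁻¹.mulVec (x + fun i => (b i : ℝ))) := by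
  rw [B4_card, sum_B4]
  have h1 : ∀ b : ℤ, M.map (fun x => (R12.map (Int.cast : ℤ → ℝ))⁻¹.mulVec (x + fun i => (b : ℝ))) =
      Measure.mapₗ J (mu.map (fun x => (x + b) / 12)) := by
    intro b
    have hm : Measurable (fun x : Fin 1 → ℝ => (R12.map (Int.cast : ℤ → ℝ))⁻¹.mulVec (x + fun i => (b : ℝ))) := by
      simp only [R12_inv]
      fun_prop
    rw [Measure.mapₗ_apply_of_measurable J_meas]
    unfold M
    rw [Measure.map_map hm J_meas, Measure.map_map J_meas (by fun_prop)]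
    congr 1
    funext t
    simp only [Function.comp_apply, R12_inv]
    rfl
  rw [h1 0, h1 1, h1 8, h1 9]
  have h2 : M = Measure.mapₗ J mu := (Measure.mapₗ_apply_of_measurable J_meas _).symm
  rw [h2]
  conv_lhs => rw [mu_self]
  rw [Fin.sum_univ_four]
  have d0 : dg 0 = ((0 : ℤ) : ℝ) := by norm_num [dg]
  have d1 : dg 1 = ((1 : ℤ) : ℝ) := by norm_num [dg]
  have d2 : dg 2 = ((8 : ℤ) : ℝ) := by show (8 : ℝ) = _; norm_num
  have d3 : dg 3 = ((9 : ℤ) : ℝ) := by show (9 : ℝ) = _; norm_num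
  rw [d0, d1, d2, d3]
  simp only [map_add, map_smul, smul_add]
  norm_num

/-- zeros of the mask at integers -/
lemma mask_zero (n : ℤ) (h : 1 + e ((n : ℝ) / 12) + e (8 * n / 12) + e (9 * n / 12) = 0) :
    ∃ k : ℤ, n = 12 * k + 6 := by
  have h1 : (1 + e ((n : ℝ) / 12)) * (1 + e (8 * n / 12)) = 0 := by
    have : e (9 * n / 12) = e ((n : ℝ) / 12) * e (8 * n / 12) := by
      rw [← e_add]; congr 1; ring
    rw [this] at h
    rw [← h]
    ring
  have key : ∀ u : ℝ, 1 + e u = 0 → ∃ k : ℤ, 2 * u = 2 * k + 1 := by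
    intro u hu
    have h2 : ‖1 + e u‖ ^ 2 = 0 := by rw [hu]; simp
    rw [one_add_e] at h2
    have h3 : Real.cos (π * u) = 0 := by
      have : Real.cos (π * u) ^ 2 = 0 := by linarith
      exact pow_eq_zero_iff two_ne_zero |>.1 this
    rw [Real.cos_eq_zero_iff] at h3
    obtain ⟨k, hk⟩ := h3
    refine ⟨k, ?_⟩
    have hpi := Real.pi_pos.ne'
    have h4 : π * (2 * u) = π * (2 * k + 1) := by linarith
    exact mul_left_cancel₀ hpi h4
  rcases mul_eq_zero.1 h1 with h2 | h2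
  · obtain ⟨k, hk⟩ := key _ h2
    refine ⟨k, ?_⟩
    have : (n : ℝ) = 12 * k + 6 := by linarith
    exact_mod_cast this
  · exfalso
    obtain ⟨k, hk⟩ := key _ h2
    have : (4 * n : ℝ) = 3 * (2 * k + 1) := by linarith
    have h3 : 4 * n = 3 * (2 * k + 1) := by exact_mod_cast this
    omega

/-- the sum over the digits -/
lemma digit_sum (l l' : Fin 1 → ℤ) : ∑ b ∈ B4, Complex.exp (2 * π * Complex.I *
      ((∑ i, ((R12.map (Int.cast : ℤ → ℝ))⁻¹.mulVec (fun j => (b j : ℝ))) i *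
        ((l i : ℝ) - (l' i : ℝ)) : ℝ) : ℂ)) =
    1 + e (((l 0 - l' 0 : ℤ) : ℝ) / 12) + e (8 * ((l 0 - l' 0 : ℤ) : ℝ) / 12) +
      e (9 * ((l 0 - l' 0 : ℤ) : ℝ) / 12) := by
  rw [sum_B4]
  simp only [R12_inv, Fin.sum_univ_one]
  rw [← e_zero]
  unfold e
  congr 1
  · congr 1
    · congr 1
      · congr 3
        push_cast
        ring
      · congr 3
        push_cast
        ring
    · congr 3
      push_cast
      ring
  · congr 3
    push_cast
    ring

/-- no Hadamard triple -/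
theorem no_L (L : Finset (Fin 1 → ℤ)) (hL : L.card = B4.card)
    (h : ∀ l ∈ L, ∀ l' ∈ L, l ≠ l' → ∑ b ∈ B4, Complex.exp (2 * π * Complex.I *
      ((∑ i, ((R12.map (Int.cast : ℤ → ℝ))⁻¹.mulVec (fun j => (b j : ℝ))) i *
        ((l i : ℝ) - (l' i : ℝ)) : ℝ) : ℂ)) = 0) : False := by
  rw [B4_card] at hL
  obtain ⟨a, b, c, ha, hb, hc, hab, hac, hbc⟩ : ∃ a b c, a ∈ L ∧ b ∈ L ∧ c ∈ L ∧ a ≠ b ∧ a ≠ c ∧ b ≠ c := by
    have : 2 < L.card := by omega
    rw [Finset.two_lt_card_iff] at this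
    exact this
  have h1 : ∀ l ∈ L, ∀ l' ∈ L, l ≠ l' → ∃ k : ℤ, l 0 - l' 0 = 12 * k + 6 := by
    intro l hl l' hl' hne
    apply mask_zero
    rw [← digit_sum]
    exact h l hl l' hl' hne
  obtain ⟨k1, hk1⟩ := h1 a ha b hb hab
  obtain ⟨k2, hk2⟩ := h1 b hb c hc hbc
  obtain ⟨k3, hk3⟩ := h1 a ha c hc hac
  omega

/-- the spectrum as a set -/
def Lam : Set (Fin 1 → ℝ) := Set.range (fun i => J (lam i))

/-- spectrality on `Fin 1 → ℝ`, with the explicit spectrum -/
theorem M_spectral_Lam :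
    (∀ l ∈ Lam, ∀ l' ∈ Lam,
      (l = l' → ∫ x, Complex.exp (2 * π * Complex.I * ((∑ i, (l i - l' i) * x i : ℝ) : ℂ)) ∂M = 1) ∧
      (l ≠ l' → ∫ x, Complex.exp (2 * π * Complex.I * ((∑ i, (l i - l' i) * x i : ℝ) : ℂ)) ∂M = 0)) ∧
    (∀ f : (Fin 1 → ℝ) → ℂ, MemLp f 2 M →
      (∀ l ∈ Lam, ∫ x, f x * Complex.exp (-(2 * π * Complex.I * ((∑ i, l i * x i : ℝ) : ℂ))) ∂M = 0) →
      f =ᵐ[M] 0) := by
  obtain ⟨horth, hcomp⟩ := spectral_of_hasSum (μ := mu) lam hasSum_mu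
  refine ⟨?_, ?_⟩
  · rintro _ ⟨i, rfl⟩ _ ⟨j, rfl⟩
    refine ⟨?_, ?_⟩
    · intro hij
      have : ∀ x : Fin 1 → ℝ, Complex.exp (2 * π * Complex.I *
          ((∑ k, (J (lam i) k - J (lam j) k) * x k : ℝ) : ℂ)) = 1 := by
        intro x
        have h0 : J (lam i) = J (lam j) := hij
        rw [h0]
        simp
      have h1 : ∫ x, Complex.exp (2 * π * Complex.I *
          ((∑ k, (J (lam i) k - J (lam j) k) * x k : ℝ) : ℂ)) ∂M = ∫ x, (1 : ℂ) ∂M := by
        congr 1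
        funext x
        exact this x
      refine h1.trans ?_
      simp
    · intro hij
      have hne : i ≠ j := by
        rintro rfl
        exact hij rfl
      have hc : Continuous (fun x : Fin 1 → ℝ => Complex.exp (2 * π * Complex.I *
          ((∑ k, (J (lam i) k - J (lam j) k) * x k : ℝ) : ℂ))) := by fun_prop
      have h1 : ∫ x, Complex.exp (2 * π * Complex.I *
          ((∑ k, (J (lam i) k - J (lam j) k) * x k : ℝ) : ℂ)) ∂M = 0 := by
        unfold M
        rw [integral_map J_meas.aemeasurable hc.aestronglyMeasurable]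
        rw [← horth i j hne]
        congr 1
        funext t
        unfold e
        simp only [Fin.sum_univ_one]
        rfl
      exact h1
  · intro f hf hz
    have hJ : MeasurableEmbedding J := by
      have : J = (MeasurableEquiv.funUnique (Fin 1) ℝ).symm := by
        funext t
        rfl
      rw [this]
      exact (MeasurableEquiv.funUnique (Fin 1) ℝ).symm.measurableEmbedding
    have hf' : MemLp (fun t => f (J t)) 2 mu := by
      have := (hJ.memLp_map_measure_iff (μ := mu) (g := f) (p := 2)).1 hf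
      exact this
    have h1 := hcomp (fun t => f (J t)) hf' ?_
    · unfold M
      have h2 : ∀ᵐ t ∂mu, f (J t) = 0 := h1
      exact (hJ.ae_map_iff (p := fun x => f x = 0)).2 h2
    · intro i
      have := hz (J (lam i)) ⟨i, rfl⟩
      unfold M at this
      rw [hJ.integral_map] at this
      rw [← this]
      congr 1
      funext t
      congr 1
      unfold e
      simp only [Fin.sum_univ_one]
      congr 1
      push_cast
      show 2 * ↑π * Complex.I * -(↑(lam i) * ↑t) = -(2 * ↑π * Complex.I * (↑(lam i) * ↑t))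
      ring

/-- spectrality on `Fin 1 → ℝ` -/
theorem M_spectral : ∃ Λ : Set (Fin 1 → ℝ),
    (∀ l ∈ Λ, ∀ l' ∈ Λ,
      (l = l' → ∫ x, Complex.exp (2 * π * Complex.I * ((∑ i, (l i - l' i) * x i : ℝ) : ℂ)) ∂M = 1) ∧
      (l ≠ l' → ∫ x, Complex.exp (2 * π * Complex.I * ((∑ i, (l i - l' i) * x i : ℝ) : ℂ)) ∂M = 0)) ∧
    (∀ f : (Fin 1 → ℝ) → ℂ, MemLp f 2 M →
      (∀ l ∈ Λ, ∫ x, f x * Complex.exp (-(2 * π * Complex.I * ((∑ i, l i * x i : ℝ) : ℂ))) ∂M = 0) →
      f =ᵐ[M] 0) := ⟨Lam, M_spectral_Lam⟩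

lemma R12_charpoly (z : ℂ) (hz : (R12.map (Int.cast : ℤ → ℂ)).charpoly.IsRoot z) : 1 < ‖z‖ := by
  rw [Polynomial.IsRoot.def, Matrix.eval_charpoly, Matrix.det_fin_one] at hz
  have h : z - 12 = 0 := by
    rw [← hz]
    simp [R12]
  rw [sub_eq_zero] at h
  rw [h]
  norm_num

lemma R12_simple (b : Fin 1 → ℤ) (hb : b ∈ B4) (b' : Fin 1 → ℤ) (hb' : b' ∈ B4) (hne : b ≠ b') :
    ¬ ∃ v : Fin 1 → ℤ, R12.mulVec v = b - b' := by
  rintro ⟨v, hv⟩
  have h1 := congrFun hv 0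
  have h2 : R12.mulVec v 0 = 12 * v 0 := by
    unfold R12
    rw [Matrix.mulVec_diagonal]
  rw [h2, Pi.sub_apply] at h1
  have hne' : b 0 ≠ b' 0 := by
    intro h
    apply hne
    funext i
    have hi : i = 0 := Subsingleton.elim _ _
    subst hi
    exact h
  have hbv : b 0 = 0 ∨ b 0 = 1 ∨ b 0 = 8 ∨ b 0 = 9 := by
    simp only [B4, Finset.mem_insert, Finset.mem_singleton] at hb
    rcases hb with rfl | rfl | rfl | rfl <;> simp
  have hbv' : b' 0 = 0 ∨ b' 0 = 1 ∨ b' 0 = 8 ∨ b' 0 = 9 := by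
    simp only [B4, Finset.mem_insert, Finset.mem_singleton] at hb'
    rcases hb' with rfl | rfl | rfl | rfl <;> simp
  omega

lemma R12_closure : AddSubgroup.closure {v : Fin 1 → ℤ | ∃ k : ℕ, ∃ b ∈ B4, v = (R12 ^ k).mulVec b} = ⊤ := by
  rw [eq_top_iff]
  intro v _
  have h1 : (fun _ => 1 : Fin 1 → ℤ) ∈ AddSubgroup.closure
      {v : Fin 1 → ℤ | ∃ k : ℕ, ∃ b ∈ B4, v = (R12 ^ k).mulVec b} := by
    apply AddSubgroup.subset_closure
    refine ⟨0, fun _ => 1, by simp [B4], ?_⟩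
    rw [pow_zero, Matrix.one_mulVec]
  have h2 := AddSubgroup.zsmul_mem _ h1 (v 0)
  have h3 : v 0 • (fun _ => 1 : Fin 1 → ℤ) = v := by
    funext i
    have hi : i = 0 := Subsingleton.elim _ _
    subst hi
    simp
  rwa [h3] at h2

lemma R12_det : R12.det = 12 := by
  unfold R12
  simp

end Pool.Agent.R226.HA
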