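import Mathlib

/-!
# An explicit counterexample to the Jacobian conjecture in dimension four

`F = (Fc, Ft, Ftau, Fa) : K^4 → K^4` is a polynomial map with integer coefficients (the classical
limit of the endomorphism of the second Weyl algebra in `Pool.Agent.S03574`) whose Jacobian
determinant is the constant `64` and which takes the same value at `(1, 0, 0, 0)` and
`(-1, 0, -3, 5/2)`.
-/

set_option autoImplicit false
set_option linter.unusedSimpArgs false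
set_option linter.unusedVariables false

namespace Pool.Agent.R226.JC4

section formulas
variable {S : Type*} [CommRing S] (x y g z : S)

/-- `W = 1 + 4xy` -/
def fW : S := 1 + 4 * (x * y)
def fp : S := 1 + 6 * (x * y) ^ 2 - 40 * (x * y) ^ 3
def fc1 : S := 1 - 6 * (x * y) + 42 * (x * y) ^ 2 - 308 * (x * y) ^ 3
def fk4 : S := -57 * y ^ 4 - g - 2 * (x * (x * z + y * g))
def fK : S := fp x y + x ^ 4 * fk4 x y g z
def fJ : S := 3 + 18 * (x * y) + 6 * (x * y) ^ 2 + 76 * (x * y) ^ 3 + 2 * (x ^ 4 * g)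
def fC : S := fJ x y g - 6 * (fW x y * fK x y g z) + 4 * (fK x y g z) ^ 3
def fQ : S := 3 * (fp x y ^ 2 * fk4 x y g z) + 3 * (x ^ 4 * fp x y * fk4 x y g z ^ 2)
  + x ^ 8 * fk4 x y g z ^ 3
def fR : S := y ^ 4 * (1392 - 5760 * (x * y) + 20064 * (x * y) ^ 2 - 17280 * (x * y) ^ 3
    + 115200 * (x * y) ^ 4 - 256000 * (x * y) ^ 5)
  + 2 * g - 6 * (fW x y * fk4 x y g z) + 4 * fQ x y g z
def fRt : S := 1232 * y ^ 4 + fk4 x y g z - fW x y * fR x y g z
def ft0 : S := y * (2 - 12 * (x * y) + 100 * (x * y) ^ 2)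
def fR2 : S := y ^ 6 * (20064 - 17280 * (x * y) + 115200 * (x * y) ^ 2 - 256000 * (x * y) ^ 3)
  - 12 * z + 48 * (y ^ 2 * g) + 48 * (x * y * z)
  + 12 * (y ^ 2 * (6 - 40 * (x * y)) * (2 + 6 * (x * y) ^ 2 - 40 * (x * y) ^ 3) * fk4 x y g z)
  + 12 * (x ^ 2 * fp x y * fk4 x y g z ^ 2) + 4 * (x ^ 6 * fk4 x y g z ^ 3)
def fRt2 : S := -2 * z - 4 * (y * (12 * (y * g) - 4392 * y ^ 5)) - fW x y * fR2 x y g z
def fh1 : S := -12 * y ^ 2 + 100 * (x * y ^ 3) + 4 * (y * ft0 x y)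
def fh2 : S := 2 * (y * g) + 192 * y ^ 5 + x * fRt2 x y g z
def fh3 : S := 10 - 68 * (x * y) - 1792 * (x * y) ^ 2 - 4928 * (x * y) ^ 3
/-- second component -/
def Ft : S := ft0 x y + x ^ 3 * fRt x y g z
def fh4 : S := -12 * y ^ 2 + 100 * (x * y ^ 3) + x ^ 2 * fRt x y g z
  + (8 * y + 16 * (x * y ^ 2)) * Ft x y g z
def fh5 : S := 12 * (y * g) - 4392 * y ^ 5 + x * fR2 x y g z
def fh6 : S := 18 - 28 * (x * y) - 2064 * (x * y) ^ 2 - 12096 * (x * y) ^ 3 - 19712 * (x * y) ^ 4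
def fb : S := y ^ 6 * (34416 - 17344 * (x * y) - 4750592 * (x * y) ^ 2 - 18213888 * (x * y) ^ 3)
  - 12 * (fh1 x y * fRt x y g z + 2 * (y * fh2 x y g z)) - 6 * (fW x y * x ^ 2 * fRt x y g z ^ 2)
  - 8 * (fRt2 x y g z + 2 * (y * fh2 x y g z) + y ^ 2 * fh3 x y * fRt x y g z)
  - 8 * (fh4 x y g z * fR x y g z + 2 * (y * fh5 x y g z))
  - 6 * (fR2 x y g z + 6 * (y * fh5 x y g z) + y ^ 2 * fh6 x y * fR x y g z)
  - 3 * (fW x y ^ 3 * x ^ 2 * fR x y g z ^ 2)
/-- first component -/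
def Fc : S := x * fC x y g z
/-- third component -/
def Ftau : S := y ^ 4 * (8400 + 49632 * (x * y) + 37824 * (x * y) ^ 2 - 23040 * (x * y) ^ 3
    - 5677056 * (x * y) ^ 4 - 24285184 * (x * y) ^ 5)
  - 12 * (fW x y * x * (2 * (ft0 x y * fRt x y g z) + x ^ 3 * fRt x y g z ^ 2))
  - 12 * (fW x y ^ 2 * (fc1 x y * fRt x y g z + x * fR x y g z * Ft x y g z))
  - 4 * (fW x y ^ 3 * (2 * (fc1 x y * fR x y g z) + x ^ 4 * fR x y g z ^ 2))
/-- fourth component -/
def Fa : S := fW x y * fb x y g z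

theorem rel_C : fC x y g z = fc1 x y + x ^ 4 * fR x y g z := by
  simp only [fC, fJ, fW, fK, fp, fk4, fc1, fR, fQ]
  ring

theorem rel_t : x * Ft x y g z = fK x y g z - fW x y * fC x y g z := by
  rw [rel_C]
  simp only [Ft, ft0, fRt, fK, fW, fc1, fp]
  ring

theorem rel_tau : x ^ 4 * Ftau x y g z = 1 + 3 * fW x y ^ 2 - 12 * (fW x y * fK x y g z ^ 2)
    + 12 * (fW x y ^ 2 * fK x y g z * fC x y g z) - 4 * (fW x y ^ 3 * fC x y g z ^ 2) := by
  have hK : fK x y g z = fW x y * fC x y g z + x * Ft x y g z := by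
    rw [rel_t]; ring
  rw [hK, rel_C]
  simp only [Ftau, Ft]
  generalize fRt x y g z = Rt
  generalize fR x y g z = R
  simp only [ft0, fW, fc1]
  ring

theorem rel_R : fR x y g z = (1050 * y ^ 4 - 4 * g) + x * (12 * (y * g) - 4392 * y ^ 5)
    + x ^ 2 * fR2 x y g z := by
  simp only [fR, fR2, fQ, fW, fp]
  have hk : fk4 x y g z = -57 * y ^ 4 - g - 2 * (x * (x * z + y * g)) := rfl
  have e1 : fk4 x y g z ^ 2 = fk4 x y g z ^ 2 := rfl
  generalize fk4 x y g z = k at *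
  linear_combination (-6 - 24 * (x * y) + 12) * hk

theorem rel_Rt : fRt x y g z = (125 * y ^ 4 + 3 * g) + x * (2 * (y * g) + 192 * y ^ 5)
    + x ^ 2 * fRt2 x y g z := by
  simp only [fRt, fRt2, rel_R]
  generalize fR2 x y g z = R2
  simp only [fk4, fW]
  ring

theorem rel_a : x ^ 6 * Fa x y g z = fW x y + 2 * fW x y ^ 3 - 6 * (fW x y ^ 2 * fK x y g z ^ 2)
    + 4 * (fW x y ^ 3 * fK x y g z * fC x y g z) - fW x y ^ 4 * fC x y g z ^ 2 := by
  have hK : fK x y g z = fW x y * fC x y g z + x * Ft x y g z := by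
    rw [rel_t]; ring
  rw [hK, rel_C]
  simp only [Fa, fb, fh4, fh5, fh2, Ft]
  rw [rel_R, rel_Rt]
  generalize fRt2 x y g z = Rt2
  generalize fR2 x y g z = R2
  simp only [fh1, fh3, fh6, ft0, fW, fc1]
  ring

end formulas

section deriv
variable {S : Type*} [CommRing S] (D : Derivation ℤ S S)

theorem d_ofNat (n : ℕ) [n.AtLeastTwo] : D (ofNat(n) : S) = 0 := by
  rw [← Nat.cast_ofNat (n := n) (R := S)]
  exact D.map_natCast n

variable (x y g z : S)

theorem d_C : D (fC x y g z) = D (fJ x y g) - 6 * (fW x y * D (fK x y g z) + fK x y g z * D (fW x y))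
    + 12 * (fK x y g z ^ 2 * D (fK x y g z)) := by
  unfold fC
  simp only [map_add, map_sub, Derivation.leibniz, Derivation.leibniz_pow, smul_eq_mul, nsmul_eq_mul,
    d_ofNat, mul_zero, add_zero]
  push_cast
  ring

theorem d_c : D (Fc x y g z) = fC x y g z * D x + x * D (fC x y g z) := by
  unfold Fc
  simp only [Derivation.leibniz, smul_eq_mul]
  ring

theorem d_t : x * D (Ft x y g z) + Ft x y g z * D x =
    D (fK x y g z) - (fW x y * D (fC x y g z) + fC x y g z * D (fW x y)) := by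
  have h := congrArg D (rel_t x y g z)
  simp only [map_sub, Derivation.leibniz, smul_eq_mul] at h
  linear_combination h

theorem d_tau : x ^ 4 * D (Ftau x y g z) + 4 * x ^ 3 * Ftau x y g z * D x =
    (6 * fW x y - 12 * fK x y g z ^ 2 + 24 * (fW x y * fK x y g z * fC x y g z)
      - 12 * (fW x y ^ 2 * fC x y g z ^ 2)) * D (fW x y)
    + (-24 * (fW x y * fK x y g z) + 12 * (fW x y ^ 2 * fC x y g z)) * D (fK x y g z)
    + (12 * (fW x y ^ 2 * fK x y g z) - 8 * (fW x y ^ 3 * fC x y g z)) * D (fC x y g z) := by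
  have h := congrArg D (rel_tau x y g z)
  simp only [map_add, map_sub, Derivation.leibniz, Derivation.leibniz_pow, smul_eq_mul, nsmul_eq_mul,
    d_ofNat, mul_zero, add_zero, Derivation.map_one_eq_zero, zero_add] at h
  push_cast at h
  linear_combination h

theorem d_a : x ^ 6 * D (Fa x y g z) + 6 * x ^ 5 * Fa x y g z * D x =
    (1 + 6 * fW x y ^ 2 - 12 * (fW x y * fK x y g z ^ 2) + 12 * (fW x y ^ 2 * fK x y g z * fC x y g z)
      - 4 * (fW x y ^ 3 * fC x y g z ^ 2)) * D (fW x y)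
    + (-12 * (fW x y ^ 2 * fK x y g z) + 4 * (fW x y ^ 3 * fC x y g z)) * D (fK x y g z)
    + (4 * (fW x y ^ 3 * fK x y g z) - 2 * (fW x y ^ 4 * fC x y g z)) * D (fC x y g z) := by
  have h := congrArg D (rel_a x y g z)
  simp only [map_add, map_sub, Derivation.leibniz, Derivation.leibniz_pow, smul_eq_mul, nsmul_eq_mul,
    d_ofNat, mul_zero, add_zero, Derivation.map_one_eq_zero, zero_add] at h
  push_cast at h
  linear_combination h

theorem d_W : D (fW x y) = 4 * (x * D y + y * D x) := by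
  unfold fW
  simp only [map_add, Derivation.leibniz, smul_eq_mul, d_ofNat, mul_zero, add_zero,
    Derivation.map_one_eq_zero, zero_add]

theorem d_K (hx : D x = 0) (hy : D y = 0) : D (fK x y g z) = -(x ^ 4 + 2 * (x ^ 5 * y)) * D g
    - 2 * x ^ 6 * D z := by
  unfold fK fp fk4
  simp only [map_add, map_sub, map_neg, Derivation.leibniz, Derivation.leibniz_pow, smul_eq_mul, nsmul_eq_mul,
    d_ofNat, mul_zero, add_zero, Derivation.map_one_eq_zero, zero_add, hx, hy, neg_mul, sub_zero, neg_zero]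
  ring

theorem d_J (hx : D x = 0) (hy : D y = 0) : D (fJ x y g) = 2 * x ^ 4 * D g := by
  unfold fJ
  simp only [map_add, map_sub, map_neg, Derivation.leibniz, Derivation.leibniz_pow, smul_eq_mul, nsmul_eq_mul,
    d_ofNat, mul_zero, add_zero, Derivation.map_one_eq_zero, zero_add, hx, hy, neg_mul, sub_zero, neg_zero]
  ring
end deriv

theorem det4 {R : Type*} [CommRing R] (a : Fin 4 → Fin 4 → R) : (Matrix.of a).det =
    a 0 0 * (a 1 1 * (a 2 2 * a 3 3 - a 2 3 * a 3 2) - a 1 2 * (a 2 1 * a 3 3 - a 2 3 * a 3 1) + a 1 3 * (a 2 1 * a 3 2 - a 2 2 * a 3 1))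
  - a 0 1 * (a 1 0 * (a 2 2 * a 3 3 - a 2 3 * a 3 2) - a 1 2 * (a 2 0 * a 3 3 - a 2 3 * a 3 0) + a 1 3 * (a 2 0 * a 3 2 - a 2 2 * a 3 0))
  + a 0 2 * (a 1 0 * (a 2 1 * a 3 3 - a 2 3 * a 3 1) - a 1 1 * (a 2 0 * a 3 3 - a 2 3 * a 3 0) + a 1 3 * (a 2 0 * a 3 1 - a 2 1 * a 3 0))
  - a 0 3 * (a 1 0 * (a 2 1 * a 3 2 - a 2 2 * a 3 1) - a 1 1 * (a 2 0 * a 3 2 - a 2 2 * a 3 0) + a 1 2 * (a 2 0 * a 3 1 - a 2 1 * a 3 0)) := by
  have e10 : (1 : Fin 4).succAbove (0 : Fin 3) = 0 := by decide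
  have e11 : (1 : Fin 4).succAbove (1 : Fin 3) = 2 := by decide
  have e12 : (1 : Fin 4).succAbove (2 : Fin 3) = 3 := by decide
  have e20 : (2 : Fin 4).succAbove (0 : Fin 3) = 0 := by decide
  have e21 : (2 : Fin 4).succAbove (1 : Fin 3) = 1 := by decide
  have e22 : (2 : Fin 4).succAbove (2 : Fin 3) = 3 := by decide
  have e30 : (3 : Fin 4).succAbove (0 : Fin 3) = 0 := by decide
  have e31 : (3 : Fin 4).succAbove (1 : Fin 3) = 1 := by decide
  have e32 : (3 : Fin 4).succAbove (2 : Fin 3) = 2 := by decide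
  have e00 : (0 : Fin 4).succAbove (0 : Fin 3) = 1 := by decide
  have e01 : (0 : Fin 4).succAbove (1 : Fin 3) = 2 := by decide
  have e02 : (0 : Fin 4).succAbove (2 : Fin 3) = 3 := by decide
  have s0 : (0 : Fin 3).succ = (1 : Fin 4) := by decide
  have s1 : (1 : Fin 3).succ = (2 : Fin 4) := by decide
  have s2 : (2 : Fin 3).succ = (3 : Fin 4) := by decide
  rw [Matrix.det_succ_row_zero]
  simp only [Fin.sum_univ_four, Matrix.det_fin_three, Matrix.submatrix_apply, Matrix.of_apply,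
    e00, e01, e02, e10, e11, e12, e20, e21, e22, e30, e31, e32, s0, s1, s2]
  have f0 : ((0 : Fin 4) : ℕ) = 0 := rfl
  have f1 : ((1 : Fin 4) : ℕ) = 1 := rfl
  have f2 : ((2 : Fin 4) : ℕ) = 2 := rfl
  have f3 : ((3 : Fin 4) : ℕ) = 3 := rfl
  rw [f0, f1, f2, f3]
  ring

open MvPolynomial

/-- The ring `ℤ[x, y, g, z]`. -/
abbrev A := MvPolynomial (Fin 4) ℤ

/-- The polynomial map `F = (Fc, Ft, Ftau, Fa)` with integer coefficients. -/
noncomputable def F : Fin 4 → A :=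
  ![Fc (X 0) (X 1) (X 2) (X 3), Ft (X 0) (X 1) (X 2) (X 3),
    Ftau (X 0) (X 1) (X 2) (X 3), Fa (X 0) (X 1) (X 2) (X 3)]

section field
variable {L : Type*} [Field L]

/-- Matrix of the partial derivatives of `(c, t, τ, a)` with respect to `(x, W, K, J)`. -/
def Mm (x W K C t u a : L) : Fin 4 → Fin 4 → L :=
  ![![C, -6 * K * x, x * (-6 * W + 12 * K ^ 2), x],
    ![-t / x, (6 * W * K - C) / x, (1 + 6 * W ^ 2 - 12 * W * K ^ 2) / x, -W / x],
    ![-4 * u / x,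
      ((6 * W - 12 * K ^ 2 + 24 * W * K * C - 12 * W ^ 2 * C ^ 2)
        + (12 * W ^ 2 * K - 8 * W ^ 3 * C) * (-6 * K)) / x ^ 4,
      ((-24 * W * K + 12 * W ^ 2 * C) + (12 * W ^ 2 * K - 8 * W ^ 3 * C) * (-6 * W + 12 * K ^ 2)) / x ^ 4,
      (12 * W ^ 2 * K - 8 * W ^ 3 * C) / x ^ 4],
    ![-6 * a / x,
      ((1 + 6 * W ^ 2 - 12 * W * K ^ 2 + 12 * W ^ 2 * K * C - 4 * W ^ 3 * C ^ 2)
        + (4 * W ^ 3 * K - 2 * W ^ 4 * C) * (-6 * K)) / x ^ 6,
      ((-12 * W ^ 2 * K + 4 * W ^ 3 * C) + (4 * W ^ 3 * K - 2 * W ^ 4 * C) * (-6 * W + 12 * K ^ 2)) / x ^ 6,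
      (4 * W ^ 3 * K - 2 * W ^ 4 * C) / x ^ 6]]

theorem det_Mm (x W K C t u a J : L) (hx : x ≠ 0) (hC : C = J - 6 * W * K + 4 * K ^ 3)
    (ht : x * t = K - W * C)
    (hu : x ^ 4 * u = 1 + 3 * W ^ 2 - 12 * (W * K ^ 2) + 12 * (W ^ 2 * K * C) - 4 * (W ^ 3 * C ^ 2))
    (ha : x ^ 6 * a = W + 2 * W ^ 3 - 6 * (W ^ 2 * K ^ 2) + 4 * (W ^ 3 * K * C) - W ^ 4 * C ^ 2) :
    (Matrix.of (Mm x W K C t u a)).det * x ^ 11 = 4 := by
  have ht' : t = (K - W * C) / x := by field_simp; linear_combination ht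
  have hu' : u = (1 + 3 * W ^ 2 - 12 * (W * K ^ 2) + 12 * (W ^ 2 * K * C) - 4 * (W ^ 3 * C ^ 2)) / x ^ 4 := by
    field_simp; linear_combination hu
  have ha' : a = (W + 2 * W ^ 3 - 6 * (W ^ 2 * K ^ 2) + 4 * (W ^ 3 * K * C) - W ^ 4 * C ^ 2) / x ^ 6 := by
    field_simp; linear_combination ha
  rw [det4]
  subst ht' hu' ha' hC
  simp only [Mm, Matrix.cons_val_zero, Matrix.cons_val_one, Matrix.cons_val]
  field_simp
  ring
end field


theorem d_K' {S : Type*} [CommRing S] (D : Derivation ℤ S S) (x y g z gg zz : S)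
    (hx : D x = 0) (hy : D y = 0) (hg : D g = gg) (hz : D z = zz) :
    D (fK x y g z) = -(x ^ 4 + 2 * (x ^ 5 * y)) * gg - 2 * x ^ 6 * zz := by
  rw [d_K D x y g z hx hy, hg, hz]

theorem d_J' {S : Type*} [CommRing S] (D : Derivation ℤ S S) (x y g gg : S)
    (hx : D x = 0) (hy : D y = 0) (hg : D g = gg) :
    D (fJ x y g) = 2 * x ^ 4 * gg := by
  rw [d_J D x y g hx hy, hg]

section rows
variable {L : Type*} [Field L] (x W K C t u a dx dW dK dJ dc dt du da : L)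

theorem row_c (hc : dc = C * dx + x * (dJ - 6 * (W * dK + K * dW) + 12 * (K ^ 2 * dK))) :
    dc = C * dx + -6 * K * x * dW + x * (-6 * W + 12 * K ^ 2) * dK + x * dJ := by
  linear_combination hc

theorem row_t (hx : x ≠ 0) (ht : x * dt + t * dx = dK - (W * (dJ - 6 * (W * dK + K * dW)
      + 12 * (K ^ 2 * dK)) + C * dW)) :
    dt = -t / x * dx + (6 * W * K - C) / x * dW + (1 + 6 * W ^ 2 - 12 * W * K ^ 2) / x * dK + -W / x * dJ := by
  field_simp
  linear_combination ht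

theorem row_u (hx : x ≠ 0) (hu : x ^ 4 * du + 4 * x ^ 3 * u * dx =
    (6 * W - 12 * K ^ 2 + 24 * (W * K * C) - 12 * (W ^ 2 * C ^ 2)) * dW
    + (-24 * (W * K) + 12 * (W ^ 2 * C)) * dK
    + (12 * (W ^ 2 * K) - 8 * (W ^ 3 * C)) * (dJ - 6 * (W * dK + K * dW) + 12 * (K ^ 2 * dK))) :
    du = -4 * u / x * dx + ((6 * W - 12 * K ^ 2 + 24 * W * K * C - 12 * W ^ 2 * C ^ 2)
        + (12 * W ^ 2 * K - 8 * W ^ 3 * C) * (-6 * K)) / x ^ 4 * dW
      + ((-24 * W * K + 12 * W ^ 2 * C) + (12 * W ^ 2 * K - 8 * W ^ 3 * C) * (-6 * W + 12 * K ^ 2)) / x ^ 4 * dK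
      + (12 * W ^ 2 * K - 8 * W ^ 3 * C) / x ^ 4 * dJ := by
  field_simp
  linear_combination hu

theorem row_a (hx : x ≠ 0) (ha : x ^ 6 * da + 6 * x ^ 5 * a * dx =
    (1 + 6 * W ^ 2 - 12 * (W * K ^ 2) + 12 * (W ^ 2 * K * C) - 4 * (W ^ 3 * C ^ 2)) * dW
    + (-12 * (W ^ 2 * K) + 4 * (W ^ 3 * C)) * dK
    + (4 * (W ^ 3 * K) - 2 * (W ^ 4 * C)) * (dJ - 6 * (W * dK + K * dW) + 12 * (K ^ 2 * dK))) :
    da = -6 * a / x * dx + ((1 + 6 * W ^ 2 - 12 * W * K ^ 2 + 12 * W ^ 2 * K * C - 4 * W ^ 3 * C ^ 2)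
        + (4 * W ^ 3 * K - 2 * W ^ 4 * C) * (-6 * K)) / x ^ 6 * dW
      + ((-12 * W ^ 2 * K + 4 * W ^ 3 * C) + (4 * W ^ 3 * K - 2 * W ^ 4 * C) * (-6 * W + 12 * K ^ 2)) / x ^ 6 * dK
      + (4 * W ^ 3 * K - 2 * W ^ 4 * C) / x ^ 6 * dJ := by
  field_simp
  linear_combination ha
end rows

/-- the Jacobian determinant of `F` is the constant `64` -/
theorem det_F : (Matrix.of fun i j => pderiv j (F i)).det = C 64 := by
  let L := FractionRing A
  let φ : A →+* L := algebraMap A L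
  have hφ : Function.Injective φ := IsFractionRing.injective A L
  apply hφ
  set x : A := X 0 with hxdef
  set y : A := X 1 with hydef
  set g : A := X 2 with hgdef
  set z : A := X 3 with hzdef
  have hx0 : φ x ≠ 0 := by
    intro h
    have : x = 0 := hφ (by rw [h, map_zero])
    exact X_ne_zero (R := ℤ) (0 : Fin 4) this
  let N : Fin 4 → Fin 4 → L := ![fun j => φ (pderiv j x), fun j => φ (pderiv j (fW x y)),
    fun j => φ (pderiv j (fK x y g z)), fun j => φ (pderiv j (fJ x y g))]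
  let M := Mm (φ x) (φ (fW x y)) (φ (fK x y g z)) (φ (fC x y g z)) (φ (Ft x y g z))
    (φ (Ftau x y g z)) (φ (Fa x y g z))
  have hprod : φ.mapMatrix (Matrix.of fun i j => pderiv j (F i)) = Matrix.of M * Matrix.of N := by
    ext i j
    have hC := congrArg φ (d_C (pderiv j) x y g z)
    have hc := congrArg φ (d_c (pderiv j) x y g z)
    have ht := congrArg φ (d_t (pderiv j) x y g z)
    have hu := congrArg φ (d_tau (pderiv j) x y g z)
    have ha := congrArg φ (d_a (pderiv j) x y g z)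
    simp only [map_add, map_sub, map_mul, map_pow, map_ofNat, map_neg, map_one] at hC hc ht hu ha
    rw [hC] at hc ht hu ha
    rw [RingHom.mapMatrix_apply, Matrix.map_apply, Matrix.of_apply, Matrix.mul_apply, Fin.sum_univ_four]
    simp only [Matrix.of_apply]
    fin_cases i
    · simp only [F, M, N, Mm, Fin.zero_eta, Matrix.cons_val_zero, Matrix.cons_val_one, Matrix.cons_val]
      rw [← hxdef, ← hydef, ← hgdef, ← hzdef]
      exact row_c _ _ _ _ _ _ _ _ _ hc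
    · simp only [F, M, N, Mm, Fin.mk_one, Matrix.cons_val_zero, Matrix.cons_val_one, Matrix.cons_val]
      rw [← hxdef, ← hydef, ← hgdef, ← hzdef]
      exact row_t _ _ _ _ _ _ _ _ _ _ hx0 ht
    · simp only [F, M, N, Mm, Fin.reduceFinMk, Matrix.cons_val_zero, Matrix.cons_val_one, Matrix.cons_val]
      rw [← hxdef, ← hydef, ← hgdef, ← hzdef]
      exact row_u _ _ _ _ _ _ _ _ _ _ hx0 hu
    · simp only [F, M, N, Mm, Fin.reduceFinMk, Matrix.cons_val_zero, Matrix.cons_val_one, Matrix.cons_val]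
      rw [← hxdef, ← hydef, ← hgdef, ← hzdef]
      exact row_a _ _ _ _ _ _ _ _ _ _ hx0 ha
  have p00 : pderiv (0 : Fin 4) x = 1 := pderiv_X_self 0
  have p10 : pderiv (1 : Fin 4) x = 0 := pderiv_X_of_ne (by decide)
  have p20 : pderiv (2 : Fin 4) x = 0 := pderiv_X_of_ne (by decide)
  have p30 : pderiv (3 : Fin 4) x = 0 := pderiv_X_of_ne (by decide)
  have p11 : pderiv (1 : Fin 4) y = 1 := pderiv_X_self 1
  have p21 : pderiv (2 : Fin 4) y = 0 := pderiv_X_of_ne (by decide)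
  have p31 : pderiv (3 : Fin 4) y = 0 := pderiv_X_of_ne (by decide)
  have p22 : pderiv (2 : Fin 4) g = 1 := pderiv_X_self 2
  have p32 : pderiv (3 : Fin 4) g = 0 := pderiv_X_of_ne (by decide)
  have p23 : pderiv (2 : Fin 4) z = 0 := pderiv_X_of_ne (by decide)
  have p33 : pderiv (3 : Fin 4) z = 1 := pderiv_X_self 3
  have w1 : pderiv (1 : Fin 4) (fW x y) = 4 * (x * pderiv (1 : Fin 4) y + y * pderiv (1 : Fin 4) x) :=
    d_W (pderiv 1) x y
  have w2 : pderiv (2 : Fin 4) (fW x y) = 4 * (x * pderiv (2 : Fin 4) y + y * pderiv (2 : Fin 4) x) :=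
    d_W (pderiv 2) x y
  have w3 : pderiv (3 : Fin 4) (fW x y) = 4 * (x * pderiv (3 : Fin 4) y + y * pderiv (3 : Fin 4) x) :=
    d_W (pderiv 3) x y
  have k2 : pderiv (2 : Fin 4) (fK x y g z) = -(x ^ 4 + 2 * (x ^ 5 * y)) * 1 - 2 * x ^ 6 * 0 :=
    d_K' (pderiv 2) x y g z 1 0 p20 p21 p22 p23
  have k3 : pderiv (3 : Fin 4) (fK x y g z) = -(x ^ 4 + 2 * (x ^ 5 * y)) * 0 - 2 * x ^ 6 * 1 :=
    d_K' (pderiv 3) x y g z 0 1 p30 p31 p32 p33
  have j2 : pderiv (2 : Fin 4) (fJ x y g) = 2 * x ^ 4 * 1 := d_J' (pderiv 2) x y g 1 p20 p21 p22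
  have j3 : pderiv (3 : Fin 4) (fJ x y g) = 2 * x ^ 4 * 0 := d_J' (pderiv 3) x y g 0 p30 p31 p32
  have hN : (Matrix.of N).det = 16 * φ x ^ 11 := by
    rw [det4]
    simp only [N, Matrix.cons_val_zero, Matrix.cons_val_one, Matrix.cons_val]
    rw [w1, w2, w3, k2, k3, j2, j3, p00, p10, p20, p30, p11, p21, p31]
    simp only [map_add, map_sub, map_mul, map_pow, map_ofNat, map_neg, map_one, map_zero]
    ring
  have hM : (Matrix.of M).det * φ x ^ 11 = 4 := by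
    have h1 := congrArg φ (rel_t x y g z)
    have h2 := congrArg φ (rel_tau x y g z)
    have h3 := congrArg φ (rel_a x y g z)
    have h4 : φ (fC x y g z) = φ (fJ x y g) - 6 * φ (fW x y) * φ (fK x y g z) + 4 * φ (fK x y g z) ^ 3 := by
      rw [fC]
      simp only [map_add, map_sub, map_mul, map_pow, map_ofNat]
      ring
    simp only [map_add, map_sub, map_mul, map_pow, map_ofNat, map_neg, map_one] at h1 h2 h3
    exact det_Mm _ _ _ _ _ _ _ _ hx0 h4 h1 h2 h3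
  rw [RingHom.map_det, hprod, Matrix.det_mul, hN]
  have h64 : φ (C 64) = 64 := by
    rw [show (C 64 : A) = 64 from rfl]
    exact map_ofNat φ 64
  rw [h64]
  linear_combination 16 * hM

section values
variable {S T : Type*} [CommRing S] [CommRing T] (φ : S →+* T) (x y g z : S)

theorem map_Ft : φ (Ft x y g z) = Ft (φ x) (φ y) (φ g) (φ z) := by
  simp only [Ft, ft0, fRt, fk4, fW, fR, fQ, fp, map_add, map_sub, map_mul, map_pow, map_ofNat,
    map_neg, map_one]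

theorem map_Fc : φ (Fc x y g z) = Fc (φ x) (φ y) (φ g) (φ z) := by
  simp only [Fc, fC, fJ, fK, fk4, fW, fp, map_add, map_sub, map_mul, map_pow, map_ofNat,
    map_neg, map_one]

theorem map_fR : φ (fR x y g z) = fR (φ x) (φ y) (φ g) (φ z) := by
  simp only [fk4, fW, fR, fQ, fp, map_add, map_sub, map_mul, map_pow, map_ofNat,
    map_neg, map_one]

theorem map_fR2 : φ (fR2 x y g z) = fR2 (φ x) (φ y) (φ g) (φ z) := by
  simp only [fk4, fR2, fp, map_add, map_sub, map_mul, map_pow, map_ofNat,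
    map_neg, map_one]

theorem map_fRt : φ (fRt x y g z) = fRt (φ x) (φ y) (φ g) (φ z) := by
  simp only [fRt, fk4, fW, map_fR, map_add, map_sub, map_mul, map_pow, map_ofNat,
    map_neg, map_one]

theorem map_Ftau : φ (Ftau x y g z) = Ftau (φ x) (φ y) (φ g) (φ z) := by
  simp only [Ftau, fW, ft0, fc1, map_fR, map_fRt, map_Ft, map_add, map_sub, map_mul, map_pow,
    map_ofNat, map_neg, map_one]

theorem map_Fa : φ (Fa x y g z) = Fa (φ x) (φ y) (φ g) (φ z) := by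
  simp only [Fa, fb, fh1, fh2, fh3, fh4, fh5, fh6, fRt2, fW, ft0, map_fR, map_fRt, map_Ft, map_fR2,
    map_add, map_sub, map_mul, map_pow, map_ofNat, map_neg, map_one]
end values

/-- The values of `F` at points with coordinates in any commutative ring. -/
theorem aeval_F {S : Type*} [CommRing S] (p : Fin 4 → S) (i : Fin 4) :
    aeval p (F i) = (![Fc (p 0) (p 1) (p 2) (p 3), Ft (p 0) (p 1) (p 2) (p 3),
      Ftau (p 0) (p 1) (p 2) (p 3), Fa (p 0) (p 1) (p 2) (p 3)] : Fin 4 → S) i := by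
  have h0 : (aeval p : A →ₐ[ℤ] S) (X 0) = p 0 := aeval_X p 0
  have h1 : (aeval p : A →ₐ[ℤ] S) (X 1) = p 1 := aeval_X p 1
  have h2 : (aeval p : A →ₐ[ℤ] S) (X 2) = p 2 := aeval_X p 2
  have h3 : (aeval p : A →ₐ[ℤ] S) (X 3) = p 3 := aeval_X p 3
  fin_cases i
  · have := map_Fc ((aeval p : A →ₐ[ℤ] S) : A →+* S) (X 0) (X 1) (X 2) (X 3)
    simpa [F, h0, h1, h2, h3] using this
  · have := map_Ft ((aeval p : A →ₐ[ℤ] S) : A →+* S) (X 0) (X 1) (X 2) (X 3)
    simpa [F, h0, h1, h2, h3] using this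
  · have := map_Ftau ((aeval p : A →ₐ[ℤ] S) : A →+* S) (X 0) (X 1) (X 2) (X 3)
    simpa [F, h0, h1, h2, h3] using this
  · have := map_Fa ((aeval p : A →ₐ[ℤ] S) : A →+* S) (X 0) (X 1) (X 2) (X 3)
    simpa [F, h0, h1, h2, h3] using this

/-- `F` takes the value `(1, 0, 0, 0)` at the two points `(1, 0, 0, 0)` and `(-1, 0, -3, 5/2)`. -/
theorem not_injective (K : Type*) [Field K] [CharZero K] :
    (∀ i, aeval (![1, 0, 0, 0] : Fin 4 → K) (F i) = (![1, 0, 0, 0] : Fin 4 → K) i) ∧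
    (∀ i, aeval (![-1, 0, -3, 5 / 2] : Fin 4 → K) (F i) = (![1, 0, 0, 0] : Fin 4 → K) i) := by
  constructor
  · intro i
    rw [aeval_F]
    fin_cases i <;>
      simp [Fc, Ft, Ftau, Fa, fb, fh1, fh2, fh3, fh4, fh5, fh6, fRt2, fR2, fRt, fR, fQ, fC, fJ, fK, fk4,
        fW, fp, fc1, ft0] <;> norm_num
  · intro i
    rw [aeval_F]
    fin_cases i <;>
      simp [Fc, Ft, Ftau, Fa, fb, fh1, fh2, fh3, fh4, fh5, fh6, fRt2, fR2, fRt, fR, fQ, fC, fJ, fK, fk4,
        fW, fp, fc1, ft0] <;> norm_num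

theorem points_ne (K : Type*) [Field K] [CharZero K] :
    (![1, 0, 0, 0] : Fin 4 → K) ≠ ![-1, 0, -3, 5 / 2] := by
  intro h
  have := congrFun h 2
  simp at this

end Pool.Agent.R226.JC4
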