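import Mathlib

/-!
Core combinatorial inequality for MP_56a44b_nt.

`K` is a set of natural numbers without solutions of `c = a + b` and of `c = a + b + 1`.
We show that the second order count of `K` never exceeds that of density one third,
`∑_{k < n} (1/3 - 1_K(k)) (2 (n - k) - 1) ≥ 0` for every `n`, and deduce that
`∑_{k < M} 1_K(k) r^k ≤ 1 / (3 (1 - r))` for all `0 < r < 1`.
-/

namespace Pool.Agent.R226.PF

open Finset

/-- `K` contains no solution of `c = a + b` and no solution of `c = a + b + 1`. -/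
def SF (K : Set ℕ) : Prop :=
  ∀ a ∈ K, ∀ b ∈ K, ∀ c ∈ K, c ≠ a + b ∧ c ≠ a + b + 1

open Classical in
/-- Indicator function. -/
noncomputable def ind (K : Set ℕ) (k : ℕ) : ℝ := if k ∈ K then 1 else 0

/-- One third minus the indicator function. -/
noncomputable def g (K : Set ℕ) (k : ℕ) : ℝ := 1 / 3 - ind K k

/-- Second order count. -/
noncomputable def F (K : Set ℕ) (n : ℕ) : ℝ :=
  ∑ k ∈ range n, g K k * (2 * ((n : ℝ) - k) - 1)

lemma F_zero (K : Set ℕ) : F K 0 = 0 := by simp [F]

lemma F_succ (K : Set ℕ) (n : ℕ) :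
    F K (n + 1) = F K n + 2 * (∑ k ∈ range n, g K k) + g K n := by
  unfold F
  rw [Finset.sum_range_succ, Finset.mul_sum, ← Finset.sum_add_distrib]
  push_cast
  have : ∀ k ∈ range n, g K k * (2 * ((n : ℝ) + 1 - k) - 1)
      = g K k * (2 * ((n : ℝ) - k) - 1) + 2 * g K k := by
    intro k _; ring
  rw [Finset.sum_congr rfl this]
  ring

lemma F_rec (K : Set ℕ) (n : ℕ) :
    F K (n + 2) + F K n - 2 * F K (n + 1) = g K (n + 1) + g K n := by
  have h1 := F_succ K (n + 1)
  have h2 := F_succ K n
  rw [Finset.sum_range_succ] at h1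
  rw [show n + 2 = n + 1 + 1 from rfl]
  linarith

/-- even extension of `F` -/
noncomputable def Ft (K : Set ℕ) (x : ℤ) : ℝ := F K x.natAbs

/-- even extension of the indicator (cell `x` is `[x, x+1]`) -/
noncomputable def ft (K : Set ℕ) (x : ℤ) : ℝ :=
  if 0 ≤ x then ind K x.toNat else ind K (-x - 1).toNat

lemma Ft_rec (K : Set ℕ) (x : ℤ) :
    Ft K (x + 1) + Ft K (x - 1) - 2 * Ft K x = (1 / 3 - ft K x) + (1 / 3 - ft K (x - 1)) := by
  unfold Ft ft
  rcases lt_trichotomy x 0 with hx | hx | hx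
  · obtain ⟨n, rfl⟩ : ∃ n : ℕ, x = -((n : ℤ) + 1) := ⟨(-x - 1).toNat, by omega⟩
    have e1 : (-((n : ℤ) + 1) + 1).natAbs = n := by omega
    have e2 : (-((n : ℤ) + 1) - 1).natAbs = n + 2 := by omega
    have e3 : (-((n : ℤ) + 1)).natAbs = n + 1 := by omega
    have e4 : ¬ (0 ≤ -((n : ℤ) + 1)) := by omega
    have e5 : ¬ (0 ≤ -((n : ℤ) + 1) - 1) := by omega
    have e6 : (-(-((n : ℤ) + 1)) - 1).toNat = n := by omega
    have e7 : (-(-((n : ℤ) + 1) - 1) - 1).toNat = n + 1 := by omega
    rw [e1, e2, e3, if_neg e4, if_neg e5, e6, e7]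
    have := F_rec K n
    unfold g at this
    linarith
  · subst hx
    have e6 : (-((0 : ℤ) - 1) - 1).toNat = 0 := by omega
    have e1 : ((0 : ℤ) + 1).natAbs = 0 + 1 := by omega
    have e2 : ((0 : ℤ) - 1).natAbs = 0 + 1 := by omega
    have e5 : ¬ (0 ≤ (0 : ℤ) - 1) := by omega
    rw [e1, e2, if_neg e5, e6]
    have := F_succ K 0
    simp only [F_zero, Finset.range_zero, Finset.sum_empty, g] at this
    simp only [Int.natAbs_zero, F_zero, le_refl, if_true, Int.toNat_zero]
    rw [this]
    ring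
  · obtain ⟨n, rfl⟩ : ∃ n : ℕ, x = (n : ℤ) + 1 := ⟨(x - 1).toNat, by omega⟩
    have e1 : ((n : ℤ) + 1 + 1).natAbs = n + 2 := by omega
    have e2 : ((n : ℤ) + 1 - 1).natAbs = n := by omega
    have e3 : ((n : ℤ) + 1).natAbs = n + 1 := by omega
    have e4 : (0 ≤ ((n : ℤ) + 1)) := by omega
    have e5 : (0 ≤ ((n : ℤ) + 1) - 1) := by omega
    have e6 : ((n : ℤ) + 1).toNat = n + 1 := by omega
    have e7 : (((n : ℤ) + 1) - 1).toNat = n := by omega
    rw [e1, e2, e3, if_pos e4, if_pos e5, e6, e7]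
    have := F_rec K n
    unfold g at this
    linarith

/-- `d` is not a difference and not a sum plus one of elements of `K` below `n`. -/
def P (K : Set ℕ) (n d : ℕ) : Prop :=
  1 ≤ d ∧ d ≤ n ∧ ∀ a ∈ K, ∀ b ∈ K, a < n → b < n → d + b ≠ a ∧ d ≠ a + b + 1

lemma bad_triple {K : Set ℕ} (hK : SF K) (n : ℕ) (hne : ∃ k ∈ K, k < n) :
    ∃ d e, P K n d ∧ P K n e ∧ P K n (d + e) := by
  classical
  by_contra hcon
  push Not at hcon
  have h0 : ∀ k ∈ K, 1 ≤ k := by
    intro k hk
    rcases Nat.eq_zero_or_pos k with h | h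
    · subst h
      exact absurd rfl (hK 0 hk 0 hk 0 hk).1
    · exact h
  have hPk : ∀ k ∈ K, k < n → P K n k := by
    intro k hk hkn
    refine ⟨h0 k hk, hkn.le, ?_⟩
    intro a ha b hb _ _
    have h1 := (hK k hk b hb a ha).1
    have h2 := (hK a ha b hb k hk).2
    exact ⟨fun h => h1 h.symm, h2⟩
  have hPk1 : ∀ k ∈ K, k < n → P K n (k + 1) := by
    intro k hk hkn
    refine ⟨by omega, by omega, ?_⟩
    intro a ha b hb _ _
    have h1 := (hK k hk b hb a ha).2
    have h2 := (hK a ha b hb k hk).1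
    constructor
    · intro h; apply h1; omega
    · intro h; apply h2; omega
  have hup : ∀ d, P K n d → d + 1 ≤ n → P K n (d + 1) := by
    intro d hd hdn
    refine ⟨by omega, hdn, ?_⟩
    intro a ha b hb han hbn
    constructor
    · intro h
      -- d + 1 + b = a
      apply hcon d (b + 1) hd (hPk1 b hb hbn)
      have : d + (b + 1) = a := by omega
      rw [this]
      exact hPk a ha han
    · intro h
      -- d + 1 = a + b + 1
      apply hcon a b (hPk a ha han) (hPk b hb hbn)
      have : a + b = d := by omega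
      rw [this]
      exact hd
  obtain ⟨k, hk, hkn⟩ := hne
  have hex : ∃ d, P K n d := ⟨k, hPk k hk hkn⟩
  set d0 := Nat.find hex with hd0
  have hd0P : P K n d0 := Nat.find_spec hex
  have hmin : ∀ d, P K n d → d0 ≤ d := fun d hd => Nat.find_min' hex hd
  have hk1 := h0 k hk
  rcases Nat.lt_or_ge 1 d0 with h1 | h1
  · -- d0 ≥ 2
    have hnot : ¬ P K n (d0 - 1) := fun h => by
      have := hmin _ h
      omega
    apply hnot
    refine ⟨by omega, by have := hd0P.2.1; omega, ?_⟩
    intro a ha b hb han hbn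
    constructor
    · intro h
      apply hcon d0 b hd0P (hPk b hb hbn)
      have : d0 + b = a + 1 := by omega
      rw [this]
      exact hPk1 a ha han
    · intro h
      have h2 := hmin a (hPk a ha han)
      omega
  · have h2 : d0 = 1 := le_antisymm h1 hd0P.1
    rw [h2] at hd0P
    exact hcon 1 1 hd0P hd0P (hup 1 hd0P (by omega))

lemma ind_zero_or_one (K : Set ℕ) (k : ℕ) : (ind K k = 0) ∨ (ind K k = 1 ∧ k ∈ K) := by
  unfold ind
  split_ifs with h
  · right; exact ⟨rfl, h⟩
  · left; rfl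

lemma ft_cases (K : Set ℕ) (x : ℤ) :
    ft K x = 0 ∨ (ft K x = 1 ∧ ((0 ≤ x ∧ x.toNat ∈ K) ∨ (x < 0 ∧ (-x - 1).toNat ∈ K))) := by
  unfold ft
  split_ifs with h
  · rcases ind_zero_or_one K x.toNat with h1 | h1
    · left; exact h1
    · right; exact ⟨h1.1, Or.inl ⟨h, h1.2⟩⟩
  · rcases ind_zero_or_one K (-x - 1).toNat with h1 | h1
    · left; exact h1
    · right; exact ⟨h1.1, Or.inr ⟨not_le.mp h, h1.2⟩⟩

lemma pair_disj {K : Set ℕ} {n e : ℕ} (he : P K n e) (u : ℤ) (h1 : -(n : ℤ) ≤ u - e)
    (h2 : u ≤ n - 1) : ft K u = 0 ∨ ft K (u - e) = 0 := by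
  rcases ft_cases K u with h | ⟨-, h⟩
  · left; exact h
  rcases ft_cases K (u - e) with h' | ⟨-, h'⟩
  · right; exact h'
  exfalso
  have he1 := he.1
  rcases h with ⟨hu, hk⟩ | ⟨hu, hk⟩
  · rcases h' with ⟨hv, hl⟩ | ⟨hv, hl⟩
    · have := (he.2.2 _ hk _ hl (by omega) (by omega)).1
      omega
    · have := (he.2.2 _ hk _ hl (by omega) (by omega)).2
      omega
  · rcases h' with ⟨hv, hl⟩ | ⟨hv, hl⟩
    · omega
    · have := (he.2.2 _ hl _ hk (by omega) (by omega)).1
      omega

lemma triple_le {K : Set ℕ} {n d e : ℕ} (hd : P K n d) (he : P K n e) (hde : P K n (d + e))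
    (x : ℤ) (h1 : (d : ℤ) + e - n ≤ x) (h2 : x ≤ n - 1) :
    ft K x + ft K (x - d) + ft K (x - (d + e)) ≤ 1 := by
  have a1 := pair_disj hd x (by have := he.1; omega) h2
  have a2 := pair_disj he (x - d) (by omega) (by omega)
  have a3 := pair_disj hde x (by push_cast; omega) h2
  push_cast at a3
  rw [show x - (d : ℤ) - e = x - (d + e) by ring] at a2
  have b1 : ft K x = 0 ∨ ft K x = 1 := by rcases ft_cases K x with h | h; exacts [Or.inl h, Or.inr h.1]
  have b2 : ft K (x - d) = 0 ∨ ft K (x - d) = 1 := by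
    rcases ft_cases K (x - d) with h | h; exacts [Or.inl h, Or.inr h.1]
  have b3 : ft K (x - (d + e)) = 0 ∨ ft K (x - (d + e)) = 1 := by
    rcases ft_cases K (x - (d + e)) with h | h; exacts [Or.inl h, Or.inr h.1]
  rcases a1 with a1 | a1 <;> rcases a2 with a2 | a2 <;> rcases a3 with a3 | a3 <;>
    rcases b1 with b1 | b1 <;> rcases b2 with b2 | b2 <;> rcases b3 with b3 | b3 <;> linarith

/-- Discrete convex functions lie below their chords. -/
lemma convex_chord (H : ℕ → ℝ) (L : ℕ) (hH : ∀ i, i + 2 ≤ L → 2 * H (i + 1) ≤ H i + H (i + 2))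
    (j : ℕ) (hj : j ≤ L) : (L : ℝ) * H j ≤ ((L : ℝ) - j) * H 0 + j * H L := by
  -- slopes are monotone
  have hslope : ∀ i, i + 1 ≤ L → ∀ m, m ≤ i → (i + 1 : ℝ) * 0 = 0 ∧ H (m + 1) - H m ≤ H (i + 1) - H i := by
    intro i
    induction i with
    | zero =>
      intro _ m hm
      have : m = 0 := by omega
      subst this
      exact ⟨by ring, le_refl _⟩
    | succ i ih =>
      intro hi m hm
      refine ⟨by ring, ?_⟩
      rcases Nat.lt_or_ge m (i + 1) with h | h
      · have h1 := (ih (by omega) m (by omega)).2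
        have h2 := hH i (by omega)
        have : H (i + 1 + 1) = H (i + 2) := rfl
        rw [this]
        linarith
      · have : m = i + 1 := by omega
        subst this
        exact le_refl _
  -- left part: H j - H 0 ≤ j * s ; right part: H L - H j ≥ (L - j) * s
  rcases Nat.eq_or_lt_of_le hj with h | h
  · subst h
    have : ((j : ℝ) - j) = 0 := by ring
    rw [this]
    simp
  · set s := H (j + 1) - H j with hs
    have hleft : ∀ i, i ≤ j → H j - H (j - i) ≤ (i : ℝ) * s := by
      intro i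
      induction i with
      | zero => intro _; simp
      | succ i ih =>
        intro hi
        have h1 := ih (by omega)
        have h2 := (hslope j (by omega) (j - (i + 1)) (by omega)).2
        rw [show j - (i + 1) + 1 = j - i by omega] at h2
        push_cast
        linarith
    have hright : ∀ m, j + m ≤ L → (m : ℝ) * s ≤ H (j + m) - H j := by
      intro m
      induction m with
      | zero => intro _; simp
      | succ m ih =>
        intro hm
        have h1 := ih (by omega)
        have h2 := (hslope (j + m) (by omega) j (by omega)).2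
        have : H (j + (m + 1)) = H (j + m + 1) := rfl
        rw [this]
        push_cast
        linarith
    have h1 := hleft j le_rfl
    rw [Nat.sub_self] at h1
    have h2 := hright (L - j) (by omega)
    rw [show j + (L - j) = L by omega] at h2
    push_cast [Nat.cast_sub hj] at h2
    have hj0 : (0 : ℝ) ≤ j := Nat.cast_nonneg j
    have hLj : (0 : ℝ) ≤ (L : ℝ) - j := by
      have : (j : ℝ) ≤ L := by exact_mod_cast hj
      linarith
    nlinarith [mul_le_mul_of_nonneg_left h1 hLj, mul_le_mul_of_nonneg_left h2 hj0]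

/-- The second order count inequality. -/
theorem F_nonneg {K : Set ℕ} (hK : SF K) : ∀ n, 0 ≤ F K n := by
  intro n
  induction n using Nat.strong_induction_on with
  | _ n ih =>
  by_cases hne : ∃ k ∈ K, k < n
  swap
  · push Not at hne
    unfold F
    apply Finset.sum_nonneg
    intro k hk
    have hk' := Finset.mem_range.mp hk
    have h1 : g K k = 1 / 3 := by
      unfold g ind
      rw [if_neg (fun h => absurd hk' (not_lt.mpr (hne k h)))]
      ring
    rw [h1]
    have : (k : ℝ) + 1 ≤ n := by exact_mod_cast hk'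
    nlinarith
  obtain ⟨d, e, hd, he, hde⟩ := bad_triple hK n hne
  have hd1 := hd.1
  have he1 := he.1
  have hden := hde.2.1
  -- the convex function
  set G : ℤ → ℝ := fun x => Ft K x + Ft K (x - d) + Ft K (x - (d + e)) with hG
  have hGrec : ∀ x : ℤ, (d : ℤ) + e - n + 1 ≤ x → x ≤ n - 1 →
      2 * G x ≤ G (x + 1) + G (x - 1) := by
    intro x hx1 hx2
    have r1 := Ft_rec K x
    have r2 := Ft_rec K (x - d)
    have r3 := Ft_rec K (x - (d + e))
    have t1 := triple_le hd he hde x (by omega) hx2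
    have t2 := triple_le hd he hde (x - 1) (by omega) (by omega)
    rw [show x - (d : ℤ) + 1 = x + 1 - d by ring, show x - (d : ℤ) - 1 = x - 1 - d by ring] at r2
    rw [show x - ((d : ℤ) + e) + 1 = x + 1 - (d + e) by ring,
      show x - ((d : ℤ) + e) - 1 = x - 1 - (d + e) by ring] at r3
    simp only [hG]
    linarith
  set L : ℕ := 2 * n - (d + e) with hL
  have hconv := convex_chord (fun i => G ((d : ℤ) + e - n + i)) L (by
    intro i hi
    have := hGrec ((d : ℤ) + e - n + (i + 1 : ℕ)) (by push_cast; omega) (by push_cast; omega)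
    push_cast at this ⊢
    rw [show (d : ℤ) + e - n + (i + 1) + 1 = d + e - n + (i + 2) by ring,
      show (d : ℤ) + e - n + (i + 1) - 1 = d + e - n + i by ring] at this
    linarith)
  have c1 := hconv (L - e) (by omega)
  have c2 := hconv d (by omega)
  beta_reduce at c1 c2
  have hLe : ((L - e : ℕ) : ℝ) = (L : ℝ) - e := by
    rw [Nat.cast_sub (by omega)]
  rw [hLe] at c1
  -- evaluate G
  have ev0 : G ((d : ℤ) + e - n + (0 : ℕ)) = F K (n - (d + e)) + F K (n - e) + F K n := by
    simp only [hG, Ft]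
    rw [show ((d : ℤ) + e - n + (0 : ℕ)).natAbs = n - (d + e) by omega,
      show ((d : ℤ) + e - n + (0 : ℕ) - d).natAbs = n - e by omega,
      show ((d : ℤ) + e - n + (0 : ℕ) - (d + e)).natAbs = n by omega]
  have evL : G ((d : ℤ) + e - n + (L : ℕ)) = F K n + F K (n - d) + F K (n - (d + e)) := by
    simp only [hG, Ft]
    rw [show ((d : ℤ) + e - n + (L : ℕ)).natAbs = n by omega,
      show ((d : ℤ) + e - n + (L : ℕ) - d).natAbs = n - d by omega,
      show ((d : ℤ) + e - n + (L : ℕ) - (d + e)).natAbs = n - (d + e) by omega]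
  have ev1 : G ((d : ℤ) + e - n + (L - e : ℕ)) = F K (n - e) + F K (n - (d + e))
      + Ft K ((n : ℤ) - e - (d + e)) := by
    simp only [hG]
    have e1 : (d : ℤ) + e - n + (L - e : ℕ) = (n : ℤ) - e := by omega
    rw [e1]
    simp only [Ft]
    rw [show ((n : ℤ) - e).natAbs = n - e by omega,
      show ((n : ℤ) - e - d).natAbs = n - (d + e) by omega]
  have ev2 : G ((d : ℤ) + e - n + (d : ℕ)) = Ft K ((d : ℤ) + e - n + d) + F K (n - (d + e))
      + F K (n - d) := by
    simp only [hG]
    simp only [Ft]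
    rw [show ((d : ℤ) + e - n + (d : ℕ) - d).natAbs = n - (d + e) by omega,
      show ((d : ℤ) + e - n + (d : ℕ) - (d + e)).natAbs = n - d by omega]
  rw [ev0, evL, ev1] at c1
  rw [ev0, evL, ev2] at c2
  have p1 : 0 ≤ Ft K ((n : ℤ) - e - (d + e)) := by
    unfold Ft
    exact ih _ (by omega)
  have p2 : 0 ≤ Ft K ((d : ℤ) + e - n + d) := by
    unfold Ft
    exact ih _ (by omega)
  have hLpos : (0 : ℝ) < L := by
    have : 0 < L := by omega
    exact_mod_cast this
  have hLe' : (0 : ℝ) ≤ (L : ℝ) - e := by rw [← hLe]; exact Nat.cast_nonneg _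
  have hLd' : (0 : ℝ) ≤ (L : ℝ) - d := by
    have : (d : ℝ) ≤ L := by exact_mod_cast (by omega : d ≤ L)
    linarith
  rcases le_total (F K (n - d)) (F K (n - e)) with h | h
  · have : (L : ℝ) * F K n ≥ 0 := by
      have h1 : 0 ≤ ((L : ℝ) - e) * (F K (n - e) - F K (n - d)) := mul_nonneg hLe' (by linarith)
      nlinarith [mul_nonneg hLpos.le p1]
    exact nonneg_of_mul_nonneg_right (by linarith) hLpos
  · have : (L : ℝ) * F K n ≥ 0 := by
      have h1 : 0 ≤ ((L : ℝ) - d) * (F K (n - d) - F K (n - e)) := mul_nonneg hLd' (by linarith)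
      nlinarith [mul_nonneg hLpos.le p2]
    exact nonneg_of_mul_nonneg_right (by linarith) hLpos

/-- Exponentially weighted count. -/
theorem tsum_ind_le {K : Set ℕ} (hK : SF K) {r : ℝ} (hr0 : 0 < r) (hr1 : r < 1) :
    Summable (fun k => ind K k * r ^ k) ∧
      (1 - r) * ∑' k, ind K k * r ^ k ≤ 1 / 3 := by
  have hgeo : Summable (fun k : ℕ => r ^ k) := summable_geometric_of_lt_one hr0.le hr1
  have hind : ∀ k, 0 ≤ ind K k ∧ ind K k ≤ 1 := by
    intro k
    rcases ind_zero_or_one K k with h | h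
    · rw [h]; norm_num
    · rw [h.1]; norm_num
  have hs : Summable (fun k => ind K k * r ^ k) := by
    apply Summable.of_nonneg_of_le _ _ hgeo
    · intro k; exact mul_nonneg (hind k).1 (pow_nonneg hr0.le k)
    · intro k
      calc ind K k * r ^ k ≤ 1 * r ^ k :=
            mul_le_mul_of_nonneg_right (hind k).2 (pow_nonneg hr0.le k)
        _ = r ^ k := one_mul _
  refine ⟨hs, ?_⟩
  have hsg : Summable (fun k => g K k * r ^ k) := by
    have : (fun k => g K k * r ^ k) = fun k => 1 / 3 * r ^ k - ind K k * r ^ k := by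
      funext k; unfold g; ring
    rw [this]
    exact (hgeo.mul_left _).sub hs
  have hsj : Summable (fun j : ℕ => (2 * (j : ℝ) + 1) * r ^ j) := by
    have h1 : Summable (fun j : ℕ => (j : ℝ) * r ^ j) := by
      have := (hasSum_coe_mul_geometric_of_norm_lt_one (𝕜 := ℝ) (r := r)
        (by rw [Real.norm_eq_abs, abs_of_pos hr0]; exact hr1)).summable
      exact this
    have : (fun j : ℕ => (2 * (j : ℝ) + 1) * r ^ j)
        = fun j : ℕ => 2 * ((j : ℝ) * r ^ j) + r ^ j := by
      funext j; ring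
    rw [this]
    exact (h1.mul_left 2).add hgeo
  have hprod := tsum_mul_tsum_eq_tsum_sum_range_of_summable_norm hsg.norm hsj.norm
  have hpos : 0 ≤ (∑' k, g K k * r ^ k) * ∑' j : ℕ, (2 * (j : ℝ) + 1) * r ^ j := by
    rw [hprod]
    apply tsum_nonneg
    intro n
    have : ∑ k ∈ range (n + 1), g K k * r ^ k * ((2 * ((n - k : ℕ) : ℝ) + 1) * r ^ (n - k))
        = r ^ n * F K (n + 1) := by
      unfold F
      rw [Finset.mul_sum]
      apply Finset.sum_congr rfl
      intro k hk
      have hk' : k ≤ n := by have := Finset.mem_range.mp hk; omega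
      rw [Nat.cast_sub hk']
      have : r ^ n = r ^ k * r ^ (n - k) := by rw [← pow_add]; congr 1; omega
      rw [this]
      push_cast
      ring
    rw [this]
    exact mul_nonneg (pow_nonneg hr0.le n) (F_nonneg hK _)
  have hjpos : 0 < ∑' j : ℕ, (2 * (j : ℝ) + 1) * r ^ j := by
    apply hsj.tsum_pos (fun j => by positivity) 0
    simp
  have hgnn : 0 ≤ ∑' k, g K k * r ^ k := nonneg_of_mul_nonneg_left hpos hjpos
  have heq : ∑' k, g K k * r ^ k = 1 / 3 * (1 - r)⁻¹ - ∑' k, ind K k * r ^ k := by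
    rw [← tsum_geometric_of_lt_one hr0.le hr1, ← tsum_mul_left, ← (hgeo.mul_left _).tsum_sub hs]
    congr 1
    funext k; unfold g; ring
  rw [heq] at hgnn
  have h1r : 0 < 1 - r := by linarith
  calc (1 - r) * ∑' k, ind K k * r ^ k ≤ (1 - r) * (1 / 3 * (1 - r)⁻¹) :=
        mul_le_mul_of_nonneg_left (by linarith) h1r.le
    _ = 1 / 3 := by field_simp

end Pool.Agent.R226.PF
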