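import Mathlib

/-!
# Scalar positive Toeplitz extension, with convergence along sequences
-/

set_option autoImplicit false

open Matrix ComplexConjugate Filter Topology
open scoped ComplexOrder InnerProductSpace

namespace Pool.Agent.R226.PTC

/-- the scalar Toeplitz matrix `[a_{i-j}]_{i,j<k}` -/
def stm (a : ℤ → ℂ) (k : ℕ) : Matrix (Fin k) (Fin k) ℂ :=
  Matrix.of fun i j => a (((i : ℕ) : ℤ) - ((j : ℕ) : ℤ))

lemma stm_apply (a : ℤ → ℂ) (k : ℕ) (i j : Fin k) :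
    stm a k i j = a (((i : ℕ) : ℤ) - ((j : ℕ) : ℤ)) := rfl

lemma exists_isometry {E ι : Type*} [NormedAddCommGroup E] [InnerProductSpace ℂ E]
    [FiniteDimensional ℂ E] [Fintype ι] [DecidableEq ι] (u v : ι → E)
    (h : ∀ i j, ⟪u i, u j⟫_ℂ = ⟪v i, v j⟫_ℂ) :
    ∃ V : E →ₗᵢ[ℂ] E, ∀ i, V (u i) = v i := by
  set Φ : (ι → ℂ) →ₗ[ℂ] E := Fintype.linearCombination ℂ u with hΦ
  set Ψ : (ι → ℂ) →ₗ[ℂ] E := Fintype.linearCombination ℂ v with hΨ
  have hin : ∀ c, ⟪Φ c, Φ c⟫_ℂ = ⟪Ψ c, Ψ c⟫_ℂ := by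
    intro c
    simp only [hΦ, hΨ, Fintype.linearCombination_apply, sum_inner, inner_sum, inner_smul_left,
      inner_smul_right, h]
  have hn : ∀ c, ‖Φ c‖ = ‖Ψ c‖ := by
    intro c
    have h1 := hin c
    rw [inner_self_eq_norm_sq_to_K, inner_self_eq_norm_sq_to_K] at h1
    have h2 : ‖Φ c‖ ^ 2 = ‖Ψ c‖ ^ 2 := by exact_mod_cast h1
    exact (sq_eq_sq₀ (norm_nonneg _) (norm_nonneg _)).mp h2
  obtain ⟨g, hg⟩ := (Φ.rangeRestrict).exists_rightInverse_of_surjective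
    (LinearMap.range_rangeRestrict Φ)
  have hg' : ∀ x : Φ.range, Φ (g x) = x := by
    intro x
    have := congrArg (fun f => ((f x : Φ.range) : E)) hg
    simpa using this
  let L : Φ.range →ₗᵢ[ℂ] E :=
    { toLinearMap := Ψ ∘ₗ g
      norm_map' := by
        intro x
        change ‖Ψ (g x)‖ = ‖x‖
        rw [← hn, hg' x]; rfl }
  refine ⟨L.extend, fun i => ?_⟩
  have hu : Φ (Pi.single i 1) = u i := by
    rw [hΦ, Fintype.linearCombination_apply_single, one_smul]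
  have hv : Ψ (Pi.single i 1) = v i := by
    rw [hΨ, Fintype.linearCombination_apply_single, one_smul]
  have hmem : u i ∈ Φ.range := ⟨_, hu⟩
  have h1 : L.extend (u i) = L ⟨u i, hmem⟩ := LinearIsometry.extend_apply L ⟨u i, hmem⟩
  rw [h1]
  change Ψ (g ⟨u i, hmem⟩) = v i
  have h2 : ‖Φ (g ⟨u i, hmem⟩ - Pi.single i 1)‖ = 0 := by
    rw [map_sub, hg', hu]; simp
  rw [hn, map_sub, hv, norm_eq_zero, sub_eq_zero] at h2
  exact h2

section
open scoped MatrixOrder

lemma exists_gram {n : Type*} [Fintype n] {M : Matrix n n ℂ} (h : M.PosSemidef) :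
    ∃ B : Matrix n n ℂ, M = Bᴴ * B := by
  classical
  obtain ⟨B, hB⟩ := CStarAlgebra.nonneg_iff_eq_star_mul_self.mp h.nonneg
  exact ⟨B, hB⟩

end

/-- the scalar extension theorem -/
theorem scalar_ext {a : ℤ → ℂ} {k : ℕ} (hk : 0 < k) (h : (stm a k).PosSemidef) :
    ∃ y : ℤ → ℂ, (∀ l : ℤ, |l| < k → y l = a l) ∧ ∀ n, (stm y n).PosSemidef := by
  obtain ⟨m, rfl⟩ : ∃ m, k = m + 1 := ⟨k - 1, by omega⟩
  obtain ⟨B, hB⟩ := exists_gram h
  let u : Fin (m + 1) → EuclideanSpace ℂ (Fin (m + 1)) := fun j => WithLp.toLp 2 fun i => B i j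
  have hu : ∀ i j, ⟪u i, u j⟫_ℂ = a (((i : ℕ) : ℤ) - ((j : ℕ) : ℤ)) := by
    intro i j
    rw [← stm_apply a (m + 1), hB, Matrix.mul_apply]
    simp [u, PiLp.inner_apply, Matrix.conjTranspose_apply, mul_comm]
  obtain ⟨V, hV⟩ := exists_isometry (fun i : Fin m => u i.castSucc) (fun i : Fin m => u i.succ)
    (by intro i j; rw [hu, hu]; congr 1; simp)
  have hVu : ∀ (i : ℕ) (hi : i < m + 1), u ⟨i, hi⟩ = (fun x => V x)^[i] (u 0) := by
    intro i
    induction i with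
    | zero => intro hi; rfl
    | succ i ih =>
      intro hi
      rw [Function.iterate_succ_apply', ← ih (by omega)]
      exact (hV ⟨i, by omega⟩).symm
  have hVin : ∀ (d : ℕ) (x y : EuclideanSpace ℂ (Fin (m + 1))),
      ⟪(fun x => V x)^[d] x, (fun x => V x)^[d] y⟫_ℂ = ⟪x, y⟫_ℂ := by
    intro d
    induction d with
    | zero => intro x y; rfl
    | succ d ih =>
      intro x y
      rw [Function.iterate_succ_apply', Function.iterate_succ_apply']
      rw [V.inner_map_map]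
      exact ih x y
  let w : ℕ → EuclideanSpace ℂ (Fin (m + 1)) := fun i => (fun x => V x)^[i] (u 0)
  have hw : ∀ i j : ℕ, ⟪w i, w j⟫_ℂ =
      ⟪w (((i : ℤ) - (j : ℤ)).toNat), w ((-((i : ℤ) - (j : ℤ))).toNat)⟫_ℂ := by
    intro i j
    rcases le_total j i with hij | hij
    · obtain ⟨d, rfl⟩ := Nat.exists_eq_add_of_le hij
      have e1 : (((j + d : ℕ) : ℤ) - (j : ℤ)).toNat = d := by omega
      have e2 : (-(((j + d : ℕ) : ℤ) - (j : ℤ))).toNat = 0 := by omega
      rw [e1, e2]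
      have := hVin j (w d) (w 0)
      simp only [w, ← Function.iterate_add_apply, Nat.add_zero] at this ⊢
      exact this
    · obtain ⟨d, rfl⟩ := Nat.exists_eq_add_of_le hij
      have e1 : ((i : ℤ) - ((i + d : ℕ) : ℤ)).toNat = 0 := by omega
      have e2 : (-((i : ℤ) - ((i + d : ℕ) : ℤ))).toNat = d := by omega
      rw [e1, e2]
      have := hVin i (w 0) (w d)
      simp only [w, ← Function.iterate_add_apply, Nat.add_zero] at this ⊢
      exact this
  refine ⟨fun l => ⟪w l.toNat, w (-l).toNat⟫_ℂ, ?_, ?_⟩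
  · intro l hl
    have hl' := abs_lt.mp hl
    push_cast at hl'
    have i1 : l.toNat < m + 1 := by omega
    have i2 : (-l).toNat < m + 1 := by omega
    change ⟪w l.toNat, w (-l).toNat⟫_ℂ = a l
    have e1 : w l.toNat = u ⟨l.toNat, i1⟩ := (hVu _ i1).symm
    have e2 : w (-l).toNat = u ⟨(-l).toNat, i2⟩ := (hVu _ i2).symm
    rw [e1, e2, hu]
    congr 1
    simp only
    omega
  · intro n
    have : stm (fun l => ⟪w l.toNat, w (-l).toNat⟫_ℂ) n = Matrix.gram ℂ (fun i : Fin n => w i) := by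
      ext i j
      rw [stm_apply, Matrix.gram_apply]
      exact (hw i j).symm
    rw [this]
    exact Matrix.posSemidef_gram _ _

/-- Cauchy-Schwarz for positive semidefinite matrices -/
lemma psd_cs {n : Type*} [Fintype n] {M : Matrix n n ℂ} (h : M.PosSemidef) (p q : n → ℂ) :
    ‖star p ⬝ᵥ (M *ᵥ q)‖ ^ 2 ≤ (star p ⬝ᵥ (M *ᵥ p)).re * (star q ⬝ᵥ (M *ᵥ q)).re := by
  obtain ⟨B, rfl⟩ := exists_gram h
  have key : ∀ p q : n → ℂ, star p ⬝ᵥ ((Bᴴ * B) *ᵥ q) =
      ⟪(WithLp.toLp 2 (B *ᵥ p) : EuclideanSpace ℂ n), WithLp.toLp 2 (B *ᵥ q)⟫_ℂ := by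
    intro p q
    rw [← mulVec_mulVec, dotProduct_mulVec, vecMul_conjTranspose, star_star]
    simp [PiLp.inner_apply, dotProduct, mul_comm]
  rw [key p q, key p p, key q q]
  have h1 := norm_inner_le_norm (𝕜 := ℂ) (WithLp.toLp 2 (B *ᵥ p) : EuclideanSpace ℂ n)
    (WithLp.toLp 2 (B *ᵥ q))
  have h2 : ∀ x : EuclideanSpace ℂ n, (⟪x, x⟫_ℂ).re = ‖x‖ ^ 2 := by
    intro x
    rw [inner_self_eq_norm_sq_to_K]
    norm_cast
  rw [h2, h2, ← mul_pow]
  exact pow_le_pow_left₀ (norm_nonneg _) h1 2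

lemma psd_row {n : Type*} [Fintype n] {M : Matrix n n ℂ} (h : M.PosSemidef)
    (q : n → ℂ) (i : n) :
    ‖(M *ᵥ q) i‖ ^ 2 ≤ (M i i).re * (star q ⬝ᵥ (M *ᵥ q)).re := by
  classical
  have := psd_cs h (Pi.single i 1) q
  have e : star (Pi.single i (1 : ℂ) : n → ℂ) = Pi.single i 1 := by
    ext j
    by_cases hj : j = i
    · subst hj; simp
    · simp [Pi.single_eq_of_ne hj]
  rw [e] at this
  simpa using this

lemma psd_of_tendsto {n : Type*} [Fintype n] {M : ℕ → Matrix n n ℂ} {N : Matrix n n ℂ}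
    (h : ∀ i j, Tendsto (fun t => M t i j) atTop (𝓝 (N i j))) (hM : ∀ t, (M t).PosSemidef) :
    N.PosSemidef := by
  have hH : N.IsHermitian := by
    ext i j
    rw [conjTranspose_apply]
    have h1 : Tendsto (fun t => star (M t j i)) atTop (𝓝 (star (N j i))) :=
      (continuous_star.tendsto _).comp (h j i)
    have h2 : (fun t => star (M t j i)) = fun t => M t i j := by
      funext t
      have := congrFun (congrFun (hM t).isHermitian i) j
      rw [conjTranspose_apply] at this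
      exact this
    rw [h2] at h1
    exact tendsto_nhds_unique h1 (h i j)
  refine PosSemidef.of_dotProduct_mulVec_nonneg hH fun x => ?_
  have h3 : Tendsto (fun t => star x ⬝ᵥ (M t *ᵥ x)) atTop (𝓝 (star x ⬝ᵥ (N *ᵥ x))) := by
    simp only [dotProduct, mulVec]
    refine tendsto_finsetSum _ fun i _ => ?_
    refine Tendsto.mul tendsto_const_nhds ?_
    refine tendsto_finsetSum _ fun j _ => ?_
    exact (h i j).mul tendsto_const_nhds
  exact ge_of_tendsto' h3 fun t => (hM t).dotProduct_mulVec_nonneg x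

lemma dot_self {n : Type*} [Fintype n] (x : n → ℂ) :
    star x ⬝ᵥ x = ((‖(WithLp.toLp 2 x : EuclideanSpace ℂ n)‖ ^ 2 : ℝ) : ℂ) := by
  rw [EuclideanSpace.norm_sq_eq]
  simp [dotProduct, Complex.conj_mul']

/-- either a kernel vector or strictly positive -/
lemma psd_dichotomy {n : Type*} [Fintype n] [DecidableEq n] {M : Matrix n n ℂ}
    (h : M.PosSemidef) :
    (∃ v : n → ℂ, v ≠ 0 ∧ M *ᵥ v = 0) ∨
      ∃ ε : ℝ, 0 < ε ∧ (M - (ε : ℂ) • (1 : Matrix n n ℂ)).PosSemidef := by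
  obtain ⟨B, rfl⟩ := exists_gram h
  by_cases hinj : ∀ v, B *ᵥ v = 0 → v = 0
  · right
    let f : EuclideanSpace ℂ n →ₗ[ℂ] EuclideanSpace ℂ n := Matrix.toEuclideanLin B
    have hf : ∀ v, f v = WithLp.toLp 2 (B *ᵥ v.ofLp) := fun v => rfl
    have hker : LinearMap.ker f = ⊥ := by
      rw [LinearMap.ker_eq_bot']
      intro v hv
      rw [hf] at hv
      have h1 : B *ᵥ v.ofLp = 0 := by simpa using hv
      have h2 := hinj _ h1
      ext i
      simpa using congrFun h2 i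
    obtain ⟨K, hK, hK'⟩ := f.exists_antilipschitzWith hker
    have hb : ∀ v, ‖v‖ ≤ K * ‖f v‖ := fun v => hK'.le_mul_norm (map_zero f) v
    have hK0 : (0 : ℝ) < K := hK
    refine ⟨((K : ℝ) ^ 2)⁻¹, by positivity, ?_⟩
    have hH : (Bᴴ * B - ((((K : ℝ) ^ 2)⁻¹ : ℝ) : ℂ) • (1 : Matrix n n ℂ)).IsHermitian := by
      unfold IsHermitian
      rw [conjTranspose_sub, conjTranspose_mul, conjTranspose_conjTranspose,
        conjTranspose_smul, conjTranspose_one]
      simp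
    refine PosSemidef.of_dotProduct_mulVec_nonneg hH fun x => ?_
    rw [sub_mulVec, dotProduct_sub, smul_mulVec, one_mulVec, dotProduct_smul]
    have e1 : star x ⬝ᵥ ((Bᴴ * B) *ᵥ x) = ((‖f (WithLp.toLp 2 x)‖ ^ 2 : ℝ) : ℂ) := by
      rw [hf, ← mulVec_mulVec, dotProduct_mulVec, vecMul_conjTranspose, star_star]
      exact dot_self _
    have e2 := dot_self x
    rw [e1, e2, smul_eq_mul, ← Complex.ofReal_mul, ← Complex.ofReal_sub]
    have h3 := hb (WithLp.toLp 2 x)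
    have h4 : ‖(WithLp.toLp 2 x : EuclideanSpace ℂ n)‖ ^ 2 ≤
        (K : ℝ) ^ 2 * ‖f (WithLp.toLp 2 x)‖ ^ 2 := by
      rw [← mul_pow]
      exact pow_le_pow_left₀ (norm_nonneg _) h3 2
    have h5 : 0 ≤ ‖f (WithLp.toLp 2 x)‖ ^ 2 -
        ((K : ℝ) ^ 2)⁻¹ * ‖(WithLp.toLp 2 x : EuclideanSpace ℂ n)‖ ^ 2 := by
      rw [sub_nonneg, inv_mul_le_iff₀ (by positivity)]
      exact h4
    exact_mod_cast h5
  · left
    push Not at hinj
    obtain ⟨v, hv, hv0⟩ := hinj
    exact ⟨v, hv0, by rw [← mulVec_mulVec, hv, mulVec_zero]⟩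

end Pool.Agent.R226.PTC
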