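import Pool.Agent.R226.PTA

/-!
# One step Toeplitz extension along a convergent sequence
-/

set_option autoImplicit false

open Matrix ComplexConjugate Filter Topology
open scoped ComplexOrder InnerProductSpace

namespace Pool.Agent.R226.PTC

/-- set the coefficients at `±k` -/
noncomputable def upd (a : ℤ → ℂ) (k : ℕ) (c : ℂ) : ℤ → ℂ :=
  fun l => if l = k then c else if l = -k then conj c else a l

lemma stm_congr {a b : ℤ → ℂ} {k : ℕ} (h : ∀ l : ℤ, |l| < k → a l = b l) : stm a k = stm b k := by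
  ext i j
  rw [stm_apply, stm_apply]
  apply h
  rw [abs_lt]
  omega

lemma herm_entry {y : ℤ → ℂ} {k : ℕ} (h : (stm y (k + 1)).PosSemidef) :
    y (-k) = conj (y k) := by
  have := congrFun (congrFun h.isHermitian 0) (Fin.last k)
  rw [conjTranspose_apply, stm_apply, stm_apply] at this
  simpa using this.symm

lemma stm_upd {a y : ℤ → ℂ} {k : ℕ} (hy : ∀ l : ℤ, |l| < k → y l = a l)
    (hp : (stm y (k + 1)).PosSemidef) : stm (upd a k (y k)) (k + 1) = stm y (k + 1) := by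
  apply stm_congr
  intro l hl
  have hl' := abs_lt.mp hl
  push_cast at hl'
  unfold upd
  split_ifs with h1 h2
  · rw [h1]
  · rw [h2]; exact (herm_entry hp).symm
  · exact (hy l (abs_lt.mpr ⟨by omega, by omega⟩)).symm

lemma snoc_quad (y : ℤ → ℂ) (k : ℕ) (v : Fin k → ℂ) :
    star (Fin.snoc v 0 : Fin (k + 1) → ℂ) ⬝ᵥ (stm y (k + 1) *ᵥ (Fin.snoc v 0 : Fin (k + 1) → ℂ)) =
      star v ⬝ᵥ (stm y k *ᵥ v) := by
  simp only [dotProduct, mulVec, Pi.star_apply, Fin.sum_univ_castSucc, Fin.snoc_castSucc,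
    Fin.snoc_last, star_zero, zero_mul, add_zero, mul_zero, stm_apply, Fin.val_castSucc]

lemma snoc_row (y : ℤ → ℂ) (k : ℕ) (v : Fin k → ℂ) :
    (stm y (k + 1) *ᵥ (Fin.snoc v 0 : Fin (k + 1) → ℂ)) (Fin.last k) =
      ∑ j : Fin k, y ((k : ℤ) - ((j : ℕ) : ℤ)) * v j := by
  simp only [dotProduct, mulVec, Fin.sum_univ_castSucc, Fin.snoc_castSucc,
    Fin.snoc_last, add_zero, mul_zero, stm_apply, Fin.val_castSucc, Fin.val_last]

lemma cons_quad (y : ℤ → ℂ) (m : ℕ) (v : Fin (m + 1) → ℂ) (h0 : v 0 = 0) :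
    star v ⬝ᵥ (stm y (m + 1) *ᵥ v) = star (Fin.tail v) ⬝ᵥ (stm y m *ᵥ Fin.tail v) := by
  simp only [dotProduct, mulVec, Pi.star_apply, Fin.sum_univ_succ, h0,
    star_zero, zero_mul, zero_add, mul_zero, stm_apply, Fin.tail, Fin.val_succ]
  refine Finset.sum_congr rfl fun i _ => ?_
  congr 1
  refine Finset.sum_congr rfl fun j _ => ?_
  congr 2
  push_cast
  ring

lemma kernel_head {b : ℤ → ℂ} {m : ℕ} (h : (stm b (m + 1)).PosSemidef) (t : ℕ) :
    ∀ v : Fin (m + 1) → ℂ, stm b (m + 1) *ᵥ v = 0 → (∃ ht : t < m + 1, v ⟨t, ht⟩ ≠ 0) →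
      ∃ v' : Fin (m + 1) → ℂ, stm b (m + 1) *ᵥ v' = 0 ∧ v' 0 ≠ 0 := by
  induction t with
  | zero => rintro v hv ⟨ht, h0⟩; exact ⟨v, hv, h0⟩
  | succ t ih =>
    rintro v hv ⟨ht, h1⟩
    by_cases h0 : v 0 = 0
    · refine ih (Fin.snoc (Fin.tail v) 0) ?_ ⟨by omega, ?_⟩
      · refine (h.dotProduct_mulVec_zero_iff _).mp ?_
        rw [snoc_quad, ← cons_quad b m v h0, hv, dotProduct_zero]
      · have : (⟨t, by omega⟩ : Fin (m + 1)) = Fin.castSucc ⟨t, by omega⟩ := rfl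
        rw [this, Fin.snoc_castSucc]
        exact h1
    · exact ⟨v, hv, h0⟩

lemma psd_perturb {n : Type*} [Fintype n] [DecidableEq n] {M : ℕ → Matrix n n ℂ}
    {N : Matrix n n ℂ} (hM : ∀ t, (M t).IsHermitian)
    (h : ∀ i j, Tendsto (fun t => M t i j) atTop (𝓝 (N i j))) {ε : ℝ} (hε : 0 < ε)
    (hN : (N - (ε : ℂ) • (1 : Matrix n n ℂ)).PosSemidef) :
    ∀ᶠ t in atTop, (M t).PosSemidef := by
  have h1 : Tendsto (fun t => ∑ i, ∑ j, ‖M t i j - N i j‖) atTop (𝓝 (∑ i : n, ∑ j : n, 0)) := by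
    refine tendsto_finsetSum _ fun i _ => tendsto_finsetSum _ fun j _ => ?_
    have := ((h i j).sub (tendsto_const_nhds (x := N i j))).norm
    simpa using this
  have h2 : ∀ᶠ t in atTop, (∑ i, ∑ j, ‖M t i j - N i j‖) < ε := by
    refine h1.eventually_lt_const ?_
    simpa using hε
  filter_upwards [h2] with t ht
  refine PosSemidef.of_dotProduct_mulVec_nonneg (hM t) fun x => ?_
  rw [Complex.nonneg_iff]
  refine ⟨?_, ((hM t).im_star_dotProduct_mulVec_self x).symm⟩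
  have e1 : star x ⬝ᵥ (M t *ᵥ x) = star x ⬝ᵥ ((N - (ε : ℂ) • (1 : Matrix n n ℂ)) *ᵥ x) +
      (ε : ℂ) * (star x ⬝ᵥ x) + star x ⬝ᵥ ((M t - N) *ᵥ x) := by
    rw [sub_mulVec, sub_mulVec, smul_mulVec, one_mulVec, dotProduct_sub, dotProduct_sub,
      dotProduct_smul, smul_eq_mul]
    ring
  have e2 : ‖star x ⬝ᵥ ((M t - N) *ᵥ x)‖ ≤ (∑ i, ∑ j, ‖M t i j - N i j‖) *
      ‖(WithLp.toLp 2 x : EuclideanSpace ℂ n)‖ ^ 2 := by
    have hx : ∀ i, ‖x i‖ ≤ ‖(WithLp.toLp 2 x : EuclideanSpace ℂ n)‖ := fun i =>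
      PiLp.norm_apply_le (WithLp.toLp 2 x : EuclideanSpace ℂ n) i
    simp only [dotProduct, mulVec, Finset.mul_sum, Finset.sum_mul]
    refine (norm_sum_le _ _).trans (Finset.sum_le_sum fun i _ => ?_)
    refine (norm_sum_le _ _).trans (Finset.sum_le_sum fun j _ => ?_)
    rw [norm_mul, norm_mul, Pi.star_apply, norm_star, Matrix.sub_apply]
    calc ‖x i‖ * (‖M t i j - N i j‖ * ‖x j‖) = ‖M t i j - N i j‖ * (‖x i‖ * ‖x j‖) := by ring
      _ ≤ _ := by
        refine mul_le_mul_of_nonneg_left ?_ (norm_nonneg _)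
        rw [sq]
        exact mul_le_mul (hx i) (hx j) (norm_nonneg _) (norm_nonneg _)
  have e3 := (Complex.nonneg_iff.mp (hN.dotProduct_mulVec_nonneg x)).1
  have e4 : (star x ⬝ᵥ ((M t - N) *ᵥ x)).re ≥ -((∑ i, ∑ j, ‖M t i j - N i j‖) *
      ‖(WithLp.toLp 2 x : EuclideanSpace ℂ n)‖ ^ 2) := by
    have := (abs_le.mp (Complex.abs_re_le_norm (star x ⬝ᵥ ((M t - N) *ᵥ x)))).1
    linarith
  rw [e1, dot_self, ← Complex.ofReal_mul, Complex.add_re, Complex.add_re, Complex.ofReal_re]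
  nlinarith [sq_nonneg ‖(WithLp.toLp 2 x : EuclideanSpace ℂ n)‖,
    mul_le_mul_of_nonneg_right ht.le (sq_nonneg ‖(WithLp.toLp 2 x : EuclideanSpace ℂ n)‖)]

lemma stm_one (b : ℤ → ℂ) (k : ℕ) (ε : ℂ) :
    stm b k - ε • (1 : Matrix (Fin k) (Fin k) ℂ) =
      stm (fun l => if l = 0 then b l - ε else b l) k := by
  ext i j
  rw [Matrix.sub_apply, Matrix.smul_apply, stm_apply, stm_apply]
  by_cases hij : i = j
  · subst hij; simp
  · have : ¬ (((i : ℕ) : ℤ) - ((j : ℕ) : ℤ) = 0) := by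
      intro h
      apply hij
      ext
      omega
    simp [this, hij]

lemma stm_herm {a : ℤ → ℂ} {k : ℕ} (hk : 0 < k) (h : (stm a k).PosSemidef) (c : ℂ) :
    (stm (upd a k c) (k + 1)).IsHermitian := by
  obtain ⟨m, rfl⟩ : ∃ m, k = m + 1 := ⟨k - 1, by omega⟩
  ext i j
  rw [conjTranspose_apply, stm_apply, stm_apply]
  unfold upd
  have hi := i.2
  have hj := j.2
  by_cases h1 : ((j : ℕ) : ℤ) - ((i : ℕ) : ℤ) = ((m + 1 : ℕ) : ℤ)
  · rw [if_pos h1, if_neg (by omega), if_pos (by omega)]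
    rfl
  · rw [if_neg h1]
    by_cases h2 : ((j : ℕ) : ℤ) - ((i : ℕ) : ℤ) = -((m + 1 : ℕ) : ℤ)
    · rw [if_pos h2, if_pos (by omega)]
      exact star_star c
    · rw [if_neg h2, if_neg (by omega), if_neg (by omega)]
      rcases le_total (i : ℕ) (j : ℕ) with hij | hij
      · have := congrFun (congrFun h.isHermitian 0) ⟨(j : ℕ) - (i : ℕ), by omega⟩
        rw [conjTranspose_apply, stm_apply, stm_apply] at this
        have e1 : (((⟨(j : ℕ) - (i : ℕ), by omega⟩ : Fin (m + 1)) : ℕ) : ℤ) -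
            (((0 : Fin (m + 1)) : ℕ) : ℤ) = ((j : ℕ) : ℤ) - ((i : ℕ) : ℤ) := by
          simp only [Fin.val_zero]; omega
        have e2 : (((0 : Fin (m + 1)) : ℕ) : ℤ) -
            (((⟨(j : ℕ) - (i : ℕ), by omega⟩ : Fin (m + 1)) : ℕ) : ℤ) =
            ((i : ℕ) : ℤ) - ((j : ℕ) : ℤ) := by
          simp only [Fin.val_zero]; omega
        rw [e1, e2] at this
        exact this
      · have := congrFun (congrFun h.isHermitian ⟨(i : ℕ) - (j : ℕ), by omega⟩) 0
        rw [conjTranspose_apply, stm_apply, stm_apply] at this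
        have e1 : (((⟨(i : ℕ) - (j : ℕ), by omega⟩ : Fin (m + 1)) : ℕ) : ℤ) -
            (((0 : Fin (m + 1)) : ℕ) : ℤ) = ((i : ℕ) : ℤ) - ((j : ℕ) : ℤ) := by
          simp only [Fin.val_zero]; omega
        have e2 : (((0 : Fin (m + 1)) : ℕ) : ℤ) -
            (((⟨(i : ℕ) - (j : ℕ), by omega⟩ : Fin (m + 1)) : ℕ) : ℤ) =
            ((j : ℕ) : ℤ) - ((i : ℕ) : ℤ) := by
          simp only [Fin.val_zero]; omega
        rw [e1, e2] at this
        exact this

theorem seq_ext {k : ℕ} (hk : 0 < k) (a : ℕ → ℤ → ℂ) (b : ℤ → ℂ)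
    (ha : ∀ n, (stm (a n) k).PosSemidef) (hb : (stm b k).PosSemidef)
    (hlim : ∀ l : ℤ, Tendsto (fun n => a n l) atTop (𝓝 (b l))) :
    ∃ (c : ℕ → ℂ) (d : ℂ), Tendsto c atTop (𝓝 d) ∧
      (∀ n, (stm (upd (a n) k (c n)) (k + 1)).PosSemidef) ∧
      (stm (upd b k d) (k + 1)).PosSemidef := by
  choose y hy hyp using fun n => scalar_ext hk (ha n)
  have htend : ∀ (c : ℕ → ℂ) (d : ℂ), Tendsto c atTop (𝓝 d) → ∀ i j : Fin (k + 1),
      Tendsto (fun n => stm (upd (a n) k (c n)) (k + 1) i j) atTop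
        (𝓝 (stm (upd b k d) (k + 1) i j)) := by
    intro c d hc i j
    simp only [stm_apply, upd]
    split_ifs
    · exact hc
    · exact (Complex.continuous_conj.tendsto _).comp hc
    · exact hlim _
  rcases psd_dichotomy hb with ⟨v, hv0, hv⟩ | ⟨ε, hε, hpos⟩
  · obtain ⟨m, rfl⟩ : ∃ m, k = m + 1 := ⟨k - 1, by omega⟩
    obtain ⟨v, hv, hv0⟩ : ∃ v' : Fin (m + 1) → ℂ, stm b (m + 1) *ᵥ v' = 0 ∧ v' 0 ≠ 0 := by
      obtain ⟨t, ht⟩ := Function.ne_iff.mp hv0
      exact kernel_head hb t v hv ⟨t.2, ht⟩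
    set R : ℕ → ℂ := fun n => ∑ j : Fin m, a n (((m + 1 : ℕ) : ℤ) - ((j.succ : ℕ) : ℤ)) * v j.succ
      with hR
    set R' : ℂ := ∑ j : Fin m, b (((m + 1 : ℕ) : ℤ) - ((j.succ : ℕ) : ℤ)) * v j.succ with hR'
    have hRt : Tendsto R atTop (𝓝 R') :=
      tendsto_finsetSum _ fun j _ => (hlim _).mul tendsto_const_nhds
    set E : ℕ → ℂ := fun n => y n ((m + 1 : ℕ) : ℤ) * v 0 + R n with hE
    have hE1 : ∀ n, E n = (stm (y n) (m + 1 + 1) *ᵥ (Fin.snoc v 0 : Fin (m + 1 + 1) → ℂ))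
        (Fin.last (m + 1)) := by
      intro n
      rw [snoc_row, Fin.sum_univ_succ]
      simp only [hE, hR, Fin.val_zero, Nat.cast_zero, sub_zero]
      congr 1
      refine Finset.sum_congr rfl fun j _ => ?_
      rw [hy n]
      rw [abs_lt]
      have := j.2
      simp only [Fin.val_succ]
      push_cast
      omega
    have hq : Tendsto (fun n => (a n 0).re * (star v ⬝ᵥ (stm (a n) (m + 1) *ᵥ v)).re) atTop
        (𝓝 0) := by
      have h1 : Tendsto (fun n => star v ⬝ᵥ (stm (a n) (m + 1) *ᵥ v)) atTop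
          (𝓝 (star v ⬝ᵥ (stm b (m + 1) *ᵥ v))) := by
        simp only [dotProduct, mulVec, stm_apply]
        refine tendsto_finsetSum _ fun i _ => ?_
        refine Tendsto.mul tendsto_const_nhds ?_
        refine tendsto_finsetSum _ fun j _ => ?_
        exact (hlim _).mul tendsto_const_nhds
      rw [hv, dotProduct_zero] at h1
      have h2 := (Complex.continuous_re.tendsto _).comp h1
      have h3 := (Complex.continuous_re.tendsto _).comp (hlim 0)
      have h4 := h3.mul h2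
      simpa using h4
    have hEn : ∀ n, ‖E n‖ ^ 2 ≤ (a n 0).re * (star v ⬝ᵥ (stm (a n) (m + 1) *ᵥ v)).re := by
      intro n
      rw [hE1]
      have := psd_row (hyp n (m + 1 + 1)) (Fin.snoc v 0 : Fin (m + 1 + 1) → ℂ) (Fin.last (m + 1))
      rw [snoc_quad] at this
      rw [stm_apply, sub_self, hy n 0 (by simp), stm_congr (hy n)] at this
      exact this
    have hE0 : Tendsto E atTop (𝓝 0) := by
      have h1 : Tendsto (fun n => ‖E n‖ ^ 2) atTop (𝓝 0) :=
        squeeze_zero (fun n => by positivity) hEn hq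
      have h2 := h1.sqrt
      simp only [Real.sqrt_zero] at h2
      have h3 : (fun n => √(‖E n‖ ^ 2)) = fun n => ‖E n‖ := by
        funext n; exact Real.sqrt_sq (norm_nonneg _)
      rw [h3] at h2
      exact tendsto_zero_iff_norm_tendsto_zero.mpr h2
    have hc : Tendsto (fun n => y n ((m + 1 : ℕ) : ℤ)) atTop (𝓝 ((0 - R') / v 0)) := by
      have h1 := (hE0.sub hRt).div_const (v 0)
      refine h1.congr fun n => ?_
      simp only [hE]
      field_simp
      ring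
    have hP : ∀ n, (stm (upd (a n) (m + 1) (y n ((m + 1 : ℕ) : ℤ))) (m + 1 + 1)).PosSemidef := by
      intro n
      rw [stm_upd (hy n) (hyp n _)]
      exact hyp n _
    exact ⟨_, _, hc, hP, psd_of_tendsto (htend _ _ hc) hP⟩
  · rw [stm_one] at hpos
    obtain ⟨z, hz, hzp⟩ := scalar_ext hk hpos
    have hkey : stm (upd b k (z k)) (k + 1) - (ε : ℂ) • (1 : Matrix _ _ ℂ) =
        stm z (k + 1) := by
      rw [stm_one]
      apply stm_congr
      intro l hl
      have hl' := abs_lt.mp hl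
      push_cast at hl'
      simp only [upd]
      by_cases h0 : l = 0
      · subst h0
        have h1 : ¬ ((0 : ℤ) = (k : ℤ)) := by omega
        have h2 : ¬ ((0 : ℤ) = -(k : ℤ)) := by omega
        rw [if_pos rfl, if_neg h1, if_neg h2, hz 0 (by simpa using hk)]
        simp
      · rw [if_neg h0]
        split_ifs with h1 h2
        · rw [h1]
        · rw [h2, herm_entry (hzp (k + 1))]
        · rw [hz l (abs_lt.mpr ⟨by omega, by omega⟩), if_neg h0]
    have hlimP : (stm (upd b k (z k)) (k + 1) - (ε : ℂ) • (1 : Matrix _ _ ℂ)).PosSemidef := by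
      rw [hkey]; exact hzp _
    have hev := psd_perturb (M := fun n => stm (upd (a n) k (z k)) (k + 1))
      (fun n => stm_herm hk (ha n) _) (htend (fun _ => z k) (z k) tendsto_const_nhds) hε hlimP
    classical
    refine ⟨fun n => if (stm (upd (a n) k (z k)) (k + 1)).PosSemidef then z k else y n k, z k,
      ?_, ?_, ?_⟩
    · refine (tendsto_congr' ?_).mpr tendsto_const_nhds
      filter_upwards [hev] with n hn
      rw [if_pos hn]
    · intro n
      beta_reduce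
      by_cases hn : (stm (upd (a n) k (z k)) (k + 1)).PosSemidef
      · rw [if_pos hn]; exact hn
      · rw [if_neg hn, stm_upd (hy n) (hyp n _)]
        exact hyp n _
    · have h1 := hlimP.add (PosSemidef.smul (a := (ε : ℂ)) (PosSemidef.one (n := Fin (k + 1)))
        (by exact_mod_cast hε.le))
      simpa using h1

end Pool.Agent.R226.PTC
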