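import Mathlib

/-!
# Toeplitz extension property over a C*-algebra: definition and pointwise positivity
-/

set_option autoImplicit false

open Matrix ComplexConjugate
open scoped ComplexOrder

namespace Pool.Agent.R226.TP

/-- The multilevel Toeplitz matrix `[a_{i-j}]_{i,j ∈ Λ}`, an element of the C*-algebra of
matrices over `A` indexed by `Λ`. -/
def toeplitz {G A : Type*} [AddCommGroup G] (a : G → A) (Λ : Finset G) : CStarMatrix Λ Λ A :=
  CStarMatrix.ofMatrix fun i j => a (i.1 - j.1)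

/-- The `A`-extension property of a finite set `Λ` in the group `G`. -/
def Ext {G : Type*} [AddCommGroup G] (A : Type*) [NonUnitalCStarAlgebra A] [PartialOrder A]
    [StarOrderedRing A] (Λ : Finset G) : Prop :=
  ∀ a : G → A, 0 ≤ toeplitz a Λ → ∀ K : Finset G, Λ ⊆ K →
    ∃ b : G → A, (∀ i ∈ Λ, ∀ j ∈ Λ, b (i - j) = a (i - j)) ∧ 0 ≤ toeplitz b K

lemma exists_star_mul_self {B : Type*} [NonUnitalCStarAlgebra B] [PartialOrder B]
    [StarOrderedRing B] {a : B} (h : 0 ≤ a) : ∃ b : B, a = star b * b :=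
  CStarAlgebra.nonneg_iff_eq_star_mul_self.mp h

lemma exists_jordan {B : Type*} [NonUnitalCStarAlgebra B] [PartialOrder B]
    [StarOrderedRing B] {a : B} (h : IsSelfAdjoint a) :
    ∃ b c : B, 0 ≤ b ∧ 0 ≤ c ∧ b * c = 0 ∧ b - c = a :=
  ⟨a⁺, a⁻, CFC.posPart_nonneg a, CFC.negPart_nonneg a, CFC.posPart_mul_negPart a,
    CFC.posPart_sub_negPart a h⟩

section

variable {A : Type*} [NonUnitalCStarAlgebra A]
variable {n : Type*}

/-- entrywise evaluation -/
def evm (χ : A →⋆ₙₐ[ℂ] ℂ) (M : CStarMatrix n n A) : Matrix n n ℂ :=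
  Matrix.of fun i j => χ (M i j)

lemma evm_mul [Fintype n] (χ : A →⋆ₙₐ[ℂ] ℂ) (M N : CStarMatrix n n A) :
    evm χ (M * N) = evm χ M * evm χ N := by
  ext i j
  simp [evm, CStarMatrix.mul_apply, Matrix.mul_apply, map_sum, map_mul]

lemma evm_star (χ : A →⋆ₙₐ[ℂ] ℂ) (M : CStarMatrix n n A) :
    evm χ (star M) = (evm χ M)ᴴ := by
  ext i j
  simp [evm, CStarMatrix.star_apply, Matrix.conjTranspose_apply, map_star]

lemma evm_sub (χ : A →⋆ₙₐ[ℂ] ℂ) (M N : CStarMatrix n n A) :
    evm χ (M - N) = evm χ M - evm χ N := by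
  ext i j
  simp [evm]

lemma evm_zero (χ : A →⋆ₙₐ[ℂ] ℂ) : evm χ (0 : CStarMatrix n n A) = 0 := by
  ext i j
  simp [evm]

variable [PartialOrder A] [StarOrderedRing A] [Fintype n]

lemma psd_of_nonneg (χ : A →⋆ₙₐ[ℂ] ℂ) {M : CStarMatrix n n A} (h : 0 ≤ M) :
    (evm χ M).PosSemidef := by
  classical
  obtain ⟨B, rfl⟩ := exists_star_mul_self h
  rw [evm_mul, evm_star]
  exact posSemidef_conjTranspose_mul_self _

lemma eq_zero_of_psd [DecidableEq n] {P N : Matrix n n ℂ} (hN : N.PosSemidef)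
    (hPN : P * N = 0) (h : (P - N).PosSemidef) : N = 0 := by
  have hNh : Nᴴ = N := hN.isHermitian
  have h1 := h.conjTranspose_mul_mul_same N
  have h2 : Nᴴ * (P - N) * N = -(N * N * N) := by
    rw [hNh, mul_sub, sub_mul, mul_assoc N P N, hPN]; simp
  rw [h2] at h1
  have h3 : ∀ v : n → ℂ, star v ⬝ᵥ ((N * N * N) *ᵥ v) = 0 := by
    intro v
    have a1 := h1.dotProduct_mulVec_nonneg v
    rw [neg_mulVec, dotProduct_neg] at a1
    have a2 := (hN.conjTranspose_mul_mul_same N).dotProduct_mulVec_nonneg v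
    rw [hNh] at a2
    exact le_antisymm (neg_nonneg.mp a1) a2
  have h4 : ∀ v : n → ℂ, (N * N) *ᵥ v = 0 := by
    intro v
    have := h3 v
    have e : star v ⬝ᵥ ((N * N * N) *ᵥ v) = star (N *ᵥ v) ⬝ᵥ (N *ᵥ (N *ᵥ v)) := by
      rw [star_mulVec, hNh, ← dotProduct_mulVec]
      simp only [mulVec_mulVec, mul_assoc]
    rw [e] at this
    have := (hN.dotProduct_mulVec_zero_iff _).mp this
    rw [← mulVec_mulVec]; exact this
  have h5 : ∀ v : n → ℂ, N *ᵥ v = 0 := by
    intro v
    have : star (N *ᵥ v) ⬝ᵥ (N *ᵥ v) = 0 := by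
      rw [star_mulVec, hNh, ← dotProduct_mulVec, mulVec_mulVec, h4, dotProduct_zero]
    exact dotProduct_star_self_eq_zero.mp this
  ext i j
  have := congrFun (h5 (Pi.single j 1)) i
  simpa using this

/-- Positivity of a matrix over a commutative C*-algebra is tested pointwise. -/
lemma nonneg_of_psd {Y : Type*} (χ : Y → A →⋆ₙₐ[ℂ] ℂ) (sep : ∀ a, (∀ y, χ y a = 0) → a = 0)
    {M : CStarMatrix n n A} (h : ∀ y, (evm (χ y) M).PosSemidef) : 0 ≤ M := by
  classical
  have hsa : IsSelfAdjoint M := by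
    ext i j
    rw [CStarMatrix.star_apply, ← sub_eq_zero]
    apply sep
    intro y
    have := (h y).isHermitian
    have e := congrFun (congrFun this i) j
    simp only [evm, Matrix.conjTranspose_apply, Matrix.of_apply] at e
    rw [map_sub, map_star, e, sub_self]
  obtain ⟨P, N, hP, hN, hPN, hd⟩ := exists_jordan hsa
  have hN0 : N = 0 := by
    ext i j
    rw [CStarMatrix.zero_apply]
    apply sep
    intro y
    have : evm (χ y) N = 0 := by
      apply eq_zero_of_psd (P := evm (χ y) P) (psd_of_nonneg (χ y) hN)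
      · rw [← evm_mul, hPN, evm_zero]
      · rw [← evm_sub, hd]; exact h y
    exact congrFun (congrFun this i) j
  rw [← hd, hN0, sub_zero]
  exact hP

end

/-- positive definite functions on a group -/
def PDf {G : Type*} [AddCommGroup G] (b : G → ℂ) : Prop :=
  ∀ K : Finset G, (Matrix.of fun i j : K => b (i.1 - j.1)).PosSemidef

/-- identity as a character of `ℂ` -/
noncomputable def idc : ℂ →⋆ₙₐ[ℂ] ℂ := NonUnitalStarAlgHom.id ℂ ℂ

lemma toeplitz_nonneg_iff {G : Type*} [AddCommGroup G] (b : G → ℂ) (K : Finset G) :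
    0 ≤ toeplitz b K ↔ (Matrix.of fun i j : K => b (i.1 - j.1)).PosSemidef := by
  constructor
  · intro h
    exact psd_of_nonneg idc h
  · intro h
    exact nonneg_of_psd (fun _ : Unit => idc) (fun a ha => ha ()) (fun _ => h)

end Pool.Agent.R226.TP
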