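import Pool.Agent.R226.PTB
import Pool.Agent.R226.TPB

/-!
# `C(OnePoint ℕ)` has the positive Toeplitz completion property, its `2 × 2` matrices have not
-/

set_option autoImplicit false

open Matrix ComplexConjugate Filter Topology
open scoped ComplexOrder InnerProductSpace

namespace Pool.Agent.R226.PTC

/-- The `k × k` Toeplitz matrix `[a_{i-j}]_{i,j=0}^{k-1}` over a C*-algebra. -/
def toep {A : Type*} (a : ℤ → A) (k : ℕ) : CStarMatrix (Fin k) (Fin k) A :=
  CStarMatrix.ofMatrix fun i j => a (((i : ℕ) : ℤ) - ((j : ℕ) : ℤ))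

/-- Membership of a C*-algebra in the positive Toeplitz completion class: for all `0 < k < n`,
every family `a_l`, `|l| ≤ k - 1`, with positive `k × k` Toeplitz matrix is completed by some
`y` with positive `n × n` Toeplitz matrix. -/
def PTClass (A : Type*) [NonUnitalCStarAlgebra A] [PartialOrder A] [StarOrderedRing A] : Prop :=
  ∀ k n : ℕ, 0 < k → k < n → ∀ a : ℤ → A, 0 ≤ toep a k →
    ∃ y : ℤ → A, (∀ l : ℤ, |l| < k → y l = a l) ∧ 0 ≤ toep y n

/-- the algebra of continuous functions on the one-point compactification of `ℕ` -/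
abbrev CN : Type := C(OnePoint ℕ, ℂ)

/-- point evaluation -/
noncomputable def evx (x : OnePoint ℕ) : CN →⋆ₙₐ[ℂ] ℂ :=
  { toFun := fun f => f x
    map_smul' := fun _ _ => rfl
    map_zero' := rfl
    map_add' := fun _ _ => rfl
    map_mul' := fun _ _ => rfl
    map_star' := fun _ => rfl }

lemma evm_toep (x : OnePoint ℕ) (a : ℤ → CN) (k : ℕ) :
    TP.evm (evx x) (toep a k) = stm (fun l => a l x) k := rfl

lemma toep_nonneg_iff (a : ℤ → CN) (k : ℕ) :
    0 ≤ toep a k ↔ ∀ x, (stm (fun l => a l x) k).PosSemidef := by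
  constructor
  · intro h x
    rw [← evm_toep]
    exact TP.psd_of_nonneg (evx x) h
  · intro h
    refine TP.nonneg_of_psd evx ?_ ?_
    · intro f hf
      ext x
      exact hf x
    · intro x
      rw [evm_toep]
      exact h x

lemma CN_lim (f : CN) : Tendsto (fun n : ℕ => f n) atTop (𝓝 (f OnePoint.infty)) := by
  have h1 : Tendsto (fun n : ℕ => (n : OnePoint ℕ)) atTop (𝓝 OnePoint.infty) := by
    have := OnePoint.tendsto_coe_infty (X := ℕ)
    rw [coclosedCompact_eq_cocompact, cocompact_eq_cofinite, Nat.cofinite_eq_atTop] at this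
    exact this
  exact (f.continuous.tendsto _).comp h1

lemma one_step {k : ℕ} (hk : 0 < k) (a : ℤ → CN) (h : 0 ≤ toep a k) :
    ∃ y : ℤ → CN, (∀ l : ℤ, |l| < k → y l = a l) ∧ 0 ≤ toep y (k + 1) := by
  rw [toep_nonneg_iff] at h
  obtain ⟨c, d, hcd, hc, hd⟩ := seq_ext hk (fun n l => a l n) (fun l => a l OnePoint.infty)
    (fun n => h n) (h OnePoint.infty) (fun l => CN_lim (a l))
  let f : CN := OnePoint.continuousMapMkNat c d hcd
  refine ⟨fun l => if l = k then f else if l = -k then star f else a l, ?_, ?_⟩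
  · intro l hl
    have hl' := abs_lt.mp hl
    have h1 : ¬ (l = (k : ℤ)) := by omega
    have h2 : ¬ (l = -(k : ℤ)) := by omega
    simp only [h1, h2, if_false]
  · rw [toep_nonneg_iff]
    intro x
    induction x using OnePoint.rec with
    | infty =>
      convert hd using 2
      funext l
      unfold upd
      split_ifs <;> rfl
    | coe n =>
      convert hc n using 2
      funext l
      unfold upd
      split_ifs <;> rfl

theorem ptClass_CN : PTClass CN := by
  intro k n hk hkn a ha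
  obtain ⟨m, rfl⟩ : ∃ m, n = k + (m + 1) := ⟨n - k - 1, by omega⟩
  clear hkn
  induction m with
  | zero => exact one_step hk a ha
  | succ m ih =>
    obtain ⟨y, hy, hy'⟩ := ih
    obtain ⟨z, hz, hz'⟩ := one_step (by omega) y hy'
    refine ⟨z, ?_, hz'⟩
    intro l hl
    rw [hz l (hl.trans_le (by push_cast; omega)), hy l hl]

/-- the sequence `1/(n+1)` -/
noncomputable def sN : CN := OnePoint.continuousMapMkNat (fun n : ℕ => ((1 / ((n : ℝ) + 1) : ℝ) : ℂ)) 0
  (by
    rw [tendsto_zero_iff_norm_tendsto_zero]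
    have := tendsto_one_div_add_atTop_nhds_zero_nat (𝕜 := ℝ)
    refine this.congr fun n => ?_
    rw [Complex.norm_real, Real.norm_of_nonneg (by positivity)])

/-- the sequence `(-1)^n/(n+1)` -/
noncomputable def tN : CN := OnePoint.continuousMapMkNat
  (fun n : ℕ => (((-1) ^ n * (1 / ((n : ℝ) + 1)) : ℝ) : ℂ)) 0
  (by
    rw [tendsto_zero_iff_norm_tendsto_zero]
    have := tendsto_one_div_add_atTop_nhds_zero_nat (𝕜 := ℝ)
    refine this.congr fun n => ?_
    rw [Complex.norm_real, norm_mul, norm_pow, norm_neg, norm_one, one_pow, one_mul,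
      Real.norm_of_nonneg (by positivity)])

lemma sN_apply (n : ℕ) : sN n = ((1 / ((n : ℝ) + 1) : ℝ) : ℂ) := rfl
lemma tN_apply (n : ℕ) : tN n = (((-1) ^ n * (1 / ((n : ℝ) + 1)) : ℝ) : ℂ) := rfl

lemma star_sN : star sN = sN := by
  ext x
  induction x using OnePoint.rec with
  | infty => exact star_zero ℂ
  | coe n =>
    rw [ContinuousMap.star_apply, sN_apply]
    exact Complex.conj_ofReal _

lemma star_tN : star tN = tN := by
  ext x
  induction x using OnePoint.rec with
  | infty => exact star_zero ℂ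
  | coe n =>
    rw [ContinuousMap.star_apply, tN_apply]
    exact Complex.conj_ofReal _

lemma tN_mul : tN * tN = sN * sN := by
  ext x
  induction x using OnePoint.rec with
  | infty => rfl
  | coe n =>
    rw [ContinuousMap.mul_apply, ContinuousMap.mul_apply, tN_apply, sN_apply]
    rw [← Complex.ofReal_mul, ← Complex.ofReal_mul]
    congr 1
    have : ((-1 : ℝ) ^ n) * (-1) ^ n = 1 := by
      rw [← mul_pow]; norm_num
    linear_combination (1 / ((n : ℝ) + 1)) ^ 2 * this

/-- the `2 × 2` matrices -/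
abbrev M2 : Type := CStarMatrix (Fin 2) (Fin 2) CN

/-- scalar function -/
noncomputable def cst (z : ℂ) : CN := ContinuousMap.const _ z

lemma cst_apply (z : ℂ) (x : OnePoint ℕ) : cst z x = z := rfl

/-- first factor -/
noncomputable def G0 : M2 := CStarMatrix.ofMatrix !![cst 1, 0; 0, tN]

/-- second factor -/
noncomputable def G1 : M2 :=
  CStarMatrix.ofMatrix !![cst (3 / 5), cst (4 / 5) * sN; cst (4 / 5), cst (-3 / 5) * sN]

/-- the data -/
noncomputable def dat : ℤ → M2 := fun l =>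
  if l = 0 then star G0 * G0 else if l = 1 then star G1 * G0 else
    if l = -1 then star G0 * G1 else 0

lemma mul_entry (P Q : M2) (i j : Fin 2) (x : OnePoint ℕ) :
    ((star P * Q) i j) x = conj (P 0 i x) * Q 0 j x + conj (P 1 i x) * Q 1 j x := by
  rw [CStarMatrix.mul_apply, Fin.sum_univ_two]
  rfl

lemma c3 : conj (3 : ℂ) = 3 := Complex.conj_ofNat 3
lemma c4 : conj (4 : ℂ) = 4 := Complex.conj_ofNat 4
lemma c5 : conj (5 : ℂ) = 5 := Complex.conj_ofNat 5

lemma G_eq : star G1 * G1 = star G0 * G0 := by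
  ext i j x
  rw [mul_entry, mul_entry]
  have h1 : conj (sN x) = sN x := congrArg (fun f : CN => f x) star_sN
  have h2 : conj (tN x) = tN x := congrArg (fun f : CN => f x) star_tN
  have h3 : tN x * tN x = sN x * sN x := congrArg (fun f : CN => f x) tN_mul
  fin_cases i <;> fin_cases j <;>
    simp [G0, G1, cst_apply, CStarMatrix.ofMatrix_apply, h1, h2, h3, c3, c4, c5] <;> ring

lemma dat_nonneg : 0 ≤ toep dat 2 := by
  have : toep dat 2 = star (CStarMatrix.ofMatrix !![G0, G1; 0, 0] :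
      CStarMatrix (Fin 2) (Fin 2) M2) * CStarMatrix.ofMatrix !![G0, G1; 0, 0] := by
    ext i j : 2
    rw [CStarMatrix.mul_apply, Fin.sum_univ_two]
    fin_cases i <;> fin_cases j <;>
      simp [toep, dat, CStarMatrix.ofMatrix_apply, CStarMatrix.star_apply, G_eq]
  rw [this]
  exact star_mul_self_nonneg _

/-- flattening at a point -/
noncomputable def flat (x : OnePoint ℕ) {k : ℕ} (Z : CStarMatrix (Fin k) (Fin k) M2) :
    Matrix (Fin k × Fin 2) (Fin k × Fin 2) ℂ :=
  Matrix.of fun p q => (Z p.1 q.1 p.2 q.2) x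

lemma flat_psd (x : OnePoint ℕ) {k : ℕ} {Z : CStarMatrix (Fin k) (Fin k) M2} (h : 0 ≤ Z) :
    (flat x Z).PosSemidef := by
  obtain ⟨B, rfl⟩ := TP.exists_star_mul_self h
  have : flat x (star B * B) = (flat x B)ᴴ * flat x B := by
    ext p q
    rw [Matrix.mul_apply, Fintype.sum_prod_type]
    simp only [flat, Matrix.of_apply, Matrix.conjTranspose_apply]
    rw [CStarMatrix.mul_apply]
    have e1 : ∀ (s : Finset (Fin k)) (f : Fin k → M2) (i j : Fin 2),
        (∑ c ∈ s, f c) i j x = ∑ c ∈ s, (f c i j) x := by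
      intro s f i j
      classical
      induction s using Finset.induction_on with
      | empty => rfl
      | insert a s ha ih => rw [Finset.sum_insert ha, Finset.sum_insert ha, ← ih]; rfl
    rw [e1]
    refine Finset.sum_congr rfl fun c _ => ?_
    rw [Fin.sum_univ_two, CStarMatrix.star_apply, mul_entry]
    rfl
  rw [this]
  exact posSemidef_conjTranspose_mul_self _

theorem not_ptClass_M2 : ¬ PTClass M2 := by
  intro h
  obtain ⟨y, hy, hy'⟩ := h 2 3 (by norm_num) (by norm_num) dat dat_nonneg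
  have y0 : y 0 = star G0 * G0 := by rw [hy 0 (by norm_num)]; simp [dat]
  have y1 : y 1 = star G1 * G0 := by rw [hy 1 (by norm_num)]; simp [dat]
  have y2 : y (-1) = star G0 * G1 := by rw [hy (-1) (by norm_num)]; simp [dat]
  have key : ∀ n : ℕ, (y 2 0 0) (n : OnePoint ℕ) = 9 / 25 + 16 / 25 * (-1) ^ n := by
    intro n
    have hF := flat_psd (n : OnePoint ℕ) hy'
    set N : ℂ := (n : ℂ) + 1 with hN
    have hN0 : N ≠ 0 := by
      rw [hN]; exact_mod_cast Nat.succ_ne_zero n
    have hs : sN (n : OnePoint ℕ) = N⁻¹ := by rw [sN_apply, hN]; push_cast; ring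
    have ht : tN (n : OnePoint ℕ) = (-1) ^ n * N⁻¹ := by rw [tN_apply, hN]; push_cast; ring
    have he : ((-1 : ℂ) ^ n) * (-1) ^ n = 1 := by
      rw [← mul_pow]; norm_num
    have cN : conj N = N := by rw [hN]; simp
    let ξ : Fin 3 × Fin 2 → ℂ := fun p =>
      (!![1, 0; -3 / 5, -4 / 5 * N; 0, 0] : Matrix (Fin 3) (Fin 2) ℂ) p.1 p.2
    have e0 : ∀ i j : Fin 2, (y 0 i j) (n : OnePoint ℕ) =
        (!![1, 0; 0, N⁻¹ * N⁻¹] : Matrix (Fin 2) (Fin 2) ℂ) i j := by
      intro i j
      rw [y0, mul_entry]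
      fin_cases i <;> fin_cases j <;>
        simp [G0, cst_apply, CStarMatrix.ofMatrix_apply, ht, cN] 
      linear_combination N⁻¹ * N⁻¹ * he
    have e1 : ∀ i j : Fin 2, (y 1 i j) (n : OnePoint ℕ) =
        (!![3 / 5, 4 / 5 * (-1) ^ n * N⁻¹; 4 / 5 * N⁻¹, -3 / 5 * (-1) ^ n * N⁻¹ * N⁻¹] :
          Matrix (Fin 2) (Fin 2) ℂ) i j := by
      intro i j
      rw [y1, mul_entry]
      fin_cases i <;> fin_cases j <;>
        simp [G0, G1, cst_apply, CStarMatrix.ofMatrix_apply, ht, hs, cN, c3, c4, c5] <;> ring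
    have e2 : ∀ i j : Fin 2, (y (-1) i j) (n : OnePoint ℕ) =
        (!![3 / 5, 4 / 5 * N⁻¹; 4 / 5 * (-1) ^ n * N⁻¹, -3 / 5 * (-1) ^ n * N⁻¹ * N⁻¹] :
          Matrix (Fin 2) (Fin 2) ℂ) i j := by
      intro i j
      rw [y2, mul_entry]
      fin_cases i <;> fin_cases j <;>
        simp [G0, G1, cst_apply, CStarMatrix.ofMatrix_apply, ht, hs, cN, c3, c4, c5] <;> ring
    have hq : star ξ ⬝ᵥ (flat (n : OnePoint ℕ) (toep y 3) *ᵥ ξ) = 0 := by
      simp only [dotProduct, mulVec, Fintype.sum_prod_type, Fin.sum_univ_three, Fin.sum_univ_two,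
        flat, toep, Matrix.of_apply, CStarMatrix.ofMatrix_apply, Pi.star_apply, ξ]
      simp [e0, e1, e2, cN, c3, c4, c5]
      field_simp
      linear_combination 0
    have hk := (hF.dotProduct_mulVec_zero_iff ξ).mp hq
    have hr := congrFun hk (2, 0)
    simp only [dotProduct, mulVec, Fintype.sum_prod_type, Fin.sum_univ_three, Fin.sum_univ_two,
        flat, toep, Matrix.of_apply, CStarMatrix.ofMatrix_apply, ξ] at hr
    simp [e0, e1, e2] at hr
    field_simp at hr
    linear_combination hr / 25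
  have hl := CN_lim (y 2 0 0)
  have h1 : Tendsto (fun n : ℕ => (y 2 0 0) ((2 * n : ℕ) : OnePoint ℕ)) atTop
      (𝓝 ((y 2 0 0) OnePoint.infty)) :=
    hl.comp (tendsto_atTop_mono (fun n => by omega : ∀ n : ℕ, n ≤ 2 * n) tendsto_id)
  have h2 : Tendsto (fun n : ℕ => (y 2 0 0) ((2 * n + 1 : ℕ) : OnePoint ℕ)) atTop
      (𝓝 ((y 2 0 0) OnePoint.infty)) :=
    hl.comp (tendsto_atTop_mono (fun n => by omega : ∀ n : ℕ, n ≤ 2 * n + 1) tendsto_id)
  have h3 : (fun n : ℕ => (y 2 0 0) ((2 * n : ℕ) : OnePoint ℕ)) = fun _ => (1 : ℂ) := by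
    funext n
    rw [key, pow_mul]
    norm_num
  have h4 : (fun n : ℕ => (y 2 0 0) ((2 * n + 1 : ℕ) : OnePoint ℕ)) = fun _ => (-7 / 25 : ℂ) := by
    funext n
    rw [key, pow_succ, pow_mul]
    norm_num
  rw [h3] at h1
  rw [h4] at h2
  have h5 := tendsto_nhds_unique h1 tendsto_const_nhds
  have h6 := tendsto_nhds_unique h2 tendsto_const_nhds
  rw [h5] at h6
  norm_num at h6

end Pool.Agent.R226.PTC
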