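import Mathlib

/-!
# Self-affine measures: spectral implies no overlap
-/

set_option autoImplicit false
set_option linter.unusedSimpArgs false
set_option linter.unusedVariables false

open MeasureTheory Filter Topology
open scoped ENNReal NNReal

namespace Pool.Agent.R226.SA

section contraction
open Matrix
attribute [local instance] Matrix.linftyOpNormedRing Matrix.linftyOpNormedAlgebra

variable {d : ℕ}

lemma norm_map_ofReal (M : Matrix (Fin d) (Fin d) ℝ) : ‖M.map (Complex.ofRealHom)‖ = ‖M‖ := by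
  rw [Matrix.linfty_opNorm_def, Matrix.linfty_opNorm_def]
  simp

lemma det_ne_zero (R : Matrix (Fin d) (Fin d) ℤ)
    (hR : ∀ z : ℂ, (R.map (Int.castRingHom ℂ)).charpoly.IsRoot z → 1 < ‖z‖) : R.det ≠ 0 := by
  intro h
  have h0 : (R.map (Int.castRingHom ℂ)).charpoly.IsRoot 0 := by
    rw [Polynomial.IsRoot.def, Matrix.eval_charpoly, map_zero, zero_sub, Matrix.det_neg]
    have : (R.map (Int.castRingHom ℂ)).det = ((R.det : ℤ) : ℂ) := by
      have := RingHom.map_det (Int.castRingHom ℂ) R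
      rw [RingHom.mapMatrix_apply] at this
      rw [← this]; rfl
    rw [this, h]
    simp
  have := hR 0 h0
  rw [norm_zero] at this
  linarith

/-- powers of the inverse of an expanding matrix tend to zero -/
lemma inv_pow_tendsto (R : Matrix (Fin d) (Fin d) ℤ)
    (hR : ∀ z : ℂ, (R.map (Int.castRingHom ℂ)).charpoly.IsRoot z → 1 < ‖z‖) :
    Tendsto (fun n => ‖((R.map (Int.castRingHom ℝ))⁻¹) ^ n‖) atTop (𝓝 0) := by
  rcases Nat.eq_zero_or_pos d with rfl | hd
  · have : ∀ n, ((R.map (Int.castRingHom ℝ))⁻¹) ^ n = 0 := fun n => Subsingleton.elim _ _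
    simp only [this, norm_zero]
    exact tendsto_const_nhds
  have : Nonempty (Fin d) := ⟨⟨0, hd⟩⟩
  set A : Matrix (Fin d) (Fin d) ℝ := R.map (Int.castRingHom ℝ) with hA
  set Ac : Matrix (Fin d) (Fin d) ℂ := R.map (Int.castRingHom ℂ) with hAc
  have hdet := det_ne_zero R hR
  have hAd : A.det ≠ 0 := by
    have := RingHom.map_det (Int.castRingHom ℝ) R
    rw [RingHom.mapMatrix_apply] at this
    rw [hA, ← this]
    simpa using hdet
  have hAu : IsUnit A.det := isUnit_iff_ne_zero.2 hAd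
  have h1 : A * A⁻¹ = 1 := Matrix.mul_nonsing_inv A hAu
  have h2 : A⁻¹ * A = 1 := Matrix.nonsing_inv_mul A hAu
  have hmapA : A.map Complex.ofRealHom = Ac := by
    ext i j
    simp [hA, hAc]
  have h1c : Ac * (A⁻¹).map Complex.ofRealHom = 1 := by
    rw [← hmapA, ← RingHom.mapMatrix_apply, ← RingHom.mapMatrix_apply, ← map_mul, h1, map_one]
  have h2c : (A⁻¹).map Complex.ofRealHom * Ac = 1 := by
    rw [← hmapA, ← RingHom.mapMatrix_apply, ← RingHom.mapMatrix_apply, ← map_mul, h2, map_one]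
  let U : (Matrix (Fin d) (Fin d) ℂ)ˣ := ⟨Ac, (A⁻¹).map Complex.ofRealHom, h1c, h2c⟩
  have hspec : ∀ z ∈ spectrum ℂ (((U⁻¹ : (Matrix (Fin d) (Fin d) ℂ)ˣ)) : Matrix (Fin d) (Fin d) ℂ),
      ‖z‖₊ < 1 := by
    intro z hz
    rw [← spectrum.map_inv, Set.mem_inv] at hz
    have hroot := (Matrix.mem_spectrum_iff_isRoot_charpoly (A := Ac)).1 hz
    have h3 := hR _ hroot
    rw [norm_inv] at h3
    have hz0 : z ≠ 0 := by
      rintro rfl
      simp at h3
      linarith
    have : ‖z‖ < 1 := by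
      have hpos : 0 < ‖z‖ := norm_pos_iff.2 hz0
      by_contra hcon
      push Not at hcon
      have := inv_le_one_of_one_le₀ hcon
      linarith
    exact_mod_cast this
  have hrad := spectrum.spectralRadius_lt_of_forall_lt
    (((U⁻¹ : (Matrix (Fin d) (Fin d) ℂ)ˣ)) : Matrix (Fin d) (Fin d) ℂ) hspec
  have hlim := spectrum.pow_nnnorm_pow_one_div_tendsto_nhds_spectralRadius
    (((U⁻¹ : (Matrix (Fin d) (Fin d) ℂ)ˣ)) : Matrix (Fin d) (Fin d) ℂ)
  obtain ⟨r, hr1, hr2⟩ := exists_between hrad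
  have hev := hlim.eventually (gt_mem_nhds hr1)
  have hr2' : r < 1 := by simpa using hr2
  have hrt : r ≠ ⊤ := ne_top_of_lt hr2'
  lift r to ℝ≥0 using hrt
  have hr2'' : r < 1 := by exact_mod_cast hr2'
  have hbound : ∀ᶠ n : ℕ in atTop, ‖(A⁻¹) ^ n‖ ≤ (r : ℝ) ^ n := by
    filter_upwards [hev, eventually_gt_atTop 0] with n hn hn0
    have e1 : ‖(A⁻¹) ^ n‖₊ = ‖(((U⁻¹ : (Matrix (Fin d) (Fin d) ℂ)ˣ)) : Matrix (Fin d) (Fin d) ℂ) ^ n‖₊ := by
      apply NNReal.eq
      rw [coe_nnnorm, coe_nnnorm]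
      have : (((U⁻¹ : (Matrix (Fin d) (Fin d) ℂ)ˣ)) : Matrix (Fin d) (Fin d) ℂ) = (A⁻¹).map Complex.ofRealHom := rfl
      rw [this, ← norm_map_ofReal, ← RingHom.mapMatrix_apply, ← RingHom.mapMatrix_apply, map_pow]
    have h4 : (‖(A⁻¹) ^ n‖₊ : ℝ≥0∞) ≤ (r : ℝ≥0∞) ^ n := by
      rw [e1]
      have h5 : ((‖(((U⁻¹ : (Matrix (Fin d) (Fin d) ℂ)ˣ)) : Matrix (Fin d) (Fin d) ℂ) ^ n‖₊ : ℝ≥0∞) ^ (1 / (n : ℝ))) ^ (n : ℝ) ≤
          (r : ℝ≥0∞) ^ (n : ℝ) := ENNReal.rpow_le_rpow hn.le (Nat.cast_nonneg n)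
      rw [← ENNReal.rpow_mul, one_div, inv_mul_cancel₀ (by positivity), ENNReal.rpow_one,
        ENNReal.rpow_natCast] at h5
      exact h5
    have h6 : ‖(A⁻¹) ^ n‖₊ ≤ r ^ n := by exact_mod_cast h4
    exact_mod_cast h6
  refine squeeze_zero' (Eventually.of_forall fun n => norm_nonneg _) hbound ?_
  exact tendsto_pow_atTop_nhds_zero_of_lt_one r.2 (by exact_mod_cast hr2'')

/-- the same in terms of vectors, uniformly on bounded sets -/
lemma inv_pow_small (R : Matrix (Fin d) (Fin d) ℤ)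
    (hR : ∀ z : ℂ, (R.map (Int.castRingHom ℂ)).charpoly.IsRoot z → 1 < ‖z‖) (C ε : ℝ) (hε : 0 < ε) :
    ∀ᶠ n in atTop, ∀ x : Fin d → ℝ, ‖x‖ ≤ C → ‖((R.map (Int.castRingHom ℝ))⁻¹ ^ n) *ᵥ x‖ < ε := by
  have h := inv_pow_tendsto R hR
  have h2 : Tendsto (fun n => ‖((R.map (Int.castRingHom ℝ))⁻¹) ^ n‖ * (|C| + 1)) atTop (𝓝 (0 * (|C| + 1))) :=
    h.mul_const _
  rw [zero_mul] at h2
  filter_upwards [h2.eventually (gt_mem_nhds hε)] with n hn x hx
  refine lt_of_le_of_lt (Matrix.linfty_opNorm_mulVec _ _) (lt_of_le_of_lt ?_ hn)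
  apply mul_le_mul_of_nonneg_left _ (norm_nonneg _)
  linarith [le_abs_self C]

end contraction


section spectral
open Complex

lemma hilbert_norm_eq {ι E : Type*} [NormedAddCommGroup E] [InnerProductSpace ℂ E] [CompleteSpace E]
    (b : HilbertBasis ι ℂ E) (x y : E) (h : ∀ i, ‖inner ℂ (b i) x‖ = ‖inner ℂ (b i) y‖) :
    ‖x‖ = ‖y‖ := by
  have key : ∀ (z : E) (i : ι), inner ℂ z (b i) * inner ℂ (b i) z = ((‖inner ℂ (b i) z‖ ^ 2 : ℝ) : ℂ) := by
    intro z i
    rw [← inner_conj_symm z (b i), mul_comm, Complex.mul_conj, Complex.normSq_eq_norm_sq]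
  have hx := b.tsum_inner_mul_inner x x
  have hy := b.tsum_inner_mul_inner y y
  simp_rw [key] at hx hy
  have hxy : inner ℂ x x = (inner ℂ y y : ℂ) := by
    rw [← hx, ← hy]
    simp_rw [h]
  rw [inner_self_eq_norm_sq_to_K, inner_self_eq_norm_sq_to_K] at hxy
  have h2 : ‖x‖ ^ 2 = ‖y‖ ^ 2 := by exact_mod_cast hxy
  have := abs_eq_abs.2 (sq_eq_sq_iff_eq_or_eq_neg.1 h2)
  rwa [abs_of_nonneg (norm_nonneg _), abs_of_nonneg (norm_nonneg _)] at this

variable {d : ℕ}

/-- the character -/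
noncomputable def chi (l x : Fin d → ℝ) : ℂ :=
  Complex.exp (2 * Real.pi * Complex.I * ((∑ i, l i * x i : ℝ) : ℂ))

lemma chi_norm (l x : Fin d → ℝ) : ‖chi l x‖ = 1 := by
  unfold chi
  rw [show (2 * Real.pi * Complex.I * ((∑ i, l i * x i : ℝ) : ℂ)) =
    ((2 * Real.pi * (∑ i, l i * x i) : ℝ) : ℂ) * Complex.I by push_cast; ring]
  exact Complex.norm_exp_ofReal_mul_I _

lemma chi_add (l x y : Fin d → ℝ) : chi l (x + y) = chi l x * chi l y := by
  unfold chi
  rw [← Complex.exp_add]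
  congr 1
  simp only [Pi.add_apply, mul_add, Finset.sum_add_distrib]
  push_cast
  ring

lemma chi_continuous (l : Fin d → ℝ) : Continuous (chi l) := by
  unfold chi
  fun_prop

/-- `μ` is spectral: there is an orthonormal basis of exponentials -/
def IsSpectral (μ : Measure (Fin d → ℝ)) : Prop :=
  ∃ (Λ : Set (Fin d → ℝ)) (e : Λ → MeasureTheory.Lp ℂ 2 μ),
      (∀ l : Λ, (e l : (Fin d → ℝ) → ℂ) =ᵐ[μ] chi (l : Fin d → ℝ)) ∧
      Orthonormal ℂ e ∧
      (Submodule.span ℂ (Set.range e)).topologicalClosure = ⊤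

lemma lp_norm_sq (μ : Measure (Fin d → ℝ)) (F : Lp ℂ 2 μ) : ‖F‖ ^ 2 = ∫ x, ‖F x‖ ^ 2 ∂μ := by
  rw [norm_sq_eq_re_inner (𝕜 := ℂ) F, L2.inner_def]
  have : ∫ x, inner ℂ (F x) (F x) ∂μ = ((∫ x, ‖F x‖ ^ 2 ∂μ : ℝ) : ℂ) := by
    rw [← integral_complex_ofReal]
    apply integral_congr_ae
    filter_upwards with x
    rw [inner_self_eq_norm_sq_to_K]
    push_cast
    rfl
  rw [this]
  exact Complex.ofReal_re _

lemma coef (μ : Measure (Fin d → ℝ)) (l : Fin d → ℝ) (E F : Lp ℂ 2 μ) (f : (Fin d → ℝ) → ℂ)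
    (hE : (E : (Fin d → ℝ) → ℂ) =ᵐ[μ] chi l) (hF : (F : (Fin d → ℝ) → ℂ) =ᵐ[μ] f) :
    inner ℂ E F = ∫ x, (starRingEnd ℂ) (chi l x) * f x ∂μ := by
  rw [L2.inner_def]
  apply integral_congr_ae
  filter_upwards [hE, hF] with x h1 h2
  rw [h1, h2, mul_comm]
  rfl

/-- A spectral measure has no part which is at most half of a translate of it. -/
lemma no_half (μ : Measure (Fin d → ℝ)) [IsFiniteMeasure μ] (hs : IsSpectral μ)
    (G : Set (Fin d → ℝ)) (hG : MeasurableSet G) (a : Fin d → ℝ)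
    (h : ∀ E', MeasurableSet E' → μ (G ∩ {x | x - a ∈ E'}) ≤ (1 / 2 : ℝ≥0∞) * μ E') : μ G = 0 := by
  obtain ⟨Λ, e, he, hon, hspan⟩ := hs
  have hsub : Measurable (fun x : Fin d → ℝ => x - a) := measurable_sub_const a
  set κ : Measure (Fin d → ℝ) := (μ.restrict G).map (fun x => x - a) with hκ
  have hκE : ∀ E', MeasurableSet E' → κ E' ≤ (1 / 2 : ℝ≥0∞) * μ E' := by
    intro E' hE'
    rw [hκ, Measure.map_apply hsub hE', Measure.restrict_apply (hsub hE'), Set.inter_comm]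
    exact h E' hE'
  have hκac : κ ≪ μ := by
    refine Measure.AbsolutelyContinuous.mk fun E' hE' h0 => ?_
    have := hκE E' hE'
    rw [h0, mul_zero] at this
    exact le_antisymm this bot_le
  have hfin : IsFiniteMeasure κ := by rw [hκ]; infer_instance
  have hleb : κ.HaveLebesgueDecomposition μ := Measure.haveLebesgueDecomposition_of_sigmaFinite κ μ
  obtain ⟨k, hk⟩ : ∃ k, k = κ.rnDeriv μ := ⟨_, rfl⟩
  have hkm : Measurable k := by rw [hk]; exact Measure.measurable_rnDeriv κ μ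
  have hwd : μ.withDensity k = κ := by rw [hk]; exact Measure.withDensity_rnDeriv_eq κ μ hκac
  have hk2 : k ≤ᵐ[μ] fun _ => (1 / 2 : ℝ≥0∞) := by
    apply ae_le_of_forall_setLIntegral_le_of_sigmaFinite hkm
    intro s hs _
    rw [← withDensity_apply _ hs, hwd, lintegral_const, Measure.restrict_apply_univ]
    exact hκE s hs
  have hklt : ∀ᵐ x ∂μ, k x < ⊤ := by
    filter_upwards [hk2] with x hx
    exact lt_of_le_of_lt hx (by simp)
  let f : (Fin d → ℝ) → ℂ := G.indicator (fun _ => (1 : ℂ))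
  let g : (Fin d → ℝ) → ℂ := fun x => ((k x).toReal : ℂ)
  have hfL : MemLp f 2 μ := memLp_indicator_const 2 hG 1 (Or.inr (measure_ne_top μ G))
  have hkb : ∀ᵐ x ∂μ, (k x).toReal ≤ 1 / 2 := by
    filter_upwards [hk2] with x hx
    have := ENNReal.toReal_mono (by simp) hx
    simpa using this
  have hgb : ∀ᵐ x ∂μ, ‖g x‖ ≤ 1 / 2 := by
    filter_upwards [hkb] with x hx
    simp only [g, Complex.norm_real, Real.norm_eq_abs, abs_of_nonneg ENNReal.toReal_nonneg]
    exact hx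
  have hgm : Measurable g := Complex.measurable_ofReal.comp hkm.ennreal_toReal
  have hgL : MemLp g 2 μ := MemLp.of_bound hgm.aestronglyMeasurable (1 / 2) hgb
  -- Fourier coefficients
  have hcoef : ∀ l : Λ, ‖inner ℂ (e l) (hfL.toLp f)‖ = ‖inner ℂ (e l) (hgL.toLp g)‖ := by
    intro l
    rw [coef μ l (e l) (hfL.toLp f) f (he l) hfL.coeFn_toLp,
      coef μ l (e l) (hgL.toLp g) g (he l) hgL.coeFn_toLp]
    generalize (l : Fin d → ℝ) = l'
    have h3 : ∫ x, (starRingEnd ℂ) (chi l' x) * f x ∂μ = ∫ x in G, (starRingEnd ℂ) (chi l' x) ∂μ := by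
      rw [← integral_indicator hG]
      congr 1
      funext x
      by_cases hx : x ∈ G <;> simp [f, hx]
    have h4 : ∫ x, (starRingEnd ℂ) (chi l' x) * g x ∂μ = ∫ x, (starRingEnd ℂ) (chi l' x) ∂κ := by
      rw [← hwd, integral_withDensity_eq_integral_toReal_smul hkm hklt]
      apply integral_congr_ae
      filter_upwards with x
      simp only [g, Complex.real_smul]
      ring
    have hc : Continuous (fun x => (starRingEnd ℂ) (chi l' x)) :=
      Complex.continuous_conj.comp (chi_continuous l')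
    have h5 : ∫ x, (starRingEnd ℂ) (chi l' x) ∂κ = (starRingEnd ℂ) (chi l' (-a)) *
        ∫ x in G, (starRingEnd ℂ) (chi l' x) ∂μ := by
      rw [hκ, integral_map hsub.aemeasurable hc.aestronglyMeasurable, ← integral_const_mul]
      congr 1
      funext x
      rw [sub_eq_add_neg, chi_add, map_mul, mul_comm]
    rw [h3, h4, h5, norm_mul, RCLike.norm_conj, chi_norm, one_mul]
  have hb : ⊤ ≤ (Submodule.span ℂ (Set.range e)).topologicalClosure := hspan.ge
  have hnorm := hilbert_norm_eq (HilbertBasis.mk hon hb) (hfL.toLp f) (hgL.toLp g)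
    (by intro i; rw [HilbertBasis.coe_mk]; exact hcoef i)
  have hf2 : ‖hfL.toLp f‖ ^ 2 = (μ G).toReal := by
    rw [lp_norm_sq]
    have : ∫ x, ‖(hfL.toLp f) x‖ ^ 2 ∂μ = ∫ x, G.indicator (fun _ => (1 : ℝ)) x ∂μ := by
      apply integral_congr_ae
      filter_upwards [hfL.coeFn_toLp] with x h1
      rw [h1]
      by_cases hx : x ∈ G <;> simp [f, hx]
    rw [this, integral_indicator hG]
    simp [Measure.real]
  have hki : Integrable (fun x => (k x).toReal) μ := by
    refine Integrable.of_bound hkm.ennreal_toReal.aestronglyMeasurable (1 / 2) ?_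
    filter_upwards [hkb] with x hx
    rw [Real.norm_eq_abs, abs_of_nonneg ENNReal.toReal_nonneg]
    exact hx
  have hg2 : ‖hgL.toLp g‖ ^ 2 ≤ (1 / 2) * (μ G).toReal := by
    rw [lp_norm_sq]
    have h3 : ∫ x, (k x).toReal ∂μ = (μ G).toReal := by
      have h4 : κ Set.univ = μ G := by
        rw [hκ, Measure.map_apply hsub MeasurableSet.univ]
        simp
      rw [← h4, ← hwd, withDensity_apply _ MeasurableSet.univ, Measure.restrict_univ,
        integral_toReal hkm.aemeasurable hklt]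
    rw [← h3, ← integral_const_mul]
    have h5 : ∫ x, ‖(hgL.toLp g) x‖ ^ 2 ∂μ = ∫ x, (k x).toReal ^ 2 ∂μ := by
      apply integral_congr_ae
      filter_upwards [hgL.coeFn_toLp] with x h1
      rw [h1]
      simp only [g, Complex.norm_real, Real.norm_eq_abs, sq_abs]
    rw [h5]
    apply integral_mono_ae
    · refine Integrable.of_bound (hkm.ennreal_toReal.pow_const 2).aestronglyMeasurable (1 / 4) ?_
      filter_upwards [hkb] with x hx
      have h0 := ENNReal.toReal_nonneg (a := k x)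
      rw [Real.norm_eq_abs, abs_pow, abs_of_nonneg h0]
      nlinarith
    · exact hki.const_mul _
    · filter_upwards [hkb] with x hx
      have h0 := ENNReal.toReal_nonneg (a := k x)
      show (k x).toReal ^ 2 ≤ 1 / 2 * (k x).toReal
      nlinarith
  rw [hnorm] at hf2
  have h0 : (μ G).toReal = 0 := by
    have := ENNReal.toReal_nonneg (a := μ G)
    linarith
  rcases (ENNReal.toReal_eq_zero_iff _).1 h0 with h1 | h1
  · exact h1
  · exact absurd h1 (measure_ne_top μ G)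

end spectral

end Pool.Agent.R226.SA
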