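import Pool.Agent.R226.SA

/-!
# Self-affine measures: spectral implies no overlap (geometry)
-/

set_option autoImplicit false
set_option linter.unusedSimpArgs false
set_option linter.unusedVariables false
set_option linter.unusedSectionVars false

open MeasureTheory Filter Topology Matrix
open scoped ENNReal NNReal

namespace Pool.Agent.R226.SA

variable {d : ℕ}

/-- integer vectors as real vectors -/
def ic (c : Fin d → ℤ) : Fin d → ℝ := fun i => (c i : ℝ)

/-- the real matrix -/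
def AR (R : Matrix (Fin d) (Fin d) ℤ) : Matrix (Fin d) (Fin d) ℝ := R.map (Int.castRingHom ℝ)

/-- the maps of the iterated system -/
noncomputable def psi (R : Matrix (Fin d) (Fin d) ℤ) (k : ℕ) (c : Fin d → ℤ) (x : Fin d → ℝ) :
    Fin d → ℝ := ((AR R)⁻¹ ^ k) *ᵥ (x + ic c)

open Classical in
/-- the digits of level `k` -/
noncomputable def D (R : Matrix (Fin d) (Fin d) ℤ) (B : Finset (Fin d → ℤ)) : ℕ → Finset (Fin d → ℤ)
  | 0 => {0}
  | k + 1 => (B ×ˢ D R B k).image (fun p => p.1 + R *ᵥ p.2)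

/-- Expanding matrix. -/
def Expanding (R : Matrix (Fin d) (Fin d) ℤ) : Prop :=
  ∀ z : ℂ, (R.map (Int.castRingHom ℂ)).charpoly.IsRoot z → 1 < ‖z‖

lemma ic_add (a b : Fin d → ℤ) : ic (a + b) = ic a + ic b := by
  funext i; simp [ic]

lemma ic_sub (a b : Fin d → ℤ) : ic (a - b) = ic a - ic b := by
  funext i; simp [ic]

lemma ic_zero : ic (0 : Fin d → ℤ) = 0 := by
  funext i; simp [ic]

lemma ic_inj {a b : Fin d → ℤ} (h : ic a = ic b) : a = b := by
  funext i
  have := congrFun h i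
  simpa [ic] using this

lemma ic_mulVec (R : Matrix (Fin d) (Fin d) ℤ) (c : Fin d → ℤ) : ic (R *ᵥ c) = AR R *ᵥ ic c := by
  funext i
  simp [ic, AR, Matrix.mulVec, dotProduct]

variable {R : Matrix (Fin d) (Fin d) ℤ} {B : Finset (Fin d → ℤ)}

lemma AR_unit (hR : Expanding R) : IsUnit (AR R).det := by
  have hdet := det_ne_zero R hR
  have := RingHom.map_det (Int.castRingHom ℝ) R
  rw [RingHom.mapMatrix_apply] at this
  rw [AR, ← this]
  simpa using hdet

lemma inv_mul (hR : Expanding R) : (AR R)⁻¹ * AR R = 1 := Matrix.nonsing_inv_mul _ (AR_unit hR)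

lemma mul_inv (hR : Expanding R) : AR R * (AR R)⁻¹ = 1 := Matrix.mul_nonsing_inv _ (AR_unit hR)

lemma powc (hR : Expanding R) (k : ℕ) : (AR R) ^ k * (AR R)⁻¹ ^ k = 1 := by
  have hc : Commute (AR R) (AR R)⁻¹ := by
    show AR R * (AR R)⁻¹ = (AR R)⁻¹ * AR R
    rw [mul_inv hR, inv_mul hR]
  rw [← hc.mul_pow, mul_inv hR, one_pow]

lemma powc' (hR : Expanding R) (k : ℕ) : (AR R)⁻¹ ^ k * (AR R) ^ k = 1 := by
  have hc : Commute (AR R)⁻¹ (AR R) := by
    show (AR R)⁻¹ * (AR R) = AR R * (AR R)⁻¹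
    rw [mul_inv hR, inv_mul hR]
  rw [← hc.mul_pow, inv_mul hR, one_pow]

lemma invpow_inj (hR : Expanding R) (k : ℕ) {x y : Fin d → ℝ}
    (h : ((AR R)⁻¹ ^ k) *ᵥ x = ((AR R)⁻¹ ^ k) *ᵥ y) : x = y := by
  have := congrArg (fun z => (AR R ^ k) *ᵥ z) h
  simpa only [Matrix.mulVec_mulVec, powc hR k, Matrix.one_mulVec] using this

lemma psi_cont (k : ℕ) (c : Fin d → ℤ) : Continuous (psi R k c) := by
  unfold psi
  exact Continuous.matrix_mulVec continuous_const (by fun_prop)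

lemma psi_meas (k : ℕ) (c : Fin d → ℤ) : Measurable (psi R k c) := (psi_cont k c).measurable

lemma psi_zero (x : Fin d → ℝ) : psi R 0 0 x = x := by
  simp [psi, ic_zero]

/-- composition -/
lemma psi_succ (hR : Expanding R) (k : ℕ) (b c : Fin d → ℤ) (x : Fin d → ℝ) :
    psi R (k + 1) (b + R *ᵥ c) x = psi R k c (psi R 1 b x) := by
  unfold psi
  rw [pow_one, pow_succ, ← Matrix.mulVec_mulVec]
  congr 1
  rw [ic_add, ic_mulVec, ← add_assoc, Matrix.mulVec_add, Matrix.mulVec_mulVec, inv_mul hR,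
    Matrix.one_mulVec]

lemma mem_D_succ {k : ℕ} {b c : Fin d → ℤ} (hb : b ∈ B) (hc : c ∈ D R B k) :
    b + R *ᵥ c ∈ D R B (k + 1) := by
  classical
  rw [D, Finset.mem_image]
  exact ⟨(b, c), Finset.mk_mem_product hb hc, rfl⟩

lemma exists_of_mem_D_succ {k : ℕ} {c : Fin d → ℤ} (hc : c ∈ D R B (k + 1)) :
    ∃ b ∈ B, ∃ c' ∈ D R B k, c = b + R *ᵥ c' := by
  classical
  rw [D, Finset.mem_image] at hc
  obtain ⟨⟨b, c'⟩, hp, rfl⟩ := hc
  rw [Finset.mem_product] at hp
  exact ⟨b, hp.1, c', hp.2, rfl⟩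

lemma D_one : D R B 1 = B := by
  ext c
  constructor
  · intro h
    obtain ⟨b, hb, c', hc', rfl⟩ := exists_of_mem_D_succ h
    rw [D, Finset.mem_singleton] at hc'
    rw [hc', Matrix.mulVec_zero, add_zero]
    exact hb
  · intro h
    have : c + R *ᵥ 0 ∈ D R B (0 + 1) := mem_D_succ h (by rw [D]; exact Finset.mem_singleton_self 0)
    rwa [Matrix.mulVec_zero, add_zero] at this

lemma D_nonempty (hB : B.Nonempty) (k : ℕ) : (D R B k).Nonempty := by
  induction k with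
  | zero => rw [D]; exact Finset.singleton_nonempty 0
  | succ k ih =>
    obtain ⟨c, hc⟩ := ih
    obtain ⟨b, hb⟩ := hB
    exact ⟨_, mem_D_succ hb hc⟩

section attractor
variable {T : Set (Fin d → ℝ)} (hT : T = ⋃ b ∈ B, psi R 1 b '' T)
include hT

lemma psi_mem (hR : Expanding R) (k : ℕ) : ∀ c ∈ D R B k, ∀ x ∈ T, psi R k c x ∈ T := by
  induction k with
  | zero =>
    intro c hc x hx
    rw [D, Finset.mem_singleton] at hc
    rw [hc, psi_zero]
    exact hx
  | succ k ih =>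
    intro c hc x hx
    obtain ⟨b, hb, c', hc', rfl⟩ := exists_of_mem_D_succ hc
    rw [psi_succ hR]
    apply ih c' hc'
    rw [hT]
    exact Set.mem_biUnion hb (Set.mem_image_of_mem _ hx)

lemma exists_psi (hR : Expanding R) (k : ℕ) : ∀ x ∈ T, ∃ c ∈ D R B k, ∃ y ∈ T, psi R k c y = x := by
  induction k with
  | zero =>
    intro x hx
    exact ⟨0, by rw [D]; exact Finset.mem_singleton_self 0, x, hx, psi_zero x⟩
  | succ k ih =>
    intro x hx
    obtain ⟨c, hc, y, hy, rfl⟩ := ih x hx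
    rw [hT] at hy
    obtain ⟨b, hb, z, hz, rfl⟩ := Set.mem_iUnion₂.1 hy
    exact ⟨_, mem_D_succ hb hc, z, hz, psi_succ hR k b c z⟩

end attractor

section measure
variable {μ : Measure (Fin d → ℝ)} [IsProbabilityMeasure μ]
  (hμ : μ = ∑ b ∈ B, ((B.card : ℝ≥0∞)⁻¹) • μ.map (psi R 1 b))
include hμ

lemma B_nonempty : B.Nonempty := by
  by_contra h
  rw [Finset.not_nonempty_iff_eq_empty] at h
  rw [h, Finset.sum_empty] at hμ
  have := IsProbabilityMeasure.ne_zero μ
  exact this hμ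

lemma inv_apply (E : Set (Fin d → ℝ)) (hE : MeasurableSet E) :
    μ E = (B.card : ℝ≥0∞)⁻¹ * ∑ b ∈ B, μ (psi R 1 b ⁻¹' E) := by
  conv_lhs => rw [hμ]
  rw [Measure.coe_finsetSum, Finset.sum_apply, Finset.mul_sum]
  apply Finset.sum_congr rfl
  intro b _
  rw [Measure.smul_apply, Measure.map_apply (psi_meas 1 b) hE, smul_eq_mul]

lemma le_of_forall (hR : Expanding R) (t : ℝ≥0∞) (k : ℕ) : ∀ E : Set (Fin d → ℝ), MeasurableSet E →
    (∀ c ∈ D R B k, μ (psi R k c ⁻¹' E) ≤ t) → μ E ≤ t := by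
  induction k with
  | zero =>
    intro E hE h
    have := h 0 (by rw [D]; exact Finset.mem_singleton_self 0)
    have e : psi R 0 0 ⁻¹' E = E := by ext x; simp [psi_zero]
    rwa [e] at this
  | succ k ih =>
    intro E hE h
    apply ih E hE
    intro c hc
    rw [inv_apply hμ _ (psi_meas k c hE)]
    have hN : (B.card : ℝ≥0∞) ≠ 0 := by
      have := (B_nonempty hμ).card_pos
      exact_mod_cast this.ne'
    calc (B.card : ℝ≥0∞)⁻¹ * ∑ b ∈ B, μ (psi R 1 b ⁻¹' (psi R k c ⁻¹' E))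
        ≤ (B.card : ℝ≥0∞)⁻¹ * ∑ b ∈ B, t := by
          gcongr with b hb
          have e : psi R 1 b ⁻¹' (psi R k c ⁻¹' E) = psi R (k + 1) (b + R *ᵥ c) ⁻¹' E := by
            ext x
            simp only [Set.mem_preimage, psi_succ hR]
          rw [e]
          exact h _ (mem_D_succ hb hc)
      _ = t := by
          rw [Finset.sum_const, nsmul_eq_mul, ← mul_assoc, ENNReal.inv_mul_cancel hN (by simp), one_mul]

lemma ge_of_mem (hR : Expanding R) (k : ℕ) : ∀ E : Set (Fin d → ℝ), MeasurableSet E →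
    ∀ c ∈ D R B k, ((B.card : ℝ≥0∞)⁻¹) ^ k * μ (psi R k c ⁻¹' E) ≤ μ E := by
  induction k with
  | zero =>
    intro E hE c hc
    rw [D, Finset.mem_singleton] at hc
    rw [hc]
    have e : psi R 0 0 ⁻¹' E = E := by ext x; simp [psi_zero]
    rw [e, pow_zero, one_mul]
  | succ k ih =>
    intro E hE c hc
    obtain ⟨b, hb, c', hc', rfl⟩ := exists_of_mem_D_succ hc
    refine le_trans ?_ (ih E hE c' hc')
    rw [pow_succ, mul_assoc]
    gcongr
    rw [inv_apply hμ _ (psi_meas k c' hE)]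
    gcongr
    have e : psi R (k + 1) (b + R *ᵥ c') ⁻¹' E = psi R 1 b ⁻¹' (psi R k c' ⁻¹' E) := by
      ext x
      simp only [Set.mem_preimage, psi_succ hR]
    rw [e]
    exact Finset.single_le_sum (f := fun b => μ (psi R 1 b ⁻¹' (psi R k c' ⁻¹' E)))
      (fun _ _ => bot_le) hb

variable {T : Set (Fin d → ℝ)} (hT : T = ⋃ b ∈ B, psi R 1 b '' T) (hTc : IsCompact T)
  (hTn : T.Nonempty)
include hT hTc hTn

lemma supp (hR : Expanding R) : μ Tᶜ = 0 := by
  obtain ⟨t0, ht0⟩ := hTn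
  -- tightness
  have htight : ∀ δ : ℝ≥0∞, 0 < δ → ∃ C : ℕ, μ {x | (C : ℝ) < ‖x - t0‖} < δ := by
    intro δ hδ
    have hanti : Antitone (fun n : ℕ => {x : Fin d → ℝ | (n : ℝ) < ‖x - t0‖}) := by
      intro m n hmn x hx
      have h1 : (m : ℝ) ≤ n := by exact_mod_cast hmn
      exact lt_of_le_of_lt h1 hx
    have hmeas : ∀ n : ℕ, MeasurableSet {x : Fin d → ℝ | (n : ℝ) < ‖x - t0‖} := by
      intro n
      exact (isOpen_lt continuous_const (by fun_prop)).measurableSet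
    have hinter : ⋂ n : ℕ, {x : Fin d → ℝ | (n : ℝ) < ‖x - t0‖} = ∅ := by
      ext x
      simp only [Set.mem_iInter, Set.mem_ofPred_eq, Set.mem_empty_iff_false, iff_false, not_forall, not_lt]
      obtain ⟨n, hn⟩ := exists_nat_gt ‖x - t0‖
      exact ⟨n, hn.le⟩
    have hlim := tendsto_measure_iInter_atTop (μ := μ) (fun n => (hmeas n).nullMeasurableSet) hanti
      ⟨0, measure_ne_top μ _⟩
    rw [hinter, measure_empty] at hlim
    exact (hlim.eventually (gt_mem_nhds hδ)).exists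
  have hclosed := hTc.isClosed
  have hE : ∀ n : ℕ, μ {x | (1 / ((n : ℝ) + 1)) ≤ Metric.infDist x T} = 0 := by
    intro n
    set ε : ℝ := 1 / ((n : ℝ) + 1) with hε
    have hεpos : 0 < ε := by positivity
    have hmeas : MeasurableSet {x | ε ≤ Metric.infDist x T} :=
      (isClosed_le continuous_const (Metric.continuous_infDist_pt T)).measurableSet
    apply le_antisymm _ bot_le
    apply le_of_forall_pos_le_add
    intro δ hδ
    rw [bot_eq_zero, zero_add]
    obtain ⟨C, hC⟩ := htight δ hδ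
    obtain ⟨k, hk⟩ := (inv_pow_small R hR C ε hεpos).exists
    apply le_of_forall hμ hR δ k _ hmeas
    intro c hc
    refine le_trans (measure_mono ?_) hC.le
    intro x hx
    simp only [Set.mem_preimage, Set.mem_ofPred_eq] at hx ⊢
    by_contra hcon
    push Not at hcon
    have h1 := hk (x - t0) hcon
    have h2 : Metric.infDist (psi R k c x) T ≤ dist (psi R k c x) (psi R k c t0) :=
      Metric.infDist_le_dist_of_mem (psi_mem hT hR k c hc t0 ht0)
    have h3 : dist (psi R k c x) (psi R k c t0) = ‖(AR R)⁻¹ ^ k *ᵥ (x - t0)‖ := by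
      rw [dist_eq_norm]
      unfold psi
      rw [← Matrix.mulVec_sub]
      congr 2
      abel
    rw [h3] at h2
    exact absurd (lt_of_le_of_lt (le_trans hx h2) h1) (lt_irrefl _)
  have hcov : Tᶜ ⊆ ⋃ n : ℕ, {x | (1 / ((n : ℝ) + 1)) ≤ Metric.infDist x T} := by
    intro x hx
    have hpos : 0 < Metric.infDist x T := by
      rcases (Metric.infDist_nonneg (x := x) (s := T)).lt_or_eq with h | h
      · exact h
      · exact absurd ((hclosed.mem_iff_infDist_zero ⟨t0, ht0⟩).2 h.symm) hx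
    obtain ⟨n, hn⟩ := exists_nat_one_div_lt hpos
    exact Set.mem_iUnion.2 ⟨n, hn.le⟩
  exact measure_mono_null hcov (measure_iUnion_null hE)

/-- open sets meeting the attractor have positive measure -/
lemma pos_of_open (hR : Expanding R) (G : Set (Fin d → ℝ)) (hG : IsOpen G) (t : Fin d → ℝ)
    (ht : t ∈ T) (htG : t ∈ G) : μ G ≠ 0 := by
  obtain ⟨ε, hε, hball⟩ := Metric.isOpen_iff.1 hG t htG
  obtain ⟨C, hC⟩ := hTc.isBounded.exists_norm_le
  obtain ⟨k, hk⟩ := (inv_pow_small R hR (2 * C) ε hε).exists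
  obtain ⟨c, hc, y, hy, hyt⟩ := exists_psi hT hR k t ht
  have h1 := ge_of_mem hμ hR k G hG.measurableSet c hc
  have h2 : T ⊆ psi R k c ⁻¹' G := by
    intro x hx
    apply hball
    rw [Metric.mem_ball, ← hyt, dist_eq_norm]
    have h3 : psi R k c x - psi R k c y = (AR R)⁻¹ ^ k *ᵥ (x - y) := by
      unfold psi
      rw [← Matrix.mulVec_sub]
      congr 1
      abel
    rw [h3]
    apply hk
    calc ‖x - y‖ ≤ ‖x‖ + ‖y‖ := norm_sub_le _ _
      _ ≤ 2 * C := by linarith [hC x hx, hC y hy]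
  have h4 : μ (psi R k c ⁻¹' G) = 1 := by
    apply le_antisymm prob_le_one
    have h5 : μ T = 1 :=
      (prob_compl_eq_zero_iff hTc.isClosed.measurableSet).1 (supp hμ hT hTc hTn hR)
    rw [← h5]
    exact measure_mono h2
  rw [h4, mul_one] at h1
  intro h0
  rw [h0] at h1
  have : ((B.card : ℝ≥0∞)⁻¹) ^ k ≠ 0 := pow_ne_zero _ (ENNReal.inv_ne_zero.2 (by simp))
  exact this (le_antisymm h1 bot_le)


/-- injectivity of the digit expansion at level `k` -/
def Inj (R : Matrix (Fin d) (Fin d) ℤ) (B : Finset (Fin d → ℤ)) (k : ℕ) : Prop :=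
  ∀ b ∈ B, ∀ b' ∈ B, ∀ c ∈ D R B k, ∀ c' ∈ D R B k, b + R *ᵥ c = b' + R *ᵥ c' → b = b' ∧ c = c'

/-- the refinement formula at level `k` -/
def Form (μ : Measure (Fin d → ℝ)) (R : Matrix (Fin d) (Fin d) ℤ) (B : Finset (Fin d → ℤ)) (k : ℕ) :
    Prop :=
  ∀ E : Set (Fin d → ℝ), MeasurableSet E →
    μ E = ((B.card : ℝ≥0∞)⁻¹) ^ k * ∑ c ∈ D R B k, μ (psi R k c ⁻¹' E)

omit hT hTc hTn in
lemma form_pair (hR : Expanding R) (k : ℕ) (hF : Form μ R B k) (E : Set (Fin d → ℝ))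
    (hE : MeasurableSet E) :
    μ E = ((B.card : ℝ≥0∞)⁻¹) ^ (k + 1) *
      ∑ p ∈ B ×ˢ D R B k, μ (psi R (k + 1) (p.1 + R *ᵥ p.2) ⁻¹' E) := by
  rw [hF E hE, pow_succ, mul_assoc]
  congr 1
  rw [Finset.sum_product_right, Finset.mul_sum]
  apply Finset.sum_congr rfl
  intro c hc
  rw [inv_apply hμ _ (psi_meas k c hE)]
  congr 1
  apply Finset.sum_congr rfl
  intro b hb
  congr 1
  ext x
  simp only [Set.mem_preimage, psi_succ hR]

omit hμ hTc hTn in
lemma cover_pair (hR : Expanding R) (k : ℕ) (x : Fin d → ℝ) (hx : x ∈ T) :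
    ∃ p ∈ B ×ˢ D R B k, ∃ y ∈ T, psi R (k + 1) (p.1 + R *ᵥ p.2) y = x := by
  obtain ⟨c, hc, y, hy, rfl⟩ := exists_psi hT hR k x hx
  rw [hT] at hy
  obtain ⟨b, hb, z, hz, rfl⟩ := Set.mem_iUnion₂.1 hy
  exact ⟨(b, c), Finset.mk_mem_product hb hc, z, hz, psi_succ hR k b c z⟩

omit hμ in
/-- the farthest point has a unique coding -/
lemma far_unique (hR : Expanding R) (k : ℕ) : ∃ t ∈ T, ∀ p ∈ B ×ˢ D R B k, ∀ q ∈ B ×ˢ D R B k,
    t ∈ psi R (k + 1) (p.1 + R *ᵥ p.2) '' T → t ∈ psi R (k + 1) (q.1 + R *ᵥ q.2) '' T → p = q := by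
  obtain ⟨t, ht, hmax⟩ := hTc.exists_isMaxOn hTn
    (f := fun x : Fin d → ℝ => ∑ i, x i ^ 2) (by fun_prop)
  have hmid : ∀ v : Fin d → ℝ, t + v ∈ T → t - v ∈ T → v = 0 := by
    intro v h1 h2
    have e1 : ∑ i, (t + v) i ^ 2 ≤ ∑ i, t i ^ 2 := hmax h1
    have e2 : ∑ i, (t - v) i ^ 2 ≤ ∑ i, t i ^ 2 := hmax h2
    have e3 : ∑ i, (t + v) i ^ 2 + ∑ i, (t - v) i ^ 2 = 2 * ∑ i, t i ^ 2 + 2 * ∑ i, v i ^ 2 := by
      rw [← Finset.sum_add_distrib, Finset.mul_sum, Finset.mul_sum, ← Finset.sum_add_distrib]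
      apply Finset.sum_congr rfl
      intro i _
      simp only [Pi.add_apply, Pi.sub_apply]
      ring
    have e4 : ∑ i, v i ^ 2 ≤ 0 := by linarith
    have e5 : ∑ i, v i ^ 2 = 0 := le_antisymm e4 (Finset.sum_nonneg fun i _ => sq_nonneg _)
    funext i
    have := (Finset.sum_eq_zero_iff_of_nonneg (fun i _ => sq_nonneg (v i))).1 e5 i (Finset.mem_univ i)
    simpa using this
  refine ⟨t, ht, ?_⟩
  rintro ⟨b, c⟩ hp ⟨b', c'⟩ hq ⟨s, hs, hst⟩ ⟨s', hs', hst'⟩
  rw [Finset.mem_product] at hp hq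
  simp only at hp hq hst hst'
  have key : ∀ (b : Fin d → ℤ) (c : Fin d → ℤ) (s : Fin d → ℝ), psi R (k + 1) (b + R *ᵥ c) s =
      (AR R)⁻¹ ^ (k + 1) *ᵥ (s + ic b) + (AR R)⁻¹ ^ k *ᵥ ic c := by
    intro b c s
    unfold psi
    rw [ic_add, ic_mulVec, ← add_assoc, Matrix.mulVec_add _ (s + ic b), Matrix.mulVec_mulVec _ _ (AR R),
      pow_succ, mul_assoc, inv_mul hR, mul_one]
  have hc : c = c' := by
    have h1 : t + (AR R)⁻¹ ^ k *ᵥ (ic c' - ic c) ∈ T := by
      have := psi_mem hT hR (k + 1) _ (mem_D_succ hp.1 hq.2) s hs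
      rw [key] at this
      rw [← hst, key, Matrix.mulVec_sub]
      convert this using 1
      abel
    have h2 : t - (AR R)⁻¹ ^ k *ᵥ (ic c' - ic c) ∈ T := by
      have := psi_mem hT hR (k + 1) _ (mem_D_succ hq.1 hp.2) s' hs'
      rw [key] at this
      rw [← hst', key, Matrix.mulVec_sub]
      convert this using 1
      abel
    have h3 := hmid _ h1 h2
    have h4 : ic c' - ic c = 0 := by
      apply invpow_inj hR k
      rw [h3, Matrix.mulVec_zero]
    exact (ic_inj (sub_eq_zero.1 h4)).symm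
  subst hc
  have hb : b = b' := by
    have h1 : t + (AR R)⁻¹ ^ (k + 1) *ᵥ (ic b' - ic b) ∈ T := by
      have := psi_mem hT hR (k + 1) _ (mem_D_succ hq.1 hp.2) s hs
      rw [key, Matrix.mulVec_add] at this
      rw [← hst, key, Matrix.mulVec_sub, Matrix.mulVec_add]
      convert this using 1
      abel
    have h2 : t - (AR R)⁻¹ ^ (k + 1) *ᵥ (ic b' - ic b) ∈ T := by
      have := psi_mem hT hR (k + 1) _ (mem_D_succ hp.1 hp.2) s' hs'
      rw [key, Matrix.mulVec_add] at this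
      rw [← hst', key, Matrix.mulVec_sub, Matrix.mulVec_add]
      convert this using 1
      abel
    have h3 := hmid _ h1 h2
    have h4 : ic b' - ic b = 0 := by
      apply invpow_inj hR (k + 1)
      rw [h3, Matrix.mulVec_zero]
    exact (ic_inj (sub_eq_zero.1 h4)).symm
  rw [hb]

/-- spectral measures have no exact overlaps -/
lemma inj_step (hR : Expanding R) (hs : IsSpectral μ) (k : ℕ) (hF : Form μ R B k) : Inj R B k := by
  classical
  by_contra hcon
  unfold Inj at hcon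
  push Not at hcon
  obtain ⟨b1, hb1, b2, hb2, c1, hc1, c2, hc2, heq, hne⟩ := hcon
  set P := B ×ˢ D R B k with hP
  let g : (Fin d → ℤ) × (Fin d → ℤ) → (Fin d → ℝ) → (Fin d → ℝ) :=
    fun p => psi R (k + 1) (p.1 + R *ᵥ p.2)
  have hp1 : (b1, c1) ∈ P := Finset.mk_mem_product hb1 hc1
  have hp2 : (b2, c2) ∈ P := Finset.mk_mem_product hb2 hc2
  have hpne : (b1, c1) ≠ (b2, c2) := by
    intro h
    rw [Prod.mk.injEq] at h
    exact hne h.1 h.2
  obtain ⟨t, ht, huniq⟩ := far_unique hT hTc hTn hR k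
  obtain ⟨ps, hps, y, hy, hyt⟩ := cover_pair hT hR k t ht
  have hclosed : IsClosed (⋃ p ∈ P.erase ps, g p '' T) := by
    apply Set.Finite.isClosed_biUnion (Finset.finite_toSet (P.erase ps))
    intro p _
    exact (hTc.image (psi_cont (k + 1) _)).isClosed
  set G : Set (Fin d → ℝ) := (⋃ p ∈ P.erase ps, g p '' T)ᶜ with hG
  have hGo : IsOpen G := hclosed.isOpen_compl
  have htG : t ∈ G := by
    intro h
    obtain ⟨p, hp, h2⟩ := Set.mem_iUnion₂.1 h
    rw [Finset.mem_erase] at hp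
    exact hp.1 (huniq p hp.2 ps hps h2 ⟨y, hy, hyt⟩)
  have hpos := pos_of_open hμ hT hTc hTn hR G hGo t ht htG
  apply hpos
  set N1 : ℝ≥0∞ := ((B.card : ℝ≥0∞)⁻¹) ^ (k + 1) with hN1
  let a : Fin d → ℝ := (AR R)⁻¹ ^ (k + 1) *ᵥ (ic (ps.1 + R *ᵥ ps.2) - ic (b1 + R *ᵥ c1))
  have hga : ∀ x, g ps x - a = g (b1, c1) x := by
    intro x
    simp only [g, a]
    unfold psi
    rw [← Matrix.mulVec_sub]
    congr 1
    abel
  apply no_half μ hs G hGo.measurableSet a
  intro E' hE'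
  have hmeas : MeasurableSet (G ∩ {x | x - a ∈ E'}) :=
    hGo.measurableSet.inter (measurable_sub_const a hE')
  have hleft : μ (G ∩ {x | x - a ∈ E'}) ≤ N1 * μ (g (b1, c1) ⁻¹' E') := by
    rw [form_pair hμ hR k hF _ hmeas]
    gcongr
    rw [Finset.sum_eq_single ps]
    · apply measure_mono
      intro x hx
      have := hx.2
      simp only [Set.mem_ofPred_eq] at this
      show g (b1, c1) x ∈ E'
      rw [← hga]
      exact this
    · intro p hp hpp
      apply measure_mono_null _ (supp hμ hT hTc hTn hR)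
      intro x hx hxT
      apply hx.1
      exact Set.mem_iUnion₂.2 ⟨p, Finset.mem_erase.2 ⟨hpp, hp⟩, x, hxT, rfl⟩
    · intro h; exact absurd hps h
  have hright : 2 * (N1 * μ (g (b1, c1) ⁻¹' E')) ≤ μ E' := by
    have hg12 : g (b2, c2) = g (b1, c1) := by
      simp only [g]
      rw [heq]
    rw [form_pair hμ hR k hF E' hE', ← hN1, ← mul_assoc, mul_comm 2 N1, mul_assoc]
    gcongr
    calc 2 * μ (g (b1, c1) ⁻¹' E') = ∑ p ∈ ({(b1, c1), (b2, c2)} : Finset _), μ (g p ⁻¹' E') := by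
          rw [Finset.sum_pair hpne, hg12, two_mul]
      _ ≤ ∑ p ∈ P, μ (g p ⁻¹' E') := by
          apply Finset.sum_le_sum_of_subset
          intro p hp
          rw [Finset.mem_insert, Finset.mem_singleton] at hp
          rcases hp with rfl | rfl
          · exact hp1
          · exact hp2
  calc μ (G ∩ {x | x - a ∈ E'}) ≤ N1 * μ (g (b1, c1) ⁻¹' E') := hleft
    _ = (1 / 2) * (2 * (N1 * μ (g (b1, c1) ⁻¹' E'))) := by
        rw [← mul_assoc, one_div, ENNReal.inv_mul_cancel (by norm_num) (by norm_num), one_mul]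
    _ ≤ (1 / 2) * μ E' := by gcongr

lemma form_all (hR : Expanding R) (hs : IsSpectral μ) (k : ℕ) : Form μ R B k := by
  classical
  induction k with
  | zero =>
    intro E hE
    have e : psi R 0 0 ⁻¹' E = E := by ext x; simp [psi_zero]
    rw [D, Finset.sum_singleton, e, pow_zero, one_mul]
  | succ k ih =>
    intro E hE
    rw [form_pair hμ hR k ih E hE]
    congr 1
    rw [D, Finset.sum_image]
    rintro ⟨b, c⟩ hp ⟨b', c'⟩ hq h
    rw [Finset.mem_coe, Finset.mem_product] at hp hq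
    obtain ⟨h1, h2⟩ := inj_step hμ hT hTc hTn hR hs k ih b hp.1 b' hq.1 c hp.2 c' hq.2 h
    rw [h1, h2]

lemma inj_all (hR : Expanding R) (hs : IsSpectral μ) (k : ℕ) : Inj R B k :=
  inj_step hμ hT hTc hTn hR hs k (form_all hμ hT hTc hTn hR hs k)

end measure

end Pool.Agent.R226.SA
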