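import Pool.Agent.R226.SB

/-!
# Self-affine measures: injective digit expansions have no overlap
-/

set_option autoImplicit false
set_option linter.unusedSimpArgs false
set_option linter.unusedVariables false
set_option linter.unusedSectionVars false

open MeasureTheory Filter Topology Matrix
open scoped ENNReal NNReal

namespace Pool.Agent.R226.SA

variable {d : ℕ} {R : Matrix (Fin d) (Fin d) ℤ} {B : Finset (Fin d → ℤ)}

lemma add_mem_D (k : ℕ) (w : Fin d → ℤ) (hw : w ∈ D R B k) : ∀ K, ∀ v ∈ D R B K,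
    v + (R ^ K) *ᵥ w ∈ D R B (k + K) := by
  intro K
  induction K with
  | zero =>
    intro v hv
    rw [D, Finset.mem_singleton] at hv
    rw [hv, pow_zero, Matrix.one_mulVec, zero_add]
    exact hw
  | succ K ih =>
    intro v hv
    obtain ⟨b, hb, v', hv', rfl⟩ := exists_of_mem_D_succ hv
    have h := mem_D_succ hb (ih v' hv')
    rw [Matrix.mulVec_add, Matrix.mulVec_mulVec, ← add_assoc, ← pow_succ'] at h
    exact h

lemma add_inj (hinj : ∀ k, Inj R B k) (k : ℕ) (w w' : Fin d → ℤ) (hw : w ∈ D R B k)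
    (hw' : w' ∈ D R B k) : ∀ K, ∀ v ∈ D R B K, ∀ v' ∈ D R B K,
    v + (R ^ K) *ᵥ w = v' + (R ^ K) *ᵥ w' → v = v' ∧ w = w' := by
  intro K
  induction K with
  | zero =>
    intro v hv v' hv' h
    rw [D, Finset.mem_singleton] at hv hv'
    rw [hv, hv', pow_zero, Matrix.one_mulVec, Matrix.one_mulVec, zero_add, zero_add] at h
    exact ⟨by rw [hv, hv'], h⟩
  | succ K ih =>
    intro v hv v' hv' h
    obtain ⟨b, hb, u, hu, rfl⟩ := exists_of_mem_D_succ hv
    obtain ⟨b', hb', u', hu', rfl⟩ := exists_of_mem_D_succ hv'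
    have e : ∀ (b u w : Fin d → ℤ), b + R *ᵥ u + (R ^ (K + 1)) *ᵥ w = b + R *ᵥ (u + (R ^ K) *ᵥ w) := by
      intro b u w
      rw [Matrix.mulVec_add, Matrix.mulVec_mulVec, ← add_assoc, ← pow_succ']
    rw [e, e] at h
    obtain ⟨h1, h2⟩ := hinj (k + K) b hb b' hb' _ (add_mem_D k w hw K u hu) _ (add_mem_D k w' hw' K u' hu') h
    obtain ⟨h3, h4⟩ := ih u hu u' hu' h2
    exact ⟨by rw [h1, h3], h4⟩

open Classical in
/-- neighbours of `c` among the digits of level `k` -/
noncomputable def nb (R : Matrix (Fin d) (Fin d) ℤ) (B : Finset (Fin d → ℤ)) (T : Set (Fin d → ℝ)) (k : ℕ)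
    (c : Fin d → ℤ) : Finset (Fin d → ℤ) :=
  (D R B k).filter (fun c' => ∃ x ∈ T, ∃ y ∈ T, x + ic c = y + ic c')

lemma finite_diff {T : Set (Fin d → ℝ)} (hTc : IsCompact T) :
    {z : Fin d → ℤ | ∃ x ∈ T, ∃ y ∈ T, x = y + ic z}.Finite := by
  obtain ⟨C, hC⟩ := hTc.isBounded.exists_norm_le
  obtain ⟨n, hn⟩ := exists_nat_gt (2 * C)
  apply (Set.finite_Icc (fun _ : Fin d => (-(n : ℤ))) (fun _ => (n : ℤ))).subset
  rintro z ⟨x, hx, y, hy, hxy⟩
  have h1 : ∀ i, |(z i : ℝ)| ≤ n := by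
    intro i
    have h2 : (z i : ℝ) = x i - y i := by
      have := congrFun hxy i
      simp only [Pi.add_apply, ic] at this
      linarith
    have h3 : |x i| ≤ C := le_trans (norm_le_pi_norm x i) (hC x hx)
    have h4 : |y i| ≤ C := le_trans (norm_le_pi_norm y i) (hC y hy)
    rw [h2]
    calc |x i - y i| ≤ |x i| + |y i| := abs_sub _ _
      _ ≤ n := by linarith
  rw [Set.mem_Icc]
  constructor
  · intro i
    have := (abs_le.1 (h1 i)).1
    exact_mod_cast this
  · intro i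
    have := (abs_le.1 (h1 i)).2
    exact_mod_cast this

lemma nb_card {T : Set (Fin d → ℝ)} (hTc : IsCompact T) :
    ∃ M : ℕ, ∀ k c, (nb R B T k c).card ≤ M := by
  classical
  refine ⟨(finite_diff hTc).toFinset.card, fun k c => ?_⟩
  apply Finset.card_le_card_of_injOn (fun c' => c' - c)
  · intro c' hc'
    rw [Finset.mem_coe, nb, Finset.mem_filter] at hc'
    obtain ⟨_, x, hx, y, hy, hxy⟩ := hc'
    rw [Finset.mem_coe, Set.Finite.mem_toFinset]
    refine ⟨x, hx, y, hy, ?_⟩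
    rw [ic_sub, ← add_sub_assoc, ← hxy]
    abel
  · intro c1 _ c2 _ h
    exact sub_left_injective h

/-- A word with the largest number of neighbours. -/
lemma exists_max {T : Set (Fin d → ℝ)} (hTc : IsCompact T) : ∃ K, ∃ v ∈ D R B K,
    ∀ k, ∀ c ∈ D R B k, (nb R B T k c).card ≤ (nb R B T K v).card := by
  obtain ⟨M, hM⟩ := nb_card (R := R) (B := B) hTc
  let S : Set ℕ := {m | ∃ K, ∃ v ∈ D R B K, m = (nb R B T K v).card}
  have hne : S.Nonempty := ⟨_, 0, 0, by rw [D]; exact Finset.mem_singleton_self 0, rfl⟩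
  have hbdd : BddAbove S := ⟨M, by rintro m ⟨K, v, _, rfl⟩; exact hM K v⟩
  obtain ⟨K, v, hv, hS⟩ := Nat.sSup_mem hne hbdd
  refine ⟨K, v, hv, fun k c hc => ?_⟩
  rw [← hS]
  exact le_csSup hbdd ⟨k, c, hc, rfl⟩

/-- For a maximal word `v`, the pieces `w v` avoid all other pieces of the level of `w`. -/
lemma maximal_disjoint {T : Set (Fin d → ℝ)} (hinj : ∀ k, Inj R B k) (K : ℕ) (v : Fin d → ℤ)
    (hv : v ∈ D R B K)
    (hmax : ∀ k, ∀ c ∈ D R B k, (nb R B T k c).card ≤ (nb R B T K v).card)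
    (k : ℕ) (w w' : Fin d → ℤ) (hw : w ∈ D R B k) (hw' : w' ∈ D R B k) (hne : w ≠ w')
    (u' : Fin d → ℤ) (hu' : u' ∈ D R B K) :
    ¬ ∃ x ∈ T, ∃ y ∈ T, x + ic (v + (R ^ K) *ᵥ w) = y + ic (u' + (R ^ K) *ᵥ w') := by
  classical
  intro hcon
  have hsub : (nb R B T K v).image (fun u => u + (R ^ K) *ᵥ w) ⊆ nb R B T (k + K) (v + (R ^ K) *ᵥ w) := by
    intro c hc
    rw [Finset.mem_image] at hc
    obtain ⟨u, hu, rfl⟩ := hc
    rw [nb, Finset.mem_filter] at hu ⊢
    obtain ⟨hu1, x, hx, y, hy, hxy⟩ := hu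
    refine ⟨add_mem_D k w hw K u hu1, x, hx, y, hy, ?_⟩
    rw [ic_add, ic_add, ← add_assoc, ← add_assoc, hxy]
  have hcard : ((nb R B T K v).image (fun u => u + (R ^ K) *ᵥ w)).card = (nb R B T K v).card :=
    Finset.card_image_of_injective _ (add_left_injective _)
  have hle := hmax (k + K) _ (add_mem_D k w hw K v hv)
  have heq := Finset.eq_of_subset_of_card_le hsub (by rw [hcard]; exact hle)
  have hmem : u' + (R ^ K) *ᵥ w' ∈ nb R B T (k + K) (v + (R ^ K) *ᵥ w) := by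
    rw [nb, Finset.mem_filter]
    exact ⟨add_mem_D k w' hw' K u' hu', hcon⟩
  rw [← heq, Finset.mem_image] at hmem
  obtain ⟨u, hu, hu2⟩ := hmem
  rw [nb, Finset.mem_filter] at hu
  exact hne (add_inj hinj k w w' hw hw' K u hu.1 u' hu' hu2).2

/-- the part of `T` which, placed in the piece `w`, is covered by another piece of the same level -/
def Ov (R : Matrix (Fin d) (Fin d) ℤ) (B : Finset (Fin d → ℤ)) (T : Set (Fin d → ℝ)) (k : ℕ)
    (w : Fin d → ℤ) : Set (Fin d → ℝ) :=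
  ⋃ w' ∈ (D R B k : Set (Fin d → ℤ)) \ {w}, {x | ∃ y ∈ T, x + ic w = y + ic w'}

lemma Ov_meas {T : Set (Fin d → ℝ)} (hTc : IsCompact T) (k : ℕ) (w : Fin d → ℤ) :
    MeasurableSet (Ov R B T k w) := by
  unfold Ov
  apply MeasurableSet.biUnion
  · exact ((Finset.finite_toSet _).subset Set.sdiff_subset).countable
  · intro w' _
    have : {x | ∃ y ∈ T, x + ic w = y + ic w'} = (fun x : Fin d → ℝ => x + ic w - ic w') ⁻¹' T := by
      ext x
      simp only [Set.mem_ofPred_eq, Set.mem_preimage]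
      constructor
      · rintro ⟨y, hy, h⟩
        rw [h, add_sub_cancel_right]
        exact hy
      · intro h
        exact ⟨_, h, by abel⟩
    rw [this]
    exact (hTc.isClosed.preimage (by fun_prop)).measurableSet

lemma card_D (hinj : ∀ k, Inj R B k) (k : ℕ) : (D R B k).card = B.card ^ k := by
  classical
  induction k with
  | zero => rw [D, Finset.card_singleton, pow_zero]
  | succ k ih =>
    rw [D, Finset.card_image_of_injOn, Finset.card_product, ih, pow_succ']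
    rintro ⟨b, c⟩ hp ⟨b', c'⟩ hq h
    rw [Finset.mem_coe, Finset.mem_product] at hp hq
    obtain ⟨h1, h2⟩ := hinj k b hp.1 b' hq.1 c hp.2 c' hq.2 h
    rw [h1, h2]

section measure
variable {μ : Measure (Fin d → ℝ)} [IsProbabilityMeasure μ]
  (hμ : μ = ∑ b ∈ B, ((B.card : ℝ≥0∞)⁻¹) • μ.map (psi R 1 b))
  {T : Set (Fin d → ℝ)} (hT : T = ⋃ b ∈ B, psi R 1 b '' T) (hTc : IsCompact T)
  (hTn : T.Nonempty)
include hμ hT hTc hTn

lemma Ov_zero (hR : Expanding R) (hinj : ∀ k, Inj R B k) (hform : ∀ k, Form μ R B k) :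
    ∀ k, ∀ w ∈ D R B k, μ (Ov R B T k w) = 0 := by
  classical
  obtain ⟨K, v, hv, hmax⟩ := exists_max (R := R) (B := B) hTc
  set δ : ℝ≥0∞ := ⨆ k, ⨆ w ∈ D R B k, μ (Ov R B T k w) with hδ
  have hδ1 : δ ≤ 1 := iSup_le fun k => iSup₂_le fun w _ => prob_le_one
  have hle : ∀ k, ∀ w ∈ D R B k, μ (Ov R B T k w) ≤ δ := by
    intro k w hw
    refine le_trans ?_ (le_iSup _ k)
    exact le_iSup₂ (f := fun w _ => μ (Ov R B T k w)) w hw
  have hBpos : 0 < B.card := (B_nonempty hμ).card_pos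
  set q : ℝ≥0∞ := ((B.card : ℝ≥0∞)⁻¹) ^ K * ((B.card ^ K - 1 : ℕ) : ℝ≥0∞) with hq
  have hstep : ∀ k, ∀ w ∈ D R B k, μ (Ov R B T k w) ≤ q * δ := by
    intro k w hw
    rw [hform K _ (Ov_meas hTc k w), hq, mul_assoc]
    gcongr
    have hv0 : μ (psi R K v ⁻¹' (Ov R B T k w)) = 0 := by
      apply measure_mono_null _ (supp hμ hT hTc hTn hR)
      intro x hx hxT
      rw [Set.mem_preimage, Ov] at hx
      obtain ⟨w', hw', y, hy, hxy⟩ := Set.mem_iUnion₂.1 hx
      obtain ⟨hw'1, hw'2⟩ := hw'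
      obtain ⟨u', hu', z, hz, rfl⟩ := exists_psi hT hR K y hy
      apply maximal_disjoint hinj K v hv hmax k w w' hw hw'1 (fun h => hw'2 h.symm) u' hu'
      refine ⟨x, hxT, z, hz, ?_⟩
      unfold psi at hxy
      have h1 := congrArg (fun z => (AR R ^ K) *ᵥ z) hxy
      simp only [Matrix.mulVec_add, Matrix.mulVec_mulVec, powc hR K, Matrix.one_mulVec] at h1
      have h2 : ∀ c : Fin d → ℤ, ic ((R ^ K) *ᵥ c) = (AR R ^ K) *ᵥ ic c := by
        intro c
        rw [ic_mulVec]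
        congr 1
        unfold AR
        have := map_pow (Int.castRingHom ℝ).mapMatrix R K
        simpa [RingHom.mapMatrix_apply] using this
      rw [ic_add, ic_add, h2, h2, ← add_assoc, ← add_assoc]
      exact h1
    have hother : ∀ u ∈ D R B K, u ≠ v → μ (psi R K u ⁻¹' (Ov R B T k w)) ≤ δ := by
      intro u hu _
      refine le_trans (measure_mono ?_) (hle (k + K) _ (add_mem_D k w hw K u hu))
      intro x hx
      rw [Set.mem_preimage, Ov] at hx
      obtain ⟨w', hw', y, hy, hxy⟩ := Set.mem_iUnion₂.1 hx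
      obtain ⟨hw'1, hw'2⟩ := hw'
      obtain ⟨u', hu', z, hz, rfl⟩ := exists_psi hT hR K y hy
      unfold psi at hxy
      have h1 := congrArg (fun z => (AR R ^ K) *ᵥ z) hxy
      simp only [Matrix.mulVec_add, Matrix.mulVec_mulVec, powc hR K, Matrix.one_mulVec] at h1
      have h2 : ∀ c : Fin d → ℤ, ic ((R ^ K) *ᵥ c) = (AR R ^ K) *ᵥ ic c := by
        intro c
        rw [ic_mulVec]
        congr 1
        unfold AR
        have := map_pow (Int.castRingHom ℝ).mapMatrix R K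
        simpa [RingHom.mapMatrix_apply] using this
      rw [Ov]
      refine Set.mem_iUnion₂.2 ⟨u' + (R ^ K) *ᵥ w', ⟨add_mem_D k w' hw'1 K u' hu', ?_⟩, z, hz, ?_⟩
      · intro h
        exact hw'2 (add_inj hinj k w' w hw'1 hw K u' hu' u hu h).2
      · rw [ic_add, ic_add, h2, h2, ← add_assoc, ← add_assoc]
        exact h1
    calc ∑ u ∈ D R B K, μ (psi R K u ⁻¹' (Ov R B T k w))
        = ∑ u ∈ (D R B K).erase v, μ (psi R K u ⁻¹' (Ov R B T k w)) := by
          rw [← Finset.add_sum_erase _ _ hv, hv0, zero_add]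
      _ ≤ ∑ u ∈ (D R B K).erase v, δ := by
          apply Finset.sum_le_sum
          intro u hu
          rw [Finset.mem_erase] at hu
          exact hother u hu.2 hu.1
      _ = ((B.card ^ K - 1 : ℕ) : ℝ≥0∞) * δ := by
          rw [Finset.sum_const, nsmul_eq_mul, Finset.card_erase_of_mem hv, card_D hinj K]
  have hδq : δ ≤ q * δ := iSup_le fun k => iSup₂_le fun w hw => hstep k w hw
  have hq1 : q < 1 := by
    have hN : (B.card : ℝ≥0∞) ≠ 0 := by exact_mod_cast hBpos.ne'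
    have h1 : ((B.card ^ K - 1 : ℕ) : ℝ≥0∞) < (B.card : ℝ≥0∞) ^ K := by
      have : B.card ^ K - 1 < B.card ^ K := Nat.sub_lt (pow_pos hBpos K) one_pos
      exact_mod_cast this
    rw [hq, ← ENNReal.inv_pow, mul_comm, ← div_eq_mul_inv]
    exact ENNReal.div_lt_of_lt_mul (by rwa [one_mul])
  have hδ0 : δ = 0 := by
    by_contra hne
    have h1 : q * δ < 1 * δ := by
      apply ENNReal.mul_lt_mul_left
      all_goals first | exact hne | exact ne_top_of_le_ne_top ENNReal.one_ne_top hδ1 | exact hq1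
    rw [one_mul] at h1
    exact absurd (lt_of_le_of_lt hδq h1) (lt_irrefl _)
  intro k w hw
  exact le_antisymm (by rw [← hδ0]; exact hle k w hw) bot_le

/-- **Main theorem.** -/
theorem no_overlap (hR : Expanding R) (hs : IsSpectral μ) :
    ∀ b ∈ B, ∀ b' ∈ B, b ≠ b' → μ (psi R 1 b '' T ∩ psi R 1 b' '' T) = 0 := by
  intro b hb b' hb' hne
  have hinj := inj_all hμ hT hTc hTn hR hs
  have hform := form_all hμ hT hTc hTn hR hs
  have hov := Ov_zero hμ hT hTc hTn hR hinj hform 1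
  rw [D_one] at hov
  have hm : MeasurableSet (psi R 1 b '' T ∩ psi R 1 b' '' T) :=
    ((hTc.image (psi_cont 1 b)).isClosed.inter (hTc.image (psi_cont 1 b')).isClosed).measurableSet
  rw [inv_apply hμ _ hm]
  have h0 : ∀ β ∈ B, μ (psi R 1 β ⁻¹' (psi R 1 b '' T ∩ psi R 1 b' '' T)) = 0 := by
    intro β hβ
    refine measure_mono_null ?_ (hov β hβ)
    have key : ∀ b'' ∈ B, b'' ≠ β → ∀ x, psi R 1 β x ∈ psi R 1 b'' '' T → x ∈ Ov R B T 1 β := by
      intro b'' hb'' hne' x hx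
      obtain ⟨y, hy, hyx⟩ := hx
      rw [Ov]
      refine Set.mem_iUnion₂.2 ⟨b'', ⟨by rw [D_one]; exact hb'', hne'⟩, y, hy, ?_⟩
      exact (invpow_inj hR 1 hyx).symm
    intro x hx
    rw [Set.mem_preimage] at hx
    by_cases hbβ : b = β
    · exact key b' hb' (fun h => hne (by rw [hbβ, h])) x hx.2
    · exact key b hb hbβ x hx.1
  rw [Finset.sum_eq_zero h0, mul_zero]

end measure

end Pool.Agent.R226.SA
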