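import Mathlib

/-!
# Tridiagonal counterexample: the scalar recursion
-/

set_option autoImplicit false
set_option linter.unusedSimpArgs false
set_option linter.unusedVariables false

open Filter Topology

namespace Pool.Agent.R226.TD

noncomputable section

/-- weights -/
def hh (j : ℕ) : ℝ := if j < 3 then 200 else 1

/-- resistances -/
def rr (τ : ℝ) (j : ℕ) : ℝ := if j < 3 then 1 / 10000 else τ

/-- potential and flux -/
def S (τ : ℝ) (t : ℂ) : ℕ → ℂ × ℂ
  | 0 => (t, Complex.I * (hh 0 : ℂ) ^ 2 * t - (hh 0 : ℂ))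
  | j + 1 => ((S τ t j).1 + (rr τ j : ℂ) * (S τ t j).2,
      (S τ t j).2 + Complex.I * (hh (j + 1) : ℂ) ^ 2 * ((S τ t j).1 + (rr τ j : ℂ) * (S τ t j).2) -
        (hh (j + 1) : ℂ))

/-- potential -/
def g (τ : ℝ) (t : ℂ) (j : ℕ) : ℂ := (S τ t j).1
/-- flux -/
def Ph (τ : ℝ) (t : ℂ) (j : ℕ) : ℂ := (S τ t j).2

lemma g_zero (τ : ℝ) (t : ℂ) : g τ t 0 = t := rfl
lemma Ph_zero (τ : ℝ) (t : ℂ) : Ph τ t 0 = Complex.I * (hh 0 : ℂ) ^ 2 * t - (hh 0 : ℂ) := rfl
lemma g_succ (τ : ℝ) (t : ℂ) (j : ℕ) : g τ t (j + 1) = g τ t j + (rr τ j : ℂ) * Ph τ t j := rfl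
lemma Ph_succ (τ : ℝ) (t : ℂ) (j : ℕ) : Ph τ t (j + 1) = Ph τ t j +
    Complex.I * (hh (j + 1) : ℂ) ^ 2 * g τ t (j + 1) - (hh (j + 1) : ℂ) := rfl

lemma affine (τ : ℝ) (t : ℂ) (j : ℕ) : g τ t j = g τ 0 j + t * (g τ 1 j - g τ 0 j) ∧
    Ph τ t j = Ph τ 0 j + t * (Ph τ 1 j - Ph τ 0 j) := by
  induction j with
  | zero =>
    simp only [g_zero, Ph_zero]
    constructor <;> ring
  | succ j ih =>
    obtain ⟨h1, h2⟩ := ih
    have h3 : g τ t (j + 1) = g τ 0 (j + 1) + t * (g τ 1 (j + 1) - g τ 0 (j + 1)) := by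
      rw [g_succ, g_succ, g_succ, h1, h2]
      ring
    refine ⟨h3, ?_⟩
    rw [Ph_succ, Ph_succ, Ph_succ, h3, h2]
    ring

lemma cont (t : ℂ) (j : ℕ) : Continuous (fun τ => g τ t j) ∧ Continuous (fun τ => Ph τ t j) := by
  induction j with
  | zero =>
    simp only [g_zero, Ph_zero]
    exact ⟨continuous_const, continuous_const⟩
  | succ j ih =>
    obtain ⟨h1, h2⟩ := ih
    have hr : Continuous (fun τ : ℝ => ((rr τ j : ℝ) : ℂ)) := by
      unfold rr
      split_ifs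
      · exact continuous_const
      · exact Complex.continuous_ofReal
    have h3 : Continuous (fun τ => g τ t (j + 1)) := by
      simp only [g_succ]
      exact h1.add (hr.mul h2)
    refine ⟨h3, ?_⟩
    simp only [Ph_succ]
    exact (h2.add (continuous_const.mul h3)).sub continuous_const

lemma zero_tau (t : ℂ) (k : ℕ) : g 0 t (3 + k) = g 0 t 3 ∧
    Ph 0 t (3 + k) = Ph 0 t 3 + k * (Complex.I * g 0 t 3 - 1) := by
  induction k with
  | zero => simp
  | succ k ih =>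
    obtain ⟨h1, h2⟩ := ih
    have hr : rr 0 (3 + k) = 0 := by
      unfold rr
      rw [if_neg (by omega)]
    have h3 : g 0 t (3 + (k + 1)) = g 0 t 3 := by
      rw [show 3 + (k + 1) = (3 + k) + 1 by ring, g_succ, h1, hr]
      simp
    refine ⟨h3, ?_⟩
    have hh1 : hh (3 + k + 1) = 1 := by
      unfold hh
      rw [if_neg (by omega)]
    rw [show 3 + (k + 1) = (3 + k) + 1 by ring] at h3 ⊢
    rw [Ph_succ, h2, h3, hh1]
    push_cast
    ring

lemma g1 (τ : ℝ) (t : ℂ) : g τ t 1 = t * (1 + 4 * Complex.I) - 1 / 50 := by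
  rw [g_succ, g_zero, Ph_zero]
  simp only [rr, hh]
  norm_num
  ring

lemma Ph1 (τ : ℝ) (t : ℂ) : Ph τ t 1 = t * (80000 * Complex.I - 160000) - 400 - 800 * Complex.I := by
  rw [Ph_succ, g1, Ph_zero]
  simp only [hh]
  norm_num
  linear_combination (160000 * t) * Complex.I_sq

lemma g2 (τ : ℝ) (t : ℂ) : g τ t 2 = t * (-15 + 12 * Complex.I) - 3 / 50 - 2 / 25 * Complex.I := by
  rw [g_succ, g1, Ph1]
  simp only [rr]
  norm_num
  ring

lemma Ph2 (τ : ℝ) (t : ℂ) : Ph τ t 2 = t * (-520000 * Complex.I - 640000) + 2600 - 3200 * Complex.I := by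
  rw [Ph_succ, g2, Ph1]
  simp only [hh]
  norm_num
  linear_combination (480000 * t - 3200) * Complex.I_sq

lemma g3 (τ : ℝ) (t : ℂ) : g τ t 3 = t * (-79 - 40 * Complex.I) + 1 / 5 - 2 / 5 * Complex.I := by
  rw [g_succ, g2, Ph2]
  simp only [rr]
  norm_num
  ring

lemma Ph3 (τ : ℝ) (t : ℂ) : Ph τ t 3 = t * (-520079 * Complex.I - 639960) + 2600 - 3 / 5 -
    (3200 - 1 / 5) * Complex.I := by
  rw [Ph_succ, g3, Ph2]
  simp only [hh]
  norm_num
  linear_combination (-40 * t - 2 / 5) * Complex.I_sq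

/-- the final flux at `τ = 0` -/
lemma Phn (t : ℂ) : Ph 0 t 10002 = t * (-1310000 * Complex.I - 240000) - 3400 - 1200 * Complex.I := by
  have h := (zero_tau t 9999).2
  rw [show 3 + 9999 = 10002 by norm_num] at h
  rw [h, Ph3, g3]
  push_cast
  linear_combination (-399960 * t - 2 / 5 * 9999) * Complex.I_sq

/-- planar cross product -/
def chi (a b : ℂ) : ℝ := a.re * b.im - a.im * b.re

lemma chi_cont {f1 f2 : ℝ → ℂ} (h1 : ContinuousAt f1 0) (h2 : ContinuousAt f2 0) :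
    ContinuousAt (fun τ => chi (f1 τ) (f2 τ)) 0 := by
  unfold chi
  have a1 : ContinuousAt (fun τ => (f1 τ).re) 0 := Complex.continuous_re.continuousAt.comp h1
  have a2 : ContinuousAt (fun τ => (f1 τ).im) 0 := Complex.continuous_im.continuousAt.comp h1
  have a3 : ContinuousAt (fun τ => (f2 τ).re) 0 := Complex.continuous_re.continuousAt.comp h2
  have a4 : ContinuousAt (fun τ => (f2 τ).im) 0 := Complex.continuous_im.continuousAt.comp h2
  exact (a1.mul a4).sub (a2.mul a3)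

/-- the key example -/
theorem key : ∃ τ : ℝ, 0 < τ ∧ ∃ t : ℂ, Ph τ t 10002 = 0 ∧
    0 < chi (g τ t 0) (g τ t 1) ∧ 0 < chi (g τ t 1) (g τ t 3) ∧ 0 < chi (g τ t 3) (g τ t 0) := by
  let D : ℝ → ℂ := fun τ => Ph τ 1 10002 - Ph τ 0 10002
  let T : ℝ → ℂ := fun τ => - Ph τ 0 10002 / D τ
  have hD : Continuous D := (cont 1 10002).2.sub (cont 0 10002).2
  have hD0 : D 0 = -1310000 * Complex.I - 240000 := by
    show Ph 0 1 10002 - Ph 0 0 10002 = _
    rw [Phn, Phn]; ring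
  have hD0' : D 0 ≠ 0 := by
    rw [hD0]
    intro h
    have := congrArg Complex.re h
    norm_num at this
  have hT : ContinuousAt T 0 :=
    ((cont 0 10002).2.neg.continuousAt).div hD.continuousAt hD0'
  have hT0 : T 0 = ((-597 / 443425 : ℝ) : ℂ) + ((2083 / 886850 : ℝ) : ℂ) * Complex.I := by
    show - Ph 0 0 10002 / D 0 = _
    rw [div_eq_iff hD0', hD0, Phn]
    apply Complex.ext <;> norm_num
  have hg : ∀ j, ContinuousAt (fun τ => g τ (T τ) j) 0 := by
    intro j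
    have : (fun τ => g τ (T τ) j) = fun τ => g τ 0 j + T τ * (g τ 1 j - g τ 0 j) := by
      funext τ
      exact (affine τ (T τ) j).1
    rw [this]
    exact (cont 0 j).1.continuousAt.add
      (hT.mul ((cont 1 j).1.continuousAt.sub (cont 0 j).1.continuousAt))
  have c1 : 0 < chi (g 0 (T 0) 0) (g 0 (T 0) 1) := by
    rw [hT0, g_zero, g1]
    unfold chi
    norm_num
  have c2 : 0 < chi (g 0 (T 0) 1) (g 0 (T 0) 3) := by
    rw [hT0, g1, g3]
    unfold chi
    norm_num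
  have c3 : 0 < chi (g 0 (T 0) 3) (g 0 (T 0) 0) := by
    rw [hT0, g_zero, g3]
    unfold chi
    norm_num
  have e0 : ∀ᶠ τ in 𝓝 (0 : ℝ), D τ ≠ 0 := hD.continuousAt.eventually_ne hD0'
  have e1 := (chi_cont (hg 0) (hg 1)).eventually (lt_mem_nhds c1)
  have e2 := (chi_cont (hg 1) (hg 3)).eventually (lt_mem_nhds c2)
  have e3 := (chi_cont (hg 3) (hg 0)).eventually (lt_mem_nhds c3)
  have e := (e0.and (e1.and (e2.and e3))).filter_mono (nhdsWithin_le_nhds (s := Set.Ioi (0 : ℝ)))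
  obtain ⟨τ, ⟨h0, h1, h2, h3⟩, hτ⟩ := (e.and self_mem_nhdsWithin).exists
  refine ⟨τ, hτ, T τ, ?_, h1, h2, h3⟩
  rw [(affine τ (T τ) 10002).2]
  show Ph τ 0 10002 + (- Ph τ 0 10002 / D τ) * D τ = 0
  rw [div_mul_cancel₀ _ h0]
  ring

end

end Pool.Agent.R226.TD
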