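import Pool.Agent.R226.TA

/-!
# Tridiagonal counterexample: the matrices
-/

set_option autoImplicit false
set_option linter.unusedSimpArgs false
set_option linter.unusedVariables false

open Filter Topology Matrix

namespace Pool.Agent.R226.TD

noncomputable section

variable (n : ℕ) (h p : ℕ → ℝ) (ε : ℝ)

/-- off-diagonal numbers -/
def bb (j : ℕ) : ℝ := if j + 1 < n then p j / (h j * h (j + 1)) else 0
/-- conductance to the next site -/
def pp (j : ℕ) : ℝ := if j + 1 < n then p j else 0
/-- conductance to the previous site -/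
def pm (j : ℕ) : ℝ := if j = 0 then 0 else p (j - 1)
/-- diagonal numbers -/
def dd (j : ℕ) : ℝ := (pp n p j + pm p j) / h j ^ 2

/-- the matrix `P` as a function on `ℕ × ℕ` -/
def PN (r s : ℕ) : ℝ := (if s = r then 1 - ε * dd n h p r else 0) +
  ((if s = r + 1 then ε * bb n h p r else 0) + (if r = s + 1 then ε * bb n h p s else 0))

/-- the matrix `P` -/
def PM : Matrix (Fin n) (Fin n) ℝ := Matrix.of fun r s => PN n h p ε r s

variable {n h p ε}

lemma PM_symm : (PM n h p ε).IsSymm := by
  ext r s
  simp only [Matrix.transpose_apply, PM, Matrix.of_apply, PN]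
  by_cases hrs : (r : ℕ) = s
  · rw [hrs]
  · rw [if_neg hrs, if_neg (Ne.symm hrs)]
    ring

/-- the action of the matrix on sequences with values in `ℂ` -/
lemma PM_mulVec (x : ℕ → ℂ) (r : Fin n) :
    ((PM n h p ε).map (algebraMap ℝ ℂ)).mulVec (fun s => x s) r =
      (1 - ε * dd n h p r : ℝ) * x r + (ε * bb n h p r : ℝ) * x (r + 1) +
        (if (r : ℕ) = 0 then 0 else (ε * bb n h p (r - 1) : ℝ) * x (r - 1)) := by
  obtain ⟨r, hr⟩ := r
  simp only [Matrix.mulVec, dotProduct, Matrix.map_apply, PM, Matrix.of_apply]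
  have h1 : ∑ s : Fin n, (algebraMap ℝ ℂ) (PN n h p ε r s) * x s =
      ∑ s ∈ Finset.range n, (algebraMap ℝ ℂ) (PN n h p ε r s) * x s :=
    Fin.sum_univ_eq_sum_range (fun s => (algebraMap ℝ ℂ) (PN n h p ε r s) * x s) n
  rw [h1]
  have h2 : ∀ s ∈ Finset.range n, (algebraMap ℝ ℂ) (PN n h p ε r s) * x s =
      (if s = r then ((1 - ε * dd n h p r : ℝ) : ℂ) * x r else 0) +
      ((if s = r + 1 then ((ε * bb n h p r : ℝ) : ℂ) * x (r + 1) else 0) +
        (if s + 1 = r then ((ε * bb n h p (r - 1) : ℝ) : ℂ) * x (r - 1) else 0)) := by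
    intro s _
    unfold PN
    by_cases e1 : s = r
    · subst e1
      have a1 : ¬ (s = s + 1) := by omega
      have a2 : ¬ (s + 1 = s) := by omega
      simp only [a1, a2, if_true, if_false, add_zero]
      simp
    · by_cases e2 : s = r + 1
      · subst e2
        have a1 : ¬ (r + 1 = r) := by omega
        have a2 : ¬ (r = r + 1 + 1) := by omega
        have a3 : ¬ (r + 1 + 1 = r) := by omega
        simp only [a1, a2, a3, if_true, if_false, add_zero, zero_add]
        simp
      · by_cases e3 : s + 1 = r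
        · subst e3
          have a1 : ¬ (s = s + 1 + 1) := by omega
          have a2 : ¬ (s = s + 1) := by omega
          simp only [a1, a2, if_true, if_false, add_zero, zero_add, Nat.add_sub_cancel]
          simp
        · have e4 : ¬ (r = s + 1) := fun h => e3 h.symm
          simp only [e1, e2, e3, e4, if_false, add_zero]
          simp
  rw [Finset.sum_congr rfl h2, Finset.sum_add_distrib, Finset.sum_add_distrib]
  rw [Finset.sum_ite_eq' (Finset.range n) r, if_pos (Finset.mem_range.2 hr)]
  rw [Finset.sum_ite_eq' (Finset.range n) (r + 1)]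
  have h3 : (if r + 1 ∈ Finset.range n then ((ε * bb n h p r : ℝ) : ℂ) * x (r + 1) else 0) =
      ((ε * bb n h p r : ℝ) : ℂ) * x (r + 1) := by
    by_cases e1 : r + 1 < n
    · rw [if_pos (Finset.mem_range.2 e1)]
    · rw [if_neg (by rwa [Finset.mem_range])]
      unfold bb
      rw [if_neg e1]
      simp
  have h4 : ∑ s ∈ Finset.range n, (if s + 1 = r then ((ε * bb n h p (r - 1) : ℝ) : ℂ) * x (r - 1) else 0) =
      if r = 0 then 0 else ((ε * bb n h p (r - 1) : ℝ) : ℂ) * x (r - 1) := by
    by_cases e1 : r = 0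
    · rw [if_pos e1]
      apply Finset.sum_eq_zero
      intro s _
      rw [if_neg (by omega)]
    · rw [if_neg e1]
      have : ∀ s ∈ Finset.range n, (if s + 1 = r then ((ε * bb n h p (r - 1) : ℝ) : ℂ) * x (r - 1) else 0) =
          if s = r - 1 then ((ε * bb n h p (r - 1) : ℝ) : ℂ) * x (r - 1) else 0 := by
        intro s _
        by_cases e2 : s + 1 = r
        · rw [if_pos e2, if_pos (by omega)]
        · rw [if_neg e2, if_neg (by omega)]
      rw [Finset.sum_congr rfl this, Finset.sum_ite_eq', if_pos (Finset.mem_range.2 (by omega))]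
  rw [h3, h4]
  ring

variable (hpos : ∀ j, 0 < h j) (hp : ∀ j, 0 < p j)
include hpos

lemma apply_weighted (G : ℕ → ℂ) (r : Fin n) :
    ((PM n h p ε).map (algebraMap ℝ ℂ)).mulVec (fun s => h s * G s) r =
      h r * G r - ε / h r * (pp n p r * (G r - G (r + 1)) + pm p r * (G r - G (r - 1))) := by
  have hne : ∀ j, ((h j : ℝ) : ℂ) ≠ 0 := fun j => by exact_mod_cast (hpos j).ne'
  rw [PM_mulVec (fun s => h s * G s) r]
  obtain ⟨r, hr⟩ := r
  simp only
  have hb : ((ε * bb n h p r : ℝ) : ℂ) * (h (r + 1) * G (r + 1)) = ε / h r * (pp n p r * G (r + 1)) := by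
    unfold bb pp
    by_cases e1 : r + 1 < n
    · rw [if_pos e1, if_pos e1]
      push_cast
      have := hne r
      have := hne (r + 1)
      field_simp
    · rw [if_neg e1, if_neg e1]
      simp
  have hb' : (if r = 0 then 0 else ((ε * bb n h p (r - 1) : ℝ) : ℂ) * (h (r - 1) * G (r - 1))) =
      ε / h r * (pm p r * G (r - 1)) := by
    unfold pm
    by_cases e1 : r = 0
    · rw [if_pos e1, if_pos e1]
      simp
    · rw [if_neg e1, if_neg e1]
      unfold bb
      rw [if_pos (by omega)]
      have e2 : r - 1 + 1 = r := by omega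
      rw [e2]
      push_cast
      have := hne r
      have := hne (r - 1)
      field_simp
  rw [hb, hb']
  have hd : ((1 - ε * dd n h p r : ℝ) : ℂ) * (h r * G r) =
      h r * G r - ε / h r * ((pp n p r + pm p r) * G r) := by
    unfold dd
    push_cast
    have := hne r
    field_simp
  rw [hd]
  ring

end

end Pool.Agent.R226.TD
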