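import Pool.Agent.R226.TB

/-!
# Tridiagonal counterexample: spectral radius and eigenvalue
-/

set_option autoImplicit false
set_option linter.unusedSimpArgs false
set_option linter.unusedVariables false

open Filter Topology Matrix

namespace Pool.Agent.R226.TD

noncomputable section

lemma mem_spectrum_of_vecMul {n : ℕ} (A : Matrix (Fin n) (Fin n) ℂ) (l : ℂ) (v : Fin n → ℂ) (hv : v ≠ 0)
    (h : v ᵥ* A = l • v) : l ∈ spectrum ℂ A := by
  rw [spectrum.mem_iff, Matrix.isUnit_iff_isUnit_det, isUnit_iff_ne_zero, not_not]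
  rw [← Matrix.exists_vecMul_eq_zero_iff]
  refine ⟨v, hv, ?_⟩
  rw [Matrix.vecMul_sub, h, Algebra.algebraMap_eq_smul_one, Matrix.vecMul_smul, Matrix.vecMul_one,
    sub_self]

lemma mem_spectrum_of_mulVec {n : ℕ} (A : Matrix (Fin n) (Fin n) ℂ) (l : ℂ) (v : Fin n → ℂ) (hv : v ≠ 0)
    (h : A *ᵥ v = l • v) : l ∈ spectrum ℂ A := by
  rw [spectrum.mem_iff, Matrix.isUnit_iff_isUnit_det, isUnit_iff_ne_zero, not_not]
  rw [← Matrix.exists_mulVec_eq_zero_iff]
  refine ⟨v, hv, ?_⟩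
  rw [Matrix.sub_mulVec, h, Algebra.algebraMap_eq_smul_one, Matrix.smul_mulVec, Matrix.one_mulVec,
    sub_self]

lemma exists_mulVec_of_mem_spectrum {n : ℕ} (A : Matrix (Fin n) (Fin n) ℂ) (l : ℂ)
    (h : l ∈ spectrum ℂ A) : ∃ v : Fin n → ℂ, v ≠ 0 ∧ A *ᵥ v = l • v := by
  rw [spectrum.mem_iff, Matrix.isUnit_iff_isUnit_det, isUnit_iff_ne_zero, not_not,
    ← Matrix.exists_mulVec_eq_zero_iff] at h
  obtain ⟨v, hv, h⟩ := h
  refine ⟨v, hv, ?_⟩
  rw [Matrix.sub_mulVec, Algebra.algebraMap_eq_smul_one, Matrix.smul_mulVec, Matrix.one_mulVec,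
    sub_eq_zero] at h
  exact h.symm

/-- a nonnegative matrix with a positive fixed vector has spectral radius one -/
lemma radius_eq_one {n : ℕ} (hn : 0 < n) (P : Matrix (Fin n) (Fin n) ℝ) (h0 : ∀ r s, 0 ≤ P r s)
    (x : Fin n → ℝ) (hx : ∀ r, 0 < x r) (hPx : P *ᵥ x = x) :
    spectralRadius ℂ (P.map (algebraMap ℝ ℂ)) = 1 := by
  have : Nonempty (Fin n) := ⟨⟨0, hn⟩⟩
  apply le_antisymm
  · refine iSup₂_le fun l hl => ?_
    obtain ⟨v, hv, hv2⟩ := exists_mulVec_of_mem_spectrum _ _ hl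
    obtain ⟨r, hr⟩ := Finite.exists_max (fun r => ‖v r‖ / x r)
    have hpos : 0 < ‖v r‖ / x r := by
      obtain ⟨s, hs⟩ := Function.ne_iff.1 hv
      have : 0 < ‖v s‖ / x s := div_pos (norm_pos_iff.2 hs) (hx s)
      exact this.trans_le (hr s)
    have h1 : ‖l‖ * ‖v r‖ ≤ ‖v r‖ := by
      have e1 := congrFun hv2 r
      rw [Pi.smul_apply, smul_eq_mul] at e1
      rw [← norm_mul, ← e1]
      have e2 : ∀ s, ‖v s‖ ≤ ‖v r‖ / x r * x s := fun s => by
        have := hr s
        rwa [div_le_iff₀ (hx s)] at this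
      have e3 : ∑ s, P r s * x s = x r := by
        have := congrFun hPx r
        exact this
      calc ‖(P.map (algebraMap ℝ ℂ) *ᵥ v) r‖ = ‖∑ s, (P r s : ℂ) * v s‖ := rfl
        _ ≤ ∑ s, ‖(P r s : ℂ) * v s‖ := norm_sum_le _ _
        _ ≤ ∑ s, P r s * (‖v r‖ / x r * x s) := by
            apply Finset.sum_le_sum
            intro s _
            rw [norm_mul, Complex.norm_real, Real.norm_of_nonneg (h0 r s)]
            exact mul_le_mul_of_nonneg_left (e2 s) (h0 r s)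
        _ = ‖v r‖ / x r * ∑ s, P r s * x s := by
            rw [Finset.mul_sum]
            apply Finset.sum_congr rfl
            intro s _
            ring
        _ = ‖v r‖ := by rw [e3, div_mul_cancel₀ _ (hx r).ne']
    have h2 : 0 < ‖v r‖ := by
      have := (div_pos_iff_of_pos_right (hx r)).1 hpos
      exact this
    have h3 : ‖l‖ ≤ 1 := by
      by_contra hcon
      push Not at hcon
      nlinarith
    have h4 : ‖l‖₊ ≤ 1 := h3
    exact_mod_cast h4
  · have h1 : (1 : ℂ) ∈ spectrum ℂ (P.map (algebraMap ℝ ℂ)) := by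
      apply mem_spectrum_of_mulVec _ _ (fun r => (x r : ℂ))
      · intro h
        have := congrFun h ⟨0, hn⟩
        rw [Pi.zero_apply] at this
        have h2 : x ⟨0, hn⟩ = 0 := by exact_mod_cast this
        exact (hx _).ne' h2
      · funext r
        have := congrFun hPx r
        rw [one_smul]
        show ∑ s, ((P r s : ℝ) : ℂ) * (x s : ℂ) = (x r : ℂ)
        rw [← this]
        simp only [Matrix.mulVec, dotProduct]
        push_cast
        rfl
    have h2 := le_iSup₂ (f := fun (k : ℂ) (_ : k ∈ spectrum ℂ (P.map (algebraMap ℝ ℂ))) => ((‖k‖₊ : NNReal) : ENNReal)) 1 h1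
    have h3 : (((‖(1 : ℂ)‖₊ : NNReal)) : ENNReal) = 1 := by simp
    rw [h3] at h2
    exact h2

/-- the matrix `(I - c eᵀ) P` -/
def FF {n : ℕ} (P : Matrix (Fin n) (Fin n) ℝ) (c : Fin n → ℝ) : Matrix (Fin n) (Fin n) ℝ :=
  (1 - Matrix.of fun i _ => c i) * P

lemma radius_gt_one {n : ℕ} (P : Matrix (Fin n) (Fin n) ℝ) (hsymm : P.IsSymm) (c : Fin n → ℝ)
    (hc : ∑ i, c i = 1) (ε : ℝ) (hε : 0 < ε) (z : Fin n → ℂ)
    (hz : P.map (algebraMap ℝ ℂ) *ᵥ z = (1 + ε * Complex.I) • z - fun _ => (ε : ℂ))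
    (hcz : ∑ i, (c i : ℂ) * z i = 0) :
    1 < spectralRadius ℂ ((FF P c).map (algebraMap ℝ ℂ)) := by
  set l : ℂ := 1 + ε * Complex.I with hl
  set v : Fin n → ℂ := l • z - fun _ => (ε : ℂ) with hv
  have hcv : ∑ i, v i * (c i : ℂ) = -ε := by
    have : ∀ i, v i * (c i : ℂ) = l * ((c i : ℂ) * z i) - ε * (c i : ℂ) := by
      intro i
      simp only [hv, Pi.sub_apply, Pi.smul_apply, smul_eq_mul]
      ring
    simp only [this]
    rw [Finset.sum_sub_distrib, ← Finset.mul_sum, hcz, ← Finset.mul_sum]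
    have h1 : ∑ i, (c i : ℂ) = 1 := by exact_mod_cast hc
    rw [h1]
    ring
  have hv0 : v ≠ 0 := by
    intro h
    rw [h] at hcv
    simp at hcv
    exact hε.ne' hcv
  have hmem : l ∈ spectrum ℂ ((FF P c).map (algebraMap ℝ ℂ)) := by
    apply mem_spectrum_of_vecMul _ _ v hv0
    unfold FF
    have h1 : ((1 - Matrix.of fun i _ => c i) * P : Matrix (Fin n) (Fin n) ℝ).map (algebraMap ℝ ℂ) =
        (1 - Matrix.of fun (i _ : Fin n) => (c i : ℂ)) * P.map (algebraMap ℝ ℂ) := by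
      rw [Matrix.map_mul]
      congr 1
      ext i j
      simp only [Matrix.map_apply, Matrix.sub_apply, Matrix.of_apply, map_sub]
      congr 1
      by_cases hij : i = j
      · subst hij; simp
      · simp [Matrix.one_apply_ne hij]
    rw [h1, ← Matrix.vecMul_vecMul]
    have h2 : v ᵥ* (1 - Matrix.of fun (i _ : Fin n) => (c i : ℂ)) = l • z := by
      rw [Matrix.vecMul_sub, Matrix.vecMul_one]
      funext j
      rw [Pi.sub_apply]
      have : (v ᵥ* Matrix.of fun (i _ : Fin n) => (c i : ℂ)) j = -ε := by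
        rw [← hcv]
        rfl
      rw [this]
      simp only [hv, Pi.sub_apply]
      ring
    rw [h2, Matrix.smul_vecMul]
    congr 1
    rw [← hz]
    have h3 : (P.map (algebraMap ℝ ℂ))ᵀ = P.map (algebraMap ℝ ℂ) := by
      rw [← Matrix.transpose_map]
      rw [hsymm.eq]
    conv_lhs => rw [← h3]
    rw [Matrix.vecMul_transpose]
  have h2 := le_iSup₂ (f := fun (k : ℂ) (_ : k ∈ spectrum ℂ ((FF P c).map (algebraMap ℝ ℂ))) =>
    ((‖k‖₊ : NNReal) : ENNReal)) l hmem
  refine lt_of_lt_of_le ?_ h2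
  have h3 : 1 < ‖l‖ := by
    have h4 : ‖l‖ ^ 2 = 1 + ε ^ 2 := by
      rw [← Complex.normSq_eq_norm_sq, Complex.normSq_apply]
      simp [hl]
      ring
    by_contra hcon
    push Not at hcon
    have : ‖l‖ ^ 2 ≤ 1 := pow_le_one₀ (norm_nonneg _) hcon
    nlinarith
  have h4 : (1 : NNReal) < ‖l‖₊ := h3
  exact_mod_cast h4

end

end Pool.Agent.R226.TD
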