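import Mathlib

/-!
# From a non-injective Keller map to a non-injective map with unipotent Jacobians
-/

set_option autoImplicit false
set_option linter.unusedSimpArgs false
set_option linter.unusedVariables false

open MvPolynomial

namespace Pool.Agent.R226.Unip

section alg
variable {n : ℕ} {R L : Type*} [CommRing R] [CommRing L] [Algebra R L]

lemma aeval_scale {p : MvPolynomial (Fin n) R} {k : ℕ} (hp : p.IsHomogeneous k) (τ : L)
    (u : Fin n → L) : aeval (fun i => τ * u i) p = τ ^ k * aeval u p := by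
  rw [aeval_def, aeval_def, eval₂_eq', eval₂_eq', Finset.mul_sum]
  apply Finset.sum_congr rfl
  intro d hd
  have hdeg : ∑ i, d i = k := by
    have h1 := hp (mem_support_iff.1 hd)
    rw [← h1, Finsupp.weight_apply, Finsupp.sum_fintype]
    · simp
    · simp
  have : ∏ i, (τ * u i) ^ d i = τ ^ k * ∏ i, u i ^ d i := by
    simp_rw [mul_pow]
    rw [Finset.prod_mul_distrib, Finset.prod_pow_eq_pow_sum, hdeg]
  rw [this]
  ring

lemma sum_hc (p : MvPolynomial (Fin n) R) (D : ℕ) (hD : p.totalDegree ≤ D) :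
    ∑ i ∈ Finset.range (D + 1), homogeneousComponent i p = p := by
  conv_rhs => rw [← sum_homogeneousComponent p]
  symm
  apply Finset.sum_subset
  · intro i hi
    rw [Finset.mem_range] at hi ⊢
    omega
  · intro i hi hi'
    apply homogeneousComponent_eq_zero
    rw [Finset.mem_range] at hi'
    omega

/-- the derivative at a scaled point in terms of homogeneous components -/
lemma key (p : MvPolynomial (Fin n) R) (m : ℕ) (hD : p.totalDegree ≤ m + 2) (i j : Fin n)
    (h1 : homogeneousComponent 1 p = X i) (τ : L) (u : Fin n → L) :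
    aeval (fun i => τ * u i) (pderiv j p) = (if i = j then 1 else 0) +
      ∑ k ∈ Finset.range (m + 1), τ ^ (k + 1) * aeval u (pderiv j (homogeneousComponent (k + 2) p)) := by
  conv_lhs => rw [← sum_hc p (m + 2) hD]
  rw [Finset.sum_range_succ', Finset.sum_range_succ', map_add, map_add, map_add, map_add]
  rw [homogeneousComponent_zero, pderiv_C, map_zero, add_zero, zero_add, h1, add_comm]
  congr 1
  · rw [pderiv_X]
    by_cases h : i = j
    · subst h; simp
    · simp [Pi.single_apply, h, Ne.symm h, eq_comm]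
  · rw [map_sum, map_sum]
    apply Finset.sum_congr rfl
    intro k _
    have hh : (pderiv j (homogeneousComponent (k + 2) p)).IsHomogeneous (k + 1) :=
      (homogeneousComponent_isHomogeneous (k + 2) p).pderiv
    exact aeval_scale hh τ u

end alg

section eig
variable {n : ℕ} {L : Type*} [Field L]

/-- The block companion argument. -/
lemma companion (m : ℕ) (A : ℕ → (Fin n → Fin n → L)) (ν : L) (hν : ν ≠ 0)
    (v : ℕ → Fin n → L) (hend : ∀ i, v (m + 1) i = 0)
    (hrec : ∀ k, k ≤ m → ∀ i, ν * v k i = v (k + 1) i + (-1) ^ k * ∑ j, A k i j * v 0 j)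
    (hinv : ∀ w : Fin n → L, (∀ i, ∑ j, ((if i = j then 1 else 0) +
      ∑ k ∈ Finset.range (m + 1), (-ν⁻¹) ^ (k + 1) * A k i j) * w j = 0) → ∀ i, w i = 0) :
    ∀ k, k ≤ m → ∀ i, v k i = 0 := by
  have hτ : ν * (-ν⁻¹) = -1 := by field_simp
  have claim : ∀ k, k ≤ m + 1 → ∀ i, v k i = ν ^ k * (v 0 i + ∑ l ∈ Finset.range k,
      (-ν⁻¹) ^ (l + 1) * ∑ j, A l i j * v 0 j) := by
    intro k
    induction k with
    | zero => intro _ i; simp
    | succ k ih =>
      intro hk i
      have h1 := ih (by omega) i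
      have h2 := hrec k (by omega) i
      rw [Finset.sum_range_succ]
      have e : ν ^ (k + 1) * (-ν⁻¹) ^ (k + 1) = (-1) ^ (k + 1) := by
        rw [← mul_pow, hτ]
      have : v (k + 1) i = ν * v k i - (-1) ^ k * ∑ j, A k i j * v 0 j := by
        rw [h2]; ring
      rw [this, h1]
      linear_combination -(∑ j, A k i j * v 0 j) * e
  have h0 : ∀ i, v 0 i = 0 := by
    apply hinv
    intro i
    have h1 := claim (m + 1) le_rfl i
    rw [hend i] at h1
    have h2 : v 0 i + ∑ l ∈ Finset.range (m + 1), (-ν⁻¹) ^ (l + 1) * ∑ j, A l i j * v 0 j = 0 := by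
      rcases mul_eq_zero.1 h1.symm with h | h
      · exact absurd h (pow_ne_zero _ hν)
      · exact h
    refine Eq.trans ?_ h2
    simp_rw [add_mul, Finset.sum_add_distrib, Finset.sum_mul]
    congr 1
    · simp
    · rw [Finset.sum_comm]
      apply Finset.sum_congr rfl
      intro k _
      rw [Finset.mul_sum]
      apply Finset.sum_congr rfl
      intro j _
      ring
  intro k hk i
  rw [claim k (by omega) i]
  simp [h0]

end eig


section real
variable {n : ℕ}

/-- the Fréchet derivative of a polynomial function -/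
lemma hasFDerivAt_eval (p : MvPolynomial (Fin n) ℝ) (x : Fin n → ℝ) :
    HasFDerivAt (fun x => eval x p)
      (∑ j, eval x (pderiv j p) • (ContinuousLinearMap.proj j : (Fin n → ℝ) →L[ℝ] ℝ)) x := by
  induction p using MvPolynomial.induction_on with
  | C a => simpa using hasFDerivAt_const a x
  | add p q hp hq =>
    have h := hp.add hq
    have e1 : (fun x => eval x (p + q)) = (fun x => eval x p) + (fun x => eval x q) := by
      funext x; simp
    rw [e1]
    convert! h using 1
    simp only [map_add, add_smul, Finset.sum_add_distrib]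
  | mul_X p i hp =>
    have hX : HasFDerivAt (fun x : Fin n → ℝ => x i)
      (ContinuousLinearMap.proj i : (Fin n → ℝ) →L[ℝ] ℝ) x :=
      (ContinuousLinearMap.proj i : (Fin n → ℝ) →L[ℝ] ℝ).hasFDerivAt
    have h := hp.mul hX
    have e1 : (fun x => eval x (p * X i)) = fun x => eval x p * x i := by
      funext x; simp
    rw [e1]
    refine h.congr_fderiv ?_
    ext w
    simp only [_root_.add_apply, _root_.smul_apply, _root_.sum_apply,
      ContinuousLinearMap.proj_apply, smul_eq_mul, Derivation.leibniz, map_add, map_mul, eval_X, pderiv_X]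
    have e2 : ∀ j, (eval x) (Pi.single (M := fun _ => MvPolynomial (Fin n) ℝ) j 1 i) = if i = j then 1 else 0 := by
      intro j
      by_cases hj : i = j
      · subst hj; simp
      · simp [Pi.single_apply, hj]
    simp_rw [e2, add_mul, Finset.sum_add_distrib]
    simp [Finset.mul_sum, mul_assoc]

/-- The index set. -/
abbrev e (m n : ℕ) : Fin ((m + 1) * n) ≃ Fin (m + 1) × Fin n := finProdFinEquiv.symm

/-- The stabilised map. -/
noncomputable def G (m : ℕ) (Q : Fin n → MvPolynomial (Fin n) ℝ) (x : Fin ((m + 1) * n) → ℝ) :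
    Fin ((m + 1) * n) → ℝ := fun a =>
  x a + (if h : (e m n a).1.val + 1 < m + 1 then x ((e m n).symm (⟨_, h⟩, (e m n a).2)) else 0)
    + (-1) ^ (e m n a).1.val *
      eval (fun j => x ((e m n).symm (0, j))) (homogeneousComponent ((e m n a).1.val + 2) (Q (e m n a).2))

/-- The derivative of the stabilised map. -/
noncomputable def G' (m : ℕ) (Q : Fin n → MvPolynomial (Fin n) ℝ) (x : Fin ((m + 1) * n) → ℝ) :
    (Fin ((m + 1) * n) → ℝ) →L[ℝ] (Fin ((m + 1) * n) → ℝ) :=
  ContinuousLinearMap.pi fun a =>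
    ContinuousLinearMap.proj a
    + (if h : (e m n a).1.val + 1 < m + 1 then
        ContinuousLinearMap.proj ((e m n).symm (⟨_, h⟩, (e m n a).2)) else 0)
    + ((-1 : ℝ) ^ (e m n a).1.val) • ∑ j, eval (fun j => x ((e m n).symm (0, j)))
        (pderiv j (homogeneousComponent ((e m n a).1.val + 2) (Q (e m n a).2))) •
        (ContinuousLinearMap.proj ((e m n).symm (0, j)) : (Fin ((m + 1) * n) → ℝ) →L[ℝ] ℝ)

lemma hasFDerivAt_G (m : ℕ) (Q : Fin n → MvPolynomial (Fin n) ℝ) (x : Fin ((m + 1) * n) → ℝ) :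
    HasFDerivAt (G m Q) (G' m Q x) x := by
  unfold G'
  rw [hasFDerivAt_pi']
  intro a
  have h1 : HasFDerivAt (fun x : Fin ((m + 1) * n) → ℝ => x a)
      (ContinuousLinearMap.proj a : (Fin ((m + 1) * n) → ℝ) →L[ℝ] ℝ) x :=
    (ContinuousLinearMap.proj a : (Fin ((m + 1) * n) → ℝ) →L[ℝ] ℝ).hasFDerivAt
  have h2 : HasFDerivAt (fun x : Fin ((m + 1) * n) → ℝ =>
      (if h : (e m n a).1.val + 1 < m + 1 then x ((e m n).symm (⟨_, h⟩, (e m n a).2)) else 0))
      (if h : (e m n a).1.val + 1 < m + 1 then
        (ContinuousLinearMap.proj ((e m n).symm (⟨_, h⟩, (e m n a).2)) :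
          (Fin ((m + 1) * n) → ℝ) →L[ℝ] ℝ) else 0) x := by
    by_cases h : (e m n a).1.val + 1 < m + 1
    · simp only [dif_pos h]
      exact (ContinuousLinearMap.proj ((e m n).symm (⟨_, h⟩, (e m n a).2)) :
          (Fin ((m + 1) * n) → ℝ) →L[ℝ] ℝ).hasFDerivAt
    · simp only [dif_neg h]
      exact hasFDerivAt_const 0 x
  let Lr : (Fin ((m + 1) * n) → ℝ) →L[ℝ] (Fin n → ℝ) :=
    ContinuousLinearMap.pi fun j => ContinuousLinearMap.proj ((e m n).symm (0, j))
  have h3 := (hasFDerivAt_eval (homogeneousComponent ((e m n a).1.val + 2) (Q (e m n a).2)) (Lr x)).comp x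
    Lr.hasFDerivAt
  have h4 := (h1.add h2).add (h3.const_mul ((-1 : ℝ) ^ (e m n a).1.val))
  refine h4.congr_fderiv ?_
  ext w
  simp [Lr, _root_.sum_apply]

lemma contDiff_G (m : ℕ) (Q : Fin n → MvPolynomial (Fin n) ℝ) : ContDiff ℝ 1 (G m Q) := by
  rw [contDiff_pi]
  intro a
  have h1 : ContDiff ℝ 1 (fun x : Fin ((m + 1) * n) → ℝ => x a) := contDiff_apply ℝ ℝ a
  have h2 : ContDiff ℝ 1 (fun x : Fin ((m + 1) * n) → ℝ =>
      (if h : (e m n a).1.val + 1 < m + 1 then x ((e m n).symm (⟨_, h⟩, (e m n a).2)) else 0)) := by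
    by_cases h : (e m n a).1.val + 1 < m + 1
    · simp only [dif_pos h]
      exact contDiff_apply ℝ ℝ _
    · simp only [dif_neg h]
      exact contDiff_const
  have h3 : ContDiff ℝ 1 (fun x : Fin ((m + 1) * n) → ℝ => eval (fun j => x ((e m n).symm (0, j)))
      (homogeneousComponent ((e m n a).1.val + 2) (Q (e m n a).2))) := by
    have ha := (AnalyticOnNhd.eval_mvPolynomial (𝕜 := ℝ)
      (homogeneousComponent ((e m n a).1.val + 2) (Q (e m n a).2))).contDiff (n := 1)
    exact ha.comp (contDiff_pi.2 fun j => contDiff_apply ℝ ℝ _)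
  exact (h1.add h2).add (contDiff_const.mul h3)

end real


section normalise
variable {n : ℕ}

lemma key0 (p : MvPolynomial (Fin n) ℝ) (j : Fin n) (u : Fin n → ℝ) :
    eval u (pderiv j (homogeneousComponent 1 p)) = eval 0 (pderiv j p) := by
  have h : pderiv j p = ∑ k ∈ Finset.range (p.totalDegree + 1), pderiv j (homogeneousComponent (k + 1) p) := by
    conv_lhs => rw [← sum_hc p (p.totalDegree + 1) (by omega)]
    rw [Finset.sum_range_succ', map_add, homogeneousComponent_zero, pderiv_C, add_zero, map_sum]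
  have e0 : (0 : Fin n → ℝ) = fun i => (0 : ℝ) * u i := by funext i; simp
  have h2 : ∀ k, eval (0 : Fin n → ℝ) (pderiv j (homogeneousComponent (k + 1) p)) =
      0 ^ k * eval u (pderiv j (homogeneousComponent (k + 1) p)) := by
    intro k
    have hh : (pderiv j (homogeneousComponent (k + 1) p)).IsHomogeneous k :=
      (homogeneousComponent_isHomogeneous (k + 1) p).pderiv
    rw [e0]
    have := aeval_scale hh (0 : ℝ) u
    rw [aeval_eq_eval, aeval_eq_eval] at this
    exact this
  rw [h, map_sum]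
  simp_rw [h2]
  rw [Finset.sum_range_succ']
  simp

lemma hc_one (p : MvPolynomial (Fin n) ℝ) :
    homogeneousComponent 1 p = ∑ j, C (eval 0 (pderiv j p)) * X j := by
  apply MvPolynomial.funext
  intro u
  have h := (homogeneousComponent_isHomogeneous 1 p).sum_X_mul_pderiv
  rw [one_smul] at h
  rw [← h]
  simp only [map_sum, map_mul, eval_X, key0, eval_C]
  apply Finset.sum_congr rfl
  intro j _
  ring

/-- After a linear change in the target a Keller map has identity linear part. -/
lemma normalise (P : Fin n → MvPolynomial (Fin n) ℝ) (c : ℝ) (hc : c ≠ 0)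
    (hdet : (Matrix.of fun i j => pderiv j (P i)).det = C c) :
    ∃ Q : Fin n → MvPolynomial (Fin n) ℝ, (∀ i, homogeneousComponent 1 (Q i) = X i) ∧
      (Matrix.of fun i j => pderiv j (Q i)).det = 1 ∧
      ∀ p q : Fin n → ℝ, (∀ i, eval p (P i) = eval q (P i)) → ∀ i, eval p (Q i) = eval q (Q i) := by
  let A0 : Matrix (Fin n) (Fin n) ℝ := Matrix.of fun i j => eval 0 (pderiv j (P i))
  have hA0 : A0.det = c := by
    have h := congrArg (eval (0 : Fin n → ℝ)) hdet
    rw [eval_C, RingHom.map_det] at h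
    rw [← h]
    congr 1
  have hinv : A0⁻¹ * A0 = 1 := Matrix.nonsing_inv_mul A0 (by rw [hA0]; exact isUnit_iff_ne_zero.2 hc)
  refine ⟨fun i => ∑ l, C (A0⁻¹ i l) * P l, ?_, ?_, ?_⟩
  · intro i
    rw [map_sum]
    simp_rw [homogeneousComponent_C_mul, hc_one]
    have : ∀ l, C (A0⁻¹ i l) * ∑ j, C (eval 0 (pderiv j (P l))) * X j =
        ∑ j, C (A0⁻¹ i l * A0 l j) * (X j : MvPolynomial (Fin n) ℝ) := by
      intro l
      rw [Finset.mul_sum]
      apply Finset.sum_congr rfl
      intro j _
      simp only [A0, Matrix.of_apply, map_mul]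
      ring
    simp_rw [this]
    rw [Finset.sum_comm]
    simp_rw [← Finset.sum_mul, ← map_sum]
    have h2 : ∀ j, ∑ l, A0⁻¹ i l * A0 l j = (1 : Matrix (Fin n) (Fin n) ℝ) i j := by
      intro j
      rw [← hinv, Matrix.mul_apply]
    simp_rw [h2, Matrix.one_apply]
    simp
  · have : (Matrix.of fun i j => pderiv j (∑ l, C (A0⁻¹ i l) * P l)) =
        (C : ℝ →+* MvPolynomial (Fin n) ℝ).mapMatrix A0⁻¹ * (Matrix.of fun i j => pderiv j (P i)) := by
      ext1 i j
      rw [Matrix.of_apply, Matrix.mul_apply, map_sum]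
      apply Finset.sum_congr rfl
      intro l _
      simp [Derivation.leibniz]
    rw [this, Matrix.det_mul, hdet, ← RingHom.map_det, ← map_mul, ← hA0]
    rw [← Matrix.det_mul, hinv, Matrix.det_one, map_one]
  · intro p q h i
    simp [h]
end normalise

section main
variable {n : ℕ}

/-- shortest form of the entries -/
lemma entry (m : ℕ) (Q : Fin n → MvPolynomial (Fin n) ℝ) (x : Fin ((m + 1) * n) → ℝ)
    (a b : Fin ((m + 1) * n)) :
    LinearMap.toMatrix' ((G' m Q x : (Fin ((m + 1) * n) → ℝ) →L[ℝ] (Fin ((m + 1) * n) → ℝ)) :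
      (Fin ((m + 1) * n) → ℝ) →ₗ[ℝ] (Fin ((m + 1) * n) → ℝ)) a b =
    (if a = b then 1 else 0) + (if h : (e m n a).1.val + 1 < m + 1 then
        (if (e m n).symm (⟨_, h⟩, (e m n a).2) = b then 1 else 0) else 0)
    + (-1) ^ (e m n a).1.val * ∑ j, eval (fun j => x ((e m n).symm (0, j)))
        (pderiv j (homogeneousComponent ((e m n a).1.val + 2) (Q (e m n a).2))) *
        (if (e m n).symm (0, j) = b then 1 else 0) := by
  rw [LinearMap.toMatrix'_apply]
  simp only [G', ContinuousLinearMap.coe_coe, ContinuousLinearMap.coe_pi', _root_.add_apply,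
    _root_.smul_apply, _root_.sum_apply, ContinuousLinearMap.proj_apply, smul_eq_mul]
  have hs : ∀ c : Fin ((m + 1) * n), (Pi.single b (1 : ℝ) : Fin ((m + 1) * n) → ℝ) c =
      if c = b then 1 else 0 := by
    intro c; simp [Pi.single_apply]
  congr 1
  · congr 1
    · exact hs a
    · split_ifs with h1 h2 h3
      · rw [ContinuousLinearMap.proj_apply, hs, if_pos h2]
      · rw [ContinuousLinearMap.proj_apply, hs, if_neg h2]
      · simp
  · congr 1
    apply Finset.sum_congr rfl
    intro j _
    congr 1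
    exact hs _

/-- All complex eigenvalues of the derivative of the stabilised map are equal to one. -/
theorem eigen (m : ℕ) (Q : Fin n → MvPolynomial (Fin n) ℝ)
    (hdeg : ∀ i, (Q i).totalDegree ≤ m + 2)
    (h1 : ∀ i, homogeneousComponent 1 (Q i) = X i)
    (hdet : (Matrix.of fun i j => pderiv j (Q i)).det = 1)
    (x : Fin ((m + 1) * n) → ℝ) (z : ℂ)
    (hz : Polynomial.aeval z (LinearMap.toMatrix' ((G' m Q x :
      (Fin ((m + 1) * n) → ℝ) →L[ℝ] (Fin ((m + 1) * n) → ℝ)) :
      (Fin ((m + 1) * n) → ℝ) →ₗ[ℝ] (Fin ((m + 1) * n) → ℝ))).charpoly = 0) : z = 1 := by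
  set M := LinearMap.toMatrix' ((G' m Q x :
      (Fin ((m + 1) * n) → ℝ) →L[ℝ] (Fin ((m + 1) * n) → ℝ)) :
      (Fin ((m + 1) * n) → ℝ) →ₗ[ℝ] (Fin ((m + 1) * n) → ℝ)) with hM
  by_contra hne
  have hν : z - 1 ≠ 0 := sub_ne_zero.2 hne
  have hdet0 : (Matrix.scalar _ z - M.map (algebraMap ℝ ℂ)).det = 0 := by
    rw [← Matrix.eval_charpoly, Matrix.charpoly_map, Polynomial.eval_map, ← Polynomial.aeval_def, hz]
  obtain ⟨w, hw0, hw⟩ := Matrix.exists_mulVec_eq_zero_iff.2 hdet0
  -- the eigenvector equation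
  let u : Fin n → ℝ := fun j => x ((e m n).symm (0, j))
  let A : ℕ → Fin n → Fin n → ℂ := fun k i j =>
    aeval (fun j => (u j : ℂ)) (pderiv j (homogeneousComponent (k + 2) (Q i)))
  have hA : ∀ k i j, A k i j = ((eval u (pderiv j (homogeneousComponent (k + 2) (Q i))) : ℝ) : ℂ) := by
    intro k i j
    have h := MvPolynomial.aeval_algebraMap_apply (A := ℝ) (B := ℂ) u
      (pderiv j (homogeneousComponent (k + 2) (Q i)))
    rw [aeval_eq_eval] at h
    exact h
  have heq : ∀ a, (z - 1) * w a = (if h : (e m n a).1.val + 1 < m + 1 then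
        w ((e m n).symm (⟨_, h⟩, (e m n a).2)) else 0)
      + (-1) ^ (e m n a).1.val * ∑ j, A (e m n a).1.val (e m n a).2 j * w ((e m n).symm (0, j)) := by
    intro a
    have h := congrFun hw a
    rw [Matrix.sub_mulVec, Pi.sub_apply, Pi.zero_apply, sub_eq_zero] at h
    have h2 : (Matrix.scalar (Fin ((m + 1) * n)) z).mulVec w a = z * w a := by
      simp [Matrix.scalar_apply, Matrix.mulVec_diagonal]
    rw [h2] at h
    have h3 : (M.map (algebraMap ℝ ℂ)).mulVec w a = w a + (if h : (e m n a).1.val + 1 < m + 1 then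
        w ((e m n).symm (⟨_, h⟩, (e m n a).2)) else 0)
      + (-1) ^ (e m n a).1.val * ∑ j, A (e m n a).1.val (e m n a).2 j * w ((e m n).symm (0, j)) := by
      rw [Matrix.mulVec, dotProduct]
      have h4 : ∀ b, (M.map (algebraMap ℝ ℂ)) a b * w b = (if a = b then w b else 0)
        + (if h : (e m n a).1.val + 1 < m + 1 then
        (if (e m n).symm (⟨_, h⟩, (e m n a).2) = b then w b else 0) else 0)
        + (-1) ^ (e m n a).1.val * ∑ j, A (e m n a).1.val (e m n a).2 j *
        (if (e m n).symm (0, j) = b then w b else 0) := by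
        intro b
        rw [Matrix.map_apply, hM, entry]
        simp only [hA]
        rw [map_add, map_add, map_mul, map_sum, add_mul, add_mul]
        congr 1
        · congr 1
          · split_ifs <;> simp
          · split_ifs <;> simp
        · rw [mul_assoc, Finset.sum_mul]
          congr 1
          · simp
          · apply Finset.sum_congr rfl
            intro j _
            split_ifs <;> simp [u]
      simp_rw [h4]
      rw [Finset.sum_add_distrib, Finset.sum_add_distrib]
      congr 1
      · congr 1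
        · simp
        · split_ifs <;> simp
      · rw [← Finset.mul_sum, Finset.sum_comm]
        congr 1
        apply Finset.sum_congr rfl
        intro j _
        rw [← Finset.mul_sum]
        simp
    rw [h3] at h
    linear_combination h
  let v : ℕ → Fin n → ℂ := fun k i => if h : k < m + 1 then w ((e m n).symm (⟨k, h⟩, i)) else 0
  have hv0 : ∀ i, v 0 i = w ((e m n).symm (0, i)) := by
    intro i
    simp [v]
  have hres := companion m A (z - 1) hν v (fun i => by simp [v]) ?_ ?_
  · apply hw0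
    funext a
    have hk := (e m n a).1.isLt
    have h := hres (e m n a).1.val (by omega) (e m n a).2
    simp only [v] at h
    rw [dif_pos hk] at h
    rw [Pi.zero_apply, ← h]
    congr 1
    exact ((e m n).symm_apply_apply a).symm
  · intro k hk i
    have h := heq ((e m n).symm (⟨k, by omega⟩, i))
    simp only [Equiv.apply_symm_apply] at h
    simp only [hv0]
    have e1 : v k i = w ((e m n).symm (⟨k, by omega⟩, i)) := by
      simp only [v]
      rw [dif_pos (by omega : k < m + 1)]
    rw [e1, h]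
  · intro y hy
    have hdetc : (Matrix.of fun i j => aeval (fun i => (-(z - 1)⁻¹) * (u i : ℂ)) (pderiv j (Q i)) :
        Matrix (Fin n) (Fin n) ℂ).det ≠ 0 := by
      have h := congrArg (aeval (fun i => (-(z - 1)⁻¹) * (u i : ℂ)) :
        MvPolynomial (Fin n) ℝ →ₐ[ℝ] ℂ) hdet
      rw [map_one, AlgHom.map_det] at h
      have e1 : (Matrix.of fun i j => aeval (fun i => (-(z - 1)⁻¹) * (u i : ℂ)) (pderiv j (Q i)) :
        Matrix (Fin n) (Fin n) ℂ) = (aeval (fun i => (-(z - 1)⁻¹) * (u i : ℂ)) :
        MvPolynomial (Fin n) ℝ →ₐ[ℝ] ℂ).mapMatrix (Matrix.of fun i j => pderiv j (Q i)) := rfl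
      rw [e1, h]
      exact one_ne_zero
    have hy' : (Matrix.of fun i j => aeval (fun i => (-(z - 1)⁻¹) * (u i : ℂ)) (pderiv j (Q i)) :
        Matrix (Fin n) (Fin n) ℂ).mulVec y = 0 := by
      funext i
      rw [Matrix.mulVec, dotProduct, Pi.zero_apply, ← hy i]
      apply Finset.sum_congr rfl
      intro j _
      rw [Matrix.of_apply, key (Q i) m (hdeg i) i j (h1 i)]
    have := Matrix.eq_zero_of_mulVec_eq_zero hdetc hy'
    intro i
    rw [this, Pi.zero_apply]
/-- The stabilised map is not injective if the given one is not. -/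
theorem not_inj (m : ℕ) (Q : Fin n → MvPolynomial (Fin n) ℝ)
    (hdeg : ∀ i, (Q i).totalDegree ≤ m + 2)
    (h1 : ∀ i, homogeneousComponent 1 (Q i) = X i)
    (p q : Fin n → ℝ) (hpq : p ≠ q) (h : ∀ i, eval p (Q i) = eval q (Q i)) :
    ¬ Function.Injective (G m Q) := by
  intro hinj
  -- tails of the homogeneous expansion
  let S : (Fin n → ℝ) → ℕ → Fin n → ℝ := fun p k i =>
    ∑ l ∈ Finset.Ico k (m + 1), eval p (homogeneousComponent (l + 2) (Q i))
  let U : (Fin n → ℝ) → Fin ((m + 1) * n) → ℝ := fun p a =>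
    if (e m n a).1 = 0 then p (e m n a).2 else (-1) ^ ((e m n a).1.val + 1) * S p (e m n a).1.val (e m n a).2
  have hU0 : ∀ p j, U p ((e m n).symm (0, j)) = p j := by
    intro p j
    simp only [U, Equiv.apply_symm_apply, if_true]
  have hG : ∀ p a, G m Q (U p) a = if (e m n a).1 = 0 then
      eval p (Q (e m n a).2) - eval p (homogeneousComponent 0 (Q (e m n a).2)) else 0 := by
    intro p a
    set k := (e m n a).1 with hk
    set i := (e m n a).2 with hi
    have hkm : k.val < m + 1 := k.isLt
    have hS : S p k.val i = eval p (homogeneousComponent (k.val + 2) (Q i)) + S p (k.val + 1) i := by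
      simp only [S]
      rw [Finset.sum_eq_sum_Ico_succ_bot hkm]
    have hnext : (if h : k.val + 1 < m + 1 then U p ((e m n).symm (⟨_, h⟩, i)) else 0) =
        (-1) ^ (k.val + 2) * S p (k.val + 1) i := by
      split_ifs with h
      · simp only [U, Equiv.apply_symm_apply]
        rw [if_neg (fun h0 => by have := congrArg Fin.val h0; simp only [Fin.val_zero] at this; omega)]
      · have : k.val + 1 = m + 1 := by omega
        simp [S, this]
    have hGa : G m Q (U p) a = U p a + (if h : k.val + 1 < m + 1 then U p ((e m n).symm (⟨_, h⟩, i)) else 0)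
        + (-1) ^ k.val * eval (fun j => U p ((e m n).symm (0, j))) (homogeneousComponent (k.val + 2) (Q i)) := rfl
    rw [hGa, hnext]
    simp only [hU0]
    by_cases hk0 : k = 0
    · rw [if_pos hk0]
      have hUa : U p a = p i := by
        simp only [U]
        rw [← hk, if_pos hk0]
      rw [hUa]
      have hsum := congrArg (eval p) (sum_hc (Q i) (m + 2) (hdeg i))
      rw [Finset.sum_range_succ', Finset.sum_range_succ', map_add, map_add, h1 i, eval_X, map_sum] at hsum
      have hS0 : S p 0 i = ∑ l ∈ Finset.range (m + 1), eval p (homogeneousComponent (l + 1 + 1) (Q i)) := by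
        simp only [S]
        rw [Finset.range_eq_Ico]
      rw [hk0] at hS ⊢
      simp only [Fin.val_zero, zero_add, pow_zero, one_mul] at hS ⊢
      rw [← hsum, ← hS0, hS]
      ring
    · rw [if_neg hk0]
      have hUa : U p a = (-1) ^ (k.val + 1) * S p k.val i := by
        simp only [U]
        rw [← hk, if_neg hk0]
      rw [hUa, hS]
      ring
  have hGeq : G m Q (U p) = G m Q (U q) := by
    funext a
    rw [hG, hG]
    split_ifs
    · rw [h, homogeneousComponent_zero, eval_C, eval_C]
    · rfl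
  have hU := hinj hGeq
  apply hpq
  funext j
  rw [← hU0 p j, ← hU0 q j, hU]

/-- **Non-injective maps with unipotent Jacobians.** A non-injective real Keller map produces a
polynomial, non-injective self-map of a higher-dimensional space all of whose Jacobian matrices
have only the eigenvalue one. -/
theorem exists_unipotent (P : Fin n → MvPolynomial (Fin n) ℝ) (c : ℝ) (hc : c ≠ 0)
    (hdet : (Matrix.of fun i j => pderiv j (P i)).det = C c)
    (p q : Fin n → ℝ) (hpq : p ≠ q) (h : ∀ i, eval p (P i) = eval q (P i)) :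
    ∃ (m : ℕ) (f : (Fin ((m + 1) * n) → ℝ) → (Fin ((m + 1) * n) → ℝ)), ContDiff ℝ 1 f ∧
      (∀ x, ∀ z : ℂ, Polynomial.aeval z (LinearMap.toMatrix'
        ((fderiv ℝ f x : (Fin ((m + 1) * n) → ℝ) →L[ℝ] (Fin ((m + 1) * n) → ℝ)) :
          (Fin ((m + 1) * n) → ℝ) →ₗ[ℝ] (Fin ((m + 1) * n) → ℝ))).charpoly = 0 → z = 1) ∧
      ¬ Function.Injective f := by
  obtain ⟨Q, hQ1, hQdet, hQ⟩ := normalise P c hc hdet
  obtain ⟨m, hm⟩ : ∃ m : ℕ, ∀ i, (Q i).totalDegree ≤ m + 2 := by
    refine ⟨∑ i, (Q i).totalDegree, fun i => ?_⟩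
    have := Finset.single_le_sum (f := fun i => (Q i).totalDegree) (fun _ _ => Nat.zero_le _) (Finset.mem_univ i)
    omega
  refine ⟨m, G m Q, contDiff_G m Q, ?_, not_inj m Q hm hQ1 p q hpq (hQ p q h)⟩
  intro x z hz
  rw [(hasFDerivAt_G m Q x).fderiv] at hz
  exact eigen m Q hm hQ1 hQdet x z hz

end main

end Pool.Agent.R226.Unip
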